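import Pool.Agent.Helper21.MEI.Sec
import Pool.Agent.Helper73.MEI.Star
import Pool.Agent.Helper95.MEI.Fub2
import Pool.Agent.Helper78.MEI.K4d
import Pool.Agent.Helper93.MEI.Lnk

/-!
# Project MEI, all bodies, regime I: depth integral and null integral of an edge cell
-/

set_option autoImplicit false

namespace Helper21.Alp

open Set MeasureTheory Filter Topology Metric
open Helper80.CW Helper22.Wedge Helper22.Sig Helper14.CW Helper14.MEI2 Helper93.MEI
open Helper22.MEI (s t Fa Fb Fc FD FD_pos)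
open Helper78.MEI.K4 (P P_cont cz int_AsE_P)
open Pool.Agent.Helper95.MEI.Cst (AsE AxE AsE_eq AxE_eq AsE_meas AxE_meas cs dvE)
open Pool.Agent.Helper95.MEI.Fub (Zp exc exn exc_eq exc_cont exn_cont int_cont co_e Zp_meas)
open Pool.Agent.Helper73.MEI
open scoped RealInnerProductSpace ContDiff Real

section field
variable (b : OrthonormalBasis (Fin 3) ℝ E3) (c : E3)

/-- the weight -/
noncomputable def wt (x : E3) : ℝ := 4 * ((co b c x).2.2 + t)

/-- the weighted field `F~` -/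
noncomputable def Ft (x : E3) : E3 := wt b c x • fld b c Fa Fb Fc x

theorem wt_cd {n : WithTop ℕ∞} : ContDiff ℝ n (wt b c) := by
  have h : ContDiff ℝ n (fun y : E3 => ⟪b 2, y - c⟫) :=
    (innerSL ℝ (b 2)).contDiff.comp (contDiff_id.sub contDiff_const)
  exact contDiff_const.mul (h.add contDiff_const)

theorem wt_fd (x v : E3) : fderiv ℝ (wt b c) x v = 4 * ⟪b 2, v⟫ := by
  have h1 : HasFDerivAt (wt b c) ((4 : ℝ) • innerSL ℝ (b 2)) x :=
    ((ip_hasFDerivAt c (b 2) x).add_const t).const_mul 4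
  rw [h1.fderiv]
  simp

theorem Ft_cd {n : WithTop ℕ∞} : ContDiff ℝ n (Ft b c) :=
  (wt_cd b c).smul (fld_cd b c Fa_cdi Fb_cdi Fc_cdi)

theorem Ft_tang : Tang (nuE b) (fun j => s * t + ⟪nuE b j, c⟫) (Ft b c) := by
  intro j x hx
  unfold Ft
  rw [real_inner_smul_right, F_tang b c j x hx, mul_zero]

theorem b2_fld (x : E3) : ⟪b 2, fld b c Fa Fb Fc x⟫ = Fc (co b c x) := by
  obtain ⟨⟨i00, i01, i02⟩, ⟨i10, i11, i12⟩, ⟨i20, i21, i22⟩⟩ := ibv b
  unfold fld
  simp only [inner_add_right, real_inner_smul_right, i20, i21, i22]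
  ring

theorem dvg_Ft (x : E3) : dvg (Ft b c) x = P (co b c x) := by
  have hF : ContDiff ℝ 1 (fld b c Fa Fb Fc) := fld_cd b c Fa_cdi Fb_cdi Fc_cdi
  have h := dvg_smul (W := wt b c) (G := fld b c Fa Fb Fc) (x := x)
    ((wt_cd b c (n := 1)).differentiable one_ne_zero x) (hF.differentiable one_ne_zero x)
  rw [wt_fd, b2_fld, dvg_F] at h
  have e : dvg (Ft b c) x = dvg (fun y => wt b c y • fld b c Fa Fb Fc y) x := rfl
  rw [e, h]
  show 4 * ((co b c x).2.2 + t) * dvE b c x + 4 * Fc (co b c x) = P (co b c x)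
  unfold P Fc
  rw [Helper78.MEI.K4.FD_DD]
  have e2 : dvE b c x = Pool.Agent.Helper8.MEI.divF (co b c x).1 (co b c x).2.1
    ((co b c x).2.2 - t) := rfl
  rw [e2]
  ring

theorem flux_Ft {K : Set E3} {σ : Measure (E3 × E3)} [IsFiniteMeasure σ] (h : PM K σ) :
    ∫ z in {z : E3 × E3 | z.1 ∈ EC b c}, ⟪Ft b c z.1, z.1 - z.2⟫ ∂σ =
      ∫ x in K ∩ EC b c, P (co b c x) := by
  have h1 := S2_cell (n := (⊤ : ℕ∞)) h.cpt h.mem le_top h.flux (nuE b)
    (fun j => s * t + ⟪nuE b j, c⟫) (Ft_cd b c) (Ft_tang b c)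
  rw [← EC_cel] at h1
  simp only [dvg_Ft] at h1
  exact h1

theorem AsE_bdd : Bornology.IsBounded (AsE b c) := by
  refine (isBounded_closedBall (x := c) (r := 2)).subset fun x hx => ?_
  rw [AsE_eq] at hx
  obtain ⟨h1, h2⟩ := hx
  simp only [mem_ofPred_eq] at h2
  have h3 : |(co b c x).2.1| < s * ((co b c x).2.2 - t) := h1
  have e : cs b c x = ((co b c x).1, (co b c x).2.1, (co b c x).2.2 - t) := rfl
  rw [e] at h2
  simp only at h2
  have hs : 0 < s := by unfold s; positivity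
  have hWp : 0 < (co b c x).2.2 - t := by
    have := (abs_nonneg (co b c x).2.1).trans_lt h3
    by_contra hcon
    have := mul_nonpos_of_nonneg_of_nonpos hs.le (not_lt.1 hcon)
    linarith
  have h4 : (co b c x).1 ^ 2 + (co b c x).2.1 ^ 2 + ((co b c x).2.2 - t) ^ 2 ≤ 1 / 4 := by
    have := abs_nonneg (co b c x).2.1
    have h5 : 0 ≤ √2 * ((co b c x).2.2 - t) := by positivity
    linarith
  have hn := norm_co b c x c
  have ec : co b c c = (0, 0, 0) := by unfold co; simp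
  rw [ec] at hn
  simp only [sub_zero] at hn
  have ht0 : 0 < t := by unfold t; positivity
  have ht1 : t ≤ 1 := by
    have := Real.sqrt_le_sqrt (show (2 : ℝ) ≤ 4 by norm_num)
    rw [show (4 : ℝ) = 2 ^ 2 by norm_num, Real.sqrt_sq (by norm_num)] at this
    unfold t
    linarith
  rw [mem_closedBall, dist_eq_norm]
  have h6 : ‖x - c‖ ^ 2 ≤ 2 ^ 2 := by
    rw [hn]
    have h7 : (co b c x).2.2 - t ≤ 1 / 2 := by
      by_contra hcon
      rw [not_le] at hcon
      nlinarith [sq_nonneg (co b c x).1, sq_nonneg (co b c x).2.1]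
    have h8 : (co b c x).2.2 ≤ 3 / 2 := by linarith
    have h9 : 0 < (co b c x).2.2 := by linarith
    nlinarith [sq_nonneg (co b c x).1, sq_nonneg (co b c x).2.1, sq_nonneg ((co b c x).2.2 - t)]
  exact le_of_sq_le_sq h6 (by norm_num)

/-- the volume side of the depth integral -/
theorem vol_Ft {K : Set E3} (hK : IsCompact K)
    (hQ : ∀ x ∈ K ∩ EC b c, (co b c x).1 ^ 2 + ((co b c x).2.1 ^ 2 + ((co b c x).2.2 - t) ^ 2)
      + (√2 * ((co b c x).2.2 - t) + |(co b c x).2.1|) ≤ 1 / 4 + 0.002) :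
    ∫ x in K ∩ EC b c, P (co b c x) ≤ cz - 12.2 * lE b c K + 17.2 * beE b c K := by
  have hKm : MeasurableSet K := hK.isClosed.measurableSet
  have hKf : volume K ≠ ⊤ := hK.measure_lt_top.ne
  have hc : Continuous fun x => P (co b c x) := P_cont.comp (co_cd b c).continuous
  have iA : IntegrableOn (fun x => P (co b c x)) (AsE b c) :=
    (hc.continuousOn.integrableOn_compact (AsE_bdd b c).isCompact_closure).mono_set subset_closure
  have iK : IntegrableOn (fun x => P (co b c x)) K := hc.continuousOn.integrableOn_compact hK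
  have iKE : IntegrableOn (fun x => P (co b c x)) (K ∩ EC b c) := iK.mono_set inter_subset_left
  have hEC : ∀ x ∈ EC b c, 0 < (co b c x).2.2 - t := fun x hx => Helper78.MEI.EC_w b c hx
  -- lower bound on the star
  have hlo : ∀ x ∈ AsE b c, 12.2 ≤ P (co b c x) := by
    intro x hx
    have hxE := AsE_sub_EC b c hx
    have h1 := dv_ge b c hx
    have hw := hEC x hxE
    have ht := Helper78.MEI.t_bd.1
    have hD := Pool.Agent.Helper8.MEI.DD_pos (co b c x).1 (co b c x).2.1 ((co b c x).2.2 - t)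
    have h2 : 0 ≤ 2 * ((co b c x).2.2 - t) / Pool.Agent.Helper8.MEI.DD (co b c x).1
      (co b c x).2.1 ((co b c x).2.2 - t) := by positivity
    have h8 : 4 * (2 * t) * 4.32 ≤ 4 * ((co b c x).2.2 + t) * dvE b c x :=
      mul_le_mul (by linarith) h1 (by norm_num) (by linarith)
    show 12.2 ≤ 4 * ((co b c x).2.2 + t) * dvE b c x + _
    linarith
  -- upper bound outside
  have hup : ∀ x ∈ (K ∩ EC b c) \ AsE b c, P (co b c x) ≤ 17.2 := by
    rintro x ⟨⟨hxK, hxE⟩, hxA⟩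
    have hw := hEC x hxE
    have h1 := hQ x ⟨hxK, hxE⟩
    have h2 : ¬ ((co b c x).1 ^ 2 + (co b c x).2.1 ^ 2 + ((co b c x).2.2 - t) ^ 2
        + √2 * ((co b c x).2.2 - t) + |(co b c x).2.1| ≤ 1 / 4) := fun hcon =>
      hxA (by rw [AsE_eq]; exact ⟨hxE, hcon⟩)
    have h3 := cs3 (co b c x).2.1 ((co b c x).2.2 - t)
    have h4 := Helper78.MEI.divt_le_out hw.le h1 (by linarith [not_le.1 h2])
    unfold P
    refine le_trans (le_of_eq ?_) h4
    ring
  -- split
  have h1 := integral_inter_add_sdiff (AsE_meas b c) iKE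
  have e1 : (K ∩ EC b c) ∩ AsE b c = AsE b c ∩ K := by
    ext x
    constructor
    · rintro ⟨⟨h1, h2⟩, h3⟩; exact ⟨h3, h1⟩
    · rintro ⟨h3, h1⟩; exact ⟨⟨h1, AsE_sub_EC b c h3⟩, h3⟩
  have h2 := integral_inter_add_sdiff hKm iA
  have h3 : ∫ x in (K ∩ EC b c) \ AsE b c, P (co b c x) ≤ 17.2 * beE b c K :=
    int_le ((hKm.inter (EC_meas b c)).diff (AsE_meas b c))
      (ne_top_of_le_ne_top hKf (measure_mono (sdiff_subset.trans inter_subset_left)))
      (iKE.mono_set sdiff_subset) hup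
  have h4 : ∫ x in (AsE b c \ AxE b c) \ K, P (co b c x) ≤ ∫ x in AsE b c \ K, P (co b c x) := by
    refine setIntegral_mono_set (iA.mono_set sdiff_subset) ?_ ?_
    · filter_upwards [ae_restrict_mem ((AsE_meas b c).diff hKm)] with x hx
      have := hlo x hx.1
      simp only [Pi.zero_apply]
      linarith
    · exact (sdiff_subset_sdiff_left sdiff_subset).eventuallyLE
  have h5 : 12.2 * lE b c K ≤ ∫ x in (AsE b c \ AxE b c) \ K, P (co b c x) :=
    int_ge (((AsE_meas b c).diff (AxE_meas b c)).diff hKm)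
      (ne_top_of_le_ne_top (AsE_fin b c) (measure_mono (sdiff_subset.trans sdiff_subset)))
      (iA.mono_set (sdiff_subset.trans sdiff_subset)) fun x hx => hlo x hx.1.1
  have h6 := int_AsE_P b c
  rw [e1] at h1
  linarith

end field

section main
variable {a : Fin 4 → E3} (ha : ∀ i j, i ≠ j → dist (a i) (a j) = 1)
  {K : Set E3} {σ : Measure (E3 × E3)} [IsFiniteMeasure σ] (h : PM K σ)
  (hcomp : ∀ p : E3, (∀ q ∈ K, dist p q ≤ 1) → p ∈ K)
  (hpl : ∀ x ∈ K, Pl a x) {b : OrthonormalBasis (Fin 3) ℝ E3} (hb : Fr a b)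
  {S : Fin 4 → ℝ} (hQ : ∀ x ∈ K, ∀ i, Qv a i x ≤ S i) (hS0 : ∀ i, 0 ≤ S i)

omit [IsFiniteMeasure σ] in
include ha hb in
theorem Zp_eq : Zp a 2 3 = {z : E3 × E3 | z.1 ∈ EC b (cen a)} := by
  have hG := gram_of_dist ha
  ext z
  unfold Zp EC
  simp only [mem_ofPred_eq]
  rw [edge_cell_iff' z.1, co_e hG hb.1 hb.2.1 hb.2.2 z.1]
  simp only
  unfold s t
  have h2 := s2s
  have h2p : (0 : ℝ) < √2 := by positivity
  have e : √2 / 2 * (√2 / 4 + eW a z.1 - √2 / 4) = √2 / 2 * eW a z.1 := by ring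
  rw [e]
  constructor
  · intro h3
    have h4 := mul_lt_mul_of_pos_left h3 (show (0 : ℝ) < √2 / 2 by positivity)
    have h5 : √2 / 2 * (√2 * |eY a z.1|) = |eY a z.1| := by
      linear_combination |eY a z.1| / 2 * h2
    linarith
  · intro h3
    have h4 := mul_lt_mul_of_pos_left h3 h2p
    have h5 : √2 * (√2 / 2 * eW a z.1) = eW a z.1 := by
      linear_combination eW a z.1 / 2 * h2
    linarith

include ha hcomp hpl hb hQ hS0 in
omit [IsFiniteMeasure σ] in
/-- the hypotheses of the section lemma -/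
theorem bod : Helper21.Sec.Bod b (cen a) K (S 0) (S 1) (S 2) (S 3) := by
  have hG := gram_of_dist ha
  have hco := fun x => co_e hG hb.1 hb.2.1 hb.2.2 x
  refine ⟨hcomp, fun x hx => ?_, fun x hx => ?_, fun x hx => ?_, fun x hx => ?_, fun x hx => ?_,
    fun x hx => ?_, fun x hx => ?_, hS0 0, hS0 1, hS0 2, hS0 3⟩
  · rw [hco x]; exact (pl_e hG (hpl x hx)).2.1
  · rw [hco x]; exact (pl_e hG (hpl x hx)).2.2
  · rw [hco x]
    have h1 := (pl_e hG (hpl x hx)).1
    have h2 := abs_nonneg (eX a x)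
    have h3 := abs_nonneg (eY a x)
    simp only
    have e : √2 / 4 + eW a x - √2 / 4 = eW a x := by ring
    rw [e]
    linarith
  · rw [hco x]
    have h1 := hQ x hx 0
    rw [Qv0_e hG] at h1
    simp only
    have e : √2 / 4 + eW a x - √2 / 4 = eW a x := by ring
    rw [e]
    linarith
  · rw [hco x]
    have h1 := hQ x hx 1
    rw [Qv1_e hG] at h1
    simp only
    have e : √2 / 4 + eW a x - √2 / 4 = eW a x := by ring
    rw [e]
    linarith
  · rw [hco x]
    have h1 := hQ x hx 2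
    rw [Qv2_e hG] at h1
    simp only
    have e : √2 / 4 + eW a x - √2 / 4 = eW a x := by ring
    rw [e]
    linarith
  · rw [hco x]
    have h1 := hQ x hx 3
    rw [Qv3_e hG] at h1
    simp only
    have e : √2 / 4 + eW a x - √2 / 4 = eW a x := by ring
    rw [e]
    linarith

include ha h hcomp hpl hb hQ hS0 in
/-- **null integral** of regime I -/
theorem null (hS : ∀ i, S i ≤ 0.002) :
    |∫ z in Zp a 2 3, (eY a z.1 - eY a z.2) ∂σ| ≤ 0.0021 := by
  have hG := gram_of_dist ha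
  have hB := bod ha hcomp hpl hb hQ hS0
  obtain ⟨h1, h2⟩ := Helper21.Sec.flux_Y (n := (⊤ : ℕ∞)) h.cpt h.mem h.flux hB
  rw [Helper21.Sec.cel_eq, ← Zp_eq ha hb] at h1 h2
  have e : ∀ z : E3 × E3, ⟪b 1, z.1 - z.2⟫ = eY a z.1 - eY a z.2 := by
    intro z
    have e1 := (frame_e hG hb.1 hb.2.1 hb.2.2 z.1).2.1
    have e2 := (frame_e hG hb.1 hb.2.1 hb.2.2 z.2).2.1
    rw [← e1, ← e2, ← inner_sub_right]
    congr 1
    abel
  simp only [e] at h1 h2
  have s2 : √2 < 1.4143 := by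
    rw [Real.sqrt_lt' (by norm_num)]; norm_num
  have s2p : 0 < √2 := by positivity
  have k0 := hS 0
  have k1 := hS 1
  have k2 := hS 2
  have k3 := hS 3
  have j0 := hS0 0
  have j1 := hS0 1
  have j2 := hS0 2
  have j3 := hS0 3
  have m1 : √2 / 3 * (0.5774 * (S 0 + S 1) + S 3) ≤ 1.4143 / 3 * (0.5774 * (0.004) + 0.002) :=
    mul_le_mul (by linarith) (by linarith) (by positivity) (by norm_num)
  have m2 : √2 / 3 * (0.5774 * (S 0 + S 1) + S 2) ≤ 1.4143 / 3 * (0.5774 * (0.004) + 0.002) :=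
    mul_le_mul (by linarith) (by linarith) (by positivity) (by norm_num)
  rw [abs_le]
  constructor
  · linarith
  · linarith

include ha h hpl hb hQ hS0 in
/-- **mass of an edge cell** in regime I -/
theorem mass (hS : ∀ i, S i ≤ 0.002) : σ.real (Zp a 2 3) ≤ 0.1345 := by
  have hG := gram_of_dist ha
  obtain ⟨v0, v1, v2, v3⟩ := co_vert ha hb
  have hpr : ∀ᵐ z ∂σ, z.1 ∈ K ∧ z.2 ∈ K ∧ ‖z.1 - z.2‖ = 1 := by
    filter_upwards [h.ae] with z hz
    exact ⟨hz.1, hz.2.1, hz.2.2.1⟩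
  have hX : ∀ x ∈ K, |(co b (cen a) x).1| ≤ 1 / 2 := fun x hx => by
    rw [co_e hG hb.1 hb.2.1 hb.2.2]; exact (pl_e hG (hpl x hx)).2.1
  rw [Zp_eq ha hb]
  have h1 := S2_cell (n := (⊤ : ℕ∞)) h.cpt h.mem le_top h.flux (nuE b)
    (fun j => s * t + ⟪nuE b j, cen a⟫) (fld_cd b (cen a) Fa_cdi Fb_cdi Fc_cdi)
    (F_tang b (cen a))
  rw [← EC_cel] at h1
  simp only [dvg_F] at h1
  exact area12' h.cpt hpr hX v0 v1 v2 v3 (fun x hx => hQ x hx 0) (fun x hx => hQ x hx 1)
    (fun x hx => hQ x hx 2) (fun x hx => hQ x hx 3) (hS0 0) (hS0 1) (hS0 2) (hS0 3)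
    (hS 0) (hS 1) (hS 2) (hS 3) h1

include ha hpl hb hQ hS0 in
omit [IsFiniteMeasure σ] in
/-- the bulge of an edge cell in regime I -/
theorem bulge (hS : ∀ i, S i ≤ 0.002) : beE b (cen a) K ≤ 0.04 * (S 2 + S 3) := by
  have hG := gram_of_dist ha
  obtain ⟨v0, v1, v2, v3⟩ := co_vert ha hb
  have hX : ∀ x ∈ K, |(co b (cen a) x).1| ≤ 1 / 2 := fun x hx => by
    rw [co_e hG hb.1 hb.2.1 hb.2.2]; exact (pl_e hG (hpl x hx)).2.1
  have h1 := beta_le (K := K) hX v2 v3 (fun x hx => hQ x hx 2) (fun x hx => hQ x hx 3)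
    (hS0 2) (hS0 3) (hS 2) (hS 3)
  rw [Ast_eq v2 v3] at h1
  exact h1

/-- the negative part is small -/
theorem exn_bd (ha : ∀ i j, i ≠ j → dist (a i) (a j) = 1) {S : Fin 4 → ℝ} {p q : E3}
    (hp : Pl a p) (hq : ∀ i, Qv a i q ≤ S i) (hS0 : ∀ i, 0 ≤ S i) :
    0 ≤ exn a (p, q) ∧ exn a (p, q) ≤ 0.64 * (S 0 + S 1) ∧ - exn a (p, q) ≤ exc a (p, q) := by
  have hG := gram_of_dist ha
  have hx := (pl_e hG hp).2.1
  obtain ⟨hx1, hx2⟩ := abs_le.1 hx
  have hD := Pool.Agent.Helper8.MEI.DD_pos (eX a p) (eY a p) (eW a p)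
  have p0 := le_pp (Qv a 0 q)
  have p1 := le_pp (Qv a 1 q)
  have n0 := pp_nonneg (Qv a 0 q)
  have n1 := pp_nonneg (Qv a 1 q)
  have w0 : 0 ≤ 1 / 2 + 7 * eX a p / 16 := by linarith
  have w1 : 0 ≤ 1 / 2 - 7 * eX a p / 16 := by linarith
  refine ⟨?_, ?_, ?_⟩
  · unfold exn
    positivity
  · exact neg_real hx (max_le (hq 0) (hS0 0)) (max_le (hq 1) (hS0 1))
  · unfold exn exc
    rw [← neg_div]
    apply div_le_div_of_nonneg_right _ (by positivity)
    have m0 := mul_le_mul_of_nonneg_left p0 w0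
    have m1 := mul_le_mul_of_nonneg_left p1 w1
    simp only
    linarith

include ha h hcomp hpl hb hQ hS0 in
/-- **depth integral** of regime I -/
theorem alpha (hS : ∀ i, S i ≤ 0.002) :
    12.2 * (lE b (cen a) K - (0.0561 * (S 0 + S 1) + 0.0564 * (S 2 + S 3))) ≤
      ∫ z in Zp a 2 3, eV a z.2 ∂σ := by
  have hG := gram_of_dist ha
  have hB := bod ha hcomp hpl hb hQ hS0
  have hmass := mass ha h hpl hb hQ hS0 hS
  have hbul := bulge ha hpl hb hQ hS0 hS
  have hco := fun x => co_e hG hb.1 hb.2.1 hb.2.2 x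
  -- section lemma
  have h1 := Helper21.Sec.flux_Z_lower (n := (⊤ : ℕ∞)) h.cpt h.mem h.flux hB
  rw [Helper21.Sec.cel_eq, ← Zp_eq ha hb] at h1
  have ecz : Helper21.Sec.cz = cz := rfl
  rw [ecz] at h1
  -- flux of the weighted field
  have h2 := flux_Ft b (cen a) h
  rw [← Zp_eq ha hb] at h2
  have h3 := vol_Ft b (cen a) h.cpt (fun x hx => by
    have hz : x ∈ K ∧ x ∈ EC b (cen a) := hx
    have q2 := (hQ x hz.1 2).trans (hS 2)
    have q3 := (hQ x hz.1 3).trans (hS 3)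
    have h4 := edge_cell_ball hG q2 q3
    rw [hco x]
    simp only
    have e : √2 / 4 + eW a x - t = eW a x := by unfold t; ring
    rw [e]
    linarith)
  rw [← h2] at h3
  -- integrability
  have i1 : Integrable (fun z : E3 × E3 => eV a z.2) σ :=
    int_cont h.cpt h.mem ((Pool.Agent.Helper95.MEI.Fub.eV_cont a).comp continuous_snd)
  have i2 : Integrable (fun z : E3 × E3 => ⟪b 2, z.1 - z.2⟫) σ :=
    int_cont h.cpt h.mem (by fun_prop)
  have i3 : Integrable (fun z : E3 × E3 => ⟪Ft b (cen a) z.1, z.1 - z.2⟫) σ := by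
    refine int_cont h.cpt h.mem ?_
    have := (Ft_cd b (cen a) (n := 0)).continuous
    fun_prop
  have i4 : Integrable (exn a) σ := int_cont h.cpt h.mem (exn_cont a)
  -- pointwise
  have hpt : ∀ᵐ z ∂(σ.restrict (Zp a 2 3)), ⟪b 2, z.1 - z.2⟫ - ⟪Ft b (cen a) z.1, z.1 - z.2⟫
      - 3.47 * exn a z ≤ eV a z.2 := by
    filter_upwards [ae_restrict_mem (Zp_meas a 2 3), ae_restrict_of_ae (s := Zp a 2 3) h.ae]
      with z hz hz2
    obtain ⟨hp, hq, hpq, _⟩ := hz2
    have r1 := r1_point hG hz.1.le hz.2.le ((hQ _ hp 2).trans (hS 2)) ((hQ _ hp 3).trans (hS 3))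
      le_rfl
    obtain ⟨n1, n2, n3⟩ := exn_bd ha (hpl _ hp) (hQ _ hq) hS0
    have e1 := exc_eq hG hb.1 hb.2.1 hb.2.2 hpq
    have e2 : ⟪b 2, z.1 - z.2⟫ = eW a z.1 - eW a z.2 := by
      have f1 := (frame_e hG hb.1 hb.2.1 hb.2.2 z.1).2.2
      have f2 := (frame_e hG hb.1 hb.2.1 hb.2.2 z.2).2.2
      have f3 : ⟪b 2, z.1 - z.2⟫ = ⟪b 2, z.1 - cen a⟫ - ⟪b 2, z.2 - cen a⟫ := by
        rw [← inner_sub_right]; congr 1; abel
      rw [f3, f1, f2]; ring
    have e3 : ⟪Ft b (cen a) z.1, z.1 - z.2⟫ = 4 * (eW a z.1 + √2 / 2) * (1 / 4 + exc a (z.1, z.2)) := by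
      unfold Ft wt
      rw [real_inner_smul_left, hco z.1, ← e1]
      simp only
      unfold t
      ring
    have e4 := eV_eq hG z.2
    have s2 : √2 < 1.4143 := by
      rw [Real.sqrt_lt' (by norm_num)]; norm_num
    have s2p : 0 < √2 := by positivity
    obtain ⟨_, w0, w1, _, _⟩ := r1
    have k1 : 0 ≤ 4 * (eW a z.1 + √2 / 2) := by linarith
    have k2 : 4 * (eW a z.1 + √2 / 2) ≤ 3.47 := by linarith
    have k3 := mul_le_mul_of_nonneg_left n3 k1
    have k4 := mul_le_mul_of_nonneg_right k2 n1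
    have ez : ((z.1, z.2) : E3 × E3) = z := rfl
    rw [ez] at k3 k4 e3
    rw [e2, e3, e4]
    linarith
  have h5 : ∫ z in Zp a 2 3, (⟪b 2, z.1 - z.2⟫ - ⟪Ft b (cen a) z.1, z.1 - z.2⟫
      - 3.47 * exn a z) ∂σ ≤ ∫ z in Zp a 2 3, eV a z.2 ∂σ :=
    integral_mono_ae ((i2.sub i3).sub (i4.const_mul _)).integrableOn i1.integrableOn hpt
  have f1 := integral_sub (μ := σ.restrict (Zp a 2 3))
    (f := fun z : E3 × E3 => ⟪b 2, z.1 - z.2⟫ - ⟪Ft b (cen a) z.1, z.1 - z.2⟫)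
    (g := fun z : E3 × E3 => 3.47 * exn a z) (i2.sub i3).integrableOn
    (i4.const_mul _).integrableOn
  have f2 := integral_sub (μ := σ.restrict (Zp a 2 3))
    (f := fun z : E3 × E3 => ⟪b 2, z.1 - z.2⟫)
    (g := fun z : E3 × E3 => ⟪Ft b (cen a) z.1, z.1 - z.2⟫) i2.integrableOn i3.integrableOn
  rw [f1, f2, integral_const_mul] at h5
  -- the negative part
  have h6 : ∫ z in Zp a 2 3, exn a z ∂σ ≤ 0.64 * (S 0 + S 1) * 0.1345 := by
    have h7 : ∫ z in Zp a 2 3, exn a z ∂σ ≤ ∫ _ in Zp a 2 3, 0.64 * (S 0 + S 1) ∂σ := by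
      refine integral_mono_ae i4.integrableOn (integrable_const _) ?_
      filter_upwards [ae_restrict_of_ae (s := Zp a 2 3) h.ae] with z hz
      exact (exn_bd ha (hpl _ hz.1) (hQ _ hz.2.1) hS0).2.1
    rw [setIntegral_const, smul_eq_mul, mul_comm] at h7
    refine h7.trans (mul_le_mul_of_nonneg_left hmass ?_)
    have j0 := hS0 0
    have j1 := hS0 1
    positivity
  have j0 := hS0 0
  have j1 := hS0 1
  have j2 := hS0 2
  have j3 := hS0 3
  linarith

end main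

end Helper21.Alp
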