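import Pool.Agent.Helper13.PLM.Ap3
import Pool.Agent.Helper37.MEI.Loss
import Pool.Agent.Helper52.MEI.Contact

/-!
# Project MEI, all bodies: the placement points `c k` as corner nodes of the faces

`dp a c i k = ⟪a i - c i, a i - a k⟫` is the depth of `c i` in the direction of `a k`,
`Adep a c i` the sum of the depths at the vertex `i`.
-/

set_option autoImplicit false

namespace Helper21.MEI.CNode

open Set Metric Helper80.CW Helper82.CW Helper14.CW Helper93.MEI Helper66.MEI Helper13.PLM
open Pool.Agent.Helper52.MEI (Ct)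
open scoped RealInnerProductSpace

/-- depth -/
noncomputable def dp (a c : Fin 4 → E3) (i k : Fin 4) : ℝ := ⟪a i - c i, a i - a k⟫

variable {K : Set E3} {a c : Fin 4 → E3}

theorem dp_self (i : Fin 4) : dp a c i i = 0 := by
  unfold dp
  rw [sub_self, inner_zero_right]

theorem Adep_eq (i : Fin 4) : Adep a c i = dp a c i 0 + dp a c i 1 + dp a c i 2 + dp a c i 3 := by
  unfold Adep dp
  rw [Fin.sum_univ_four]

theorem yv_c (i k : Fin 4) : yv a i k (c i) = dp a c i k := rfl

section near
variable (N : Near K a c)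
include N

theorem dp_nonneg (i k : Fin 4) : 0 ≤ dp a c i k := N.nonneg i k

theorem dp_le (i k : Fin 4) : dp a c i k ≤ Adep a c i := by
  have h0 := dp_nonneg N i 0
  have h1 := dp_nonneg N i 1
  have h2 := dp_nonneg N i 2
  have h3 := dp_nonneg N i 3
  rw [Adep_eq]
  fin_cases k <;> simp only [Fin.zero_eta, Fin.mk_one, Fin.reduceFinMk] <;> linarith

/-- own coordinate of `c k` -/
theorem bar_self (k : Fin 4) : bar a k (c k) = 1 - Adep a c k / 2 := by
  have g := gram_of_dist N.reg
  have h1 := depth_sum g k (c k)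
  unfold Adep
  linarith

/-- the other coordinates of `c k` -/
theorem bar_other {j k : Fin 4} (hjk : j ≠ k) :
    bar a j (c k) = 2 * dp a c k j - Adep a c k / 2 := by
  have g := gram_of_dist N.reg
  have h1 := bar_depth g k j (c k)
  rw [bar_vertex_ne g hjk] at h1
  unfold Adep dp
  linarith

/-- length of the displacement -/
theorem norm_sq (k : Fin 4) : ‖a k - c k‖ ^ 2 =
    2 * (dp a c k 0 ^ 2 + dp a c k 1 ^ 2 + dp a c k 2 ^ 2 + dp a c k 3 ^ 2) -
      Adep a c k ^ 2 / 2 := by
  have g := gram_of_dist N.reg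
  have h1 := norm_sq_depth g k (c k)
  rw [Fin.sum_univ_four] at h1
  exact h1

/-- value of the node `c k` in the face of the vertex `i` -/
theorem Qv_c {i k : Fin 4} (hik : i ≠ k) : Qv a i (c k) = ‖a k - c k‖ ^ 2 - 2 * dp a c k i := by
  have he : ‖a k - a i‖ = 1 := by rw [← dist_eq_norm]; exact N.reg k i hik.symm
  have h1 : c k - a i = (a k - a i) - (a k - c k) := by abel
  unfold Qv dp
  rw [h1, norm_sub_sq_real, he, real_inner_comm]
  ring

/-- the level of a point of the body over the vertex `i` is bounded by the depths at `i` -/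
theorem level_le (hd : ∀ x ∈ K, ∀ y ∈ K, ‖x - y‖ ≤ 1) {z : E3} (hz : z ∈ K) (i : Fin 4) :
    Qv a i z + ‖a i - c i‖ ^ 2 ≤ 2 * ∑ k, bar a k z * dp a c i k :=
  Helper37.MEI.coupling (gram_of_dist N.reg) i (hd _ hz _ (N.mem i))

/-- a contact vector is close to the displacement of `c i` -/
theorem contact_le (hd : ∀ x ∈ K, ∀ y ∈ K, ‖x - y‖ ≤ 1) {i j : Fin 4} (hij : i ≠ j) {z : E3}
    (hz : Ct a K i j z) : ‖(a i - c i) - z‖ ^ 2 ≤ 2 * dp a c i j :=
  hz.coupling (N.reg i j hij) hd (N.mem i)

/-- the same at the other vertex -/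
theorem contact_le' (hd : ∀ x ∈ K, ∀ y ∈ K, ‖x - y‖ ≤ 1) {i j : Fin 4} (hij : i ≠ j) {z : E3}
    (hz : Ct a K i j z) : ‖(a j - c j) - z‖ ^ 2 ≤ 2 * dp a c j i :=
  hz.symm.coupling (N.reg j i hij.symm) hd (N.mem j)

end near

end Helper21.MEI.CNode
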