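import Pool.Agent.Helper96.MEI.Kap4

/-!
# Project MEI (M2), faces: the corner nodes in the wall strips, pointwise facts

`gk N η μ w l j k b` is the load of the node of the corner `k` on the residual of the exact filling
in the strip of the wall `l` (third corner `j`), beside the share `η` of the strip arcs.
-/

set_option autoImplicit false

namespace Helper21.MEI.CStrip

open Set MeasureTheory Pool.Agent.Helper55.Sx Pool.Agent.Helper55.Mass
open Pool.Agent.Helper55.Apex (nc)
open Pool.Agent.Helper55.Fill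
open Pool.Agent.Helper96.Kap (kap kap_eq kap_nonneg kap_add kap_le_of_ne rr_le_self LN_three)

variable {N : Fin 3 → Fin 3 → ℝ} {b : Fin 3 → ℝ}

/-- load of the node of the corner `k` in the strip of the wall `l` -/
noncomputable def gk (N : Fin 3 → Fin 3 → ℝ) (η μ w : ℝ) (l j k : Fin 3) (b : Fin 3 → ℝ) : ℝ :=
  if rr N b l = 0 ∧ 0 < rr N b j ∧ 0 < rr N b k then
    max 0 (min (rr N b k - η * min (rr N b j) (rr N b k) - μ * rr N b j)
      ((rr N b j - η * min (rr N b j) (rr N b k)) / w)) else 0

theorem gk_nonneg (η μ w : ℝ) (l j k : Fin 3) : 0 ≤ gk N η μ w l j k b := by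
  unfold gk
  split_ifs
  · exact le_max_left _ _
  · exact le_rfl

section
variable (hN : ∀ k m, 0 ≤ N k m) {c : ℝ} (hc : c < 1) (hcol : ∀ m, nc N m ≤ c)
include hN hc hcol

theorem gk_le_rr {η μ w : ℝ} (hη : 0 ≤ η) (hμ : 0 ≤ μ) (hb : ∀ k, 0 ≤ b k) (l j k : Fin 3) :
    gk N η μ w l j k b ≤ rr N b k := by
  have hj := rr_nonneg hN hc hcol hb j
  have hk := rr_nonneg hN hc hcol hb k
  have h1 := mul_nonneg hη (le_min hj hk)
  have h2 := mul_nonneg hμ hj
  unfold gk
  split_ifs
  · refine max_le hk ((min_le_left _ _).trans ?_)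
    linarith
  · exact hk

/-- **one coordinate of the strip**: the two corner nodes and the arcs fit into the residual -/
theorem gk_pair {η μ w μ' w' B m : ℝ} (hη : 0 ≤ η) (hη1 : η ≤ 1) (hμ : 0 ≤ μ) (hμ' : 0 ≤ μ')
    (hw' : 0 < w') (hB1 : B ≤ 1) (hmμ : m ≤ μ) (hmw : m ≤ w')
    (hb : ∀ k, 0 ≤ b k) (l j k : Fin 3) :
    B * gk N η μ w l j k b + m * gk N η μ' w' l k j b + η * min (rr N b j) (rr N b k)
      ≤ rr N b k := by
  have hj := rr_nonneg hN hc hcol hb j
  have hk := rr_nonneg hN hc hcol hb k
  have hmin := le_min hj hk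
  have hminj : min (rr N b j) (rr N b k) ≤ rr N b j := min_le_left _ _
  have hmink : min (rr N b j) (rr N b k) ≤ rr N b k := min_le_right _ _
  have hηj : η * min (rr N b j) (rr N b k) ≤ rr N b j :=
    (mul_le_of_le_one_left hmin hη1).trans hminj
  have hηk : η * min (rr N b j) (rr N b k) ≤ rr N b k :=
    (mul_le_of_le_one_left hmin hη1).trans hmink
  have hH := gk_le_rr (w := w') hN hc hcol hη hμ' hb l k j
  have hH0 := gk_nonneg (N := N) (b := b) η μ' w' l k j
  have hG0 := gk_nonneg (N := N) (b := b) η μ w l j k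
  have hBG : B * gk N η μ w l j k b ≤ gk N η μ w l j k b := mul_le_of_le_one_left hG0 hB1
  have k1 : m * gk N η μ' w' l k j b ≤ μ * rr N b j :=
    mul_le_mul hmμ hH hH0 hμ
  have k2 : m * gk N η μ' w' l k j b ≤ rr N b k - η * min (rr N b j) (rr N b k) := by
    have e : gk N η μ' w' l k j b ≤ (rr N b k - η * min (rr N b j) (rr N b k)) / w' := by
      have h0 : 0 ≤ (rr N b k - η * min (rr N b j) (rr N b k)) / w' :=
        div_nonneg (by linarith) hw'.le
      unfold gk
      split_ifs
      · rw [min_comm (rr N b k) (rr N b j)]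
        exact max_le h0 (min_le_right _ _)
      · exact h0
    calc m * gk N η μ' w' l k j b ≤ w' * gk N η μ' w' l k j b :=
          mul_le_mul_of_nonneg_right hmw hH0
      _ ≤ w' * ((rr N b k - η * min (rr N b j) (rr N b k)) / w') :=
          mul_le_mul_of_nonneg_left e hw'.le
      _ = _ := mul_div_cancel₀ _ hw'.ne'
  rcases eq_or_lt_of_le hG0 with h0 | hpos
  · rw [← h0, mul_zero]
    linarith
  · have h1 : gk N η μ w l j k b ≤ rr N b k - η * min (rr N b j) (rr N b k) - μ * rr N b j := by
      unfold gk at hpos ⊢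
      split_ifs at hpos ⊢ with hC
      · refine max_le ?_ (min_le_left _ _)
        rcases lt_max_iff.1 hpos with h | h
        · exact absurd h (lt_irrefl _)
        · exact (lt_min_iff.1 h).1.le
      · exact absurd hpos (lt_irrefl _)
    linarith

/-- **pointwise lower bound of the load** -/
theorem gk_ge (hd : ∀ k, N k k = 0) (hb : ∀ k, 0 ≤ b k) {l j k : Fin 3} (hlj : l ≠ j)
    (hlk : l ≠ k) (hjk : j ≠ k) (hc1 : N l j * N j l + N l k * N k l ≤ 1)
    {η μ P v : ℝ} (hη : 0 ≤ η) (hη1 : η < 1) (hμ : 0 ≤ μ) (hP : 0 < P) (hNP : N j k ≤ P)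
    (hv1 : v ≤ 1) (hv : v * (P * b k) ≤ b j) (hv0 : 0 ≤ v) (hk : N k j * b j ≤ b k)
    (hL : b l < v * ((N l j - N l k * N k j) * b j + (N l k - N l j * N j k) * b k)) :
    (1 - b l / (v * ((N l j - N l k * N k j) * b j + (N l k - N l j * N j k) * b k)))
        * (v * max 0 (b k - η * min (b j) (b k) - μ * b j))
      ≤ gk N η μ ((1 - η) * P) l j k b := by
  set L := (N l j - N l k * N k j) * b j + (N l k - N l j * N j k) * b k with hLd
  have hvL : 0 < v * L := lt_of_le_of_lt (hb l) hL
  have hvpos : 0 < v := by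
    rcases eq_or_lt_of_le hv0 with h | h
    · rw [← h, zero_mul] at hvL
      exact absurd hvL (lt_irrefl _)
    · exact h
  have hL0 : 0 < L := by
    by_contra h
    push Not at h
    have := mul_nonpos_of_nonneg_of_nonpos hv0 h
    linarith
  have hLL : b l < L := lt_of_lt_of_le hL (mul_le_of_le_one_left hL0.le hv1)
  rcases le_or_gt (b k - η * min (b j) (b k) - μ * b j) 0 with hS | hS
  · rw [max_eq_left hS, mul_zero, mul_zero]
    exact gk_nonneg _ _ _ _ _ _
  rw [max_eq_right hS.le]
  set S := b k - η * min (b j) (b k) - μ * b j with hSd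
  have hmin0 : 0 ≤ min (b j) (b k) := le_min (hb j) (hb k)
  have hSk : S ≤ b k := by
    have h1 := mul_nonneg hη hmin0
    have h2 := mul_nonneg hμ (hb j)
    linarith
  have hbk : 0 < b k := lt_of_lt_of_le hS hSk
  have hbj : 0 < b j := lt_of_lt_of_le (mul_pos hvpos (mul_pos hP hbk)) hv
  -- the filling
  have uj := uu_le hN hc hcol hb j
  have uk := uu_le hN hc hcol hb k
  have uj0 := uu_nonneg hN hc hcol b j
  have uk0 := uu_nonneg hN hc hcol b k
  have ul0 := uu_nonneg hN hc hcol b l
  have gj := uu_ge hN hc hcol b j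
  have gk' := uu_ge hN hc hcol b k
  rw [LN_three hd _ hlj.symm hjk hlk] at gj
  rw [LN_three hd _ hlk.symm hjk.symm hlj] at gk'
  have e1 := mul_le_mul_of_nonneg_left uk (hN j k)
  have e2 := mul_le_mul_of_nonneg_left uj (hN k j)
  have lj : b j - N j k * b k - N j l * uu N b l ≤ uu N b j := by linarith
  have lk : b k - N k j * b j - N k l * uu N b l ≤ uu N b k := by linarith
  have m1 := mul_le_mul_of_nonneg_left lj (hN l j)
  have m2 := mul_le_mul_of_nonneg_left lk (hN l k)
  have hLN : LN N (uu N b) l = N l j * uu N b j + N l k * uu N b k := LN_three hd _ hlj hlk hjk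
  have hLN2 : L - (N l j * N j l + N l k * N k l) * uu N b l ≤ LN N (uu N b) l := by
    rw [hLN, hLd]
    linarith
  have hviol : b l < LN N (uu N b) l := by
    by_contra hcon
    push Not at hcon
    have h1 := uu_exact hN hc hcol hcon
    have h2 := mul_le_mul_of_nonneg_right hc1 ul0
    linarith
  have u0 := uu_zero hN hc hcol hviol
  rw [u0, mul_zero, sub_zero] at hLN2
  have htul : tu N b l = b l / LN N (uu N b) l := by
    unfold tu
    rw [if_pos hviol]
  have hLp : 0 < LN N (uu N b) l := lt_of_le_of_lt (hb l) hviol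
  have htu : tu N b l ≤ b l / L := by
    rw [htul]
    exact div_le_div_of_nonneg_left (hb l) hL0 hLN2
  set u := b l / L with hu
  have hu0 : 0 ≤ u := div_nonneg (hb l) hL0.le
  have huv : u < v := by
    rw [hu, div_lt_iff₀ hL0]
    exact hL
  have hkE : LN N (uu N b) k ≤ b k := by
    rw [LN_three hd _ hlk.symm hjk.symm hlj, u0, mul_zero, zero_add]
    linarith
  have htk : tu N b k = 1 := by
    unfold tu
    rw [if_neg (not_lt.2 hkE)]
  have hLj : LN N (uu N b) j ≤ P * b k := by
    rw [LN_three hd _ hlj.symm hjk hlk, u0, mul_zero, zero_add]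
    exact e1.trans (mul_le_mul_of_nonneg_right hNP hbk.le)
  have hLj0 : 0 ≤ LN N (uu N b) j := LN_nonneg hN (uu_nonneg hN hc hcol b) j
  have htj : v ≤ tu N b j := by
    unfold tu
    split_ifs with h
    · have hp : 0 < LN N (uu N b) j := lt_of_le_of_lt hbj.le h
      rw [le_div_iff₀ hp]
      exact (mul_le_mul_of_nonneg_left hLj hv0).trans hv
    · exact hv1
  have htq : tq N b = tu N b l := by
    have hi : ∀ i : Fin 3, i = j ∨ i = l ∨ i = k := by
      intro i
      clear * - hlj hlk hjk
      revert hlj hlk hjk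
      revert i j l k
      decide
    have h0 := tq_le (N := N) (b := b) l
    have key : ∀ i, tq N b = tu N b i → tq N b = tu N b l := by
      intro i h
      rcases hi i with h' | h' | h'
      · rw [h'] at h
        linarith
      · rw [h'] at h
        exact h
      · rw [h'] at h
        linarith
    rcases tq_eq (N := N) (b := b) with h | h | h
    · exact key 0 h
    · exact key 1 h
    · exact key 2 h
  have htq0 : 0 ≤ tq N b := tq_nonneg hN hc hcol hb
  have htqu : tq N b ≤ u := htq ▸ htu
  -- the residuals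
  have rl : rr N b l = 0 := by
    unfold rr
    rw [LN_xx, xx, u0, mul_zero, zero_add, htq, htul, div_mul_cancel₀ _ hLp.ne', sub_self]
  have rk : rr N b k = (1 - tq N b) * b k := by
    have h1 := uu_exact hN hc hcol hkE
    have : xx N b k + LN N (xx N b) k = tq N b * b k := by
      rw [LN_xx, xx, ← mul_add, h1]
    rw [rr, this]
    ring
  have rj : rr N b j ≤ (1 - tq N b) * b j ∧ P * ((v - u) * b k) ≤ rr N b j := by
    have huPb : 0 ≤ P * b k := (mul_pos hP hbk).le
    rcases lt_or_ge (b j) (LN N (uu N b) j) with h | h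
    · have h0 := uu_zero hN hc hcol h
      have e : rr N b j = b j - tq N b * LN N (uu N b) j := by
        rw [rr, LN_xx, xx, h0, mul_zero, zero_add]
      rw [e]
      have h3 := mul_le_mul_of_nonneg_left h.le htq0
      have h4 : tq N b * LN N (uu N b) j ≤ u * (P * b k) :=
        mul_le_mul htqu hLj hLj0 hu0
      constructor
      · linarith
      · linarith
    · have h1 := uu_exact hN hc hcol h
      have e : rr N b j = (1 - tq N b) * b j := by
        have : xx N b j + LN N (xx N b) j = tq N b * b j := by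
          rw [LN_xx, xx, ← mul_add, h1]
        rw [rr, this]
        ring
      rw [e]
      refine ⟨le_rfl, ?_⟩
      have h2 : (1 - u) * b j ≤ (1 - tq N b) * b j :=
        mul_le_mul_of_nonneg_right (by linarith) hbj.le
      have h3 : (1 - u) * (v * (P * b k)) ≤ (1 - u) * b j :=
        mul_le_mul_of_nonneg_left hv (by linarith)
      have h4 : 0 ≤ u * (1 - v) * (P * b k) :=
        mul_nonneg (mul_nonneg hu0 (by linarith)) huPb
      linarith
  obtain ⟨rj1, rj2⟩ := rj
  have hvu : 0 < v - u := by linarith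
  have rjp : 0 < rr N b j := lt_of_lt_of_le (mul_pos hP (mul_pos hvu hbk)) rj2
  have rkp : 0 < rr N b k := by
    rw [rk]
    exact mul_pos (by linarith) hbk
  have hmr : min (rr N b j) (rr N b k) ≤ (1 - tq N b) * min (b j) (b k) := by
    rw [mul_min_of_nonneg _ _ (by linarith), ← rk]
    exact min_le_min rj1 le_rfl
  have e : (1 - b l / (v * L)) * (v * S) = (v - u) * S := by
    rw [hu]
    field_simp
  rw [e]
  unfold gk
  rw [if_pos ⟨rl, rjp, rkp⟩]
  refine le_max_of_le_right (le_min ?_ ?_)
  · have h1 := mul_le_mul_of_nonneg_left hmr hη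
    have h2 := mul_le_mul_of_nonneg_left rj1 hμ
    have h3 : (v - u) * S ≤ (1 - tq N b) * S :=
      mul_le_mul_of_nonneg_right (by linarith) hS.le
    have h4 : (1 - tq N b) * S = (1 - tq N b) * b k - η * ((1 - tq N b) * min (b j) (b k))
        - μ * ((1 - tq N b) * b j) := by
      rw [hSd]
      ring
    rw [rk] at h1 ⊢
    linarith
  · have hw : 0 < (1 - η) * P := mul_pos (by linarith) hP
    rw [le_div_iff₀ hw]
    have h1 : η * min (rr N b j) (rr N b k) ≤ η * rr N b j :=
      mul_le_mul_of_nonneg_left (min_le_left _ _) hη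
    have h2 : (v - u) * S ≤ (v - u) * b k := mul_le_mul_of_nonneg_left hSk hvu.le
    have h3 := mul_le_mul_of_nonneg_left h2 hw.le
    have h4 := mul_le_mul_of_nonneg_left rj2 (show 0 ≤ 1 - η by linarith)
    linarith

end

end Helper21.MEI.CStrip
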