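import Pool.Agent.Helper21.MEI.CStrip

/-!
# Project MEI (M2), faces: the corner nodes in the wall strips, one dimensional integrals
-/

set_option autoImplicit false

namespace Helper21.MEI.CStrip

open Set MeasureTheory Pool.Agent.Helper55.Sx Pool.Agent.Helper55.Mass
open Pool.Agent.Helper96.Kap (Q2_le Q3_ge)

/-- `1 / g ^ 2` -/
noncomputable def G2 (s : ℝ) : ℝ := 1 / (1 - s + s ^ 2) ^ 2

/-- `1 / g ^ 3` -/
noncomputable def G3 (s : ℝ) : ℝ := 1 / (1 - s + s ^ 2) ^ 3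

theorem g_pos (s : ℝ) : 0 < 1 - s + s ^ 2 := by nlinarith [sq_nonneg (s - 1 / 2)]

theorem G2_pos (s : ℝ) : 0 < G2 s := by
  have := g_pos s
  unfold G2
  positivity

theorem G3_pos (s : ℝ) : 0 < G3 s := by
  have := g_pos s
  unfold G3
  positivity

theorem G2_cont : Continuous G2 := by
  unfold G2
  exact continuous_const.div (by fun_prop) fun s => pow_ne_zero 2 (g_pos s).ne'

theorem G3_cont : Continuous G3 := by
  unfold G3
  exact continuous_const.div (by fun_prop) fun s => pow_ne_zero 3 (g_pos s).ne'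

theorem sig {s : ℝ} (h0 : 0 ≤ s) (h1 : s ≤ 1) : 0 ≤ s * (1 - s) ∧ s * (1 - s) ≤ 1 / 4 :=
  ⟨mul_nonneg h0 (by linarith), by nlinarith [sq_nonneg (s - 1 / 2)]⟩

theorem G2_lo {s : ℝ} (h0 : 0 ≤ s) (h1 : s ≤ 1) : 1 + 2 * (s * (1 - s))
    + 3 * (s * (1 - s)) ^ 2 + 4 * (s * (1 - s)) ^ 3 + 5 * (s * (1 - s)) ^ 4 ≤ G2 s := by
  obtain ⟨a, b⟩ := sig h0 h1
  have h := Q2_le a b
  have e : 1 - s * (1 - s) = 1 - s + s ^ 2 := by ring
  rw [e] at h
  exact h

theorem G2_up {s : ℝ} (h0 : 0 ≤ s) (h1 : s ≤ 1) : G2 s ≤ 1 + 2 * (s * (1 - s))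
    + 3 * (s * (1 - s)) ^ 2 + 4 * (s * (1 - s)) ^ 3 + 64 / 9 * (s * (1 - s)) ^ 4 := by
  have h := R_ge (sig h0 h1).2
  have e : 1 - s * (1 - s) = 1 - s + s ^ 2 := by ring
  rw [e] at h
  exact h

theorem G3_up {s : ℝ} (h0 : 0 ≤ s) (h1 : s ≤ 1) : G3 s ≤ 1 + 3 * (s * (1 - s))
    + 6 * (s * (1 - s)) ^ 2 + 15.71 * (s * (1 - s)) ^ 3 := by
  obtain ⟨a, b⟩ := sig h0 h1
  have h := Q3_ge a b
  have e : 1 - s * (1 - s) = 1 - s + s ^ 2 := by ring
  rw [e] at h
  exact h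

/-- comparison of integrals -/
theorem mono {f g : ℝ → ℝ} (hf : Continuous f) (hg : Continuous g) {a b : ℝ} (hab : a ≤ b)
    (h : ∀ s, a ≤ s → s ≤ b → f s ≤ g s) : ∫ s in a..b, f s ≤ ∫ s in a..b, g s :=
  intervalIntegral.integral_mono_on hab (hf.intervalIntegrable _ _) (hg.intervalIntegrable _ _)
    fun s hs => h s hs.1 hs.2

theorem i0l : ∫ s in (0 : ℝ)..1, (s * (1 - s)) * (1 + 2 * (s * (1 - s)) + 3 * (s * (1 - s)) ^ 2 + 4 * (s * (1 - s)) ^ 3
    + 5 * (s * (1 - s)) ^ 4)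
    = 911/3465 := by
  refine Eq.trans (intervalIntegral.integral_congr fun y _ => ?_)
    ((P11 0 1 1 (-1) (-3) (-2) (-4) 34 (-46) 25 (-5) (0 : ℝ) 1).trans ?_)
  · ring
  · norm_num

theorem i0u : ∫ s in (0 : ℝ)..1, (s * (1 - s)) * (1 + 2 * (s * (1 - s)) + 3 * (s * (1 - s)) ^ 2 + 4 * (s * (1 - s)) ^ 3
    + 64 / 9 * (s * (1 - s)) ^ 4)
    = 32891/124740 := by
  refine Eq.trans (intervalIntegral.integral_congr fun y _ => ?_)
    ((P11 0 1 1 (-1) (-3) (1/9) (-131/9) (496/9) (-604/9) (320/9) (-64/9) (0 : ℝ) 1).trans ?_)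
  · ring
  · norm_num

theorem i1l : ∫ s in (0 : ℝ)..1, (1 - s) ^ 2 * (1 + 2 * (s * (1 - s)) + 3 * (s * (1 - s)) ^ 2 + 4 * (s * (1 - s)) ^ 3
    + 5 * (s * (1 - s)) ^ 4)
    = 3271/6930 := by
  refine Eq.trans (intervalIntegral.integral_congr fun y _ => ?_)
    ((P11 1 0 (-2) (-2) 1 (-2) 38 (-80) 71 (-30) 5 (0 : ℝ) 1).trans ?_)
  · ring
  · norm_num

theorem i1u : ∫ s in (0 : ℝ)..1, (1 - s) ^ 2 * (1 + 2 * (s * (1 - s)) + 3 * (s * (1 - s)) ^ 2 + 4 * (s * (1 - s)) ^ 3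
    + 64 / 9 * (s * (1 - s)) ^ 4)
    = 4916/10395 := by
  refine Eq.trans (intervalIntegral.integral_congr fun y _ => ?_)
    ((P11 1 0 (-2) (-2) (28/9) (-44/3) (209/3) (-1100/9) (308/3) (-128/3) (64/9) (0 : ℝ) 1).trans ?_)
  · ring
  · norm_num

theorem i4u : ∫ s in (0 : ℝ)..1, s ^ 2 * (1 + 2 * (s * (1 - s)) + 3 * (s * (1 - s)) ^ 2 + 4 * (s * (1 - s)) ^ 3
    + 64 / 9 * (s * (1 - s)) ^ 4)
    = 4916/10395 := by
  refine Eq.trans (intervalIntegral.integral_congr fun y _ => ?_)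
    ((P11 0 0 1 2 1 (-2) (-17/9) (-148/9) (116/3) (-256/9) (64/9) (0 : ℝ) 1).trans ?_)
  · ring
  · norm_num

theorem i2a : ∫ s in (0 : ℝ)..(1 / 2), s ^ 2 * (1 + 2 * (s * (1 - s)) + 3 * (s * (1 - s)) ^ 2 + 4 * (s * (1 - s)) ^ 3
    + 64 / 9 * (s * (1 - s)) ^ 4)
    = 74245/1064448 := by
  refine Eq.trans (intervalIntegral.integral_congr fun y _ => ?_)
    ((P11 0 0 1 2 1 (-2) (-17/9) (-148/9) (116/3) (-256/9) (64/9) (0 : ℝ) (1 / 2)).trans ?_)
  · ring
  · norm_num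

theorem i2b : ∫ s in (1 / 2 : ℝ)..1, (s * (1 - s)) * (1 + 2 * (s * (1 - s)) + 3 * (s * (1 - s)) ^ 2 + 4 * (s * (1 - s)) ^ 3
    + 64 / 9 * (s * (1 - s)) ^ 4)
    = 32891/249480 := by
  refine Eq.trans (intervalIntegral.integral_congr fun y _ => ?_)
    ((P11 0 1 1 (-1) (-3) (1/9) (-131/9) (496/9) (-604/9) (320/9) (-64/9) (1 / 2 : ℝ) 1).trans ?_)
  · ring
  · norm_num

theorem i3a : ∫ s in (0 : ℝ)..(1 / 2), (s * (1 - s)) * (1 + 2 * (s * (1 - s)) + 3 * (s * (1 - s)) ^ 2 + 4 * (s * (1 - s)) ^ 3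
    + 64 / 9 * (s * (1 - s)) ^ 4)
    = 32891/249480 := by
  refine Eq.trans (intervalIntegral.integral_congr fun y _ => ?_)
    ((P11 0 1 1 (-1) (-3) (1/9) (-131/9) (496/9) (-604/9) (320/9) (-64/9) (0 : ℝ) (1 / 2)).trans ?_)
  · ring
  · norm_num

theorem i3b : ∫ s in (1 / 2 : ℝ)..1, (1 - s) ^ 2 * (1 + 2 * (s * (1 - s)) + 3 * (s * (1 - s)) ^ 2 + 4 * (s * (1 - s)) ^ 3
    + 64 / 9 * (s * (1 - s)) ^ 4)
    = 74245/1064448 := by
  refine Eq.trans (intervalIntegral.integral_congr fun y _ => ?_)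
    ((P11 1 0 (-2) (-2) (28/9) (-44/3) (209/3) (-1100/9) (308/3) (-128/3) (64/9) (1 / 2 : ℝ) 1).trans ?_)
  · ring
  · norm_num

theorem i5u : ∫ s in (0 : ℝ)..1, (1 - s) ^ 3 * (1 + 3 * (s * (1 - s)) + 6 * (s * (1 - s)) ^ 2 + 15.71 * (s * (1 - s)) ^ 3)
    = 4853/12000 := by
  refine Eq.trans (intervalIntegral.integral_congr fun y _ => ?_)
    ((P11 1 0 (-3) (271/100) (-2313/50) (3573/20) (-1421/5) (4593/20) (-4713/50) (1571/100) 0 (0 : ℝ) 1).trans ?_)
  · ring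
  · norm_num

theorem i6u : ∫ s in (0 : ℝ)..1, (s * (1 - s) ^ 2) * (1 + 3 * (s * (1 - s)) + 6 * (s * (1 - s)) ^ 2 + 15.71 * (s * (1 - s)) ^ 3)
    = 21071/126000 := by
  refine Eq.trans (intervalIntegral.integral_congr fun y _ => ?_)
    ((P11 0 1 1 (-2) (71/100) (-911/20) (1331/10) (-1511/10) (1571/20) (-1571/100) 0 (0 : ℝ) 1).trans ?_)
  · ring
  · norm_num

theorem i7u : ∫ s in (0 : ℝ)..1, (s ^ 2 * (1 - s)) * (1 + 3 * (s * (1 - s)) + 6 * (s * (1 - s)) ^ 2 + 15.71 * (s * (1 - s)) ^ 3)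
    = 21071/126000 := by
  refine Eq.trans (intervalIntegral.integral_congr fun y _ => ?_)
    ((P11 0 0 1 2 0 (71/100) (-1121/25) (4413/50) (-1571/25) (1571/100) 0 (0 : ℝ) 1).trans ?_)
  · ring
  · norm_num

/-- the functions -/
noncomputable def ff (i : Fin 8) (s : ℝ) : ℝ :=
  (![s * (1 - s) * G2 s, (1 - s) ^ 2 * G2 s, min s (1 - s) * s * G2 s,
    min s (1 - s) * (1 - s) * G2 s, s ^ 2 * G2 s, (1 - s) ^ 3 * G3 s, s * (1 - s) ^ 2 * G3 s,
    s ^ 2 * (1 - s) * G3 s] : Fin 8 → ℝ) i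

theorem ff_cont (i : Fin 8) : Continuous (ff i) := by
  have h2 := G2_cont
  have h3 := G3_cont
  have hm : Continuous fun s : ℝ => min s (1 - s) := by fun_prop
  fin_cases i
  · exact (by fun_prop : Continuous fun s : ℝ => s * (1 - s)).mul h2
  · exact (by fun_prop : Continuous fun s : ℝ => (1 - s) ^ 2).mul h2
  · exact (hm.mul continuous_id).mul h2
  · exact (hm.mul (by fun_prop : Continuous fun s : ℝ => 1 - s)).mul h2
  · exact (by fun_prop : Continuous fun s : ℝ => s ^ 2).mul h2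
  · exact (by fun_prop : Continuous fun s : ℝ => (1 - s) ^ 3).mul h3
  · exact (by fun_prop : Continuous fun s : ℝ => s * (1 - s) ^ 2).mul h3
  · exact (by fun_prop : Continuous fun s : ℝ => s ^ 2 * (1 - s)).mul h3

/-- the integrals -/
noncomputable def II (i : Fin 8) : ℝ := ∫ s in (0 : ℝ)..1, ff i s

theorem II_sum (k : Fin 8 → ℝ) : ∫ s in (0 : ℝ)..1, ∑ i, k i * ff i s = ∑ i, k i * II i := by
  rw [intervalIntegral.integral_finsetSum fun i _ =>
    ((ff_cont i).const_mul (k i)).intervalIntegrable _ _]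
  exact Finset.sum_congr rfl fun i _ => intervalIntegral.integral_const_mul _ _

theorem II0 : 0.26291 ≤ II 0 ∧ II 0 ≤ 0.26368 := by
  constructor
  · refine (show (0.26291 : ℝ) ≤ 911 / 3465 by norm_num).trans ?_
    rw [← i0l]
    refine mono (by fun_prop) (ff_cont 0) zero_le_one fun s h0 h1 => ?_
    exact mul_le_mul_of_nonneg_left (G2_lo h0 h1) (sig h0 h1).1
  · refine le_trans ?_ (show (32891 / 124740 : ℝ) ≤ 0.26368 by norm_num)
    rw [← i0u]
    refine mono (ff_cont 0) (by fun_prop) zero_le_one fun s h0 h1 => ?_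
    exact mul_le_mul_of_nonneg_left (G2_up h0 h1) (sig h0 h1).1

theorem II1 : 0.472 ≤ II 1 ∧ II 1 ≤ 0.47292 := by
  constructor
  · refine (show (0.472 : ℝ) ≤ 3271 / 6930 by norm_num).trans ?_
    rw [← i1l]
    refine mono (by fun_prop) (ff_cont 1) zero_le_one fun s h0 h1 => ?_
    exact mul_le_mul_of_nonneg_left (G2_lo h0 h1) (sq_nonneg _)
  · refine le_trans ?_ (show (4916 / 10395 : ℝ) ≤ 0.47292 by norm_num)
    rw [← i1u]
    refine mono (ff_cont 1) (by fun_prop) zero_le_one fun s h0 h1 => ?_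
    exact mul_le_mul_of_nonneg_left (G2_up h0 h1) (sq_nonneg _)

theorem II4 : II 4 ≤ 0.47292 := by
  refine le_trans ?_ (show (4916 / 10395 : ℝ) ≤ 0.47292 by norm_num)
  rw [← i4u]
  refine mono (ff_cont 4) (by fun_prop) zero_le_one fun s h0 h1 => ?_
  exact mul_le_mul_of_nonneg_left (G2_up h0 h1) (sq_nonneg _)

theorem split (i : Fin 8) : II i = (∫ s in (0 : ℝ)..(1 / 2), ff i s)
    + ∫ s in (1 / 2 : ℝ)..1, ff i s :=
  (intervalIntegral.integral_add_adjacent_intervals ((ff_cont i).intervalIntegrable _ _)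
    ((ff_cont i).intervalIntegrable _ _)).symm

theorem II2 : II 2 ≤ 0.2016 := by
  have h1 : ∫ s in (0 : ℝ)..(1 / 2), ff 2 s ≤ 74245 / 1064448 := by
    rw [← i2a]
    refine mono (ff_cont 2) (by fun_prop) (by norm_num) fun s h0 h1 => ?_
    have e : min s (1 - s) = s := min_eq_left (by linarith)
    have e2 : ff 2 s = s ^ 2 * G2 s := by
      change min s (1 - s) * s * G2 s = _
      rw [e]
      ring
    rw [e2]
    exact mul_le_mul_of_nonneg_left (G2_up h0 (by linarith)) (sq_nonneg _)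
  have h2 : ∫ s in (1 / 2 : ℝ)..1, ff 2 s ≤ 32891 / 249480 := by
    rw [← i2b]
    refine mono (ff_cont 2) (by fun_prop) (by norm_num) fun s h0 h1 => ?_
    have e : min s (1 - s) = 1 - s := min_eq_right (by linarith)
    have e2 : ff 2 s = s * (1 - s) * G2 s := by
      change min s (1 - s) * s * G2 s = _
      rw [e]
      ring
    rw [e2]
    exact mul_le_mul_of_nonneg_left (G2_up (by linarith) h1) (sig (by linarith) h1).1
  rw [split]
  refine (add_le_add h1 h2).trans (by norm_num)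

theorem II3 : II 3 ≤ 0.2016 := by
  have h1 : ∫ s in (0 : ℝ)..(1 / 2), ff 3 s ≤ 32891 / 249480 := by
    rw [← i3a]
    refine mono (ff_cont 3) (by fun_prop) (by norm_num) fun s h0 h1 => ?_
    have e : min s (1 - s) = s := min_eq_left (by linarith)
    have e2 : ff 3 s = s * (1 - s) * G2 s := by
      change min s (1 - s) * (1 - s) * G2 s = _
      rw [e]
    rw [e2]
    exact mul_le_mul_of_nonneg_left (G2_up h0 (by linarith)) (sig h0 (by linarith)).1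
  have h2 : ∫ s in (1 / 2 : ℝ)..1, ff 3 s ≤ 74245 / 1064448 := by
    rw [← i3b]
    refine mono (ff_cont 3) (by fun_prop) (by norm_num) fun s h0 h1 => ?_
    have e : min s (1 - s) = 1 - s := min_eq_right (by linarith)
    have e2 : ff 3 s = (1 - s) ^ 2 * G2 s := by
      change min s (1 - s) * (1 - s) * G2 s = _
      rw [e]
      ring
    rw [e2]
    exact mul_le_mul_of_nonneg_left (G2_up (by linarith) h1) (sq_nonneg _)
  rw [split]
  refine (add_le_add h1 h2).trans (by norm_num)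

theorem II5 : II 5 ≤ 0.40442 := by
  refine le_trans ?_ (show (4853 / 12000 : ℝ) ≤ 0.40442 by norm_num)
  rw [← i5u]
  refine mono (ff_cont 5) (by fun_prop) zero_le_one fun s h0 h1 => ?_
  exact mul_le_mul_of_nonneg_left (G3_up h0 h1) (pow_nonneg (by linarith) _)

theorem II6 : II 6 ≤ 0.16724 := by
  refine le_trans ?_ (show (21071 / 126000 : ℝ) ≤ 0.16724 by norm_num)
  rw [← i6u]
  refine mono (ff_cont 6) (by fun_prop) zero_le_one fun s h0 h1 => ?_
  exact mul_le_mul_of_nonneg_left (G3_up h0 h1) (mul_nonneg h0 (sq_nonneg _))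

theorem II7 : II 7 ≤ 0.16724 := by
  refine le_trans ?_ (show (21071 / 126000 : ℝ) ≤ 0.16724 by norm_num)
  rw [← i7u]
  refine mono (ff_cont 7) (by fun_prop) zero_le_one fun s h0 h1 => ?_
  exact mul_le_mul_of_nonneg_left (G3_up h0 h1) (mul_nonneg (sq_nonneg _) (by linarith))

/-- corner part -/
theorem corner_P {P A B : ℝ} (hP : 0 < P) (hP1 : P ≤ 1) :
    IntegrableOn (fun s => (Icc (0 : ℝ) P).indicator
      (fun s => (1 - (s / P) ^ 2) * (B + A * s)) s) (Icc 0 1) ∧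
      ∫ s in Icc (0 : ℝ) 1, (Icc (0 : ℝ) P).indicator
        (fun s => (1 - (s / P) ^ 2) * (B + A * s)) s = 2 / 3 * P * B + P ^ 2 / 4 * A := by
  have hi : IntegrableOn (fun s : ℝ => (1 - (s / P) ^ 2) * (B + A * s)) (Icc 0 1) :=
    (by fun_prop : Continuous fun s : ℝ => (1 - (s / P) ^ 2) * (B + A * s)).continuousOn
      |>.integrableOn_compact isCompact_Icc
  refine ⟨hi.indicator measurableSet_Icc, ?_⟩
  rw [setIntegral_indicator measurableSet_Icc]
  have : Icc (0 : ℝ) 1 ∩ Icc 0 P = Icc 0 P := by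
    ext s
    simp only [mem_inter_iff, mem_Icc]
    constructor
    · exact fun h => h.2
    · exact fun h => ⟨⟨h.1, h.2.trans hP1⟩, h⟩
  rw [this, integral_Icc_eq_integral_Ioc, ← intervalIntegral.integral_of_le hP.le]
  refine Eq.trans (intervalIntegral.integral_congr fun y _ => ?_)
    ((P11 B A (-(B / P ^ 2)) (-(A / P ^ 2)) 0 0 0 0 0 0 0 (0 : ℝ) P).trans ?_)
  · field_simp
    ring
  · field_simp
    ring

end Helper21.MEI.CStrip
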