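import Pool.Agent.Helper21.MEI.CStrip2

/-!
# Project MEI (M2), faces: mass of the corner nodes in the wall strips
-/

set_option autoImplicit false

namespace Helper21.MEI.CStrip

open Set MeasureTheory Pool.Agent.Helper55.Sx Pool.Agent.Helper55.Mass
open Pool.Agent.Helper55.Apex (nc)
open Pool.Agent.Helper55.Fill
open Pool.Agent.Helper96.Kap (fibf fibf_meas fibf_bd fibf_int fibre_low t3_meas corner_int' perm_ex)

/-- factor next to the corner -/
noncomputable def vf (P : ℝ) (t : ℝ × ℝ) : ℝ := min 1 (t.2 / (P * t3 t))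

/-- amplitude -/
noncomputable def hf (η μ : ℝ) (t : ℝ × ℝ) : ℝ := max 0 (t3 t - η * min t.2 (t3 t) - μ * t.2)

/-- explicit minorant of the load over `m ^ 2` near the side `t.1 = 0` -/
noncomputable def wq (A B q P η μ : ℝ) (t : ℝ × ℝ) : ℝ :=
  if t.1 < vf P t * (A * t.2 + B * t3 t) ∧ q * t.2 ≤ t3 t then
    (1 - t.1 / (vf P t * (A * t.2 + B * t3 t))) * (vf P t * hf η μ t) / mm t ^ 2 else 0

theorem vf_meas (P : ℝ) : Measurable (vf P) := by
  unfold vf
  exact measurable_const.min (measurable_snd.div (t3_meas.const_mul _))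

theorem hf_meas (η μ : ℝ) : Measurable (hf η μ) := by
  unfold hf
  exact measurable_const.max ((t3_meas.sub ((measurable_snd.min t3_meas).const_mul _)).sub
    (measurable_snd.const_mul _))

theorem wq_meas (A B q P η μ : ℝ) : Measurable (wq A B q P η μ) := by
  have h3 := t3_meas
  have hv := vf_meas P
  have h4 : Measurable fun t : ℝ × ℝ => vf P t * (A * t.2 + B * t3 t) :=
    hv.mul ((measurable_snd.const_mul _).add (h3.const_mul _))
  unfold wq
  refine Measurable.ite ?_ ?_ measurable_const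
  · have s1 : MeasurableSet {t : ℝ × ℝ | t.1 < vf P t * (A * t.2 + B * t3 t)} :=
      measurableSet_lt measurable_fst h4
    have s3 : MeasurableSet {t : ℝ × ℝ | q * t.2 ≤ t3 t} :=
      measurableSet_le (measurable_snd.const_mul _) h3
    exact s1.inter s3
  · exact ((measurable_const.sub (measurable_fst.div h4)).mul (hv.mul (hf_meas η μ))).div
      (mm_cont.measurable.pow_const 2)

theorem vf_bd {P : ℝ} (hP : 0 < P) {t : ℝ × ℝ} (ht : t ∈ Sim) : 0 ≤ vf P t ∧ vf P t ≤ 1 := by
  obtain ⟨a1, a2, a3⟩ := ht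
  have a4 : 0 ≤ t3 t := by simp only [t3]; linarith
  exact ⟨le_min zero_le_one (div_nonneg a2 (mul_nonneg hP.le a4)), min_le_left _ _⟩

theorem hf_bd {η μ : ℝ} (hη : 0 ≤ η) (hμ : 0 ≤ μ) {t : ℝ × ℝ} (ht : t ∈ Sim) :
    0 ≤ hf η μ t ∧ hf η μ t ≤ 1 := by
  obtain ⟨a1, a2, a3⟩ := ht
  have a4 : 0 ≤ t3 t := by simp only [t3]; linarith
  have a5 : t3 t ≤ 1 := by simp only [t3]; linarith
  have h1 := mul_nonneg hη (le_min a2 a4)
  have h2 := mul_nonneg hμ a2
  exact ⟨le_max_left _ _, max_le zero_le_one (by linarith)⟩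

theorem wq_bd {A B q P η μ : ℝ} (hP : 0 < P) (hη : 0 ≤ η) (hμ : 0 ≤ μ) {t : ℝ × ℝ}
    (ht : t ∈ Sim) : 0 ≤ wq A B q P η μ t ∧ wq A B q P η μ t ≤ 9 / 4 := by
  obtain ⟨v0, v1⟩ := vf_bd hP ht
  obtain ⟨h0, h1⟩ := hf_bd hη hμ ht
  obtain ⟨a1, a2, a3⟩ := ht
  unfold wq
  split_ifs with hc
  · have hL : 0 < vf P t * (A * t.2 + B * t3 t) := lt_of_le_of_lt a1 hc.1
    have hm := mm_pos t
    have hm2 : (4 / 9 : ℝ) ≤ mm t ^ 2 := by nlinarith
    have n0 : 0 ≤ t.1 / (vf P t * (A * t.2 + B * t3 t)) := div_nonneg a1 hL.le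
    have n1 : t.1 / (vf P t * (A * t.2 + B * t3 t)) ≤ 1 := (div_le_one hL).2 hc.1.le
    have n5 : 0 ≤ 1 - t.1 / (vf P t * (A * t.2 + B * t3 t)) := by linarith
    have n6 : 0 ≤ vf P t * hf η μ t := mul_nonneg v0 h0
    have n7 : vf P t * hf η μ t ≤ 1 := mul_le_one₀ v1 h0 h1
    refine ⟨by positivity, ?_⟩
    rw [div_le_iff₀ (by positivity)]
    have k1 := mul_le_one₀ (show 1 - t.1 / (vf P t * (A * t.2 + B * t3 t)) ≤ 1 by linarith) n6 n7
    linarith
  · exact ⟨le_rfl, by norm_num⟩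

/-- factor on the ray -/
noncomputable def vs (P s : ℝ) : ℝ := min 1 (s / (P * (1 - s)))

/-- amplitude on the ray -/
noncomputable def Ss (η μ s : ℝ) : ℝ := max 0 ((1 - s) - η * min s (1 - s) - μ * s)

theorem wq_ray {A B q P η μ : ℝ} {x s : ℝ} (hx : x ∈ Icc (0 : ℝ) 1)
    (hc : q * s ≤ 1 - s) :
    (1 - x) * wq A B q P η μ (ray (x, s))
      = fibf (1 - s + s ^ 2) (vs P s * (A * s + B * (1 - s))) (vs P s * Ss η μ s) x := by
  rcases eq_or_lt_of_le hx.2 with h1 | h1
  · unfold fibf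
    rw [h1, sub_self, zero_mul, zero_mul]
  have hx1 : 0 < 1 - x := by linarith
  have e3 : t3 (x, (1 - x) * s) = (1 - x) * (1 - s) := by simp only [t3]; ring
  have ev : vf P (x, (1 - x) * s) = vs P s := by
    unfold vf vs
    rw [e3]
    have e : P * ((1 - x) * (1 - s)) = (1 - x) * (P * (1 - s)) := by ring
    simp only [e]
    rw [mul_div_mul_left _ _ hx1.ne']
  have e1 : vs P s * (A * ((1 - x) * s) + B * t3 (x, (1 - x) * s))
      = (1 - x) * (vs P s * (A * s + B * (1 - s))) := by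
    rw [e3]; ring
  have e2 : hf η μ (x, (1 - x) * s) = (1 - x) * Ss η μ s := by
    unfold hf Ss
    rw [e3]
    simp only
    rw [← mul_min_of_nonneg _ _ hx1.le, mul_max_of_nonneg _ _ hx1.le, mul_zero]
    congr 1
    ring
  have e4 : vs P s * hf η μ (x, (1 - x) * s) = (1 - x) * (vs P s * Ss η μ s) := by
    rw [e2]; ring
  have c2 : q * ((1 - x) * s) ≤ t3 (x, (1 - x) * s) := by
    rw [e3]
    have := mul_le_mul_of_nonneg_left hc hx1.le
    linarith
  unfold fibf
  simp only [wq, ray, mm_ray, ev, e1, e4, c2, and_true]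

/-- coefficients of the minorant -/
noncomputable def kk (A B A1 B1 η μ c : ℝ) : Fin 8 → ℝ :=
  ![A / 2 - μ * B1 / 2, B / 2, -(η * A1 / 2), -(η * B1 / 2), -(μ * A1 / 2), -(c * B1 ^ 2),
    -(2 * c * A1 * B1), -(c * A1 ^ 2)]

theorem kk_sum (A B A1 B1 η μ c s : ℝ) : ∑ i, kk A B A1 B1 η μ c i * ff i s
    = (1 - s) * ((A * s + B * (1 - s)) / 2 * G2 s)
      - (η * min s (1 - s) + μ * s) * ((A1 * s + B1 * (1 - s)) / 2 * G2 s)
      - c * (1 - s) * (A1 * s + B1 * (1 - s)) ^ 2 * G3 s := by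
  simp only [kk, ff, Fin.sum_univ_eight, Matrix.cons_val]
  ring

/-- **integral of the minorant** -/
theorem wq_Sim {A B q P η μ e A1 B1 : ℝ} (hA : A ≤ A1) (hB : B ≤ B1)
    (hA1 : 0 ≤ A1) (hB1 : 0 ≤ B1) (hAe : A ≤ e) (hBe : B ≤ e) (he : 0 ≤ e)
    (hP : 0 < P) (hP1 : P ≤ 1) (hq : 0 ≤ q) (hη : 0 ≤ η) (hμ : 0 ≤ μ) :
    ∑ i, kk A B A1 B1 η μ ((2 + e) / 6) i * II i
      - (P / 3 * B1 + P ^ 2 / 8 * ((1 + P) * A1)) - q ^ 2 / 4 * (A1 + q * B1)
      ≤ ∫ t in Sim, wq A B q P η μ t := by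
  rw [ray_int (wq_meas _ _ _ _ _ _)]
  set H : ℝ × ℝ → ℝ := fun z => (1 - z.1) * wq A B q P η μ (ray z) with hH
  have hHm : Measurable H :=
    (by fun_prop : Measurable fun z : ℝ × ℝ => 1 - z.1).mul
      ((wq_meas _ _ _ _ _ _).comp ray_contin.measurable)
  have hrS : ∀ z ∈ Sq, ray z ∈ Sim := by
    rintro z ⟨⟨a1, a2⟩, a3, a4⟩
    have hx : 0 ≤ 1 - z.1 := by linarith
    refine ⟨a1, mul_nonneg hx a3, ?_⟩
    have : (1 - z.1) * z.2 ≤ 1 - z.1 := mul_le_of_le_one_right hx a4
    simp only [ray]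
    linarith
  have hHi : IntegrableOn H Sq := by
    refine Measure.integrableOn_of_bounded (M := 9 / 4) Sq_fin.ne
      hHm.aestronglyMeasurable ?_
    filter_upwards [ae_restrict_mem Sq_meas] with z hz
    obtain ⟨b1, b2⟩ := wq_bd (A := A) (B := B) (q := q) hP hη hμ (hrS z hz)
    have hx : 0 ≤ 1 - z.1 := by linarith [hz.1.2]
    have hx1 : 1 - z.1 ≤ 1 := by linarith [hz.1.1]
    rw [Real.norm_eq_abs, abs_of_nonneg (mul_nonneg hx b1)]
    exact (mul_le_of_le_one_left b1 hx1).trans b2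
  have hi := hHi
  rw [IntegrableOn, Sq, Measure.volume_eq_prod, ← Measure.prod_restrict] at hi
  have hFub : ∫ z in Sq, H z = ∫ s in Icc (0 : ℝ) 1, ∫ x in Icc (0 : ℝ) 1, H (x, s) := by
    rw [Sq, Measure.volume_eq_prod, ← Measure.prod_restrict]
    exact integral_prod_symm _ hi
  have hInn : IntegrableOn (fun s => ∫ x in Icc (0 : ℝ) 1, H (x, s)) (Icc (0 : ℝ) 1) :=
    hi.integral_prod_right
  rw [hFub]
  set c := (2 + e) / 6 with hc
  have hc0 : 0 ≤ c := by positivity
  set s2 := q / (1 + q) with hs2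
  have s20 : 0 ≤ s2 := by positivity
  have s21 : s2 ≤ 1 := by
    rw [hs2, div_le_one (by positivity)]; linarith
  have s2q : s2 ≤ q := by
    rw [hs2, div_le_iff₀ (by positivity)]; nlinarith
  set M2 := (A1 + q * B1) / 2 * (1 + q) ^ 2 with hM2
  have M20 : 0 ≤ M2 := by positivity
  obtain ⟨ci1, cv1⟩ := corner_P (A := (1 + P) * A1 / 2) (B := B1 / 2) hP hP1
  obtain ⟨ci2, cv2⟩ := corner_int' (M := M2) s20 s21
  set lw : ℝ → ℝ := fun s => ∑ i, kk A B A1 B1 η μ c i * ff i s with hlw
  have lwc : Continuous lw := by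
    rw [hlw]
    exact continuous_finsetSum _ fun i _ => (ff_cont i).const_mul _
  have hsI : IntegrableOn lw (Icc (0 : ℝ) 1) :=
    lwc.continuousOn.integrableOn_compact isCompact_Icc
  have hval : ∫ s in Icc (0 : ℝ) 1, lw s = ∑ i, kk A B A1 B1 η μ c i * II i := by
    rw [integral_Icc_eq_integral_Ioc, ← intervalIntegral.integral_of_le zero_le_one]
    exact II_sum _
  have hD : ∫ s in Icc (0 : ℝ) 1, (lw s
      - (Icc (0 : ℝ) P).indicator (fun s => (1 - (s / P) ^ 2) * (B1 / 2 + (1 + P) * A1 / 2 * s)) s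
      - (Icc (1 - s2) 1).indicator (fun s => (1 - s) * M2) s)
      = ∑ i, kk A B A1 B1 η μ c i * II i - (P / 3 * B1 + P ^ 2 / 8 * ((1 + P) * A1))
        - q ^ 2 / 4 * (A1 + q * B1) := by
    have h1 := integral_sub (hsI.sub ci1) ci2
    have h2 := integral_sub hsI ci1
    simp only [Pi.sub_apply] at h1
    rw [h1, h2, cv1, cv2, hval]
    have c2 : s2 ^ 2 / 2 * M2 = q ^ 2 / 4 * (A1 + q * B1) := by
      rw [hs2, hM2]
      field_simp
      ring
    rw [c2]
    ring
  rw [← hD]
  refine setIntegral_mono_on ((hsI.sub ci1).sub ci2) hInn measurableSet_Icc fun s hs' => ?_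
  obtain ⟨s0, sl⟩ := hs'
  have sr : 0 ≤ 1 - s := by linarith
  have hind1 : 0 ≤ (Icc (0 : ℝ) P).indicator
      (fun s => (1 - (s / P) ^ 2) * (B1 / 2 + (1 + P) * A1 / 2 * s)) s := by
    refine indicator_nonneg (fun x hx => ?_) s
    have hx1 : x / P ≤ 1 := (div_le_one hP).2 hx.2
    have hx0 : 0 ≤ x / P := div_nonneg hx.1 hP.le
    have hx2 : (x / P) ^ 2 ≤ 1 := pow_le_one₀ hx0 hx1
    have : 0 ≤ (1 + P) * A1 / 2 * x := mul_nonneg (by positivity) hx.1
    exact mul_nonneg (by linarith) (by positivity)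
  have hind2 : 0 ≤ (Icc (1 - s2) 1).indicator (fun s => (1 - s) * M2) s :=
    indicator_nonneg (fun x hx => mul_nonneg (by linarith [hx.2]) M20) s
  have hg0 := g_pos s
  have hg : 3 / 4 ≤ 1 - s + s ^ 2 := by nlinarith [sq_nonneg (s - 1 / 2)]
  have hG2 := G2_pos s
  have hG3 := G3_pos s
  have hmin0 : 0 ≤ min s (1 - s) := le_min s0 sr
  have hv0 : 0 ≤ vs P s := le_min zero_le_one (div_nonneg s0 (mul_nonneg hP.le sr))
  have hv1 : vs P s ≤ 1 := min_le_left _ _
  set ε := A * s + B * (1 - s) with hε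
  set ε1 := A1 * s + B1 * (1 - s) with hε1
  have hεε : ε ≤ ε1 := by
    have t1 := mul_le_mul_of_nonneg_right hA s0
    have t2 := mul_le_mul_of_nonneg_right hB sr
    linarith
  have hε10 : 0 ≤ ε1 := add_nonneg (mul_nonneg hA1 s0) (mul_nonneg hB1 sr)
  have hεe : ε ≤ e := by
    have t1 := mul_le_mul_of_nonneg_right hAe s0
    have t2 := mul_le_mul_of_nonneg_right hBe sr
    linarith
  have hlws : lw s = (1 - s) * (ε / 2 * G2 s)
      - (η * min s (1 - s) + μ * s) * (ε1 / 2 * G2 s)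
      - c * (1 - s) * ε1 ^ 2 * G3 s := kk_sum A B A1 B1 η μ c s
  have hw : 0 ≤ η * min s (1 - s) + μ * s := add_nonneg (mul_nonneg hη hmin0) (mul_nonneg hμ s0)
  have t3' : 0 ≤ c * (1 - s) * ε1 ^ 2 * G3 s := by positivity
  have t2' : 0 ≤ (η * min s (1 - s) + μ * s) * (ε1 / 2 * G2 s) := by positivity
  have hnn : 0 ≤ ∫ x in Icc (0 : ℝ) 1, H (x, s) := by
    refine setIntegral_nonneg measurableSet_Icc fun x hx => ?_
    exact mul_nonneg (by simp only; linarith [hx.2])
      (wq_bd hP hη hμ (hrS (x, s) ⟨hx, s0, sl⟩)).1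
  simp only [hlws]
  by_cases hC : q * s ≤ 1 - s
  · rcases le_or_gt ε 0 with hneg | hpos
    · have t1 : (1 - s) * (ε / 2 * G2 s) ≤ 0 :=
        mul_nonpos_of_nonneg_of_nonpos sr
          (mul_nonpos_of_nonpos_of_nonneg (by linarith) hG2.le)
      linarith
    · rcases le_or_gt ((1 - s) - η * min s (1 - s) - μ * s) 0 with hS | hS
      · have t4 : (η * min s (1 - s) + μ * s) * (ε / 2 * G2 s)
            ≤ (η * min s (1 - s) + μ * s) * (ε1 / 2 * G2 s) :=
          mul_le_mul_of_nonneg_left (mul_le_mul_of_nonneg_right (by linarith) hG2.le) hw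
        have t5 : ((1 - s) - η * min s (1 - s) - μ * s) * (ε / 2 * G2 s) ≤ 0 :=
          mul_nonpos_of_nonpos_of_nonneg hS (by positivity)
        linarith
      · -- main case
        have hs1 : 0 < 1 - s := by linarith
        have e1 : ∫ x in Icc (0 : ℝ) 1, H (x, s)
            = ∫ x in Icc (0 : ℝ) 1, fibf (1 - s + s ^ 2) (vs P s * ε) (vs P s * Ss η μ s) x :=
          setIntegral_congr_fun measurableSet_Icc fun x hx => wq_ray hx hC
        rw [e1]
        set S := (1 - s) - η * min s (1 - s) - μ * s with hSd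
        have hSs : Ss η μ s = S := max_eq_right hS.le
        rw [hSs]
        have hvε : vs P s * ε ≤ e := (mul_le_of_le_one_left hpos.le hv1).trans hεe
        have hf := fibre_low hg hvε (mul_nonneg hv0 hS.le) he
        rw [← hc] at hf
        have hS1 : S ≤ 1 - s := by linarith
        change vs P s * S * (vs P s * ε / 2 * G2 s - c * (vs P s * ε) ^ 2 * G3 s) ≤ _ at hf
        refine le_trans ?_ hf
        set v := vs P s with hvd
        -- second order
        have q1 : v * S * (c * (v * ε) ^ 2 * G3 s) ≤ c * (1 - s) * ε1 ^ 2 * G3 s := by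
          have r1 : v * S ≤ 1 * (1 - s) := mul_le_mul hv1 hS1 hS.le zero_le_one
          have r2 : v * ε ≤ ε1 := (mul_le_of_le_one_left hpos.le hv1).trans hεε
          have r3 : (v * ε) ^ 2 ≤ ε1 ^ 2 := pow_le_pow_left₀ (mul_nonneg hv0 hpos.le) r2 2
          have r4 : c * (v * ε) ^ 2 * G3 s ≤ c * ε1 ^ 2 * G3 s :=
            mul_le_mul_of_nonneg_right (mul_le_mul_of_nonneg_left r3 hc0) hG3.le
          have r5 := mul_le_mul r1 r4 (by positivity) (by linarith)
          linarith
        -- the factor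
        have q2 : (1 - v ^ 2) * (S * (ε / 2 * G2 s)) ≤ (Icc (0 : ℝ) P).indicator
            (fun s => (1 - (s / P) ^ 2) * (B1 / 2 + (1 + P) * A1 / 2 * s)) s := by
          rcases le_or_gt s P with hsP | hsP
          · rw [indicator_of_mem (show s ∈ Icc (0 : ℝ) P from ⟨s0, hsP⟩)]
            have w0 : 0 ≤ s / P := div_nonneg s0 hP.le
            have w1 : s / P ≤ 1 := (div_le_one hP).2 hsP
            have w2 : s / P ≤ v := by
              refine le_min w1 ?_
              refine div_le_div_of_nonneg_left s0 (mul_pos hP hs1) ?_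
              exact mul_le_of_le_one_right hP.le (by linarith)
            have w3 : (s / P) ^ 2 ≤ v ^ 2 := pow_le_pow_left₀ w0 w2 2
            have w4 : v ^ 2 ≤ 1 := pow_le_one₀ hv0 hv1
            have w5 : (1 - s) * G2 s ≤ 1 + s := by
              unfold G2
              rw [mul_one_div, div_le_iff₀ (by positivity)]
              have : (1 + s) * (1 - s + s ^ 2) ^ 2 - (1 - s)
                  = s ^ 2 * (1 + s * (1 - s) + s ^ 3) := by ring
              have : 0 ≤ s ^ 2 * (1 + s * (1 - s) + s ^ 3) := by positivity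
              linarith
            have w6 : S * (ε / 2 * G2 s) ≤ B1 / 2 + (1 + P) * A1 / 2 * s := by
              have x1 : S * (ε / 2 * G2 s) ≤ (1 - s) * (ε1 / 2 * G2 s) :=
                mul_le_mul hS1 (mul_le_mul_of_nonneg_right (by linarith) hG2.le)
                  (by positivity) sr
              have x2 : (1 - s) * G2 s * (ε1 / 2) ≤ (1 + s) * (ε1 / 2) :=
                mul_le_mul_of_nonneg_right w5 (by linarith)
              have x3 : (1 + s) * ε1 ≤ B1 + (1 + P) * A1 * s := by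
                have y1 : 0 ≤ B1 * s ^ 2 := by positivity
                have y2 : 0 ≤ A1 * s * (P - s) := mul_nonneg (mul_nonneg hA1 s0) (by linarith)
                have y3 : B1 + (1 + P) * A1 * s - (1 + s) * ε1
                    = A1 * s * (P - s) + B1 * s ^ 2 := by
                  rw [hε1]; ring
                linarith
              linarith
            have w7 : 0 ≤ S * (ε / 2 * G2 s) := by positivity
            exact mul_le_mul (by linarith) w6 w7 (by linarith)
          · have hv : v = 1 := by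
              refine min_eq_left ?_
              rw [one_le_div (mul_pos hP hs1)]
              have : P * (1 - s) ≤ P := mul_le_of_le_one_right hP.le (by linarith)
              linarith
            rw [hv]
            simp only [one_pow, sub_self, zero_mul]
            exact hind1
        have q3 : (η * min s (1 - s) + μ * s) * (ε / 2 * G2 s)
            ≤ (η * min s (1 - s) + μ * s) * (ε1 / 2 * G2 s) :=
          mul_le_mul_of_nonneg_left (mul_le_mul_of_nonneg_right (by linarith) hG2.le) hw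
        have q4 : S * (ε / 2 * G2 s) = (1 - s) * (ε / 2 * G2 s)
            - (η * min s (1 - s) + μ * s) * (ε / 2 * G2 s) := by
          rw [hSd]; ring
        have q5 : v * S * (v * ε / 2 * G2 s - c * (v * ε) ^ 2 * G3 s)
            = S * (ε / 2 * G2 s) - (1 - v ^ 2) * (S * (ε / 2 * G2 s))
              - v * S * (c * (v * ε) ^ 2 * G3 s) := by ring
        rw [q5]
        linarith only [q1, q2, q3, q4, hind2]
  · -- outside of the condition
    push Not at hC
    have hss : 1 - s < s2 := by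
      rw [hs2, lt_div_iff₀ (by positivity)]
      linarith
    have hmem : s ∈ Icc (1 - s2) 1 := ⟨by linarith, sl⟩
    rw [indicator_of_mem hmem]
    have hε2 : ε ≤ A1 + q * B1 := by
      have t1 := mul_le_mul_of_nonneg_right hA s0
      have t2 := mul_le_mul_of_nonneg_right hB sr
      have t3 := mul_le_mul_of_nonneg_left (hss.le.trans s2q) hB1
      have t4 := mul_nonneg hA1 sr
      linarith
    have hgp : G2 s ≤ (1 + q) ^ 2 := by
      have hg1 : 1 / (1 + q) ≤ 1 - s + s ^ 2 := by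
        rw [div_le_iff₀ (by positivity)]
        nlinarith [mul_nonneg (sq_nonneg (1 - s)) (show 0 ≤ 1 + q by positivity)]
      have hg2 : 1 / (1 - s + s ^ 2) ≤ 1 + q := by
        rw [div_le_iff₀ (by positivity)]
        rw [div_le_iff₀ (by positivity)] at hg1
        linarith
      have hg3 : G2 s = (1 / (1 - s + s ^ 2)) ^ 2 := by
        rw [G2, div_pow, one_pow]
      rw [hg3]
      exact pow_le_pow_left₀ (by positivity) hg2 2
    have hb1 : ε / 2 * G2 s ≤ M2 := by
      rw [hM2]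
      have t1 : ε / 2 * G2 s ≤ (A1 + q * B1) / 2 * G2 s :=
        mul_le_mul_of_nonneg_right (by linarith) hG2.le
      exact t1.trans (mul_le_mul_of_nonneg_left hgp (by positivity))
    have hb2 := mul_le_mul_of_nonneg_left hb1 sr
    linarith only [hb2, hind1, hnn, t2', t3']

end Helper21.MEI.CStrip
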