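import Pool.Agent.Helper21.MEI.CStrip3

/-!
# Project MEI (M2), faces: the corner nodes in the wall strips, mass and feasibility

* `ck_mass`: lower bound `ckL` of the mass of the load `gk`;
* `ck_feas`: the six corner loads and the shares `η l` of the strip arcs fit into the residual.
-/

set_option autoImplicit false

namespace Helper21.MEI.CStrip

open Set MeasureTheory Pool.Agent.Helper55.Sx Pool.Agent.Helper55.Mass
open Pool.Agent.Helper55.Apex (nc)
open Pool.Agent.Helper55.Fill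
open Pool.Agent.Helper96.Kap (kap kap_eq kap_nonneg kap_add kap_le_of_ne perm_ex)

variable {N : Fin 3 → Fin 3 → ℝ}

/-- the lower bound of the mass; `x = N l j`, `y = N l k`, `p = N j k`, `q = N k j` -/
noncomputable def ckL (e η μ P x y p q : ℝ) : ℝ :=
  0.0929 * x + 0.1668 * y - 0.0933 * (y * q) - 0.1673 * (x * p)
    - 0.0713 * η * (x + y) - μ * (0.1673 * x + 0.0933 * y)
    - (2 + e) * (0.0477 * y ^ 2 + 0.0395 * (x * y) + 0.0198 * x ^ 2)
    - (0.2358 * P * y + 0.0885 * P ^ 2 * ((1 + P) * x)) - 0.1768 * (q ^ 2 * (x + q * y))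

theorem sq2 : 0.7071 ≤ 1 / √2 ∧ 1 / √2 ≤ 0.70711 := by
  have hsq : (1.41421 : ℝ) ≤ √2 := Real.le_sqrt_of_sq_le (by norm_num)
  have hsq2 : √2 ≤ (1.414214 : ℝ) := by
    rw [Real.sqrt_le_left (by norm_num)]
    norm_num
  constructor
  · rw [le_div_iff₀ (by positivity)]
    linarith
  · rw [div_le_iff₀ (by positivity)]
    linarith

theorem wq_mass {x y p q e η μ P : ℝ} (hx : 0 ≤ x) (hy : 0 ≤ y) (hp : 0 ≤ p) (hq : 0 ≤ q)
    (hxe : x ≤ e) (hye : y ≤ e) (hP : 0 < P) (hP1 : P ≤ 1) (hη : 0 ≤ η) (hμ : 0 ≤ μ) :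
    ckL e η μ P x y p q ≤ 1 / √2 * ∫ t in Sim, wq (x - y * q) (y - x * p) q P η μ t := by
  have he : 0 ≤ e := hx.trans hxe
  have h1 : x - y * q ≤ x := by linarith [mul_nonneg hy hq]
  have h2 : y - x * p ≤ y := by linarith [mul_nonneg hx hp]
  have h := wq_Sim (A := x - y * q) (B := y - x * p) (q := q) (P := P) (η := η) (μ := μ)
    (e := e) h1 h2 hx hy (h1.trans hxe) (h2.trans hye) he hP hP1 hq hη hμ
  have hsum : ∑ i, kk (x - y * q) (y - x * p) x y η μ ((2 + e) / 6) i * II i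
      = (x - y * q) / 2 * II 0 - μ * y / 2 * II 0 + (y - x * p) / 2 * II 1
        - η * x / 2 * II 2 - η * y / 2 * II 3 - μ * x / 2 * II 4
        - (2 + e) / 6 * y ^ 2 * II 5 - 2 * ((2 + e) / 6) * x * y * II 6
        - (2 + e) / 6 * x ^ 2 * II 7 := by
    simp only [kk, Fin.sum_univ_eight, Matrix.cons_val]
    ring
  rw [hsum] at h
  obtain ⟨s1, s2⟩ := sq2
  obtain ⟨a0, b0⟩ := II0
  obtain ⟨a1, b1⟩ := II1
  have b2 := II2
  have b3 := II3
  have b4 := II4
  have b5 := II5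
  have b6 := II6
  have b7 := II7
  set r := 1 / √2 with hr
  have hr0 : 0 ≤ r := by linarith
  -- products with `r`
  have lo : ∀ {I a c : ℝ}, a ≤ I → 0 ≤ a → c ≤ 0.7071 * a → c ≤ r * I := by
    intro I a c h1 h2 h3
    have := mul_le_mul s1 h1 h2 hr0
    linarith
  have up : ∀ {I b c : ℝ}, I ≤ b → 0 ≤ I → 0.70711 * b ≤ c → r * I ≤ c := by
    intro I b c h1 h2 h3
    have := mul_le_mul s2 h1 h2 (by norm_num)
    linarith
  have p0 : 0 ≤ II 0 := by linarith
  have p1 : 0 ≤ II 1 := by linarith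
  have nn : ∀ i, 0 ≤ II i := by
    intro i
    refine intervalIntegral.integral_nonneg zero_le_one fun s hs => ?_
    have g2 := (G2_pos s).le
    have g3 := (G3_pos s).le
    have s0 := hs.1
    have s1 : 0 ≤ 1 - s := by linarith [hs.2]
    have m0 : 0 ≤ min s (1 - s) := le_min s0 s1
    fin_cases i
    · exact mul_nonneg (mul_nonneg s0 s1) g2
    · exact mul_nonneg (sq_nonneg _) g2
    · exact mul_nonneg (mul_nonneg m0 s0) g2
    · exact mul_nonneg (mul_nonneg m0 s1) g2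
    · exact mul_nonneg (sq_nonneg _) g2
    · exact mul_nonneg (pow_nonneg s1 3) g3
    · exact mul_nonneg (mul_nonneg s0 (sq_nonneg _)) g3
    · exact mul_nonneg (mul_nonneg (sq_nonneg _) s1) g3
  have c0l : 0.1858 ≤ r * II 0 := lo a0 (by norm_num) (by norm_num)
  have c0u : r * II 0 ≤ 0.1866 := up b0 p0 (by norm_num)
  have c1l : 0.3336 ≤ r * II 1 := lo a1 (by norm_num) (by norm_num)
  have c1u : r * II 1 ≤ 0.3346 := up b1 p1 (by norm_num)
  have c2u : r * II 2 ≤ 0.1426 := up b2 (nn 2) (by norm_num)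
  have c3u : r * II 3 ≤ 0.1426 := up b3 (nn 3) (by norm_num)
  have c4u : r * II 4 ≤ 0.3346 := up b4 (nn 4) (by norm_num)
  have c5u : r * II 5 ≤ 0.2862 := up b5 (nn 5) (by norm_num)
  have c6u : r * II 6 ≤ 0.1185 := up b6 (nn 6) (by norm_num)
  have c7u : r * II 7 ≤ 0.1188 := up b7 (nn 7) (by norm_num)
  have h3 := mul_le_mul_of_nonneg_left h hr0
  refine le_trans ?_ h3
  have he2 : 0 ≤ 2 + e := by linarith
  have w1 := mul_le_mul_of_nonneg_left c0l hx
  have w2 := mul_le_mul_of_nonneg_left c0u (mul_nonneg hy hq)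
  have w3 := mul_le_mul_of_nonneg_left c0u (mul_nonneg hμ hy)
  have w4 := mul_le_mul_of_nonneg_left c1l hy
  have w5 := mul_le_mul_of_nonneg_left c1u (mul_nonneg hx hp)
  have w6 := mul_le_mul_of_nonneg_left c2u (mul_nonneg hη hx)
  have w7 := mul_le_mul_of_nonneg_left c3u (mul_nonneg hη hy)
  have w8 := mul_le_mul_of_nonneg_left c4u (mul_nonneg hμ hx)
  have w9 := mul_le_mul_of_nonneg_left c5u (mul_nonneg he2 (sq_nonneg y))
  have w10 := mul_le_mul_of_nonneg_left c6u (mul_nonneg he2 (mul_nonneg hx hy))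
  have w11 := mul_le_mul_of_nonneg_left c7u (mul_nonneg he2 (sq_nonneg x))
  have w12 : r * (P / 3 * y + P ^ 2 / 8 * ((1 + P) * x))
      ≤ 0.2358 * P * y + 0.0885 * P ^ 2 * ((1 + P) * x) := by
    have z1 : r * (P * y) ≤ 0.70711 * (P * y) := mul_le_mul_of_nonneg_right s2 (by positivity)
    have z2 : r * (P ^ 2 * ((1 + P) * x)) ≤ 0.70711 * (P ^ 2 * ((1 + P) * x)) :=
      mul_le_mul_of_nonneg_right s2 (by positivity)
    have z3 : 0 ≤ P * y := by positivity
    have z4 : 0 ≤ P ^ 2 * ((1 + P) * x) := by positivity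
    linarith
  have w13 : r * (q ^ 2 / 4 * (x + q * y)) ≤ 0.1768 * (q ^ 2 * (x + q * y)) := by
    have z1 : r * (q ^ 2 * (x + q * y)) ≤ 0.70711 * (q ^ 2 * (x + q * y)) :=
      mul_le_mul_of_nonneg_right s2 (by positivity)
    have z3 : 0 ≤ q ^ 2 * (x + q * y) := by positivity
    linarith
  unfold ckL
  linarith only [w1, w2, w3, w4, w5, w6, w7, w8, w9, w10, w11, w12, w13]

section
variable (hN : ∀ k m, 0 ≤ N k m) {c : ℝ} (hc : c < 1) (hcol : ∀ m, nc N m ≤ c)
include hN hc hcol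

theorem gk_meas (η μ w : ℝ) (l j k : Fin 3) : Measurable fun t => gk N η μ w l j k (vv t) := by
  have rl := rr_meas hN hc hcol l
  have rj := rr_meas hN hc hcol j
  have rk := rr_meas hN hc hcol k
  unfold gk
  refine Measurable.ite ?_ ?_ measurable_const
  · exact (measurableSet_eq_fun rl measurable_const).inter
      ((measurableSet_lt measurable_const rj).inter (measurableSet_lt measurable_const rk))
  · exact measurable_const.max (((rk.sub ((rj.min rk).const_mul _)).sub (rj.const_mul _)).min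
      ((rj.sub ((rj.min rk).const_mul _)).div_const _))

theorem gk_le_one {η μ w : ℝ} (hη : 0 ≤ η) (hμ : 0 ≤ μ) {t : ℝ × ℝ} (ht : t ∈ Sim)
    (l j k : Fin 3) : gk N η μ w l j k (vv t) ≤ 1 :=
  (gk_le_rr hN hc hcol hη hμ (fun k => vv_nonneg ht k) l j k).trans
    ((Pool.Agent.Helper96.Kap.rr_le_self hN hc hcol (fun k => vv_nonneg ht k) _).trans
      (vv_le ht _))

theorem gk_int {η μ w : ℝ} (hη : 0 ≤ η) (hμ : 0 ≤ μ) (l j k : Fin 3) :
    IntegrableOn (fun t => gk N η μ w l j k (vv t) / mm t ^ 2) Sim :=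
  intOn (C := 1) (gk_meas hN hc hcol η μ w l j k) fun t ht => by
    rw [abs_of_nonneg (gk_nonneg _ _ _ _ _ _)]
    exact gk_le_one hN hc hcol hη hμ ht l j k

/-- pointwise, in the coordinates of the side -/
theorem wq_le_gk (hd : ∀ k, N k k = 0) {l j k : Fin 3} (hlj : l ≠ j) (hlk : l ≠ k) (hjk : j ≠ k)
    (hc1 : N l j * N j l + N l k * N k l ≤ 1) {η μ P : ℝ} (hη : 0 ≤ η) (hη1 : η < 1)
    (hμ : 0 ≤ μ) (hP : 0 < P) (hNP : N j k ≤ P) {t s : ℝ × ℝ} (ht : t ∈ Sim)
    (h1 : s.1 = vv t l) (h2 : s.2 = vv t j) (h3 : t3 s = vv t k) (hm : mm s = mm t) :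
    wq (N l j - N l k * N k j) (N l k - N l j * N j k) (N k j) P η μ s
      ≤ gk N η μ ((1 - η) * P) l j k (vv t) / mm t ^ 2 := by
  have hb := fun k => vv_nonneg ht k
  have hmp := mm_pos t
  have hbj := hb j
  have hbk := hb k
  have hv0 : 0 ≤ vf P s := by
    unfold vf
    rw [h2, h3]
    exact le_min zero_le_one (div_nonneg hbj (mul_nonneg hP.le hbk))
  have hv1 : vf P s ≤ 1 := min_le_left _ _
  have hv : vf P s * (P * vv t k) ≤ vv t j := by
    rcases eq_or_lt_of_le hbk with h0 | h0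
    · rw [← h0, mul_zero, mul_zero]
      exact hbj
    · have hPk : 0 < P * vv t k := mul_pos hP h0
      have : vf P s ≤ vv t j / (P * vv t k) := by
        unfold vf
        rw [h2, h3]
        exact min_le_right _ _
      exact (le_div_iff₀ hPk).1 this
  unfold wq
  rw [h1, h2, h3, hm]
  split_ifs with hC
  · refine div_le_div_of_nonneg_right ?_ (by positivity)
    have hh : hf η μ s = max 0 (vv t k - η * min (vv t j) (vv t k) - μ * vv t j) := by
      unfold hf
      rw [h2, h3]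
    rw [hh]
    exact gk_ge hN hc hcol hd hb hlj hlk hjk hc1 hη hη1 hμ hP hNP hv1 hv hv0 hC.2 hC.1
  · exact div_nonneg (gk_nonneg _ _ _ _ _ _) (by positivity)

/-- **mass of the corner load in the strip of the wall `l`** -/
theorem ck_mass (hd : ∀ k, N k k = 0) {e : ℝ} {l j k : Fin 3} (hlj : l ≠ j)
    (hlk : l ≠ k) (hjk : j ≠ k) (hc1 : N l j * N j l + N l k * N k l ≤ 1)
    (hxe : N l j ≤ e) (hye : N l k ≤ e) {η μ P : ℝ} (hη : 0 ≤ η) (hη1 : η < 1)
    (hμ : 0 ≤ μ) (hP : 0 < P) (hP1 : P ≤ 1) (hNP : N j k ≤ P) :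
    ckL e η μ P (N l j) (N l k) (N j k) (N k j)
      ≤ Pool.Agent.Helper55.Mass.Id fun t => gk N η μ ((1 - η) * P) l j k (vv t) := by
  have hw := wq_mass (hN l j) (hN l k) (hN j k) (hN k j) hxe hye hP hP1 hη hμ
  have h0 : (0 : ℝ) ≤ 1 / √2 := by positivity
  refine hw.trans (mul_le_mul_of_nonneg_left ?_ h0)
  obtain ⟨φ, hφ, hφS, hφe, hφi⟩ := perm_ex hlj hlk hjk
  rw [← hφi]
  refine setIntegral_mono_on ?_ (gk_int hN hc hcol hη hμ l j k) Sim_meas fun t ht => ?_
  · refine Measure.integrableOn_of_bounded (M := 9 / 4) Sim_compact.measure_lt_top.ne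
      ((wq_meas _ _ _ _ _ _).comp hφ).aestronglyMeasurable ?_
    filter_upwards [ae_restrict_mem Sim_meas] with t ht
    obtain ⟨b1, b2⟩ := wq_bd (A := N l j - N l k * N k j) (B := N l k - N l j * N j k)
      (q := N k j) hP hη hμ (hφS t ht)
    rw [Real.norm_eq_abs, abs_of_nonneg b1]
    exact b2
  · obtain ⟨g1, g2, g3, g4⟩ := hφe t
    exact wq_le_gk hN hc hcol hd hlj hlk hjk hc1 hη hη1 hμ hP hNP ht g1 g2 g3 g4

end

/-! ### feasibility of all loads -/

/-- the third index -/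
def oth (l k : Fin 3) : Fin 3 := -(l + k)

theorem oth_eq {l j k : Fin 3} (hlj : l ≠ j) (hlk : l ≠ k) (hjk : j ≠ k) : oth l k = j := by
  revert l j k
  decide

theorem sum3 {l j k : Fin 3} (hlj : l ≠ j) (hlk : l ≠ k) (hjk : j ≠ k) (f : Fin 3 → ℝ) :
    ∑ m, f m = f l + f j + f k := by
  rw [Fin.sum_univ_three]
  fin_cases l <;> fin_cases j <;> fin_cases k <;> simp only [Fin.zero_eta, Fin.mk_one,
    Fin.reduceFinMk, ne_eq, not_true_eq_false] at hlj hlk hjk ⊢ <;> ring

/-- the six loads; `n = (wall, corner)` -/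
noncomputable def gr (N : Fin 3 → Fin 3 → ℝ) (U : Fin 3 → Fin 3 → Bool) (η : Fin 3 → ℝ)
    (μ w : Fin 3 → Fin 3 → ℝ) (n : Fin 3 × Fin 3) (b : Fin 3 → ℝ) : ℝ :=
  if U n.1 n.2 then gk N (η n.1) (μ n.1 n.2) (w n.1 n.2) n.1 (oth n.1 n.2) n.2 b else 0

theorem gr_nonneg (U : Fin 3 → Fin 3 → Bool) (η : Fin 3 → ℝ) (μ w : Fin 3 → Fin 3 → ℝ)
    (n : Fin 3 × Fin 3) (b : Fin 3 → ℝ) : 0 ≤ gr N U η μ w n b := by
  unfold gr
  split_ifs
  · exact gk_nonneg _ _ _ _ _ _
  · exact le_rfl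

section
variable (hN : ∀ k m, 0 ≤ N k m) {c : ℝ} (hc : c < 1) (hcol : ∀ m, nc N m ≤ c)
include hN hc hcol

theorem gr_meas (U : Fin 3 → Fin 3 → Bool) (η : Fin 3 → ℝ) (μ w : Fin 3 → Fin 3 → ℝ)
    (n : Fin 3 × Fin 3) : Measurable fun t => gr N U η μ w n (vv t) := by
  unfold gr
  split_ifs
  · exact gk_meas hN hc hcol _ _ _ _ _ _
  · exact measurable_const

theorem gr_le_one (U : Fin 3 → Fin 3 → Bool) {η : Fin 3 → ℝ} {μ w : Fin 3 → Fin 3 → ℝ}
    (hη : ∀ l, 0 ≤ η l) (hμ : ∀ l k, 0 ≤ μ l k) (n : Fin 3 × Fin 3) {t : ℝ × ℝ} (ht : t ∈ Sim) :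
    gr N U η μ w n (vv t) ≤ 1 := by
  unfold gr
  split_ifs
  · exact gk_le_one hN hc hcol (hη _) (hμ _ _) ht _ _ _
  · exact zero_le_one

/-- one wall -/
theorem gr_wall {b : Fin 3 → ℝ} (hb : ∀ k, 0 ≤ b k) {U : Fin 3 → Fin 3 → Bool}
    (hU : ∀ l, U l l = false) {η : Fin 3 → ℝ} (hη : ∀ l, 0 ≤ η l) (hη1 : ∀ l, η l ≤ 1)
    {μ w : Fin 3 → Fin 3 → ℝ} (hμ : ∀ l k, 0 ≤ μ l k) (hw : ∀ l k, 0 < w l k)
    {Y : Fin 3 × Fin 3 → Fin 3 → ℝ}
    (hYk : ∀ l k, U l k = true → Y (l, k) k ≤ 1)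
    (hYw : ∀ l k, U l k = true → Y (l, k) (oth l k) ≤ w l k)
    (hYμ : ∀ l k, U l k = true → U l (oth l k) = true → Y (l, oth l k) k ≤ μ l k)
    {l j k : Fin 3} (hlj : l ≠ j) (hlk : l ≠ k) (hjk : j ≠ k) :
    ∑ m, gr N U η μ w (l, m) b * Y (l, m) k + η l * kap N b l ≤
      if rr N b l = 0 ∧ 0 < rr N b j ∧ 0 < rr N b k then rr N b k else kap N b l := by
  have hk0 := kap_nonneg hN hc hcol hb l
  have hkap : kap N b l = min (rr N b j) (rr N b k) := kap_eq hlj hlk hjk
  have ejk : oth l k = j := oth_eq hlj hlk hjk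
  have ekj : oth l j = k := oth_eq hlk hlj hjk.symm
  have gl : gr N U η μ w (l, l) b = 0 := by
    unfold gr
    rw [if_neg]
    simp [hU]
  rw [sum3 hlj hlk hjk, gl, zero_mul, zero_add]
  split_ifs with hR
  · -- the wall `l` binds
    have hj := rr_nonneg hN hc hcol hb j
    have hk := rr_nonneg hN hc hcol hb k
    have hmin := le_min hj hk
    have hηk : η l * min (rr N b j) (rr N b k) ≤ rr N b k :=
      (mul_le_of_le_one_left hmin (hη1 l)).trans (min_le_right _ _)
    rw [hkap]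
    by_cases u1 : U l k = true
    · have g1 : gr N U η μ w (l, k) b = gk N (η l) (μ l k) (w l k) l j k b := by
        unfold gr
        rw [if_pos u1]
        simp only [ejk]
      by_cases u2 : U l j = true
      · have g2 : gr N U η μ w (l, j) b = gk N (η l) (μ l j) (w l j) l k j b := by
          unfold gr
          rw [if_pos u2]
          simp only [ekj]
        have h1 := hYk l k u1
        have h2 := hYw l j u2
        have h3 := hYμ l k u1 (by rw [ejk]; exact u2)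
        rw [ekj] at h2
        rw [ejk] at h3
        have key := gk_pair (η := η l) (μ := μ l k) (w := w l k) (μ' := μ l j) (w' := w l j)
          (B := Y (l, k) k) (m := Y (l, j) k) hN hc hcol (hη l) (hη1 l) (hμ l k) (hμ l j)
          (hw l j) h1 h3 h2 hb l j k
        rw [g1, g2]
        linarith
      · have g2 : gr N U η μ w (l, j) b = 0 := by
          unfold gr
          rw [if_neg u2]
        have h1 := hYk l k u1
        have key := gk_pair (η := η l) (μ := μ l k) (w := w l k) (μ' := μ l j) (w' := w l j)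
          (B := Y (l, k) k) (m := 0) hN hc hcol (hη l) (hη1 l) (hμ l k) (hμ l j)
          (hw l j) h1 (hμ l k) (hw l j).le hb l j k
        rw [g1, g2]
        linarith
    · have g1 : gr N U η μ w (l, k) b = 0 := by
        unfold gr
        rw [if_neg u1]
      by_cases u2 : U l j = true
      · have g2 : gr N U η μ w (l, j) b = gk N (η l) (μ l j) (w l j) l k j b := by
          unfold gr
          rw [if_pos u2]
          simp only [ekj]
        have h2 := hYw l j u2
        rw [ekj] at h2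
        have key := gk_pair (η := η l) (μ := max (Y (l, j) k) 0) (w := 1) (μ' := μ l j)
          (w' := w l j) (B := 0) (m := Y (l, j) k) hN hc hcol (hη l) (hη1 l) (le_max_right _ _)
          (hμ l j) (hw l j) zero_le_one (le_max_left _ _) h2 hb l j k
        rw [g1, g2]
        linarith
      · have g2 : gr N U η μ w (l, j) b = 0 := by
          unfold gr
          rw [if_neg u2]
        rw [g1, g2]
        linarith
  · -- it does not
    have g1 : gr N U η μ w (l, k) b = 0 := by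
      unfold gr
      split_ifs
      · simp only [ejk]
        unfold gk
        rw [if_neg hR]
      · rfl
    have g2 : gr N U η μ w (l, j) b = 0 := by
      unfold gr
      split_ifs
      · simp only [ekj]
        unfold gk
        rw [if_neg fun h => hR ⟨h.1, h.2.2, h.2.1⟩]
      · rfl
    rw [g1, g2]
    have := mul_le_of_le_one_left hk0 (hη1 l)
    linarith

/-- **feasibility**: the six corner loads and the shares `η l` of the strip arcs fit into the
residual -/
theorem ck_feas {b : Fin 3 → ℝ} (hb : ∀ k, 0 ≤ b k) {U : Fin 3 → Fin 3 → Bool}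
    (hU : ∀ l, U l l = false) {η : Fin 3 → ℝ} (hη : ∀ l, 0 ≤ η l) (hη1 : ∀ l, η l ≤ 1)
    {μ w : Fin 3 → Fin 3 → ℝ} (hμ : ∀ l k, 0 ≤ μ l k) (hw : ∀ l k, 0 < w l k)
    {Y : Fin 3 × Fin 3 → Fin 3 → ℝ}
    (hYl : ∀ l k, U l k = true → Y (l, k) l ≤ 0)
    (hYk : ∀ l k, U l k = true → Y (l, k) k ≤ 1)
    (hYw : ∀ l k, U l k = true → Y (l, k) (oth l k) ≤ w l k)
    (hYμ : ∀ l k, U l k = true → U l (oth l k) = true → Y (l, oth l k) k ≤ μ l k)
    (i : Fin 3) :
    ((η 0 * kap N b 0 + η 1 * kap N b 1 + η 2 * kap N b 2) - η i * kap N b i)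
      + ∑ n, gr N U η μ w n b * Y n i ≤ rr N b i := by
  obtain ⟨j, l, hij, hil, hjl⟩ : ∃ j l : Fin 3, i ≠ j ∧ i ≠ l ∧ j ≠ l := by
    clear * -
    revert i
    decide
  have ri := rr_nonneg hN hc hcol hb i
  have e1 : (η 0 * kap N b 0 + η 1 * kap N b 1 + η 2 * kap N b 2) - η i * kap N b i
      = η j * kap N b j + η l * kap N b l := by
    have h := sum3 hij hil hjl fun m => η m * kap N b m
    rw [Fin.sum_univ_three] at h
    linarith
  rw [e1, Fintype.sum_prod_type, sum3 hij hil hjl]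
  have wi : ∑ m, gr N U η μ w (i, m) b * Y (i, m) i ≤ 0 := by
    refine Finset.sum_nonpos fun m _ => ?_
    by_cases u : U i m = true
    · exact mul_nonpos_of_nonneg_of_nonpos (gr_nonneg _ _ _ _ _ _) (hYl i m u)
    · have : gr N U η μ w (i, m) b = 0 := by
        unfold gr
        rw [if_neg u]
      rw [this, zero_mul]
  have wj := gr_wall hN hc hcol hb hU hη hη1 hμ hw hYk hYw hYμ hjl hij.symm hil.symm
  have wl := gr_wall hN hc hcol hb hU hη hη1 hμ hw hYk hYw hYμ hjl.symm hil.symm hij.symm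
  have kj := kap_nonneg hN hc hcol hb j
  have kl := kap_nonneg hN hc hcol hb l
  split_ifs at wj wl with h1 h2 h2
  · exact absurd h1.1 (ne_of_gt h2.2.1)
  · have := kap_le_of_ne (N := N) (b := b) l j hjl.symm
    rw [h1.1] at this
    linarith
  · have := kap_le_of_ne (N := N) (b := b) j l hjl
    rw [h2.1] at this
    linarith
  · have := kap_add hN hc hcol hb hjl hij.symm hil.symm
    linarith

end

end Helper21.MEI.CStrip
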