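import Pool.Agent.Helper22.MEI.VR2

/-!
# Project MEI (M2), track B: one static certificate, the tables on the pieces of a cover

`Ph F S n` = affine in the levels `S` and in the leaks `n` (slopes of the leaks affine in `S`).
`PF` = the cost of a face on the states with a decomposition over the vertices `V'` of a piece;
`pf_vr` = `PF` from the data and kernel checks of `vr_wcf`; `wface_cov` = the hypothesis `WFace`
from the pieces of a cover and `cst ≤ Ph` at their vertices, `Ph ≤ cost` at the static vertices.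
-/

set_option autoImplicit false

namespace Helper21.Cvr

open Set Metric MeasureTheory Helper93.MEI Helper80.CW Helper14.CW Helper82.CW Helper82.M2
open Helper14.MEI2 Pool.Agent.Helper73.MEI Helper78.MEI Helper41.MEI
open Pool.Agent.Helper31.SR hiding qq
open Helper37.MEI Pool.Agent.Helper52.MEI
open Helper14.MEI4 Helper99.MEI Helper60.R8 Helper22.VR Helper21.Sk
open Helper60.R7 (U U_pos jj ll)
open Pool.Agent.Helper31.SR.IntC Pool.Agent.Helper31.SR.IntD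
open Pool.Agent.Helper73.MEI.SideP Pool.Agent.Helper73.MEI.ArCor
open Pool.Agent.Helper55.Apex (nc)
open scoped RealInnerProductSpace

/-! ### Affine functions -/

/-- affine function of the levels -/
def aff (f : ℝ × (Fin 4 → ℝ)) (S : Fin 4 → ℝ) : ℝ := f.1 + ∑ j, f.2 j * S j

/-- affine in the levels and in the leaks -/
def Ph (F : Fin 4 → ℝ × (Fin 4 → ℝ)) (S : Fin 4 → ℝ) (n : Fin 3 → ℝ) : ℝ :=
  aff (F 0) S + (aff (F 1) S * n 0 + aff (F 2) S * n 1 + aff (F 3) S * n 2)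

section dc
variable {ι : Type} [Fintype ι] {V : ι → Fin 4 → ℝ} {S : Fin 4 → ℝ} {lam : ι → ℝ}

theorem aff_dc (h : Dc V S lam) (f : ℝ × (Fin 4 → ℝ)) :
    ∑ v, lam v * aff f (V v) = aff f S := by
  unfold aff
  have e1 : ∀ v, lam v * (f.1 + ∑ j, f.2 j * V v j) =
      lam v * f.1 + ∑ j, f.2 j * (lam v * V v j) := fun v => by
    rw [mul_add, Finset.mul_sum]
    congr 1
    exact Finset.sum_congr rfl fun j _ => by ring
  simp only [e1]
  rw [Finset.sum_add_distrib, ← Finset.sum_mul, h.one, one_mul, Finset.sum_comm]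
  congr 1
  refine Finset.sum_congr rfl fun j _ => ?_
  rw [← Finset.mul_sum, ← h.eq j]

theorem Ph_dc (h : Dc V S lam) (F : Fin 4 → ℝ × (Fin 4 → ℝ)) (n : Fin 3 → ℝ) :
    ∑ v, lam v * Ph F (V v) n = Ph F S n := by
  unfold Ph
  have e1 : ∀ v, lam v * (aff (F 0) (V v) + (aff (F 1) (V v) * n 0 + aff (F 2) (V v) * n 1
      + aff (F 3) (V v) * n 2)) = lam v * aff (F 0) (V v) + ((lam v * aff (F 1) (V v)) * n 0
      + (lam v * aff (F 2) (V v)) * n 1 + (lam v * aff (F 3) (V v)) * n 2) := fun v => by ring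
  simp only [e1]
  rw [Finset.sum_add_distrib, Finset.sum_add_distrib, Finset.sum_add_distrib, ← Finset.sum_mul,
    ← Finset.sum_mul, ← Finset.sum_mul, aff_dc h, aff_dc h, aff_dc h, aff_dc h]

end dc

/-- an affine inequality on a box from its corners -/
theorem box_le {A a : ℝ} {B b n t : Fin 3 → ℝ} (hn0 : ∀ k, 0 ≤ n k) (hn : ∀ k, n k ≤ t k)
    (h : ∀ r : Fin 3 → Bool, A + (B 0 * (if r 0 then t 0 else 0)
      + B 1 * (if r 1 then t 1 else 0) + B 2 * (if r 2 then t 2 else 0)) ≤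
      a + (b 0 * (if r 0 then t 0 else 0) + b 1 * (if r 1 then t 1 else 0)
        + b 2 * (if r 2 then t 2 else 0))) :
    A + (B 0 * n 0 + B 1 * n 1 + B 2 * n 2) ≤ a + (b 0 * n 0 + b 1 * n 1 + b 2 * n 2) := by
  classical
  have key := h fun k => decide (b k ≤ B k)
  have one : ∀ k : Fin 3, (B k - b k) * n k ≤
      (B k - b k) * (if decide (b k ≤ B k) = true then t k else 0) := by
    intro k
    by_cases hk : b k ≤ B k
    · rw [if_pos (by simpa using hk)]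
      exact mul_le_mul_of_nonneg_left (hn k) (by linarith)
    · rw [if_neg (by simpa using hk), mul_zero]
      push Not at hk
      exact mul_nonpos_of_nonpos_of_nonneg (by linarith) (hn0 k)
  have k0 := one 0
  have k1 := one 1
  have k2 := one 2
  linarith

/-! ### Leaks -/

section body
variable {a : Fin 4 → E3} {σ : Measure (E3 × E3)} {K : Set E3} {S : Fin 4 → ℝ}
  {c : Fin 4 → E3} {z : Fin 4 → Fin 4 → E3}

/-- the leak of a column against a level -/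
theorem leak_lev (h : CN K σ a c) (v : Viol K a S) (hz : CV a K z) (τ : Equiv.Perm (Fin 4))
    {N : Fin 3 → Fin 3 → ℝ} (hNd : N = NM (fun i => a (τ i)) (fun i j => z (τ i) (τ j)))
    (k : Fin 3) {D T : ℝ} (hT : 0 ≤ T) (hS : S (τ 0) ≤ D ∨ S (τ k.succ) ≤ D)
    (hD : 2 * D * (1 + T / 2) ^ 2 ≤ T ^ 2) : nc N k ≤ T := by
  have h' := h.perm τ
  have v' := viol_perm v τ
  have hz' := hz.perm τ
  have hN : ∀ k m, 0 ≤ N k m := fun k m => by
    rw [hNd]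
    exact NM_nonneg h' v' hz' k m
  have hd : ∀ k, N k k = 0 := fun k => by
    rw [hNd]
    exact NM_diag k
  have nn : 0 ≤ nc N k := nc_nonneg hN k
  have e : nc N k = N (k + 1) k + N (k + 2) k := by
    have d0 := hd 0
    have d1 := hd 1
    have d2 := hd 2
    unfold nc
    fin_cases k
    · show N 0 0 + N 1 0 + N 2 0 = N 1 0 + N 2 0
      linarith
    · show N 0 1 + N 1 1 + N 2 1 = N 2 1 + N 0 1
      linarith
    · show N 0 2 + N 1 2 + N 2 2 = N 0 2 + N 1 2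
      linarith
  have h1 := (dom_VF h v hz τ hNd (tt := fun k => nc N k) (fun _ => le_rfl) k).2
  have h2 : 0 < (1 + nc N k / 2) ^ 2 := by positivity
  have h3 : nc N k ^ 2 / 2 ≤ dq (N (k + 1) k) (N (k + 2) k) := by
    rw [e]
    unfold dq
    nlinarith [sq_nonneg (N (k + 1) k - N (k + 2) k)]
  have h4 : dq (N (k + 1) k) (N (k + 2) k) ≤ D * (1 + nc N k / 2) ^ 2 := by
    rw [← div_le_iff₀ h2]
    rcases hS with h5 | h5
    · exact h1.1.trans h5
    · exact h1.2.trans h5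
  exact col_le nn hT (by linarith) hD

end body

/-! ### Pieces -/

/-- **the cost of a face on the states with a decomposition over `V'`**, leaks in `box` -/
def PF (i : Fin 4) (rb : ℝ) (tt box : Fin 3 → ℝ) {ι' : Type} [Fintype ι'] (V' : ι' → Fin 4 → ℝ)
    (cst : ι' → (Fin 3 → Fin 3 → ℝ) → ℝ) : Prop :=
  ∀ (K : Set E3) (σ : Measure (E3 × E3)), IsFiniteMeasure σ →
    ∀ a c : Fin 4 → E3, CN K σ a c → ∀ S : Fin 4 → ℝ, Viol K a S →
    ∀ mu, Dc V' S mu → ∀ z : Fin 4 → Fin 4 → E3, CV a K z →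
    ∀ ρ : Fin 3 → ℝ, (∀ p, 0 < ρ p) →
    (∀ p, ρ p ≤ rb) → (∀ p k : Fin 3, k ≠ p → MA σ a (l2 a) (tq i) p k ≤ ρ p) →
    (∀ p : Fin 3, MA σ a (l2 a) (tq i) p p ≤ 0) →
    ∀ x ∈ K, (Qv a (tq i 0) x = S (tq i 0) ∨ S (tq i 0) = 0) → ∀ N : Fin 3 → Fin 3 → ℝ,
    N = NM (fun j => a (tq i j)) (fun j j' => z (tq i j) (tq i j')) →
    (∀ k, nc N k ≤ tt k) → (∀ k, nc N k ≤ box k) →
    ∀ φ, φ = phiN 2.04 rb (TN N) (QN N) → 0 < φ → φ ≤ 1 → ∀ β : Fin 3 → ℝ, (∀ p, β p = 0) →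
    WCF 2.04 σ a K (l2 a) (tq i) z S x N (Rv tt N) φ β (fun _ => 0) (fun _ => 0)
      (∑ v, mu v * cst v N)

/-- a piece from the data and the kernel checks of `vr_wcf` -/
theorem pf_vr {n : ℕ} {D : VD n} {c0 c1 e1 : ℕ} (H : D.Ok c0 c1 e1) {i : Fin 4}
    (ht : ∀ j, tf i j = D.t j) {V' : Fin n → Fin 4 → ℝ}
    (hV : ∀ (g : Fin n) (j : Fin 4), V' g j ≤ Helper99.MEI.qq (D.vN g j)) {rb : ℝ}
    (hrb : rb = (D.F.rb : ℝ) / 1000000) (tt : Fin 3 → ℝ) {box : Fin 3 → ℝ}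
    (hbox : ∀ k, box k ≤ (D.F.tt k : ℝ) / 1000000)
    {Sm d0 d1 : ℝ} (hI : IsC Sm d0 d1) (hSm : (D.Sx : ℝ) / 1000000 ≤ Sm) (hd1 : 0 ≤ d1)
    (hd3 : 3 * d1 * (1 + (D.Sx : ℝ) / 1000000) ≤ d0) (hc0 : (c0 : ℝ) / U ≤ d0)
    (hc1 : d1 ≤ (c1 : ℝ) / U) : PF i rb tt box V' fun g N => D.cst g N := by
  intro K σ hσ a c hC S hv mu hmu z hz ρ hρ hρb hM hδ x hx hxs N hNd htt hb φ hφe hφ hφ1 β hβ
  rw [hrb] at hρb hφe
  have key := vr_wcf H hC hv hz (tq i) ht (l2_ok hC.ha) hδ hρ hρb hM hβ hx hxs hNd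
    (tt := tt) htt (fun k => (hb k).trans (hbox k)) hφe hφ hφ1 (Equiv.refl (Fin n)) hmu hV hI hSm
    hd1 hd3 hc0 hc1
  intro ζp z1 z2 lm l1 l2
  refine (key ζp z1 z2 lm l1 l2).mono (le_of_eq ?_)
  rw [← Fin.sum_univ_eq_sum_range
    (fun g => Helper49.VR.mu (Equiv.refl (Fin n)) mu g * D.cst g N) n]
  refine Finset.sum_congr rfl fun g _ => ?_
  rw [Helper49.VR.mu_lt _ _ g.2]
  rfl

variable {ι : Type} [Fintype ι]

/-- **THE COST OF A FACE FROM THE PIECES OF A COVER**, one static certificate -/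
theorem wface_cov {d : PD ι} {i : Fin 4} {V : ι → Fin 4 → ℝ} {X nb ε k1 k12 : ℝ}
    {P : (Fin 4 → ℝ) → Prop} (F : Fin 4 → ℝ × (Fin 4 → ℝ))
    (hcost : ∀ v cl j j' (N : Fin 3 → Fin 3 → ℝ), (∀ k, 0 ≤ nc N k) → (∀ k, nc N k ≤ d.tt i k) →
      Ph F (V v) (nc N) ≤ d.cost i v cl j j' N)
    {κ : Type} {ιp : κ → Type} [∀ q, Fintype (ιp q)] (V' : ∀ q, ιp q → Fin 4 → ℝ)
    (box : κ → Fin 3 → ℝ) (cst : ∀ q, ιp q → (Fin 3 → Fin 3 → ℝ) → ℝ)
    (hpf : ∀ q, PF i (d.rb i) (d.tt i) (box q) (V' q) (cst q))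
    (hcst : ∀ q g (N : Fin 3 → Fin 3 → ℝ), (∀ k, 0 ≤ nc N k) → (∀ k, nc N k ≤ box q k) →
      cst q g N ≤ Ph F (V' q g) (nc N))
    (hbox : ∀ q k, d.tt i k ≤ box q k ∨ (0 ≤ box q k ∧ ∃ D, ((∀ g, V' q g (tf i 0) ≤ D) ∨
      ∀ g, V' q g (tf i k.succ) ≤ D) ∧ 2 * D * (1 + box q k / 2) ^ 2 ≤ box q k ^ 2))
    (hcov : ∀ S : Fin 4 → ℝ, (∀ i, 0 ≤ S i) → P S → ∃ q mu, Dc (V' q) S mu) :
    WFace d i V X P nb 0 0 ε k1 k12 := by
  intro K σ hσ a c hC hX S hv hP lam hlam z hz ρ hρe hρ hρb hM hδ x hx hxs N hNd hN hd hnb htd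
    hdom φ hφe hφ hφ1 j j' hj hp cl hcl
  have hβ : ∀ p, bt 2.04 (kv 0 0 N) ρ p = 0 := by
    intro p
    have e0 : kv 0 0 N p = 0 := by
      unfold kv
      ring
    have e1 : min (kv 0 0 N p) (ρ p / 2.04) = 0 := by
      rw [e0]
      exact min_eq_left (div_nonneg (hρ p).le (by norm_num))
    unfold bt km
    rw [e1, mul_zero, zero_div]
  have nn : ∀ m, 0 ≤ nc N m := fun m => nc_nonneg hN m
  obtain ⟨q, mu, hmu⟩ := hcov S hv.nn hP
  have hle : ∀ (m : Fin 4) (D : ℝ), (∀ g, V' q g m ≤ D) → S m ≤ D := by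
    intro m D h
    rw [hmu.eq m]
    have h1 := Finset.sum_le_sum fun g (_ : g ∈ (Finset.univ : Finset (ιp q))) =>
      mul_le_mul_of_nonneg_left (h g) (hmu.nn g)
    rw [← Finset.sum_mul, hmu.one, one_mul] at h1
    exact h1
  have hb : ∀ k, nc N k ≤ box q k := by
    intro k
    rcases hbox q k with h | ⟨h0, D, h1, h2⟩
    · exact (htd k).trans h
    · refine leak_lev hC hv hz (tq i) hNd k h0 (D := D) ?_ h2
      rcases h1 with h1 | h1
      · exact Or.inl (hle _ D h1)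
      · exact Or.inr (hle _ D h1)
  have key := hpf q K σ hσ a c hC S hv mu hmu z hz ρ hρ hρb hM hδ x hx hxs N hNd htd hb φ hφe hφ
    hφ1 _ hβ
  intro ζp z1 z2 lm l1 l2
  refine (key ζp z1 z2 lm l1 l2).mono ?_
  calc ∑ g, mu g * cst q g N ≤ ∑ g, mu g * Ph F (V' q g) (nc N) :=
        Finset.sum_le_sum fun g _ => mul_le_mul_of_nonneg_left (hcst q g N nn hb) (hmu.nn g)
    _ = Ph F S (nc N) := Ph_dc hmu F _
    _ = ∑ v, lam v * Ph F (V v) (nc N) := (Ph_dc hlam F _).symm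
    _ ≤ ∑ v, lam v * d.cost i v cl j j' N :=
        Finset.sum_le_sum fun v _ => mul_le_mul_of_nonneg_left (hcost v cl j j' N nn htd)
          (hlam.nn v)

/-! ### Numbers -/

/-- numbers of an affine function: constant parts and slopes, `a` in `10⁻¹²`, the slopes of the
leaks in `10⁻⁹`, levels in `10⁻⁶` -/
structure PhN where
  c : Fin 4 → ℤ
  s : Fin 4 → Fin 4 → ℤ

/-- the affine function of the numbers -/
noncomputable def PhN.F (p : PhN) : Fin 4 → ℝ × (Fin 4 → ℝ) := fun m =>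
  if m = 0 then ((p.c 0 : ℝ) / 1000000000000, fun j => (p.s 0 j : ℝ) / 1000000)
  else ((p.c m : ℝ) / 1000000000, fun j => (p.s m j : ℝ) / 1000)

/-- the value of the affine function `m` at the levels `v` (units `10⁻⁶`) -/
def PhN.at (p : PhN) (m : Fin 4) (v : Fin 4 → ℕ) : ℤ :=
  p.c m + (p.s m 0 * (v 0 : ℤ) + p.s m 1 * (v 1 : ℤ) + p.s m 2 * (v 2 : ℤ)
    + p.s m 3 * (v 3 : ℤ))

theorem PhN.Ph_at (p : PhN) (v : Fin 4 → ℕ) (n : Fin 3 → ℝ) :
    Ph p.F (fun j => (v j : ℝ) / 1000000) n = ((p.at 0 v : ℤ) : ℝ) / 1000000000000 +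
      (((p.at 1 v : ℤ) : ℝ) / 1000000000 * n 0 + ((p.at 2 v : ℤ) : ℝ) / 1000000000 * n 1
        + ((p.at 3 v : ℤ) : ℝ) / 1000000000 * n 2) := by
  unfold Ph aff PhN.F PhN.at
  simp only [Fin.sum_univ_four, if_true, show ¬ ((1 : Fin 4) = 0) by decide,
    show ¬ ((2 : Fin 4) = 0) by decide, show ¬ ((3 : Fin 4) = 0) by decide, if_false]
  push_cast
  ring

/-- the check at the corner `r` of the box: `A + B.t ≤ Ph` -/
def phc (p : PhN) (v : Fin 4 → ℕ) (t : Fin 3 → ℕ) (A : ℕ) (B : Fin 3 → ℕ) (r : Fin 3 → Bool) :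
    Bool :=
  decide (1000 * (A : ℤ) + ((B 0 : ℤ) * (if r 0 then (t 0 : ℤ) else 0)
      + (B 1 : ℤ) * (if r 1 then (t 1 : ℤ) else 0) + (B 2 : ℤ) * (if r 2 then (t 2 : ℤ) else 0)) ≤
    1000 * p.at 0 v + (p.at 1 v * (if r 0 then (t 0 : ℤ) else 0)
      + p.at 2 v * (if r 1 then (t 1 : ℤ) else 0) + p.at 3 v * (if r 2 then (t 2 : ℤ) else 0)))

/-- the check on the box -/
def phb (p : PhN) (v : Fin 4 → ℕ) (t : Fin 3 → ℕ) (A : ℕ) (B : Fin 3 → ℕ) : Bool :=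
  [false, true].all fun b0 => [false, true].all fun b1 => [false, true].all fun b2 =>
    phc p v t A B ![b0, b1, b2]

theorem phb_le {p : PhN} {v : Fin 4 → ℕ} {t : Fin 3 → ℕ} {A : ℕ} {B : Fin 3 → ℕ}
    (h : phb p v t A B = true) {n : Fin 3 → ℝ} (hn0 : ∀ k, 0 ≤ n k)
    (hn : ∀ k, n k ≤ (t k : ℝ) / 1000000) :
    (A : ℝ) / 1000000000000 + ((B 0 : ℝ) / 1000000000 * n 0 + (B 1 : ℝ) / 1000000000 * n 1
      + (B 2 : ℝ) / 1000000000 * n 2) ≤ Ph p.F (fun j => (v j : ℝ) / 1000000) n := by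
  rw [p.Ph_at]
  refine box_le (B := fun k => (B k : ℝ) / 1000000000)
    (b := ![((p.at 1 v : ℤ) : ℝ) / 1000000000, ((p.at 2 v : ℤ) : ℝ) / 1000000000,
      ((p.at 3 v : ℤ) : ℝ) / 1000000000]) hn0 hn fun r => ?_
  have hr : r = ![r 0, r 1, r 2] := by
    funext k
    fin_cases k <;> rfl
  have h1 : phc p v t A B r = true := by
    unfold phb at h
    simp only [List.all_cons, List.all_nil, Bool.and_true, Bool.and_eq_true] at h
    obtain ⟨⟨⟨h1, h2⟩, h3, h4⟩, ⟨h5, h6⟩, h7, h8⟩ := h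
    rw [hr]
    rcases hb0 : r 0 <;> rcases hb1 : r 1 <;> rcases hb2 : r 2 <;> assumption
  unfold phc at h1
  have h2 := of_decide_eq_true h1
  have h3 : (1000 * (A : ℝ) + ((B 0 : ℝ) * (if r 0 then (t 0 : ℝ) else 0)
      + (B 1 : ℝ) * (if r 1 then (t 1 : ℝ) else 0) + (B 2 : ℝ) * (if r 2 then (t 2 : ℝ) else 0))) ≤
    1000 * ((p.at 0 v : ℤ) : ℝ) + (((p.at 1 v : ℤ) : ℝ) * (if r 0 then (t 0 : ℝ) else 0)
      + ((p.at 2 v : ℤ) : ℝ) * (if r 1 then (t 1 : ℝ) else 0)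
      + ((p.at 3 v : ℤ) : ℝ) * (if r 2 then (t 2 : ℝ) else 0)) := by
    exact_mod_cast h2
  simp only [Matrix.cons_val_zero, Matrix.cons_val_one, Matrix.cons_val]
  split_ifs at h3 ⊢ <;> linarith

end Helper21.Cvr
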