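import Pool.Agent.Helper22.MEI.VRW
import Pool.Agent.Helper21.MEI.Cvr

/-!
# Project MEI (M2), track B: one static certificate, pieces of a cover, localized apex and strips

`PG` = `PF` with strips; `pg_ve` = `PG` from the data and kernel checks of `ve_wface` (localized
apex, strips allowed); `wface_covG` = the hypothesis `WFace` from the pieces of a cover.
-/

set_option autoImplicit false

namespace Helper21.Cvr

open Set Metric MeasureTheory Helper93.MEI Helper80.CW Helper14.CW Helper82.CW Helper82.M2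
open Helper14.MEI2 Pool.Agent.Helper73.MEI Helper78.MEI Helper41.MEI
open Pool.Agent.Helper31.SR hiding qq
open Helper37.MEI Pool.Agent.Helper52.MEI
open Helper14.MEI4 Helper99.MEI Helper60.R8 Helper22.VR Helper21.Sk
open Helper60.R7 (U U_pos jj ll)
open Pool.Agent.Helper31.SR.IntC Pool.Agent.Helper31.SR.IntD
open Pool.Agent.Helper73.MEI.SideP Pool.Agent.Helper73.MEI.ArCor
open Pool.Agent.Helper55.Apex (nc)
open scoped RealInnerProductSpace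

/-- **the cost of a face on the states with a decomposition over `V'`**, leaks in `box`, strips -/
def PG (i : Fin 4) (rb nb K0 K1 : ℝ) (tt box : Fin 3 → ℝ) {ι' : Type} [Fintype ι']
    (V' : ι' → Fin 4 → ℝ) (cst : ι' → (Fin 3 → Fin 3 → ℝ) → ℝ) : Prop :=
  ∀ (K : Set E3) (σ : Measure (E3 × E3)), IsFiniteMeasure σ →
    ∀ a c : Fin 4 → E3, CN K σ a c → ∀ S : Fin 4 → ℝ, Viol K a S →
    ∀ mu, Dc V' S mu → ∀ z : Fin 4 → Fin 4 → E3, CV a K z →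
    ∀ ρ : Fin 3 → ℝ, (∀ p, 0 < ρ p) →
    (∀ p, ρ p ≤ rb) → (∀ p k : Fin 3, k ≠ p → MA σ a (l2 a) (tq i) p k ≤ ρ p) →
    (∀ p : Fin 3, MA σ a (l2 a) (tq i) p p ≤ 0) →
    ∀ x ∈ K, (Qv a (tq i 0) x = S (tq i 0) ∨ S (tq i 0) = 0) → ∀ N : Fin 3 → Fin 3 → ℝ,
    N = NM (fun j => a (tq i j)) (fun j j' => z (tq i j) (tq i j')) →
    (∀ k m, 0 ≤ N k m) → (∀ k, N k k = 0) → (∀ k, nc N k ≤ nb) →
    (∀ k, nc N k ≤ tt k) → (∀ k, nc N k ≤ box k) →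
    ∀ φ, φ = phiN 2.04 rb (TN N) (QN N) → 0 < φ → φ ≤ 1 →
    WCF 2.04 σ a K (l2 a) (tq i) z S x N (Rv tt N) φ (bt 2.04 (kv K0 K1 N) ρ) (fun _ => 0)
      (fun _ => 0) (∑ v, mu v * cst v N)

/-- a piece from the data and the kernel checks of `ve_wface` -/
theorem pg_ve {n : ℕ} {D : VE n} {Z : VL} {c0 c1 e1 : ℕ} (H : D.Ok c0 c1 e1)
    (HZ : D.lok Z e1 = true) {nb K0 K1 : ℝ}
    (hs : (K0 = 0 ∧ K1 = 0) ∨ (D.str = true ∧ (∀ q k, Z.loc q k = false) ∧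
      ∃ (X' qm e rb r V0 : ℝ) (D' tt' : Fin 3 → ℝ), Stc X' qm nb K0 K1 e rb r V0 D' tt'))
    {i : Fin 4} (ht : ∀ j, tf i j = D.t j) {V' : Fin n → Fin 4 → ℝ}
    (hV : ∀ (g : Fin n) (j : Fin 4), V' g j ≤ Helper99.MEI.qq (D.vN g j)) {rb : ℝ}
    (hrb : rb = (D.F.rb : ℝ) / 1000000) (tt : Fin 3 → ℝ) {box : Fin 3 → ℝ}
    (hbox : ∀ k, box k ≤ (D.F.tt k : ℝ) / 1000000)
    (hT1 : D.F.tt 0 + D.F.tt 1 + D.F.tt 2 ≤ 1000000)
    {Sm d0 d1 : ℝ} (hI : IsC Sm d0 d1) (hSm : (D.Sx : ℝ) / 1000000 ≤ Sm) (hd1 : 0 ≤ d1)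
    (hd3 : 3 * d1 * (1 + (D.Sx : ℝ) / 1000000) ≤ d0) (hc0 : (c0 : ℝ) / U ≤ d0)
    (hc1 : d1 ≤ (c1 : ℝ) / U) : PG i rb nb K0 K1 tt box V' fun g N => D.cst g N := by
  intro K σ hσ a c hC S hv mu hmu z hz ρ hρ hρb hM hδ x hx hxs N hNd hN hd hnb htt hb φ hφe hφ hφ1
  rw [hrb] at hρb hφe
  have nn : ∀ m, 0 ≤ nc N m := fun m => nc_nonneg hN m
  have htD : ∀ k, nc N k ≤ (D.F.tt k : ℝ) / 1000000 := fun k => (hb k).trans (hbox k)
  have sp := FN.sp H.phi hN htD hφe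
  have hT : TN N ≤ 1 := by
    have b0 := htD 0
    have b1 := htD 1
    have b2 := htD 2
    have b3 : ((D.F.tt 0 : ℝ) + (D.F.tt 1 : ℝ) + (D.F.tt 2 : ℝ)) ≤ 1000000 := by
      exact_mod_cast hT1
    unfold TN
    linarith
  have hnc9 : ∀ k, nc N k ≤ 9 / 10 := fun k => by
    rw [hNd]
    exact nc_le (hC.perm (tq i)) (viol_perm hv (tq i)) (hz.perm (tq i)) k
  have key : WCF 2.04 σ a K (l2 a) (tq i) z S x N (Rv tt N) φ
      (bt 2.04 (kv K0 K1 N) ρ) (fun _ => 0) (fun _ => 0)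
      (∑ g ∈ Finset.range n, Helper49.VR.mu (Equiv.refl (Fin n)) mu g * D.cst g N) := by
    rcases hs with ⟨e0, e1'⟩ | ⟨h1, h2, X', qm, e, rb', r, V0, D', tt', h3⟩
    · subst e0 e1'
      have hm := masses0 hN hd hnc9 hT (A' := 2.04) (by norm_num) hφe.ge hρ hρb
      have hβ := bt_zero (N := N) (A' := 2.04) (by norm_num) hρ
      exact ve_loc H HZ hC hv hz (tq i) ht (l2_ok hC.ha) hδ hρ hM
        (fun p => (hβ p).ge) (fun p => by rw [hβ p]; exact zero_le_one) (Or.inl hβ) hx hxs hNd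
        (tt := tt) htt htD sp hφ hφ1 hm.1 hm.2 (Equiv.refl (Fin n)) hmu hV hI hSm hd1 hd3 hc0 hc1
    · have hN' : ∀ k m, N k m ≤ nb := fun k m => by
        refine le_trans ?_ (hnb m)
        have a0 := hN 0 m
        have a1 := hN 1 m
        have a2 := hN 2 m
        unfold nc
        have key : k = 0 ∨ k = 1 ∨ k = 2 := by
          fin_cases k <;> simp
        rcases key with e | e | e <;> rw [e] <;> linarith
      have hκ := kv_nonneg hN hN' h3.K10 h3.K1n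
      have hm := masses hN hd hnb h3.nb5 hT h3.nbe h3.K hκ (A' := 2.04) (by norm_num) hφe.ge
        hρ hρb
      exact ve_loc H HZ hC hv hz (tq i) ht (l2_ok hC.ha) hδ hρ hM
        (bt_nonneg (by norm_num) hκ hρ) (bt_le_one (by norm_num) hρ) (Or.inr ⟨h1, h2⟩) hx hxs
        hNd (tt := tt) htt htD sp hφ hφ1 hm.1 hm.2 (Equiv.refl (Fin n)) hmu hV hI hSm hd1 hd3 hc0
        hc1
  intro ζp z1 z2 lm l1 l2
  refine (key ζp z1 z2 lm l1 l2).mono (le_of_eq ?_)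
  rw [← Fin.sum_univ_eq_sum_range
    (fun g => Helper49.VR.mu (Equiv.refl (Fin n)) mu g * D.cst g N) n]
  refine Finset.sum_congr rfl fun g _ => ?_
  rw [Helper49.VR.mu_lt _ _ g.2]
  rfl

variable {ι : Type} [Fintype ι]

/-- **THE COST OF A FACE FROM THE PIECES OF A COVER**, one static certificate, strips allowed -/
theorem wface_covG {d : PD ι} {i : Fin 4} {V : ι → Fin 4 → ℝ} {X nb K0 K1 ε k1 k12 : ℝ}
    {P : (Fin 4 → ℝ) → Prop} (F : Fin 4 → ℝ × (Fin 4 → ℝ))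
    (hcost : ∀ v cl j j' (N : Fin 3 → Fin 3 → ℝ), (∀ k, 0 ≤ nc N k) → (∀ k, nc N k ≤ d.tt i k) →
      Ph F (V v) (nc N) ≤ d.cost i v cl j j' N)
    {κ : Type} {ιp : κ → Type} [∀ q, Fintype (ιp q)] (V' : ∀ q, ιp q → Fin 4 → ℝ)
    (box : κ → Fin 3 → ℝ) (cst : ∀ q, ιp q → (Fin 3 → Fin 3 → ℝ) → ℝ)
    (hpf : ∀ q, PG i (d.rb i) nb K0 K1 (d.tt i) (box q) (V' q) (cst q))
    (hcst : ∀ q g (N : Fin 3 → Fin 3 → ℝ), (∀ k, 0 ≤ nc N k) → (∀ k, nc N k ≤ box q k) →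
      cst q g N ≤ Ph F (V' q g) (nc N))
    (hbox : ∀ q k, d.tt i k ≤ box q k ∨ (0 ≤ box q k ∧ ∃ D, ((∀ g, V' q g (tf i 0) ≤ D) ∨
      ∀ g, V' q g (tf i k.succ) ≤ D) ∧ 2 * D * (1 + box q k / 2) ^ 2 ≤ box q k ^ 2))
    (hcov : ∀ S : Fin 4 → ℝ, (∀ i, 0 ≤ S i) → P S → ∃ q mu, Dc (V' q) S mu) :
    WFace d i V X P nb K0 K1 ε k1 k12 := by
  intro K σ hσ a c hC hX S hv hP lam hlam z hz ρ hρe hρ hρb hM hδ x hx hxs N hNd hN hd hnb htd
    hdom φ hφe hφ hφ1 j j' hj hp cl hcl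
  have nn : ∀ m, 0 ≤ nc N m := fun m => nc_nonneg hN m
  obtain ⟨q, mu, hmu⟩ := hcov S hv.nn hP
  have hle : ∀ (m : Fin 4) (D : ℝ), (∀ g, V' q g m ≤ D) → S m ≤ D := by
    intro m D h
    rw [hmu.eq m]
    have h1 := Finset.sum_le_sum fun g (_ : g ∈ (Finset.univ : Finset (ιp q))) =>
      mul_le_mul_of_nonneg_left (h g) (hmu.nn g)
    rw [← Finset.sum_mul, hmu.one, one_mul] at h1
    exact h1
  have hb : ∀ k, nc N k ≤ box q k := by
    intro k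
    rcases hbox q k with h | ⟨h0, D, h1, h2⟩
    · exact (htd k).trans h
    · refine leak_lev hC hv hz (tq i) hNd k h0 (D := D) ?_ h2
      rcases h1 with h1 | h1
      · exact Or.inl (hle _ D h1)
      · exact Or.inr (hle _ D h1)
  have key := hpf q K σ hσ a c hC S hv mu hmu z hz ρ hρ hρb hM hδ x hx hxs N hNd hN hd hnb htd hb
    φ hφe hφ hφ1
  intro ζp z1 z2 lm l1 l2
  refine (key ζp z1 z2 lm l1 l2).mono ?_
  calc ∑ g, mu g * cst q g N ≤ ∑ g, mu g * Ph F (V' q g) (nc N) :=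
        Finset.sum_le_sum fun g _ => mul_le_mul_of_nonneg_left (hcst q g N nn hb) (hmu.nn g)
    _ = Ph F S (nc N) := Ph_dc hmu F _
    _ = ∑ v, lam v * Ph F (V v) (nc N) := (Ph_dc hlam F _).symm
    _ ≤ ∑ v, lam v * d.cost i v cl j j' N :=
        Finset.sum_le_sum fun v _ => mul_le_mul_of_nonneg_left (hcost v cl j j' N nn htd)
          (hlam.nn v)

/-- the check `cst ≤ Ph` of a vertex of a piece -/
theorem cst_phb {n : ℕ} {D : VE n} {p : PhN} {g : ℕ} {v : Fin 4 → ℕ} {t : Fin 3 → ℕ}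
    (h : phb p v t (D.A g) (D.B g) = true) {N : Fin 3 → Fin 3 → ℝ} (h0 : ∀ k, 0 ≤ nc N k)
    (h1 : ∀ k, nc N k ≤ (t k : ℝ) / 1000000) :
    D.cst g N ≤ Ph p.F (fun j => (v j : ℝ) / 1000000) (nc N) := by
  have := phb_le h h0 h1
  unfold VE.cst
  linarith

/-- the check `Ph ≤ cost` at a static vertex, numbers `A`, `B` of the cost -/
def phs (p : PhN) (v : Fin 4 → ℕ) (t : Fin 3 → ℕ) (A : ℕ) (B : Fin 3 → ℕ) : Bool :=
  [false, true].all fun b0 => [false, true].all fun b1 => [false, true].all fun b2 =>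
    decide (1000 * p.at 0 v + (p.at 1 v * (if b0 then (t 0 : ℤ) else 0)
      + p.at 2 v * (if b1 then (t 1 : ℤ) else 0) + p.at 3 v * (if b2 then (t 2 : ℤ) else 0)) ≤
    1000 * (A : ℤ) + ((B 0 : ℤ) * (if b0 then (t 0 : ℤ) else 0)
      + (B 1 : ℤ) * (if b1 then (t 1 : ℤ) else 0) + (B 2 : ℤ) * (if b2 then (t 2 : ℤ) else 0)))

theorem phs_le {p : PhN} {v : Fin 4 → ℕ} {t : Fin 3 → ℕ} {A : ℕ} {B : Fin 3 → ℕ}
    (h : phs p v t A B = true) {n : Fin 3 → ℝ} (hn0 : ∀ k, 0 ≤ n k)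
    (hn : ∀ k, n k ≤ (t k : ℝ) / 1000000) :
    Ph p.F (fun j => (v j : ℝ) / 1000000) n ≤
      (A : ℝ) / 1000000000000 + ((B 0 : ℝ) / 1000000000 * n 0 + (B 1 : ℝ) / 1000000000 * n 1
      + (B 2 : ℝ) / 1000000000 * n 2) := by
  rw [p.Ph_at]
  refine box_le (b := fun k => (B k : ℝ) / 1000000000)
    (B := ![((p.at 1 v : ℤ) : ℝ) / 1000000000, ((p.at 2 v : ℤ) : ℝ) / 1000000000,
      ((p.at 3 v : ℤ) : ℝ) / 1000000000]) hn0 hn fun r => ?_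
  have h2 : 1000 * p.at 0 v + (p.at 1 v * (if r 0 then (t 0 : ℤ) else 0)
      + p.at 2 v * (if r 1 then (t 1 : ℤ) else 0) + p.at 3 v * (if r 2 then (t 2 : ℤ) else 0)) ≤
    1000 * (A : ℤ) + ((B 0 : ℤ) * (if r 0 then (t 0 : ℤ) else 0)
      + (B 1 : ℤ) * (if r 1 then (t 1 : ℤ) else 0) + (B 2 : ℤ) * (if r 2 then (t 2 : ℤ) else 0)) := by
    unfold phs at h
    simp only [List.all_cons, List.all_nil, Bool.and_true, Bool.and_eq_true,
      decide_eq_true_eq] at h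
    obtain ⟨⟨⟨h1, h2⟩, h3, h4⟩, ⟨h5, h6⟩, h7, h8⟩ := h
    rcases hb0 : r 0 <;> rcases hb1 : r 1 <;> rcases hb2 : r 2 <;> assumption
  have h3 : 1000 * ((p.at 0 v : ℤ) : ℝ) + (((p.at 1 v : ℤ) : ℝ) * (if r 0 then (t 0 : ℝ) else 0)
      + ((p.at 2 v : ℤ) : ℝ) * (if r 1 then (t 1 : ℝ) else 0)
      + ((p.at 3 v : ℤ) : ℝ) * (if r 2 then (t 2 : ℝ) else 0)) ≤
    (1000 * (A : ℝ) + ((B 0 : ℝ) * (if r 0 then (t 0 : ℝ) else 0)
      + (B 1 : ℝ) * (if r 1 then (t 1 : ℝ) else 0) + (B 2 : ℝ) * (if r 2 then (t 2 : ℝ) else 0))) := by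
    exact_mod_cast h2
  simp only [Matrix.cons_val_zero, Matrix.cons_val_one, Matrix.cons_val]
  split_ifs at h3 ⊢ <;> linarith

end Helper21.Cvr
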