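import Pool.Agent.Helper21.MEI.Cvr2

/-!
# Project MEI (M2), track B: checks of an affine cost at rational vertices

Vertices with a common denominator: levels `v / (10⁶ q)`.
-/

set_option autoImplicit false

namespace Helper21.Cvr

open Helper80.CW Helper22.VR
open Pool.Agent.Helper55.Apex (nc)

/-- the value of the affine function `m` at the levels `v` (units `10⁻⁶ / q`), times `q` -/
def PhN.atq (p : PhN) (q : ℕ) (m : Fin 4) (v : Fin 4 → ℕ) : ℤ :=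
  (q : ℤ) * p.c m + (p.s m 0 * (v 0 : ℤ) + p.s m 1 * (v 1 : ℤ) + p.s m 2 * (v 2 : ℤ)
    + p.s m 3 * (v 3 : ℤ))

theorem PhN.Ph_atq (p : PhN) {q : ℕ} (hq : 0 < q) (v : Fin 4 → ℕ) (n : Fin 3 → ℝ) :
    (q : ℝ) * Ph p.F (fun j => (v j : ℝ) / (1000000 * q)) n =
      ((p.atq q 0 v : ℤ) : ℝ) / 1000000000000 +
      (((p.atq q 1 v : ℤ) : ℝ) / 1000000000 * n 0 + ((p.atq q 2 v : ℤ) : ℝ) / 1000000000 * n 1
        + ((p.atq q 3 v : ℤ) : ℝ) / 1000000000 * n 2) := by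
  have hq' : (q : ℝ) ≠ 0 := by exact_mod_cast hq.ne'
  unfold Ph aff PhN.F PhN.atq
  simp only [Fin.sum_univ_four, if_true, show ¬ ((1 : Fin 4) = 0) by decide,
    show ¬ ((2 : Fin 4) = 0) by decide, show ¬ ((3 : Fin 4) = 0) by decide, if_false]
  push_cast
  field_simp
  ring

/-- `cst ≤ Ph` on the box -/
def phbq (p : PhN) (q : ℕ) (v : Fin 4 → ℕ) (t : Fin 3 → ℕ) (A : ℕ) (B : Fin 3 → ℕ) : Bool :=
  [false, true].all fun b0 => [false, true].all fun b1 => [false, true].all fun b2 =>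
    decide ((q : ℤ) * (1000 * (A : ℤ) + ((B 0 : ℤ) * (if b0 then (t 0 : ℤ) else 0)
      + (B 1 : ℤ) * (if b1 then (t 1 : ℤ) else 0) + (B 2 : ℤ) * (if b2 then (t 2 : ℤ) else 0))) ≤
    1000 * p.atq q 0 v + (p.atq q 1 v * (if b0 then (t 0 : ℤ) else 0)
      + p.atq q 2 v * (if b1 then (t 1 : ℤ) else 0)
      + p.atq q 3 v * (if b2 then (t 2 : ℤ) else 0)))

/-- `Ph ≤ cost` on the box -/
def phsq (p : PhN) (q : ℕ) (v : Fin 4 → ℕ) (t : Fin 3 → ℕ) (A : ℕ) (B : Fin 3 → ℕ) : Bool :=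
  [false, true].all fun b0 => [false, true].all fun b1 => [false, true].all fun b2 =>
    decide (1000 * p.atq q 0 v + (p.atq q 1 v * (if b0 then (t 0 : ℤ) else 0)
      + p.atq q 2 v * (if b1 then (t 1 : ℤ) else 0)
      + p.atq q 3 v * (if b2 then (t 2 : ℤ) else 0)) ≤
    (q : ℤ) * (1000 * (A : ℤ) + ((B 0 : ℤ) * (if b0 then (t 0 : ℤ) else 0)
      + (B 1 : ℤ) * (if b1 then (t 1 : ℤ) else 0) + (B 2 : ℤ) * (if b2 then (t 2 : ℤ) else 0))))

theorem phbq_le {p : PhN} {q : ℕ} (hq : 0 < q) {v : Fin 4 → ℕ} {t : Fin 3 → ℕ} {A : ℕ}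
    {B : Fin 3 → ℕ} (h : phbq p q v t A B = true) {n : Fin 3 → ℝ} (hn0 : ∀ k, 0 ≤ n k)
    (hn : ∀ k, n k ≤ (t k : ℝ) / 1000000) :
    (A : ℝ) / 1000000000000 + ((B 0 : ℝ) / 1000000000 * n 0 + (B 1 : ℝ) / 1000000000 * n 1
      + (B 2 : ℝ) / 1000000000 * n 2) ≤ Ph p.F (fun j => (v j : ℝ) / (1000000 * q)) n := by
  have hq' : (0 : ℝ) < q := by exact_mod_cast hq
  refine le_of_mul_le_mul_left ?_ hq'
  rw [p.Ph_atq hq]
  have key := box_le (A := q * ((A : ℝ) / 1000000000000))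
    (B := fun k => q * ((B k : ℝ) / 1000000000))
    (a := ((p.atq q 0 v : ℤ) : ℝ) / 1000000000000)
    (b := ![((p.atq q 1 v : ℤ) : ℝ) / 1000000000, ((p.atq q 2 v : ℤ) : ℝ) / 1000000000,
      ((p.atq q 3 v : ℤ) : ℝ) / 1000000000]) hn0 hn fun r => by
      have h2 : (q : ℤ) * (1000 * (A : ℤ) + ((B 0 : ℤ) * (if r 0 then (t 0 : ℤ) else 0)
          + (B 1 : ℤ) * (if r 1 then (t 1 : ℤ) else 0)
          + (B 2 : ℤ) * (if r 2 then (t 2 : ℤ) else 0))) ≤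
        1000 * p.atq q 0 v + (p.atq q 1 v * (if r 0 then (t 0 : ℤ) else 0)
          + p.atq q 2 v * (if r 1 then (t 1 : ℤ) else 0)
          + p.atq q 3 v * (if r 2 then (t 2 : ℤ) else 0)) := by
        unfold phbq at h
        simp only [List.all_cons, List.all_nil, Bool.and_true, Bool.and_eq_true,
          decide_eq_true_eq] at h
        obtain ⟨⟨⟨h1, h2⟩, h3, h4⟩, ⟨h5, h6⟩, h7, h8⟩ := h
        rcases hb0 : r 0 <;> rcases hb1 : r 1 <;> rcases hb2 : r 2 <;> assumption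
      have h3 : (q : ℝ) * (1000 * (A : ℝ) + ((B 0 : ℝ) * (if r 0 then (t 0 : ℝ) else 0)
          + (B 1 : ℝ) * (if r 1 then (t 1 : ℝ) else 0)
          + (B 2 : ℝ) * (if r 2 then (t 2 : ℝ) else 0))) ≤
        1000 * ((p.atq q 0 v : ℤ) : ℝ)
          + (((p.atq q 1 v : ℤ) : ℝ) * (if r 0 then (t 0 : ℝ) else 0)
          + ((p.atq q 2 v : ℤ) : ℝ) * (if r 1 then (t 1 : ℝ) else 0)
          + ((p.atq q 3 v : ℤ) : ℝ) * (if r 2 then (t 2 : ℝ) else 0)) := by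
        exact_mod_cast h2
      simp only [Matrix.cons_val_zero, Matrix.cons_val_one, Matrix.cons_val]
      split_ifs at h3 ⊢ <;> linarith
  simp only [Matrix.cons_val_zero, Matrix.cons_val_one, Matrix.cons_val] at key
  linarith

theorem phsq_le {p : PhN} {q : ℕ} (hq : 0 < q) {v : Fin 4 → ℕ} {t : Fin 3 → ℕ} {A : ℕ}
    {B : Fin 3 → ℕ} (h : phsq p q v t A B = true) {n : Fin 3 → ℝ} (hn0 : ∀ k, 0 ≤ n k)
    (hn : ∀ k, n k ≤ (t k : ℝ) / 1000000) :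
    Ph p.F (fun j => (v j : ℝ) / (1000000 * q)) n ≤
      (A : ℝ) / 1000000000000 + ((B 0 : ℝ) / 1000000000 * n 0 + (B 1 : ℝ) / 1000000000 * n 1
      + (B 2 : ℝ) / 1000000000 * n 2) := by
  have hq' : (0 : ℝ) < q := by exact_mod_cast hq
  refine le_of_mul_le_mul_left ?_ hq'
  rw [p.Ph_atq hq]
  have key := box_le (a := q * ((A : ℝ) / 1000000000000))
    (b := fun k => q * ((B k : ℝ) / 1000000000))
    (A := ((p.atq q 0 v : ℤ) : ℝ) / 1000000000000)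
    (B := ![((p.atq q 1 v : ℤ) : ℝ) / 1000000000, ((p.atq q 2 v : ℤ) : ℝ) / 1000000000,
      ((p.atq q 3 v : ℤ) : ℝ) / 1000000000]) hn0 hn fun r => by
      have h2 : 1000 * p.atq q 0 v + (p.atq q 1 v * (if r 0 then (t 0 : ℤ) else 0)
          + p.atq q 2 v * (if r 1 then (t 1 : ℤ) else 0)
          + p.atq q 3 v * (if r 2 then (t 2 : ℤ) else 0)) ≤
        (q : ℤ) * (1000 * (A : ℤ) + ((B 0 : ℤ) * (if r 0 then (t 0 : ℤ) else 0)
          + (B 1 : ℤ) * (if r 1 then (t 1 : ℤ) else 0)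
          + (B 2 : ℤ) * (if r 2 then (t 2 : ℤ) else 0))) := by
        unfold phsq at h
        simp only [List.all_cons, List.all_nil, Bool.and_true, Bool.and_eq_true,
          decide_eq_true_eq] at h
        obtain ⟨⟨⟨h1, h2⟩, h3, h4⟩, ⟨h5, h6⟩, h7, h8⟩ := h
        rcases hb0 : r 0 <;> rcases hb1 : r 1 <;> rcases hb2 : r 2 <;> assumption
      have h3 : 1000 * ((p.atq q 0 v : ℤ) : ℝ)
          + (((p.atq q 1 v : ℤ) : ℝ) * (if r 0 then (t 0 : ℝ) else 0)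
          + ((p.atq q 2 v : ℤ) : ℝ) * (if r 1 then (t 1 : ℝ) else 0)
          + ((p.atq q 3 v : ℤ) : ℝ) * (if r 2 then (t 2 : ℝ) else 0)) ≤
        (q : ℝ) * (1000 * (A : ℝ) + ((B 0 : ℝ) * (if r 0 then (t 0 : ℝ) else 0)
          + (B 1 : ℝ) * (if r 1 then (t 1 : ℝ) else 0)
          + (B 2 : ℝ) * (if r 2 then (t 2 : ℝ) else 0))) := by
        exact_mod_cast h2
      simp only [Matrix.cons_val_zero, Matrix.cons_val_one, Matrix.cons_val]
      split_ifs at h3 ⊢ <;> linarith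
  simp only [Matrix.cons_val_zero, Matrix.cons_val_one, Matrix.cons_val] at key
  linarith

/-- the check `cst ≤ Ph` of a vertex of a piece -/
theorem cst_phbq {n : ℕ} {D : VE n} {p : PhN} {q : ℕ} (hq : 0 < q) {g : ℕ} {v : Fin 4 → ℕ}
    {t : Fin 3 → ℕ} (h : phbq p q v t (D.A g) (D.B g) = true) {N : Fin 3 → Fin 3 → ℝ}
    (h0 : ∀ k, 0 ≤ nc N k) (h1 : ∀ k, nc N k ≤ (t k : ℝ) / 1000000) :
    D.cst g N ≤ Ph p.F (fun j => (v j : ℝ) / (1000000 * q)) (nc N) := by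
  have := phbq_le hq h h0 h1
  unfold VE.cst
  linarith

end Helper21.Cvr
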