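import Pool.Agent.Helper21.MEI.Cvr2

/-!
# Project MEI (M2), track B: an affine cost with rational coefficients

`PhQ` = rational coefficients of an affine cost; `PhQ.up`, `PhQ.lo` = the checks at a static
vertex and at a vertex of a piece (box of the leaks).
-/

set_option autoImplicit false

namespace Helper21.Cvr

open Helper80.CW Helper22.VR
open Pool.Agent.Helper55.Apex (nc)

/-- rational coefficients: constant parts and slopes of `a, b_0, b_1, b_2` -/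
structure PhQ where
  c : Fin 4 → ℚ
  s : Fin 4 → Fin 4 → ℚ

/-- the affine function -/
noncomputable def PhQ.F (p : PhQ) : Fin 4 → ℝ × (Fin 4 → ℝ) := fun m =>
  ((p.c m : ℝ), fun j => (p.s m j : ℝ))

/-- the coefficient `m` at the levels `V` -/
def PhQ.at (p : PhQ) (m : Fin 4) (V : Fin 4 → ℚ) : ℚ :=
  p.c m + (p.s m 0 * V 0 + p.s m 1 * V 1 + p.s m 2 * V 2 + p.s m 3 * V 3)

theorem PhQ.Ph_at (p : PhQ) (V : Fin 4 → ℚ) (n : Fin 3 → ℝ) :
    Ph p.F (fun j => (V j : ℝ)) n = ((p.at 0 V : ℚ) : ℝ) + (((p.at 1 V : ℚ) : ℝ) * n 0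
      + ((p.at 2 V : ℚ) : ℝ) * n 1 + ((p.at 3 V : ℚ) : ℝ) * n 2) := by
  unfold Ph aff PhQ.F PhQ.at
  simp only [Fin.sum_univ_four]
  push_cast
  ring

/-- the check at a static vertex with the cost `z0 + z.n` -/
def PhQ.up (p : PhQ) (V : Fin 4 → ℚ) (z0 : ℚ) (z : Fin 3 → ℚ) : Bool :=
  decide (p.at 0 V ≤ z0) && decide (p.at 1 V ≤ z 0) && decide (p.at 2 V ≤ z 1) &&
    decide (p.at 3 V ≤ z 2)

theorem PhQ.up_le {p : PhQ} {V : Fin 4 → ℚ} {z0 : ℚ} {z : Fin 3 → ℚ} (h : p.up V z0 z = true)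
    {n : Fin 3 → ℝ} (hn : ∀ k, 0 ≤ n k) :
    Ph p.F (fun j => (V j : ℝ)) n ≤ (z0 : ℝ) + ((z 0 : ℝ) * n 0 + (z 1 : ℝ) * n 1
      + (z 2 : ℝ) * n 2) := by
  unfold PhQ.up at h
  simp only [Bool.and_eq_true, decide_eq_true_eq] at h
  obtain ⟨⟨⟨h0, h1⟩, h2⟩, h3⟩ := h
  rw [p.Ph_at]
  have e0 : ((p.at 0 V : ℚ) : ℝ) ≤ (z0 : ℝ) := by exact_mod_cast h0
  have e1 : ((p.at 1 V : ℚ) : ℝ) ≤ (z 0 : ℝ) := by exact_mod_cast h1
  have e2 : ((p.at 2 V : ℚ) : ℝ) ≤ (z 1 : ℝ) := by exact_mod_cast h2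
  have e3 : ((p.at 3 V : ℚ) : ℝ) ≤ (z 2 : ℝ) := by exact_mod_cast h3
  have m1 := mul_le_mul_of_nonneg_right e1 (hn 0)
  have m2 := mul_le_mul_of_nonneg_right e2 (hn 1)
  have m3 := mul_le_mul_of_nonneg_right e3 (hn 2)
  linarith

/-- the check at a vertex of a piece, cost `A + B.n`, leaks in the box `t` -/
def PhQ.lo (p : PhQ) (V : Fin 4 → ℚ) (t : Fin 3 → ℚ) (A : ℚ) (B : Fin 3 → ℚ) : Bool :=
  [false, true].all fun b0 => [false, true].all fun b1 => [false, true].all fun b2 =>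
    decide (A + (B 0 * (if b0 then t 0 else 0) + B 1 * (if b1 then t 1 else 0)
      + B 2 * (if b2 then t 2 else 0)) ≤
    p.at 0 V + (p.at 1 V * (if b0 then t 0 else 0) + p.at 2 V * (if b1 then t 1 else 0)
      + p.at 3 V * (if b2 then t 2 else 0)))

theorem PhQ.lo_le {p : PhQ} {V : Fin 4 → ℚ} {t : Fin 3 → ℚ} {A : ℚ} {B : Fin 3 → ℚ}
    (h : p.lo V t A B = true) {n : Fin 3 → ℝ} (hn0 : ∀ k, 0 ≤ n k) (hn : ∀ k, n k ≤ (t k : ℝ)) :
    (A : ℝ) + ((B 0 : ℝ) * n 0 + (B 1 : ℝ) * n 1 + (B 2 : ℝ) * n 2) ≤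
      Ph p.F (fun j => (V j : ℝ)) n := by
  rw [p.Ph_at]
  have key := box_le (A := (A : ℝ)) (B := fun k => (B k : ℝ)) (a := ((p.at 0 V : ℚ) : ℝ))
    (b := ![((p.at 1 V : ℚ) : ℝ), ((p.at 2 V : ℚ) : ℝ), ((p.at 3 V : ℚ) : ℝ)])
    (t := fun k => (t k : ℝ)) hn0 hn fun r => by
      have h2 : A + (B 0 * (if r 0 then t 0 else 0) + B 1 * (if r 1 then t 1 else 0)
          + B 2 * (if r 2 then t 2 else 0)) ≤
        p.at 0 V + (p.at 1 V * (if r 0 then t 0 else 0) + p.at 2 V * (if r 1 then t 1 else 0)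
          + p.at 3 V * (if r 2 then t 2 else 0)) := by
        unfold PhQ.lo at h
        simp only [List.all_cons, List.all_nil, Bool.and_true, Bool.and_eq_true,
          decide_eq_true_eq] at h
        obtain ⟨⟨⟨h1, h2⟩, h3, h4⟩, ⟨h5, h6⟩, h7, h8⟩ := h
        rcases hb0 : r 0 <;> rcases hb1 : r 1 <;> rcases hb2 : r 2 <;> assumption
      have h3 : (A : ℝ) + ((B 0 : ℝ) * (if r 0 then (t 0 : ℝ) else 0)
          + (B 1 : ℝ) * (if r 1 then (t 1 : ℝ) else 0)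
          + (B 2 : ℝ) * (if r 2 then (t 2 : ℝ) else 0)) ≤
        ((p.at 0 V : ℚ) : ℝ) + (((p.at 1 V : ℚ) : ℝ) * (if r 0 then (t 0 : ℝ) else 0)
          + ((p.at 2 V : ℚ) : ℝ) * (if r 1 then (t 1 : ℝ) else 0)
          + ((p.at 3 V : ℚ) : ℝ) * (if r 2 then (t 2 : ℝ) else 0)) := by
        have e : ∀ k : Fin 3, (((if r k then t k else 0 : ℚ)) : ℝ) =
            if r k then (t k : ℝ) else 0 := fun k => by
          split_ifs
          · rfl
          · exact Rat.cast_zero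
        rw [← e 0, ← e 1, ← e 2]
        exact_mod_cast h2
      simp only [Matrix.cons_val_zero, Matrix.cons_val_one, Matrix.cons_val]
      exact h3
  simp only [Matrix.cons_val_zero, Matrix.cons_val_one, Matrix.cons_val] at key
  exact key

/-- the check at a vertex of a piece, numbers of `VE` -/
def PhQ.lov {n : ℕ} (p : PhQ) (D : VE n) (t : Fin 3 → ℚ) (g : ℕ) (V : Fin 4 → ℚ) : Bool :=
  p.lo V t ((D.A g : ℚ) / 1000000000000) fun k => (D.B g k : ℚ) / 1000000000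

theorem PhQ.lov_le {n : ℕ} {p : PhQ} {D : VE n} {t : Fin 3 → ℚ} {g : ℕ} {V : Fin 4 → ℚ}
    (h : p.lov D t g V = true) {N : Fin 3 → Fin 3 → ℝ} (h0 : ∀ k, 0 ≤ nc N k)
    (h1 : ∀ k, nc N k ≤ (t k : ℝ)) : D.cst g N ≤ Ph p.F (fun j => (V j : ℝ)) (nc N) := by
  have := PhQ.lo_le h h0 h1
  push_cast at this
  unfold VE.cst
  linarith

/-- the leak box of a piece: level `D`, box `T` -/
def bxq (D T : ℚ) : Bool := decide (0 ≤ T) && decide (2 * D * (1 + T / 2) ^ 2 ≤ T ^ 2)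

theorem bxq_iff {D T : ℚ} (h : bxq D T = true) :
    0 ≤ (T : ℝ) ∧ 2 * (D : ℝ) * (1 + (T : ℝ) / 2) ^ 2 ≤ (T : ℝ) ^ 2 := by
  unfold bxq at h
  simp only [Bool.and_eq_true, decide_eq_true_eq] at h
  refine ⟨by exact_mod_cast h.1, ?_⟩
  have := h.2
  exact_mod_cast this

end Helper21.Cvr
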