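import Pool.Agent.Helper21.MEI.CStrip4

/-!
# Project MEI (M2), TEAM F: strip integrals of the wall credit, fibres
-/

set_option autoImplicit false

namespace Helper21.MEI.FStrip

open Set MeasureTheory Pool.Agent.Helper55.Sx Pool.Agent.Helper55.Mass
open Helper21.MEI.CStrip
open Pool.Agent.Helper96.Kap (fibf fibf_meas fibf_bd fibf_int fibre_low t3_meas)

/-- the quadratic fibre function -/
noncomputable def fib2 (g n : ℝ) (x : ℝ) : ℝ :=
  (1 - x) * (if x < (1 - x) * n then
      ((1 - x) * n * (1 - x / ((1 - x) * n))) ^ 2 / (g * (1 - x) ^ 2 + x) ^ 2 else 0)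

theorem fib2_meas (g n : ℝ) : Measurable (fib2 g n) := by
  unfold fib2
  refine (by fun_prop : Measurable fun x : ℝ => 1 - x).mul
    (Measurable.ite (measurableSet_lt measurable_id (by fun_prop)) ?_ measurable_const)
  exact (((by fun_prop : Measurable fun x : ℝ => (1 - x) * n).mul
    (measurable_const.sub (measurable_id.div (by fun_prop)))).pow_const 2).div (by fun_prop)

theorem fib2_bd {g n : ℝ} (hg : 3 / 4 ≤ g) (hn : 0 ≤ n) {x : ℝ}
    (hx : x ∈ Icc (0 : ℝ) 1) : 0 ≤ fib2 g n x ∧ fib2 g n x ≤ 4 * n ^ 2 := by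
  obtain ⟨a1, a2⟩ := hx
  unfold fib2
  split_ifs with hc
  · have h6 : 0 < 1 - x := by
      rcases eq_or_lt_of_le a2 with h | h
      · rw [h] at hc
        norm_num at hc
      · linarith
    have hL : 0 < (1 - x) * n := lt_of_le_of_lt a1 hc
    have n0 : 0 ≤ x / ((1 - x) * n) := div_nonneg a1 hL.le
    have n1 : x / ((1 - x) * n) ≤ 1 := (div_le_one hL).2 hc.le
    have m1 : (1 / 2 : ℝ) ≤ g * (1 - x) ^ 2 + x := by
      have := mul_le_mul_of_nonneg_right hg (sq_nonneg (1 - x))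
      nlinarith [sq_nonneg (x - 1 / 3)]
    have m2 : (1 / 4 : ℝ) ≤ (g * (1 - x) ^ 2 + x) ^ 2 := by nlinarith
    have p1 : 0 ≤ (1 - x) * n * (1 - x / ((1 - x) * n)) := mul_nonneg hL.le (by linarith)
    have p2 : (1 - x) * n * (1 - x / ((1 - x) * n)) ≤ n := by
      have q1 : (1 - x) * n ≤ 1 * n := mul_le_mul_of_nonneg_right (by linarith) hn
      have q2 := mul_le_mul_of_nonneg_left (show 1 - x / ((1 - x) * n) ≤ 1 by linarith) hL.le
      linarith
    have p3 : ((1 - x) * n * (1 - x / ((1 - x) * n))) ^ 2 ≤ n ^ 2 := pow_le_pow_left₀ p1 p2 2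
    have p4 : ((1 - x) * n * (1 - x / ((1 - x) * n))) ^ 2 / (g * (1 - x) ^ 2 + x) ^ 2
        ≤ 4 * n ^ 2 := by
      rw [div_le_iff₀ (by positivity)]
      have := mul_le_mul_of_nonneg_left m2 (show 0 ≤ 4 * n ^ 2 by positivity)
      linarith
    have p5 : 0 ≤ ((1 - x) * n * (1 - x / ((1 - x) * n))) ^ 2 / (g * (1 - x) ^ 2 + x) ^ 2 := by
      positivity
    refine ⟨mul_nonneg h6.le p5, ?_⟩
    have := mul_le_mul_of_nonneg_right (show 1 - x ≤ 1 by linarith) p5
    linarith
  · simp only [mul_zero, le_refl, true_and]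
    positivity

theorem fib2_int {g n : ℝ} (hg : 3 / 4 ≤ g) (hn : 0 ≤ n) :
    IntegrableOn (fib2 g n) (Icc (0 : ℝ) 1) := by
  refine Measure.integrableOn_of_bounded (M := 4 * n ^ 2) (by simp)
    (fib2_meas g n).aestronglyMeasurable ?_
  filter_upwards [ae_restrict_mem measurableSet_Icc] with x hx
  obtain ⟨b1, b2⟩ := fib2_bd hg hn hx
  rw [Real.norm_eq_abs, abs_of_nonneg b1]
  exact b2

/-- **fibre integral of the square, upper bound** -/
theorem fib2_up {g n : ℝ} (hg : 3 / 4 ≤ g) (hn : 0 < n) :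
    ∫ x in Icc (0 : ℝ) 1, fib2 g n x ≤ n ^ 3 / 3 * (1 / g ^ 2) := by
  have hg0 : 0 < g := by linarith
  set xe : ℝ := n / (1 + n) with hxe
  have hxe0 : 0 ≤ xe := by positivity
  have hxe1 : xe < 1 := by
    rw [hxe, div_lt_one (by positivity)]
    linarith
  have hxee : xe / (1 - xe) = n := by
    rw [hxe]
    field_simp
    ring
  have hder : ∀ x ∈ uIcc 0 xe, HasDerivAt
      (fun x : ℝ => -(n ^ 3 / 3 * (1 - x / (1 - x) / n) ^ 3) * (1 / g ^ 2))
      (n ^ 2 * (1 - x / (1 - x) / n) ^ 2 / (1 - x) ^ 2 * (1 / g ^ 2)) x := by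
    intro x hx
    rw [uIcc_of_le hxe0] at hx
    have h1 : 0 < 1 - x := by linarith [hx.2]
    have hu : HasDerivAt (fun x : ℝ => x / (1 - x)) (1 / (1 - x) ^ 2) x := by
      have := (hasDerivAt_id x).div ((hasDerivAt_id x).const_sub 1) h1.ne'
      refine this.congr_deriv ?_
      simp only [id]
      field_simp
      ring
    have h2 := (((((hu.div_const n).const_sub 1).pow 3).const_mul (n ^ 3 / 3)).neg).mul_const
      (1 / g ^ 2)
    refine h2.congr_deriv ?_
    simp only [Nat.cast_ofNat, show (3 : ℕ) - 1 = 2 from rfl]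
    field_simp
  have hne : ∀ x ∈ Icc 0 xe, (1 - x) ≠ 0 := fun x hx => by
    have : 0 < 1 - x := by linarith [hx.2]
    exact this.ne'
  have hcu : ContinuousOn (fun x : ℝ => x / (1 - x)) (Icc 0 xe) :=
    continuousOn_id.div (by fun_prop) hne
  have hco : ContinuousOn (fun x : ℝ => n ^ 2 * (1 - x / (1 - x) / n) ^ 2 / (1 - x) ^ 2
      * (1 / g ^ 2)) (Icc 0 xe) := by
    refine ContinuousOn.mul (ContinuousOn.div ?_ (by fun_prop) fun x hx => pow_ne_zero 2 (hne x hx))
      continuousOn_const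
    exact continuousOn_const.mul ((continuousOn_const.sub (hcu.div_const n)).pow 2)
  have hcont : ContinuousOn (fun x : ℝ => n ^ 2 * (1 - x / (1 - x) / n) ^ 2 / (1 - x) ^ 2
      * (1 / g ^ 2)) (uIcc 0 xe) := by
    rw [uIcc_of_le hxe0]
    exact hco
  have hint := intervalIntegral.integral_eq_sub_of_hasDerivAt hder hcont.intervalIntegrable
  have hval : ∫ x in (0 : ℝ)..xe, n ^ 2 * (1 - x / (1 - x) / n) ^ 2 / (1 - x) ^ 2 * (1 / g ^ 2)
      = n ^ 3 / 3 * (1 / g ^ 2) := by
    rw [hint, hxee]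
    have e0 : (0 : ℝ) / (1 - 0) = 0 := by simp
    have e1 : n / n = 1 := div_self hn.ne'
    rw [e0, e1]
    ring
  rw [← hval, intervalIntegral.integral_of_le hxe0, ← integral_Icc_eq_integral_Ioc,
    ← integral_indicator measurableSet_Icc, ← integral_indicator measurableSet_Icc]
  refine integral_mono ((integrable_indicator_iff measurableSet_Icc).2 (fib2_int hg hn.le))
    ((integrable_indicator_iff measurableSet_Icc).2
      (hco.integrableOn_compact isCompact_Icc)) fun x => ?_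
  have hpos : ∀ x ∈ Icc (0 : ℝ) xe,
      0 ≤ n ^ 2 * (1 - x / (1 - x) / n) ^ 2 / (1 - x) ^ 2 * (1 / g ^ 2) := fun x hx => by
    positivity
  by_cases h1 : x ∈ Icc (0 : ℝ) 1
  · rw [indicator_of_mem h1]
    by_cases h3 : x ∈ Icc (0 : ℝ) xe
    · rw [indicator_of_mem h3]
      have h6 : 0 < 1 - x := by linarith [h3.2]
      have h7 : 1 - x ≤ 1 := by linarith [h1.1]
      unfold fib2
      split_ifs with hc
      · have e : (1 - x) * n * (1 - x / ((1 - x) * n)) = (1 - x) * (n * (1 - x / (1 - x) / n)) := by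
          rw [div_div x (1 - x) n]
          ring
        rw [e]
        set w := n * (1 - x / (1 - x) / n) with hw
        have e2 : n ^ 2 * (1 - x / (1 - x) / n) ^ 2 = w ^ 2 := by rw [hw]; ring
        rw [e2]
        have hm : g * (1 - x) ^ 2 ≤ g * (1 - x) ^ 2 + x := by linarith [h1.1]
        have hm0 : 0 < g * (1 - x) ^ 2 := by positivity
        have hm2 : (g * (1 - x) ^ 2) ^ 2 ≤ (g * (1 - x) ^ 2 + x) ^ 2 :=
          pow_le_pow_left₀ hm0.le hm 2
        have k1 : ((1 - x) * w) ^ 2 / (g * (1 - x) ^ 2 + x) ^ 2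
            ≤ ((1 - x) * w) ^ 2 / (g * (1 - x) ^ 2) ^ 2 :=
          div_le_div_of_nonneg_left (by positivity) (by positivity) hm2
        have k2 : ((1 - x) * w) ^ 2 / (g * (1 - x) ^ 2) ^ 2
            = w ^ 2 / (1 - x) ^ 2 * (1 / g ^ 2) := by
          field_simp
        rw [k2] at k1
        have k3 : 0 ≤ ((1 - x) * w) ^ 2 / (g * (1 - x) ^ 2 + x) ^ 2 := by positivity
        have k4 := mul_le_mul_of_nonneg_right h7 k3
        linarith
      · rw [mul_zero]
        exact hpos x h3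
    · rw [indicator_of_notMem h3]
      unfold fib2
      rw [if_neg, mul_zero]
      intro hc
      apply h3
      refine ⟨h1.1, ?_⟩
      rw [hxe, le_div_iff₀ (by positivity)]
      nlinarith
  · rw [indicator_of_notMem h1]
    by_cases h3 : x ∈ Icc (0 : ℝ) xe
    · exact absurd ⟨h3.1, by linarith [h3.2]⟩ h1
    · rw [indicator_of_notMem h3]

end Helper21.MEI.FStrip
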