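import Pool.Agent.Helper21.MEI.FVe1

/-!
# Project MEI (M2): the face of a placed body with a moment for every end of every arc

`arcE` = prices of the arcs, `face_numTe` = helper73's `face_numT` with `arcE`.
-/

set_option autoImplicit false

namespace Helper21.FVe

open Set Metric MeasureTheory Helper80.CW Helper82.CW Helper14.CW Helper93.MEI Helper82.M2
open Helper14.MEI2 Pool.Agent.Helper52.MEI Pool.Agent.Helper73.MEI Helper37.MEI Helper41.MEI
open Helper33.MEI (Wi)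
open Pool.Agent.Helper55.Sx (Sim)
open Pool.Agent.Helper55.Mass (LN vv vv_nonneg B0 B0_ge)
open Pool.Agent.Helper55.Apex (nc)
open Pool.Agent.Helper55.ApexP (PN alP alP_nonneg alP_zeta mu_bal)
open Pool.Agent.Helper55.Fill (xx rr)
open Pool.Agent.Helper73.MEI.SideP (flP flP_meas flP_nonneg flP_zero flP_pair)
open Pool.Agent.Helper96.Kap (kap kap_nonneg kap_meas kap_le_one kap_add)
open Pool.Agent.Helper31.SR
open Helper78.MEI
open Pool.Agent.Helper73.MEI.ZEl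
open Pool.Agent.Helper73.MEI.ArCor
open Helper75.MEI2 (mu vt)
open scoped RealInnerProductSpace ENNReal

/-- the price of the three arcs: `ρ p` capacity, `ρe p k` moment at the end `k` -/
noncomputable def arcE (A' : ℝ) (ρ : Fin 3 → ℝ) (ρe : Fin 3 → Fin 3 → ℝ) (κ R S : Fin 3 → ℝ) : ℝ :=
  (ρe 0 1 / ρ 0 * pp (ρ 0 * R 1 - A' * κ 0 * (R 1 + S 1))
      + ρe 0 2 / ρ 0 * pp (ρ 0 * R 2 - A' * κ 0 * (R 2 + S 2)))
    + (ρe 1 0 / ρ 1 * pp (ρ 1 * R 0 - A' * κ 1 * (R 0 + S 0))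
      + ρe 1 2 / ρ 1 * pp (ρ 1 * R 2 - A' * κ 1 * (R 2 + S 2)))
    + (ρe 2 0 / ρ 2 * pp (ρ 2 * R 0 - A' * κ 2 * (R 0 + S 0))
      + ρe 2 1 / ρ 2 * pp (ρ 2 * R 1 - A' * κ 2 * (R 1 + S 1)))

variable {a : Fin 4 → E3} {K : Set E3} {S : Fin 4 → ℝ} {σ : Measure (E3 × E3)}
  {c : Fin 4 → E3} {z : Fin 4 → Fin 4 → E3} {X rm qm nb ρ1 Rb gg ε k1 k12 t2 δ : ℝ}

/-- `face_numT` with a moment for every end -/
theorem face_numTe [IsFiniteMeasure σ]
    (P : Rn X rm qm nb ρ1 Rb gg ε k1 k12 t2 δ)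
    (h : CN K σ a c) (v : Viol K a S) (hz : CV a K z)
    (τ : Equiv.Perm (Fin 4)) (hX : S (τ 0) + (S (τ 1) + S (τ 2) + S (τ 3)) ≤ X)
    {A : ℝ} (hA : 7 / 2 ≤ A)
    {l : Fin 3 → Bool → Bool → E3 × E3 → ℝ} (hl : Lok a l)
    {δ3 dE dm : Fin 3 → ℝ} (hδ : ∀ p, MA σ a l τ p p ≤ δ3 p) (hdE : ∀ p, 0 ≤ dE p)
    (hdm : ∀ p, 0 ≤ dm p) (hdd : ∀ p, δ3 p ^ 2 ≤ dE p * dm p)
    {ρ : Fin 3 → ℝ} (hρ : ∀ p, 0 < ρ p) (hMρ : ∀ p k, k ≠ p → MA σ a l τ p k ≤ ρ p)
    {ρe : Fin 3 → Fin 3 → ℝ} (hMe : ∀ p k, k ≠ p → MA σ a l τ p k ≤ ρe p k)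
    {x : E3} (hx : x ∈ K) (hxs : Qv a (τ 0) x = S (τ 0) ∨ S (τ 0) = 0)
    {N : Fin 3 → Fin 3 → ℝ} (hNd : N = NM (fun i => a (τ i)) (fun i j => z (τ i) (τ j)))
    {R : Fin 3 → ℝ} (hR0 : ∀ k, 0 ≤ R k)
    (hRd : ∀ k, R k ≤ RM (fun i => a (τ i)) (fun i j => z (τ i) (τ j)) k)
    (hRl : ∀ k, qm * nc N k ^ 2 / 2 ≤ R k)
    {κ : Fin 3 → ℝ} (hκ0 : ∀ p, 0 ≤ κ p) (hκρ : ∀ p, (A / 2 + 1 / 8) * κ p ≤ ρ p)
    (hκ : ∀ p, κ p ≤ Pool.Agent.Helper55.Mass.Id (fun t => kap N (vv t) p))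
    {φ : ℝ} (hφ0 : 0 < φ) (hφ1 : φ ≤ 1)
    (hF : ∀ p, ρ p - (A / 2 + 1 / 8) * κ p ≤
      φ * ((A / 2 + 1 / 8) * Pool.Agent.Helper55.Mass.Id (flP (PN N) p)))
    {r : Fin 3 → ℝ} (hr : ∀ k, Pool.Agent.Helper55.Mass.Id (fun t => rr N (vv t) k) ≤ r k)
    {H : Fin 3 → ℝ} (hH : ∀ j, H j + (N 0 j * H 0 + N 1 j * H 1 + N 2 j * H 2) = R j) :
    ∃ i j : Fin 3, i ≠ j ∧ ∀ ζp : Fin 3 → ℝ, (∀ k, 0 < ζp k) →
      (∀ k, zc (fun i => a (τ i)) N x k ≤ ζp k) → ∀ lamM, 0 ≤ lamM → lamM ≤ 1 - φ →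
      ∀ g, 0 ≤ g → g ≤ (A / 2 + 1 / 8) * (lamM * Pool.Agent.Helper55.Mass.Id (alP N ζp)) →
      ∀ cst, (∀ lam, 0 ≤ lam → lam ≤ lamM → WCost a K τ (A / 2 + 1 / 8)
        (GM (A / 2 + 1 / 8) N (zc (fun i => a (τ i)) N x) ζp lam (fun p t => φ * flP (PN N) p t)
          (fun p t => kap N (vv t) p) (fun p => (A / 2 + 1 / 8) * κ p / ρ p) (MB σ a l τ)
          (fun p => aE σ a l (τ 0) (τ p.succ) - dE p) R (fun k => S (τ k.succ)) (S (τ 0)))
        (DM (A / 2 + 1 / 8) N (zc (fun i => a (τ i)) N x) ζp lam (fun p t => φ * flP (PN N) p t)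
          (fun p t => kap N (vv t) p) (fun p => (A / 2 + 1 / 8) * κ p / ρ p) (MB σ a l τ)
          (fun j => 1 / qM (fun i => a (τ i)) (fun i j => z (τ i) (τ j)) j)
          (fun p => Pool.Agent.Helper31.SR.am σ a l (τ 0) (τ p.succ) - dm p)) cst) →
      LLs σ a l (τ 0) - (dE 0 + dE 1 + dE 2)
        + (A / 2 + 1 / 8) * (B0 * (H 0 + H 1 + H 2)
          - (r 0 * max (S (τ 1) + H 0) 0 + r 1 * max (S (τ 2) + H 1) 0
            + r 2 * max (S (τ 3) + H 2) 0))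
        + g * ((1 - ε) * S (τ 0) - k1 * R i - (k12 - k1) * R j)
        - arcE (A / 2 + 1 / 8) ρ ρe κ R (fun k => S (τ k.succ)) - cst ≤ Wi a (τ 0) K σ A := by
  have h' := h.perm τ
  have v' := viol_perm v τ
  have hz' := hz.perm τ
  have hA' : 0 < A / 2 + 1 / 8 := by linarith
  have hN : ∀ k m, 0 ≤ N k m := fun k m => by
    rw [hNd]
    exact NM_nonneg h' v' hz' k m
  have hd : ∀ k, N k k = 0 := fun k => by
    rw [hNd]
    exact NM_diag k
  have hcol : ∀ m, nc N m ≤ 9 / 10 := fun m => by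
    rw [hNd]
    exact nc_le h' v' hz' m
  have hc : (9 / 10 : ℝ) < 1 := by norm_num
  have hβ0 : ∀ p, 0 ≤ (A / 2 + 1 / 8) * κ p / ρ p := fun p =>
    div_nonneg (mul_nonneg hA'.le (hκ0 p)) (hρ p).le
  have hβ1 : ∀ p, (A / 2 + 1 / 8) * κ p / ρ p ≤ 1 := fun p => (div_le_one (hρ p)).2 (hκρ p)
  have hβρ : ∀ p, (A / 2 + 1 / 8) * κ p / ρ p * ρ p = (A / 2 + 1 / 8) * κ p := fun p =>
    div_mul_cancel₀ _ (hρ p).ne'
  have hK : ∀ p, (A / 2 + 1 / 8) * κ p / ρ p * ρ p ≤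
      (A / 2 + 1 / 8) * Pool.Agent.Helper55.Mass.Id (fun t => kap N (vv t) p) := fun p => by
    rw [hβρ]
    exact mul_le_mul_of_nonneg_left (hκ p) hA'.le
  have hpp : ∀ p : Fin 3, ∀ k : Fin 3, ∀ r s : ℝ, ρe p k * pp ((1 - (A / 2 + 1 / 8) * κ p / ρ p) * r
      - (A / 2 + 1 / 8) * κ p / ρ p * s) =
      ρe p k / ρ p * pp (ρ p * r - (A / 2 + 1 / 8) * κ p * (r + s)) := by
    intro p k r s
    have e0 : ρ p * pp ((1 - (A / 2 + 1 / 8) * κ p / ρ p) * r
      - (A / 2 + 1 / 8) * κ p / ρ p * s) = pp (ρ p * r - (A / 2 + 1 / 8) * κ p * (r + s)) := by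
      unfold pp
      rw [mul_max_of_nonneg _ _ (hρ p).le, mul_zero]
      congr 1
      have := hβρ p
      have e : ρ p * ((1 - (A / 2 + 1 / 8) * κ p / ρ p) * r - (A / 2 + 1 / 8) * κ p / ρ p * s) =
        ρ p * r - (A / 2 + 1 / 8) * κ p / ρ p * ρ p * (r + s) := by ring
      rw [e, this]
    rw [← e0, ← mul_assoc, div_mul_cancel₀ _ (hρ p).ne']
  have hF0 : ∀ p, 0 < Pool.Agent.Helper55.Mass.Id (flP (PN N) p) := fun p => by
    have h1 := Pool.Agent.Helper73.MEI.SideP.flN_mass hN hd hc hcol p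
    have h2 := Pool.Agent.Helper55.ApexP.PN_det_pos hN hd hc hcol
    have h3 := Pool.Agent.Helper73.MEI.SideP.mbN_ge hN p
    refine lt_of_lt_of_le ?_ h1
    have h4 : 0 < Pool.Agent.Helper73.MEI.SideP.mbN N p := by linarith
    positivity
  have eI : ∀ p, Pool.Agent.Helper55.Mass.Id (fun t => φ * flP (PN N) p t) =
      φ * Pool.Agent.Helper55.Mass.Id (flP (PN N) p) := fun p =>
    Pool.Agent.Helper55.Mass.Id_const φ _
  have hb : ∀ k, b3 (fun i => a (τ i)) x k ≤ zc (fun i => a (τ i)) N x k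
      + LN N (zc (fun i => a (τ i)) N x) k := fun k =>
    (mu_bal hN hd hc hcol (b3 (fun i => a (τ i)) x) k).ge
  -- the general instance
  have main : ∀ ζp : Fin 3 → ℝ, (∀ k, 0 < ζp k) →
      (∀ k, zc (fun i => a (τ i)) N x k ≤ ζp k) → ∀ lamM, 0 ≤ lamM → lamM ≤ 1 - φ →
      ∀ g, 0 ≤ g → g ≤ (A / 2 + 1 / 8) * (lamM * Pool.Agent.Helper55.Mass.Id (alP N ζp)) →
      ∀ cst, (∀ lam, 0 ≤ lam → lam ≤ lamM → WCost a K τ (A / 2 + 1 / 8)
        (GM (A / 2 + 1 / 8) N (zc (fun i => a (τ i)) N x) ζp lam (fun p t => φ * flP (PN N) p t)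
          (fun p t => kap N (vv t) p) (fun p => (A / 2 + 1 / 8) * κ p / ρ p) (MB σ a l τ)
          (fun p => aE σ a l (τ 0) (τ p.succ) - dE p) R (fun k => S (τ k.succ))
          (Qv a (τ 0) x))
        (DM (A / 2 + 1 / 8) N (zc (fun i => a (τ i)) N x) ζp lam (fun p t => φ * flP (PN N) p t)
          (fun p t => kap N (vv t) p) (fun p => (A / 2 + 1 / 8) * κ p / ρ p) (MB σ a l τ)
          (fun j => 1 / qM (fun i => a (τ i)) (fun i j => z (τ i) (τ j)) j)
          (fun p => Pool.Agent.Helper31.SR.am σ a l (τ 0) (τ p.succ) - dm p)) cst) →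
      LLs σ a l (τ 0) - (dE 0 + dE 1 + dE 2)
        + (A / 2 + 1 / 8) * (B0 * (H 0 + H 1 + H 2)
          - (r 0 * max (S (τ 1) + H 0) 0 + r 1 * max (S (τ 2) + H 1) 0
            + r 2 * max (S (τ 3) + H 2) 0))
        + g * (Qv a (τ 0) x - (zc (fun i => a (τ i)) N x 0 * R 0
          + zc (fun i => a (τ i)) N x 1 * R 1 + zc (fun i => a (τ i)) N x 2 * R 2))
        - arcE (A / 2 + 1 / 8) ρ ρe κ R (fun k => S (τ k.succ)) - cst ≤ Wi a (τ 0) K σ A := by
    intro ζp hζp hζle lamM hl0 hl1 g hg0 hg cst hW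
    have key := face_HGMe h v hz τ hA hl hδ hdE hdm hdd hρ hMρ hMe hx hNd hRd
      (ζ := zc (fun i => a (τ i)) N x) hζp hζle hb
      (lamM := lamM) hl0
      (hf := fun p t => φ * flP (PN N) p t)
      (fun p => (flP_meas p).const_mul _)
      (fun p t => mul_nonneg hφ0.le (flP_nonneg p t))
      (fun p t ht => by
        show φ * flP (PN N) p t = 0
        rw [flP_zero (by push Not at ht; exact ht) p, mul_zero])
      (fun t ht k => by
        obtain ⟨p0, p1, p2⟩ := flP_pair (P := PN N) ht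
        have hx := ht k
        have ha := mul_le_mul_of_nonneg_left (alP_zeta hζp ht k) hl0
        have ha2 := mul_le_mul_of_nonneg_right hl1 (ht k)
        have hfk : (flP (PN N) 0 t + flP (PN N) 1 t + flP (PN N) 2 t) - flP (PN N) k t ≤
            mu (PN N) (vt t) k := by
          fin_cases k
          · simp only [Fin.zero_eta]
            linarith
          · simp only [Fin.mk_one]
            linarith
          · simp only [Fin.reduceFinMk]
            linarith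
        have hfk' := mul_le_mul_of_nonneg_left hfk hφ0.le
        linarith)
      (κ := fun p t => kap N (vv t) p)
      (fun p => kap_meas hN hc hcol p)
      (fun p t ht => kap_nonneg hN hc hcol (fun k => vv_nonneg ht k) p)
      (Ck := 1) (fun p t ht => kap_le_one hN hc hcol ht p)
      (fun t ht k => by
        have hbv := fun k => vv_nonneg ht k
        fin_cases k
        · have := kap_add hN hc hcol hbv (j := 1) (l := 2) (k := 0) (by decide) (by decide)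
            (by decide)
          simp only [Fin.zero_eta]
          linarith
        · have := kap_add hN hc hcol hbv (j := 0) (l := 2) (k := 1) (by decide) (by decide)
            (by decide)
          simp only [Fin.mk_one]
          linarith
        · have := kap_add hN hc hcol hbv (j := 0) (l := 1) (k := 2) (by decide) (by decide)
            (by decide)
          simp only [Fin.reduceFinMk]
          linarith)
      hβ0 hβ1 hK
      (fun p => by
        rw [eI]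
        exact mul_pos hφ0 (hF0 p))
      (fun p => by
        rw [eI, sub_mul, hβρ, one_mul]
        have := hF p
        linarith)
      (r := r) hr hH hg0 hg hW
    have t1 := hpp 0 1 (R 1) (S (τ 2))
    have t2 := hpp 0 2 (R 2) (S (τ 3))
    have t3 := hpp 1 0 (R 0) (S (τ 1))
    have t4 := hpp 1 2 (R 2) (S (τ 3))
    have t5 := hpp 2 0 (R 0) (S (τ 1))
    have t6 := hpp 2 1 (R 1) (S (τ 2))
    have e1 : τ (Fin.succ 0) = τ 1 := rfl
    have e2 : τ (Fin.succ 1) = τ 2 := rfl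
    have e3 : τ (Fin.succ 2) = τ 3 := rfl
    unfold arcE
    beta_reduce
    rw [e1, e2, e3]
    rw [← t1, ← t2, ← t3, ← t4, ← t5, ← t6]
    linarith only [key]
  rcases hxs with hxs | hxs
  · obtain ⟨i, j, hij, hU⟩ := zeta_bodyN P h v hz τ hX hx hxs hNd hR0 hRd hRl hH
    refine ⟨i, j, hij, fun ζp hζp hζle lamM hl0 hl1 g hg0 hg cst hW => ?_⟩
    have m := main ζp hζp hζle lamM hl0 hl1 g hg0 hg cst (fun lam q1 q2 => by
      rw [hxs]
      exact hW lam q1 q2)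
    rw [hxs] at m
    have hU' := mul_le_mul_of_nonneg_left hU hg0
    linarith
  · have C := colsN P h' v' hz' hX
    rw [← hNd] at C
    have hR00 : ∀ k, R k = 0 := fun k => by
      have := (C k).2.2.1
      rw [hxs, mul_zero] at this
      exact le_antisymm ((hRd k).trans this) (hR0 k)
    refine ⟨0, 1, by decide, fun ζp hζp hζle lamM hl0 hl1 g hg0 hg cst hW => ?_⟩
    have m := main ζp hζp hζle 0 le_rfl (by linarith) 0 le_rfl (by simp) cst
      (fun lam q1 q2 => by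
        have e : lam = 0 := le_antisymm q2 q1
        have hw := hW 0 le_rfl hl0
        rw [e, GM_zero _ N _ ζp (zc (fun i => a (τ i)) N x) ζp _ _ _ _ _ _ _
          (Qv a (τ 0) x) (S (τ 0))]
        exact hw)
    rw [hR00 0, hR00 1, hxs]
    rw [zero_mul] at m
    linarith

end Helper21.FVe
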