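import Pool.Agent.Helper21.MEI.FVe2

/-!
# Project MEI (M2): the value of a face in vertex form, a moment for every end of every arc

`VFe`, `face_VFe` = helper73's `VF`, `face_VF` with `arcE`.
-/

set_option autoImplicit false

namespace Helper21.FVe

open Set Metric MeasureTheory Helper80.CW Helper82.CW Helper14.CW Helper93.MEI Helper82.M2
open Helper14.MEI2 Pool.Agent.Helper52.MEI Pool.Agent.Helper73.MEI Helper37.MEI Helper41.MEI
open Helper33.MEI (Wi)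
open Pool.Agent.Helper55.Sx (Sim)
open Pool.Agent.Helper55.Mass (LN vv vv_nonneg B0 B0_ge)
open Pool.Agent.Helper55.Apex (nc)
open Pool.Agent.Helper55.ApexP (PN alP alP_nonneg alP_zeta mu_bal)
open Pool.Agent.Helper55.Fill (xx rr)
open Pool.Agent.Helper73.MEI.SideP
open Pool.Agent.Helper96.Kap (kap kap_nonneg kap_meas kap_le_one kap_add kapL kap_mass)
open Pool.Agent.Helper96.Rr4 (P3 wc4 rr_mass4)
open Pool.Agent.Helper31.SR
open Helper78.MEI
open Pool.Agent.Helper73.MEI.ZEl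
open Pool.Agent.Helper73.MEI.ArCor
open Helper75.MEI2 (mu vt)
open scoped RealInnerProductSpace ENNReal

/-- **the value of a face**, a moment for every end -/
noncomputable def VFe (A' ε k1 k2 K0 K1 : ℝ) (τ ρ : Fin 3 → ℝ) (ρe : Fin 3 → Fin 3 → ℝ)
    (N : Fin 3 → Fin 3 → ℝ) (g : ℝ) (i j : Fin 3) (s : ℝ) (S : Fin 3 → ℝ) : ℝ :=
  corX A' N (rv N) (Rv τ N) S + g * ((1 - ε) * s - k1 * Rv τ N i - k2 * Rv τ N j)
    - arcE A' ρ ρe (kv K0 K1 N) (Rv τ N) S

variable {a : Fin 4 → E3} {K : Set E3} {S : Fin 4 → ℝ} {σ : Measure (E3 × E3)}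
  {c : Fin 4 → E3} {z : Fin 4 → Fin 4 → E3} {X rm qm nb ρ1 Rb gg ε k1 k12 t2 δ : ℝ}

/-- **THE FACE IN VERTEX FORM, a moment for every end** -/
theorem face_VFe [IsFiniteMeasure σ]
    (P : Rn X rm qm nb ρ1 Rb gg ε k1 k12 t2 δ)
    (h : CN K σ a c) (v : Viol K a S) (hz : CV a K z)
    (τ : Equiv.Perm (Fin 4)) (hX : S (τ 0) + (S (τ 1) + S (τ 2) + S (τ 3)) ≤ X)
    {A : ℝ} (hA : 7 / 2 ≤ A)
    {l : Fin 3 → Bool → Bool → E3 × E3 → ℝ} (hl : Lok a l)
    {δ3 dE dm : Fin 3 → ℝ} (hδ : ∀ p, MA σ a l τ p p ≤ δ3 p) (hdE : ∀ p, 0 ≤ dE p)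
    (hdm : ∀ p, 0 ≤ dm p) (hdd : ∀ p, δ3 p ^ 2 ≤ dE p * dm p)
    {ρ : Fin 3 → ℝ} (hρ : ∀ p, 0 < ρ p) (hMρ : ∀ p k, k ≠ p → MA σ a l τ p k ≤ ρ p)
    {ρe : Fin 3 → Fin 3 → ℝ} (hMe : ∀ p k, k ≠ p → MA σ a l τ p k ≤ ρe p k)
    {x : E3} (hx : x ∈ K) (hxs : Qv a (τ 0) x = S (τ 0) ∨ S (τ 0) = 0)
    {N : Fin 3 → Fin 3 → ℝ} (hNd : N = NM (fun i => a (τ i)) (fun i j => z (τ i) (τ j)))
    {tt : Fin 3 → ℝ} (htt : ∀ k, nc N k ≤ tt k) (hqt : ∀ k, qm * (1 + tt k / 2) ≤ 1)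
    (hnb : nb ≤ 2 / 5) (hTN : TN N ≤ 1)
    {K0 K1 e : ℝ} (he : nb ≤ e)
    (hK : ∀ x y p q : ℝ, 0 ≤ x → 0 ≤ y → 0 ≤ p → 0 ≤ q → x + q ≤ nb → y + p ≤ nb →
      K0 * (x + y) - K1 * (y * q + x * p) ≤ kapL e x y p q)
    (hκ0 : ∀ p, 0 ≤ kv K0 K1 N p) (hκρ : ∀ p, (A / 2 + 1 / 8) * kv K0 K1 N p ≤ ρ p)
    {φ : ℝ} (hφ0 : 0 < φ) (hφ1 : φ ≤ 1)
    (hF : ∀ p, 22.6276 * (ρ p - (A / 2 + 1 / 8) * kv K0 K1 N p)
      * (35 / 48 + 9 / 16 * TN N + 5 / 12 * QN N) ^ 2 ≤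
      φ * ((A / 2 + 1 / 8) * (1 - TN N ^ 2 / 4))) :
    ∃ i j : Fin 3, i ≠ j ∧ ∀ ζp : Fin 3 → ℝ, (∀ k, 0 < ζp k) →
      (∀ k, zc (fun i => a (τ i)) N x k ≤ ζp k) → ∀ lamM, 0 ≤ lamM → lamM ≤ 1 - φ →
      ∀ g, 0 ≤ g → g ≤ (A / 2 + 1 / 8) * (lamM * Pool.Agent.Helper55.Mass.Id (alP N ζp)) →
      ∀ cst, (∀ lam, 0 ≤ lam → lam ≤ lamM → WCost a K τ (A / 2 + 1 / 8)
        (GM (A / 2 + 1 / 8) N (zc (fun i => a (τ i)) N x) ζp lam (fun p t => φ * flP (PN N) p t)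
          (fun p t => kap N (vv t) p) (fun p => (A / 2 + 1 / 8) * kv K0 K1 N p / ρ p)
          (MB σ a l τ)
          (fun p => aE σ a l (τ 0) (τ p.succ) - dE p) (Rv tt N) (fun k => S (τ k.succ))
          (S (τ 0)))
        (DM (A / 2 + 1 / 8) N (zc (fun i => a (τ i)) N x) ζp lam (fun p t => φ * flP (PN N) p t)
          (fun p t => kap N (vv t) p) (fun p => (A / 2 + 1 / 8) * kv K0 K1 N p / ρ p)
          (MB σ a l τ)
          (fun j => 1 / qM (fun i => a (τ i)) (fun i j => z (τ i) (τ j)) j)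
          (fun p => Pool.Agent.Helper31.SR.am σ a l (τ 0) (τ p.succ) - dm p)) cst) →
      LLs σ a l (τ 0) - (dE 0 + dE 1 + dE 2)
        + VFe (A / 2 + 1 / 8) ε k1 (k12 - k1) K0 K1 tt ρ ρe N g i j (S (τ 0))
          (fun k => S (τ k.succ)) - cst ≤ Wi a (τ 0) K σ A := by
  have h' := h.perm τ
  have v' := viol_perm v τ
  have hz' := hz.perm τ
  have hA' : 0 < A / 2 + 1 / 8 := by linarith
  have hN : ∀ k m, 0 ≤ N k m := fun k m => by
    rw [hNd]
    exact NM_nonneg h' v' hz' k m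
  have hd : ∀ k, N k k = 0 := fun k => by
    rw [hNd]
    exact NM_diag k
  have hcol : ∀ m, nc N m ≤ 9 / 10 := fun m => by
    rw [hNd]
    exact nc_le h' v' hz' m
  have hc : (9 / 10 : ℝ) < 1 := by norm_num
  have C := colsN P h' v' hz' hX
  rw [← hNd] at C
  have hnc : ∀ k, nc N k ≤ nb := fun k => (C k).2.1
  have hN' : ∀ k m, N k m ≤ nb := by
    intro k m
    refine le_trans ?_ (hnc m)
    have a0 := hN 0 m
    have a1 := hN 1 m
    have a2 := hN 2 m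
    unfold nc
    fin_cases k
    · show N 0 m ≤ N 0 m + N 1 m + N 2 m
      linarith
    · show N 1 m ≤ N 0 m + N 1 m + N 2 m
      linarith
    · show N 2 m ≤ N 0 m + N 1 m + N 2 m
      linarith
  have hN5 : ∀ k m, N k m ≤ 2 / 5 := fun k m => (hN' k m).trans hnb
  have ek : ∀ k, nc N k = N (k + 1) k + N (k + 2) k := by
    intro k
    have d0 := hd 0
    have d1 := hd 1
    have d2 := hd 2
    unfold nc
    fin_cases k
    · show N 0 0 + N 1 0 + N 2 0 = N 1 0 + N 2 0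
      linarith
    · show N 0 1 + N 1 1 + N 2 1 = N 2 1 + N 0 1
      linarith
    · show N 0 2 + N 1 2 + N 2 2 = N 0 2 + N 1 2
      linarith
  -- node loads
  have hdq : ∀ k, nc N k ^ 2 / 2 ≤ dq (N (k + 1) k) (N (k + 2) k) := by
    intro k
    rw [ek]
    unfold dq
    nlinarith [sq_nonneg (N (k + 1) k - N (k + 2) k)]
  have htp : ∀ k, 0 < 1 + tt k / 2 := fun k => by
    have h1 := htt k
    have h2 := nc_nonneg hN k
    linarith
  have hR0 : ∀ k, 0 ≤ Rv tt N k := fun k => by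
    have := hdq k
    have h2 := sq_nonneg (nc N k)
    unfold Rv
    exact div_nonneg (by linarith) (htp k).le
  have hRd : ∀ k, Rv tt N k ≤ RM (fun i => a (τ i)) (fun i j => z (τ i) (τ j)) k := fun k =>
    (dom_VF h v hz τ hNd htt k).1
  have hRl : ∀ k, qm * nc N k ^ 2 / 2 ≤ Rv tt N k := fun k => by
    unfold Rv
    rw [le_div_iff₀ (htp k)]
    have h1 := hdq k
    have h2 := mul_le_mul_of_nonneg_right (hqt k) (show 0 ≤ nc N k ^ 2 / 2 by positivity)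
    nlinarith
  -- residual masses
  have ne1 : ∀ k : Fin 3, k ≠ k + 1 := by decide
  have ne2 : ∀ k : Fin 3, k ≠ k + 2 := by decide
  have ne3 : ∀ k : Fin 3, k + 1 ≠ k + 2 := by decide
  have hr : ∀ k, Pool.Agent.Helper55.Mass.Id (fun t => rr N (vv t) k) ≤ rv N k := fun k =>
    rr_mass4 hN hN5 hd hc hcol (ne1 k) (ne2 k) (ne3 k)
  have hr0 : ∀ k, 0 ≤ rv N k := fun k => by
    refine le_trans ?_ (hr k)
    unfold Pool.Agent.Helper55.Mass.Id
    refine mul_nonneg (by positivity) (setIntegral_nonneg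
      Pool.Agent.Helper55.Sx.Sim_meas fun t ht => ?_)
    exact div_nonneg (Pool.Agent.Helper55.Fill.rr_nonneg hN hc hcol (fun k => vv_nonneg ht k) k)
      (by positivity)
  have hrow : ∀ k, rowN N k ≤ 4 / 5 := fun k => by
    unfold rowN
    have := hN5 k (k + 1)
    have := hN5 k (k + 2)
    linarith
  have hrB : ∀ k, B0 * rowN N k + rv N k ≤ B0 := by
    intro k
    have h1 := wc4_le hN hN5 k (k + 1) (k + 2)
    have hB := B0_ge
    have n0 := hN (k + 1) k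
    have n1 := hN (k + 2) k
    have n2 := hN (k + 1) (k + 2)
    have n3 := hN (k + 2) (k + 1)
    have h2 : 0.2132 * (N (k + 1) k + N (k + 2) k + N (k + 1) (k + 2) + N (k + 2) (k + 1)) ≤
        B0 * (N (k + 1) k + N (k + 2) k + N (k + 1) (k + 2) + N (k + 2) (k + 1)) :=
      mul_le_mul_of_nonneg_right hB (by positivity)
    have hT : rowN N k + (N (k + 1) k + N (k + 2) k + N (k + 1) (k + 2) + N (k + 2) (k + 1)) ≤
        1 := by
      refine le_trans (le_of_eq ?_) hTN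
      unfold TN rowN
      rw [ek 0, ek 1, ek 2]
      fin_cases k
      · show N 0 1 + N 0 2 + (N 1 0 + N 2 0 + N 1 2 + N 2 1) =
          N 1 0 + N 2 0 + (N 2 1 + N 0 1) + (N 0 2 + N 1 2)
        ring
      · show N 1 2 + N 1 0 + (N 2 1 + N 0 1 + N 2 0 + N 0 2) =
          N 1 0 + N 2 0 + (N 2 1 + N 0 1) + (N 0 2 + N 1 2)
        ring
      · show N 2 0 + N 2 1 + (N 0 2 + N 1 2 + N 0 1 + N 1 0) =
          N 1 0 + N 2 0 + (N 2 1 + N 0 1) + (N 0 2 + N 1 2)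
        ring
    have h3 := mul_le_mul_of_nonneg_left hT (show (0 : ℝ) ≤ B0 by linarith)
    have h4 : rv N k = wc4 N k (k + 1) (k + 2) := rfl
    rw [h4]
    linarith
  -- strips
  have hκ : ∀ p, kv K0 K1 N p ≤ Pool.Agent.Helper55.Mass.Id (fun t => kap N (vv t) p) := by
    intro p
    have hij : ∀ k m, N k m + N m k ≤ 1 := fun k m => by
      have := hN5 k m
      have := hN5 m k
      linarith
    have c1 : N p (p + 1) * N (p + 1) p + N p (p + 2) * N (p + 2) p ≤ 1 := by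
      have a1 := hN5 p (p + 1)
      have a2 := hN5 (p + 1) p
      have a3 := hN5 p (p + 2)
      have a4 := hN5 (p + 2) p
      have b1 := hN p (p + 1)
      have b2 := hN (p + 1) p
      have b3 := hN p (p + 2)
      have b4 := hN (p + 2) p
      nlinarith
    have km := kap_mass hN hc hcol hd (e := e) (ne1 p) (ne2 p) (ne3 p) c1
      ((hN' _ _).trans he) ((hN' _ _).trans he) ((hN5 _ _).trans (by norm_num))
      ((hN5 _ _).trans (by norm_num))
    refine le_trans ?_ km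
    have q1 : N p (p + 1) + N (p + 2) (p + 1) ≤ nb := by
      refine le_trans (le_of_eq ?_) (hnc (p + 1))
      rw [ek]
      fin_cases p
      · show N 0 1 + N 2 1 = N 2 1 + N 0 1
        ring
      · show N 1 2 + N 0 2 = N 0 2 + N 1 2
        ring
      · show N 2 0 + N 1 0 = N 1 0 + N 2 0
        ring
    have q2 : N p (p + 2) + N (p + 1) (p + 2) ≤ nb := by
      refine le_trans (le_of_eq ?_) (hnc (p + 2))
      rw [ek]
      fin_cases p
      · show N 0 2 + N 1 2 = N 0 2 + N 1 2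
        ring
      · show N 1 0 + N 2 0 = N 1 0 + N 2 0
        ring
      · show N 2 1 + N 0 1 = N 2 1 + N 0 1
        ring
    exact hK _ _ _ _ (hN _ _) (hN _ _) (hN _ _) (hN _ _) q1 q2
  -- share
  have hT0 := TN_nonneg hN
  have hD : 0 < 1 - TN N ^ 2 / 4 := by nlinarith
  have hF' : ∀ p, ρ p - (A / 2 + 1 / 8) * kv K0 K1 N p ≤
      φ * ((A / 2 + 1 / 8) * Pool.Agent.Helper55.Mass.Id (flP (PN N) p)) := by
    intro p
    have h1 := phi_ok hN hd hc hcol hA' (ρ := ρ p - (A / 2 + 1 / 8) * kv K0 K1 N p)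
      (sub_nonneg.2 (hκρ p)) (by linarith) p
    have h2 : phiN (A / 2 + 1 / 8) (ρ p - (A / 2 + 1 / 8) * kv K0 K1 N p) (TN N) (QN N) ≤ φ := by
      unfold phiN
      rw [div_le_iff₀ (mul_pos hA' hD)]
      exact hF p
    have hI : 0 ≤ Pool.Agent.Helper55.Mass.Id (flP (PN N) p) := by
      unfold Pool.Agent.Helper55.Mass.Id
      refine mul_nonneg (by positivity) (setIntegral_nonneg
        Pool.Agent.Helper55.Sx.Sim_meas fun t ht => ?_)
      exact div_nonneg (flP_nonneg p t) (by positivity)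
    exact h1.trans (mul_le_mul_of_nonneg_right h2 (mul_nonneg hA'.le hI))
  obtain ⟨H, hH⟩ := exists_plane hN hc hcol (Rv tt N)
  obtain ⟨i, j, hij, key⟩ := face_numTe P h v hz τ hX hA hl hδ hdE hdm hdd hρ hMρ hMe hx hxs hNd hR0
    hRd hRl hκ0 hκρ hκ hφ0 hφ1 hF' hr hH
  have hpl := corX_le hN hd hc hcol (A' := A / 2 + 1 / 8) hA'.le (R := Rv tt N) (H := H)
    (S := fun k => S (τ k.succ)) (r := rv N) hH hR0 hr0 (fun k => v.nn _)
    (show (4 / 5 : ℝ) < 1 by norm_num) hrow hrB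
  refine ⟨i, j, hij, fun ζp z1 z2 lamM l1 l2 g g1 g2 cst hW => ?_⟩
  have kk := key ζp z1 z2 lamM l1 l2 g g1 g2 cst hW
  have e1 : τ (Fin.succ 0) = τ 1 := rfl
  have e2 : τ (Fin.succ 1) = τ 2 := rfl
  have e3 : τ (Fin.succ 2) = τ 3 := rfl
  beta_reduce at hpl
  rw [e1, e2, e3] at hpl
  unfold VFe
  linarith

end Helper21.FVe
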