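import Pool.Agent.Helper21.MEI.FVe3
import Pool.Agent.Helper73.MEI.FW3

/-!
# Project MEI (M2): a moment for every end, position of the apex first

`face_numUe`, `face_VFme` = helper73's `face_numU`, `face_VFm` with `arcE`, `VFe`.
-/

set_option autoImplicit false

namespace Helper21.FVe

open Set Metric MeasureTheory Helper80.CW Helper82.CW Helper14.CW Helper93.MEI Helper82.M2
open Helper14.MEI2 Pool.Agent.Helper52.MEI Pool.Agent.Helper73.MEI Helper37.MEI Helper41.MEI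
open Helper33.MEI (Wi)
open Pool.Agent.Helper55.Sx (Sim)
open Pool.Agent.Helper55.Mass (LN vv vv_nonneg B0 B0_ge)
open Pool.Agent.Helper55.Apex (nc)
open Pool.Agent.Helper55.ApexP (PN alP alP_nonneg alP_zeta mu_bal)
open Pool.Agent.Helper55.Fill (xx rr)
open Pool.Agent.Helper73.MEI.SideP
open Pool.Agent.Helper96.Kap (kap kap_nonneg kap_meas kap_le_one kap_add kapL kap_mass)
open Pool.Agent.Helper96.Rr4 (P3 wc4 rr_mass4)
open Pool.Agent.Helper31.SR
open Helper78.MEI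
open Pool.Agent.Helper73.MEI.ZEl
open Pool.Agent.Helper73.MEI.ArCor
open Helper75.MEI2 (mu vt)
open scoped RealInnerProductSpace ENNReal

theorem arcE_km {A' : ℝ} (hA : 0 < A') {ρ κ R S : Fin 3 → ℝ} {ρe : Fin 3 → Fin 3 → ℝ}
    (hρ : ∀ p, 0 ≤ ρ p) (hR : ∀ k, 0 ≤ R k) (hS : ∀ k, 0 ≤ S k) :
    arcE A' ρ ρe (km A' κ ρ) R S = arcE A' ρ ρe κ R S := by
  have key : ∀ p k, pp (ρ p * R k - A' * km A' κ ρ p * (R k + S k)) =
      pp (ρ p * R k - A' * κ p * (R k + S k)) := by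
    intro p k
    rcases pp_km (k := κ p) (ρ := ρ p) hA (hR k) (hS k) with h | h
    · exact h
    · exact absurd h (not_lt.2 (hρ p))
  unfold arcE
  rw [key 0 1, key 0 2, key 1 0, key 1 2, key 2 0, key 2 1]

variable {a : Fin 4 → E3} {K : Set E3} {S : Fin 4 → ℝ} {σ : Measure (E3 × E3)}
  {c : Fin 4 → E3} {z : Fin 4 → Fin 4 → E3} {X rm qm nb ρ1 Rb gg ε k1 k12 t2 δ : ℝ}

/-- the face, the position of the apex given by the bound of its contact value -/
theorem face_numUe [IsFiniteMeasure σ]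
    (P : Rn X rm qm nb ρ1 Rb gg ε k1 k12 t2 δ)
    (h : CN K σ a c) (v : Viol K a S) (hz : CV a K z)
    (τ : Equiv.Perm (Fin 4)) (hX : S (τ 0) + (S (τ 1) + S (τ 2) + S (τ 3)) ≤ X)
    {A : ℝ} (hA : 7 / 2 ≤ A)
    {l : Fin 3 → Bool → Bool → E3 × E3 → ℝ} (hl : Lok a l)
    {δ3 dE dm : Fin 3 → ℝ} (hδ : ∀ p, MA σ a l τ p p ≤ δ3 p) (hdE : ∀ p, 0 ≤ dE p)
    (hdm : ∀ p, 0 ≤ dm p) (hdd : ∀ p, δ3 p ^ 2 ≤ dE p * dm p)
    {ρ : Fin 3 → ℝ} (hρ : ∀ p, 0 < ρ p) (hMρ : ∀ p k, k ≠ p → MA σ a l τ p k ≤ ρ p)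
    {ρe : Fin 3 → Fin 3 → ℝ} (hMe : ∀ p k, k ≠ p → MA σ a l τ p k ≤ ρe p k)
    {x : E3} (hx : x ∈ K) (hxs : Qv a (τ 0) x = S (τ 0) ∨ S (τ 0) = 0)
    {N : Fin 3 → Fin 3 → ℝ} (hNd : N = NM (fun i => a (τ i)) (fun i j => z (τ i) (τ j)))
    {R : Fin 3 → ℝ} (hR0 : ∀ k, 0 ≤ R k)
    (hRd : ∀ k, R k ≤ RM (fun i => a (τ i)) (fun i j => z (τ i) (τ j)) k)
    {κ : Fin 3 → ℝ} (hκ0 : ∀ p, 0 ≤ κ p) (hκρ : ∀ p, (A / 2 + 1 / 8) * κ p ≤ ρ p)
    (hκ : ∀ p, κ p ≤ Pool.Agent.Helper55.Mass.Id (fun t => kap N (vv t) p))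
    {φ : ℝ} (hφ0 : 0 < φ) (hφ1 : φ ≤ 1)
    (hF : ∀ p, ρ p - (A / 2 + 1 / 8) * κ p ≤
      φ * ((A / 2 + 1 / 8) * Pool.Agent.Helper55.Mass.Id (flP (PN N) p)))
    {r : Fin 3 → ℝ} (hr : ∀ k, Pool.Agent.Helper55.Mass.Id (fun t => rr N (vv t) k) ≤ r k)
    {H : Fin 3 → ℝ} (hH : ∀ j, H j + (N 0 j * H 0 + N 1 j * H 1 + N 2 j * H 2) = R j)
    {i j : Fin 3} (hU : zc (fun i => a (τ i)) N x 0 * R 0 + zc (fun i => a (τ i)) N x 1 * R 1
        + zc (fun i => a (τ i)) N x 2 * R 2 ≤ k1 * R i + (k12 - k1) * R j + ε * S (τ 0)) :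
    ∀ ζp : Fin 3 → ℝ, (∀ k, 0 < ζp k) →
      (∀ k, zc (fun i => a (τ i)) N x k ≤ ζp k) → ∀ lamM, 0 ≤ lamM → lamM ≤ 1 - φ →
      ∀ g, 0 ≤ g → g ≤ (A / 2 + 1 / 8) * (lamM * Pool.Agent.Helper55.Mass.Id (alP N ζp)) →
      ∀ cst, (∀ lam, 0 ≤ lam → lam ≤ lamM → WCost a K τ (A / 2 + 1 / 8)
        (GM (A / 2 + 1 / 8) N (zc (fun i => a (τ i)) N x) ζp lam (fun p t => φ * flP (PN N) p t)
          (fun p t => kap N (vv t) p) (fun p => (A / 2 + 1 / 8) * κ p / ρ p) (MB σ a l τ)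
          (fun p => aE σ a l (τ 0) (τ p.succ) - dE p) R (fun k => S (τ k.succ)) (S (τ 0)))
        (DM (A / 2 + 1 / 8) N (zc (fun i => a (τ i)) N x) ζp lam (fun p t => φ * flP (PN N) p t)
          (fun p t => kap N (vv t) p) (fun p => (A / 2 + 1 / 8) * κ p / ρ p) (MB σ a l τ)
          (fun j => 1 / qM (fun i => a (τ i)) (fun i j => z (τ i) (τ j)) j)
          (fun p => Pool.Agent.Helper31.SR.am σ a l (τ 0) (τ p.succ) - dm p)) cst) →
      LLs σ a l (τ 0) - (dE 0 + dE 1 + dE 2)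
        + (A / 2 + 1 / 8) * (B0 * (H 0 + H 1 + H 2)
          - (r 0 * max (S (τ 1) + H 0) 0 + r 1 * max (S (τ 2) + H 1) 0
            + r 2 * max (S (τ 3) + H 2) 0))
        + g * ((1 - ε) * S (τ 0) - k1 * R i - (k12 - k1) * R j)
        - arcE (A / 2 + 1 / 8) ρ ρe κ R (fun k => S (τ k.succ)) - cst ≤ Wi a (τ 0) K σ A := by
  have h' := h.perm τ
  have v' := viol_perm v τ
  have hz' := hz.perm τ
  have hA' : 0 < A / 2 + 1 / 8 := by linarith
  have hN : ∀ k m, 0 ≤ N k m := fun k m => by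
    rw [hNd]
    exact NM_nonneg h' v' hz' k m
  have hd : ∀ k, N k k = 0 := fun k => by
    rw [hNd]
    exact NM_diag k
  have hcol : ∀ m, nc N m ≤ 9 / 10 := fun m => by
    rw [hNd]
    exact nc_le h' v' hz' m
  have hc : (9 / 10 : ℝ) < 1 := by norm_num
  have hβ0 : ∀ p, 0 ≤ (A / 2 + 1 / 8) * κ p / ρ p := fun p =>
    div_nonneg (mul_nonneg hA'.le (hκ0 p)) (hρ p).le
  have hβ1 : ∀ p, (A / 2 + 1 / 8) * κ p / ρ p ≤ 1 := fun p => (div_le_one (hρ p)).2 (hκρ p)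
  have hβρ : ∀ p, (A / 2 + 1 / 8) * κ p / ρ p * ρ p = (A / 2 + 1 / 8) * κ p := fun p =>
    div_mul_cancel₀ _ (hρ p).ne'
  have hK : ∀ p, (A / 2 + 1 / 8) * κ p / ρ p * ρ p ≤
      (A / 2 + 1 / 8) * Pool.Agent.Helper55.Mass.Id (fun t => kap N (vv t) p) := fun p => by
    rw [hβρ]
    exact mul_le_mul_of_nonneg_left (hκ p) hA'.le
  have hpp : ∀ p : Fin 3, ∀ k : Fin 3, ∀ r s : ℝ, ρe p k * pp ((1 - (A / 2 + 1 / 8) * κ p / ρ p) * r
      - (A / 2 + 1 / 8) * κ p / ρ p * s) =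
      ρe p k / ρ p * pp (ρ p * r - (A / 2 + 1 / 8) * κ p * (r + s)) := by
    intro p k r s
    have e0 : ρ p * pp ((1 - (A / 2 + 1 / 8) * κ p / ρ p) * r
      - (A / 2 + 1 / 8) * κ p / ρ p * s) = pp (ρ p * r - (A / 2 + 1 / 8) * κ p * (r + s)) := by
      unfold pp
      rw [mul_max_of_nonneg _ _ (hρ p).le, mul_zero]
      congr 1
      have := hβρ p
      have e : ρ p * ((1 - (A / 2 + 1 / 8) * κ p / ρ p) * r - (A / 2 + 1 / 8) * κ p / ρ p * s) =
        ρ p * r - (A / 2 + 1 / 8) * κ p / ρ p * ρ p * (r + s) := by ring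
      rw [e, this]
    rw [← e0, ← mul_assoc, div_mul_cancel₀ _ (hρ p).ne']
  have hF0 : ∀ p, 0 < Pool.Agent.Helper55.Mass.Id (flP (PN N) p) := fun p => by
    have h1 := Pool.Agent.Helper73.MEI.SideP.flN_mass hN hd hc hcol p
    have h2 := Pool.Agent.Helper55.ApexP.PN_det_pos hN hd hc hcol
    have h3 := Pool.Agent.Helper73.MEI.SideP.mbN_ge hN p
    refine lt_of_lt_of_le ?_ h1
    have h4 : 0 < Pool.Agent.Helper73.MEI.SideP.mbN N p := by linarith
    positivity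
  have eI : ∀ p, Pool.Agent.Helper55.Mass.Id (fun t => φ * flP (PN N) p t) =
      φ * Pool.Agent.Helper55.Mass.Id (flP (PN N) p) := fun p =>
    Pool.Agent.Helper55.Mass.Id_const φ _
  have hb : ∀ k, b3 (fun i => a (τ i)) x k ≤ zc (fun i => a (τ i)) N x k
      + LN N (zc (fun i => a (τ i)) N x) k := fun k =>
    (mu_bal hN hd hc hcol (b3 (fun i => a (τ i)) x) k).ge
  -- the general instance
  have main : ∀ ζp : Fin 3 → ℝ, (∀ k, 0 < ζp k) →
      (∀ k, zc (fun i => a (τ i)) N x k ≤ ζp k) → ∀ lamM, 0 ≤ lamM → lamM ≤ 1 - φ →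
      ∀ g, 0 ≤ g → g ≤ (A / 2 + 1 / 8) * (lamM * Pool.Agent.Helper55.Mass.Id (alP N ζp)) →
      ∀ cst, (∀ lam, 0 ≤ lam → lam ≤ lamM → WCost a K τ (A / 2 + 1 / 8)
        (GM (A / 2 + 1 / 8) N (zc (fun i => a (τ i)) N x) ζp lam (fun p t => φ * flP (PN N) p t)
          (fun p t => kap N (vv t) p) (fun p => (A / 2 + 1 / 8) * κ p / ρ p) (MB σ a l τ)
          (fun p => aE σ a l (τ 0) (τ p.succ) - dE p) R (fun k => S (τ k.succ))
          (Qv a (τ 0) x))
        (DM (A / 2 + 1 / 8) N (zc (fun i => a (τ i)) N x) ζp lam (fun p t => φ * flP (PN N) p t)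
          (fun p t => kap N (vv t) p) (fun p => (A / 2 + 1 / 8) * κ p / ρ p) (MB σ a l τ)
          (fun j => 1 / qM (fun i => a (τ i)) (fun i j => z (τ i) (τ j)) j)
          (fun p => Pool.Agent.Helper31.SR.am σ a l (τ 0) (τ p.succ) - dm p)) cst) →
      LLs σ a l (τ 0) - (dE 0 + dE 1 + dE 2)
        + (A / 2 + 1 / 8) * (B0 * (H 0 + H 1 + H 2)
          - (r 0 * max (S (τ 1) + H 0) 0 + r 1 * max (S (τ 2) + H 1) 0
            + r 2 * max (S (τ 3) + H 2) 0))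
        + g * (Qv a (τ 0) x - (zc (fun i => a (τ i)) N x 0 * R 0
          + zc (fun i => a (τ i)) N x 1 * R 1 + zc (fun i => a (τ i)) N x 2 * R 2))
        - arcE (A / 2 + 1 / 8) ρ ρe κ R (fun k => S (τ k.succ)) - cst ≤ Wi a (τ 0) K σ A := by
    intro ζp hζp hζle lamM hl0 hl1 g hg0 hg cst hW
    have key := face_HGMe h v hz τ hA hl hδ hdE hdm hdd hρ hMρ hMe hx hNd hRd
      (ζ := zc (fun i => a (τ i)) N x) hζp hζle hb
      (lamM := lamM) hl0
      (hf := fun p t => φ * flP (PN N) p t)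
      (fun p => (flP_meas p).const_mul _)
      (fun p t => mul_nonneg hφ0.le (flP_nonneg p t))
      (fun p t ht => by
        show φ * flP (PN N) p t = 0
        rw [flP_zero (by push Not at ht; exact ht) p, mul_zero])
      (fun t ht k => by
        obtain ⟨p0, p1, p2⟩ := flP_pair (P := PN N) ht
        have hx := ht k
        have ha := mul_le_mul_of_nonneg_left (alP_zeta hζp ht k) hl0
        have ha2 := mul_le_mul_of_nonneg_right hl1 (ht k)
        have hfk : (flP (PN N) 0 t + flP (PN N) 1 t + flP (PN N) 2 t) - flP (PN N) k t ≤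
            mu (PN N) (vt t) k := by
          fin_cases k
          · simp only [Fin.zero_eta]
            linarith
          · simp only [Fin.mk_one]
            linarith
          · simp only [Fin.reduceFinMk]
            linarith
        have hfk' := mul_le_mul_of_nonneg_left hfk hφ0.le
        linarith)
      (κ := fun p t => kap N (vv t) p)
      (fun p => kap_meas hN hc hcol p)
      (fun p t ht => kap_nonneg hN hc hcol (fun k => vv_nonneg ht k) p)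
      (Ck := 1) (fun p t ht => kap_le_one hN hc hcol ht p)
      (fun t ht k => by
        have hbv := fun k => vv_nonneg ht k
        fin_cases k
        · have := kap_add hN hc hcol hbv (j := 1) (l := 2) (k := 0) (by decide) (by decide)
            (by decide)
          simp only [Fin.zero_eta]
          linarith
        · have := kap_add hN hc hcol hbv (j := 0) (l := 2) (k := 1) (by decide) (by decide)
            (by decide)
          simp only [Fin.mk_one]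
          linarith
        · have := kap_add hN hc hcol hbv (j := 0) (l := 1) (k := 2) (by decide) (by decide)
            (by decide)
          simp only [Fin.reduceFinMk]
          linarith)
      hβ0 hβ1 hK
      (fun p => by
        rw [eI]
        exact mul_pos hφ0 (hF0 p))
      (fun p => by
        rw [eI, sub_mul, hβρ, one_mul]
        have := hF p
        linarith)
      (r := r) hr hH hg0 hg hW
    have t1 := hpp 0 1 (R 1) (S (τ 2))
    have t2 := hpp 0 2 (R 2) (S (τ 3))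
    have t3 := hpp 1 0 (R 0) (S (τ 1))
    have t4 := hpp 1 2 (R 2) (S (τ 3))
    have t5 := hpp 2 0 (R 0) (S (τ 1))
    have t6 := hpp 2 1 (R 1) (S (τ 2))
    have e1 : τ (Fin.succ 0) = τ 1 := rfl
    have e2 : τ (Fin.succ 1) = τ 2 := rfl
    have e3 : τ (Fin.succ 2) = τ 3 := rfl
    unfold arcE
    beta_reduce
    rw [e1, e2, e3]
    rw [← t1, ← t2, ← t3, ← t4, ← t5, ← t6]
    linarith only [key]
  intro ζp hζp hζle lamM hl0 hl1 g hg0 hg cst hW
  rcases hxs with hxs | hxs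
  · have m := main ζp hζp hζle lamM hl0 hl1 g hg0 hg cst (fun lam q1 q2 => by
      rw [hxs]
      exact hW lam q1 q2)
    rw [hxs] at m
    have hU' := mul_le_mul_of_nonneg_left hU hg0
    linarith
  · have C := colsN P h' v' hz' hX
    rw [← hNd] at C
    have hR00 : ∀ k, R k = 0 := fun k => by
      have := (C k).2.2.1
      rw [hxs, mul_zero] at this
      exact le_antisymm ((hRd k).trans this) (hR0 k)
    have m := main ζp hζp hζle 0 le_rfl (by linarith) 0 le_rfl (by simp) cst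
      (fun lam q1 q2 => by
        have e : lam = 0 := le_antisymm q2 q1
        have hw := hW 0 le_rfl hl0
        rw [e, GM_zero _ N _ ζp (zc (fun i => a (τ i)) N x) ζp _ _ _ _ _ _ _
          (Qv a (τ 0) x) (S (τ 0))]
        exact hw)
    rw [hR00 i, hR00 j, hxs]
    rw [zero_mul] at m
    linarith

/-- **the face in vertex form, strips at most the need of the arc** -/
theorem face_VFme [IsFiniteMeasure σ]
    (P : Rn X rm qm nb ρ1 Rb gg ε k1 k12 t2 δ)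
    (h : CN K σ a c) (v : Viol K a S) (hz : CV a K z)
    (τ : Equiv.Perm (Fin 4)) (hX : S (τ 0) + (S (τ 1) + S (τ 2) + S (τ 3)) ≤ X)
    {A : ℝ} (hA : 7 / 2 ≤ A)
    {l : Fin 3 → Bool → Bool → E3 × E3 → ℝ} (hl : Lok a l)
    {δ3 dE dm : Fin 3 → ℝ} (hδ : ∀ p, MA σ a l τ p p ≤ δ3 p) (hdE : ∀ p, 0 ≤ dE p)
    (hdm : ∀ p, 0 ≤ dm p) (hdd : ∀ p, δ3 p ^ 2 ≤ dE p * dm p)
    {ρ : Fin 3 → ℝ} (hρ : ∀ p, 0 < ρ p) (hMρ : ∀ p k, k ≠ p → MA σ a l τ p k ≤ ρ p)
    {ρe : Fin 3 → Fin 3 → ℝ} (hMe : ∀ p k, k ≠ p → MA σ a l τ p k ≤ ρe p k)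
    {x : E3} (hx : x ∈ K) (hxs : Qv a (τ 0) x = S (τ 0) ∨ S (τ 0) = 0)
    {N : Fin 3 → Fin 3 → ℝ} (hNd : N = NM (fun i => a (τ i)) (fun i j => z (τ i) (τ j)))
    {tt : Fin 3 → ℝ} (htt : ∀ k, nc N k ≤ tt k)
    (hnb : nb ≤ 2 / 5) (hTN : TN N ≤ 1)
    {K0 K1 e : ℝ} (he : nb ≤ e)
    (hK : ∀ x y p q : ℝ, 0 ≤ x → 0 ≤ y → 0 ≤ p → 0 ≤ q → x + q ≤ nb → y + p ≤ nb →
      K0 * (x + y) - K1 * (y * q + x * p) ≤ kapL e x y p q)
    (hκ0 : ∀ p, 0 ≤ kv K0 K1 N p)
    {φ : ℝ} (hφ0 : 0 < φ) (hφ1 : φ ≤ 1)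
    (hF : ∀ p, 22.6276 * (ρ p - (A / 2 + 1 / 8) * kv K0 K1 N p)
      * (35 / 48 + 9 / 16 * TN N + 5 / 12 * QN N) ^ 2 ≤
      φ * ((A / 2 + 1 / 8) * (1 - TN N ^ 2 / 4)))
    {i j : Fin 3} (hU : PosB a τ x N tt k1 k12 ε (S (τ 0)) i j) :
    ∀ ζp : Fin 3 → ℝ, (∀ k, 0 < ζp k) →
      (∀ k, zc (fun i => a (τ i)) N x k ≤ ζp k) → ∀ lamM, 0 ≤ lamM → lamM ≤ 1 - φ →
      ∀ g, 0 ≤ g → g ≤ (A / 2 + 1 / 8) * (lamM * Pool.Agent.Helper55.Mass.Id (alP N ζp)) →
      ∀ cst, (∀ lam, 0 ≤ lam → lam ≤ lamM → WCost a K τ (A / 2 + 1 / 8)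
        (GM (A / 2 + 1 / 8) N (zc (fun i => a (τ i)) N x) ζp lam (fun p t => φ * flP (PN N) p t)
          (fun p t => kap N (vv t) p) (bt (A / 2 + 1 / 8) (kv K0 K1 N) ρ) (MB σ a l τ)
          (fun p => aE σ a l (τ 0) (τ p.succ) - dE p) (Rv tt N) (fun k => S (τ k.succ))
          (S (τ 0)))
        (DM (A / 2 + 1 / 8) N (zc (fun i => a (τ i)) N x) ζp lam (fun p t => φ * flP (PN N) p t)
          (fun p t => kap N (vv t) p) (bt (A / 2 + 1 / 8) (kv K0 K1 N) ρ) (MB σ a l τ)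
          (fun j => 1 / qM (fun i => a (τ i)) (fun i j => z (τ i) (τ j)) j)
          (fun p => Pool.Agent.Helper31.SR.am σ a l (τ 0) (τ p.succ) - dm p)) cst) →
      LLs σ a l (τ 0) - (dE 0 + dE 1 + dE 2)
        + VFe (A / 2 + 1 / 8) ε k1 (k12 - k1) K0 K1 tt ρ ρe N g i j (S (τ 0))
          (fun k => S (τ k.succ)) - cst ≤ Wi a (τ 0) K σ A := by
  have h' := h.perm τ
  have v' := viol_perm v τ
  have hz' := hz.perm τ
  have hA' : 0 < A / 2 + 1 / 8 := by linarith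
  have hN : ∀ k m, 0 ≤ N k m := fun k m => by
    rw [hNd]
    exact NM_nonneg h' v' hz' k m
  have hd : ∀ k, N k k = 0 := fun k => by
    rw [hNd]
    exact NM_diag k
  have hcol : ∀ m, nc N m ≤ 9 / 10 := fun m => by
    rw [hNd]
    exact nc_le h' v' hz' m
  have hc : (9 / 10 : ℝ) < 1 := by norm_num
  have C := colsN P h' v' hz' hX
  rw [← hNd] at C
  have hnc : ∀ k, nc N k ≤ nb := fun k => (C k).2.1
  have hN' : ∀ k m, N k m ≤ nb := by
    intro k m
    refine le_trans ?_ (hnc m)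
    have a0 := hN 0 m
    have a1 := hN 1 m
    have a2 := hN 2 m
    unfold nc
    fin_cases k
    · show N 0 m ≤ N 0 m + N 1 m + N 2 m
      linarith
    · show N 1 m ≤ N 0 m + N 1 m + N 2 m
      linarith
    · show N 2 m ≤ N 0 m + N 1 m + N 2 m
      linarith
  have hN5 : ∀ k m, N k m ≤ 2 / 5 := fun k m => (hN' k m).trans hnb
  have ek : ∀ k, nc N k = N (k + 1) k + N (k + 2) k := by
    intro k
    have d0 := hd 0
    have d1 := hd 1
    have d2 := hd 2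
    unfold nc
    fin_cases k
    · show N 0 0 + N 1 0 + N 2 0 = N 1 0 + N 2 0
      linarith
    · show N 0 1 + N 1 1 + N 2 1 = N 2 1 + N 0 1
      linarith
    · show N 0 2 + N 1 2 + N 2 2 = N 0 2 + N 1 2
      linarith
  -- node loads
  have hdq : ∀ k, nc N k ^ 2 / 2 ≤ dq (N (k + 1) k) (N (k + 2) k) := by
    intro k
    rw [ek]
    unfold dq
    nlinarith [sq_nonneg (N (k + 1) k - N (k + 2) k)]
  have htp : ∀ k, 0 < 1 + tt k / 2 := fun k => by
    have h1 := htt k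
    have h2 := nc_nonneg hN k
    linarith
  have hR0 : ∀ k, 0 ≤ Rv tt N k := fun k => by
    have := hdq k
    have h2 := sq_nonneg (nc N k)
    unfold Rv
    exact div_nonneg (by linarith) (htp k).le
  have hRd : ∀ k, Rv tt N k ≤ RM (fun i => a (τ i)) (fun i j => z (τ i) (τ j)) k := fun k =>
    (dom_VF h v hz τ hNd htt k).1
  -- residual masses
  have ne1 : ∀ k : Fin 3, k ≠ k + 1 := by decide
  have ne2 : ∀ k : Fin 3, k ≠ k + 2 := by decide
  have ne3 : ∀ k : Fin 3, k + 1 ≠ k + 2 := by decide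
  have hr : ∀ k, Pool.Agent.Helper55.Mass.Id (fun t => rr N (vv t) k) ≤ rv N k := fun k =>
    rr_mass4 hN hN5 hd hc hcol (ne1 k) (ne2 k) (ne3 k)
  have hr0 : ∀ k, 0 ≤ rv N k := fun k => by
    refine le_trans ?_ (hr k)
    unfold Pool.Agent.Helper55.Mass.Id
    refine mul_nonneg (by positivity) (setIntegral_nonneg
      Pool.Agent.Helper55.Sx.Sim_meas fun t ht => ?_)
    exact div_nonneg (Pool.Agent.Helper55.Fill.rr_nonneg hN hc hcol (fun k => vv_nonneg ht k) k)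
      (by positivity)
  have hrow : ∀ k, rowN N k ≤ 4 / 5 := fun k => by
    unfold rowN
    have := hN5 k (k + 1)
    have := hN5 k (k + 2)
    linarith
  have hrB : ∀ k, B0 * rowN N k + rv N k ≤ B0 := by
    intro k
    have h1 := wc4_le hN hN5 k (k + 1) (k + 2)
    have hB := B0_ge
    have n0 := hN (k + 1) k
    have n1 := hN (k + 2) k
    have n2 := hN (k + 1) (k + 2)
    have n3 := hN (k + 2) (k + 1)
    have h2 : 0.2132 * (N (k + 1) k + N (k + 2) k + N (k + 1) (k + 2) + N (k + 2) (k + 1)) ≤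
        B0 * (N (k + 1) k + N (k + 2) k + N (k + 1) (k + 2) + N (k + 2) (k + 1)) :=
      mul_le_mul_of_nonneg_right hB (by positivity)
    have hT : rowN N k + (N (k + 1) k + N (k + 2) k + N (k + 1) (k + 2) + N (k + 2) (k + 1)) ≤
        1 := by
      refine le_trans (le_of_eq ?_) hTN
      unfold TN rowN
      rw [ek 0, ek 1, ek 2]
      fin_cases k
      · show N 0 1 + N 0 2 + (N 1 0 + N 2 0 + N 1 2 + N 2 1) =
          N 1 0 + N 2 0 + (N 2 1 + N 0 1) + (N 0 2 + N 1 2)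
        ring
      · show N 1 2 + N 1 0 + (N 2 1 + N 0 1 + N 2 0 + N 0 2) =
          N 1 0 + N 2 0 + (N 2 1 + N 0 1) + (N 0 2 + N 1 2)
        ring
      · show N 2 0 + N 2 1 + (N 0 2 + N 1 2 + N 0 1 + N 1 0) =
          N 1 0 + N 2 0 + (N 2 1 + N 0 1) + (N 0 2 + N 1 2)
        ring
    have h3 := mul_le_mul_of_nonneg_left hT (show (0 : ℝ) ≤ B0 by linarith)
    have h4 : rv N k = wc4 N k (k + 1) (k + 2) := rfl
    rw [h4]
    linarith
  -- strips
  have hκ : ∀ p, kv K0 K1 N p ≤ Pool.Agent.Helper55.Mass.Id (fun t => kap N (vv t) p) := by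
    intro p
    have hij : ∀ k m, N k m + N m k ≤ 1 := fun k m => by
      have := hN5 k m
      have := hN5 m k
      linarith
    have c1 : N p (p + 1) * N (p + 1) p + N p (p + 2) * N (p + 2) p ≤ 1 := by
      have a1 := hN5 p (p + 1)
      have a2 := hN5 (p + 1) p
      have a3 := hN5 p (p + 2)
      have a4 := hN5 (p + 2) p
      have b1 := hN p (p + 1)
      have b2 := hN (p + 1) p
      have b3 := hN p (p + 2)
      have b4 := hN (p + 2) p
      nlinarith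
    have km := kap_mass hN hc hcol hd (e := e) (ne1 p) (ne2 p) (ne3 p) c1
      ((hN' _ _).trans he) ((hN' _ _).trans he) ((hN5 _ _).trans (by norm_num))
      ((hN5 _ _).trans (by norm_num))
    refine le_trans ?_ km
    have q1 : N p (p + 1) + N (p + 2) (p + 1) ≤ nb := by
      refine le_trans (le_of_eq ?_) (hnc (p + 1))
      rw [ek]
      fin_cases p
      · show N 0 1 + N 2 1 = N 2 1 + N 0 1
        ring
      · show N 1 2 + N 0 2 = N 0 2 + N 1 2
        ring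
      · show N 2 0 + N 1 0 = N 1 0 + N 2 0
        ring
    have q2 : N p (p + 2) + N (p + 1) (p + 2) ≤ nb := by
      refine le_trans (le_of_eq ?_) (hnc (p + 2))
      rw [ek]
      fin_cases p
      · show N 0 2 + N 1 2 = N 0 2 + N 1 2
        ring
      · show N 1 0 + N 2 0 = N 1 0 + N 2 0
        ring
      · show N 2 1 + N 0 1 = N 2 1 + N 0 1
        ring
    exact hK _ _ _ _ (hN _ _) (hN _ _) (hN _ _) (hN _ _) q1 q2
  have hAρ : ∀ p, (A / 2 + 1 / 8) * (ρ p / (A / 2 + 1 / 8)) = ρ p := fun p =>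
    mul_div_cancel₀ _ hA'.ne'
  have hm0 : ∀ p, 0 ≤ km (A / 2 + 1 / 8) (kv K0 K1 N) ρ p := fun p =>
    le_min (hκ0 p) (div_nonneg (hρ p).le hA'.le)
  have hm1 : ∀ p, (A / 2 + 1 / 8) * km (A / 2 + 1 / 8) (kv K0 K1 N) ρ p ≤ ρ p := fun p => by
    exact (mul_le_mul_of_nonneg_left (min_le_right _ _) hA'.le).trans (hAρ p).le
  have hm2 : ∀ p, km (A / 2 + 1 / 8) (kv K0 K1 N) ρ p ≤
      Pool.Agent.Helper55.Mass.Id (fun t => kap N (vv t) p) := fun p =>
    (min_le_left _ _).trans (hκ p)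
  -- share
  have hT0 := TN_nonneg hN
  have hD : 0 < 1 - TN N ^ 2 / 4 := by nlinarith
  have hF' : ∀ p, ρ p - (A / 2 + 1 / 8) * km (A / 2 + 1 / 8) (kv K0 K1 N) ρ p ≤
      φ * ((A / 2 + 1 / 8) * Pool.Agent.Helper55.Mass.Id (flP (PN N) p)) := by
    intro p
    have hI : 0 ≤ Pool.Agent.Helper55.Mass.Id (flP (PN N) p) := by
      unfold Pool.Agent.Helper55.Mass.Id
      refine mul_nonneg (by positivity) (setIntegral_nonneg
        Pool.Agent.Helper55.Sx.Sim_meas fun t ht => ?_)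
      exact div_nonneg (flP_nonneg p t) (by positivity)
    rcases le_total (kv K0 K1 N p) (ρ p / (A / 2 + 1 / 8)) with hc1 | hc1
    · have e0 : km (A / 2 + 1 / 8) (kv K0 K1 N) ρ p = kv K0 K1 N p := min_eq_left hc1
      rw [e0]
      have hκρ : (A / 2 + 1 / 8) * kv K0 K1 N p ≤ ρ p := by
        exact (mul_le_mul_of_nonneg_left hc1 hA'.le).trans (hAρ p).le
      have h1 := phi_ok hN hd hc hcol hA' (ρ := ρ p - (A / 2 + 1 / 8) * kv K0 K1 N p)
        (sub_nonneg.2 hκρ) (by linarith) p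
      have h2 : phiN (A / 2 + 1 / 8) (ρ p - (A / 2 + 1 / 8) * kv K0 K1 N p) (TN N) (QN N) ≤
          φ := by
        unfold phiN
        rw [div_le_iff₀ (mul_pos hA' hD)]
        exact hF p
      exact h1.trans (mul_le_mul_of_nonneg_right h2 (mul_nonneg hA'.le hI))
    · have e0 : km (A / 2 + 1 / 8) (kv K0 K1 N) ρ p = ρ p / (A / 2 + 1 / 8) := min_eq_right hc1
      rw [e0, hAρ, sub_self]
      exact mul_nonneg hφ0.le (mul_nonneg hA'.le hI)
  obtain ⟨H, hH⟩ := exists_plane hN hc hcol (Rv tt N)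
  have key := face_numUe P h v hz τ hX hA hl hδ hdE hdm hdd hρ hMρ hMe hx hxs hNd hR0
    hRd hm0 hm1 hm2 hφ0 hφ1 hF' hr hH hU
  have hpl := corX_le hN hd hc hcol (A' := A / 2 + 1 / 8) hA'.le (R := Rv tt N) (H := H)
    (S := fun k => S (τ k.succ)) (r := rv N) hH hR0 hr0 (fun k => v.nn _)
    (show (4 / 5 : ℝ) < 1 by norm_num) hrow hrB
  intro ζp z1 z2 lamM l1 l2 g g1 g2 cst hW
  have kk := key ζp z1 z2 lamM l1 l2 g g1 g2 cst hW
  rw [arcE_km hA' (fun p => (hρ p).le) hR0 (fun k => v.nn _)] at kk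
  have e1 : τ (Fin.succ 0) = τ 1 := rfl
  have e2 : τ (Fin.succ 1) = τ 2 := rfl
  have e3 : τ (Fin.succ 2) = τ 3 := rfl
  beta_reduce at hpl
  rw [e1, e2, e3] at hpl
  unfold VFe
  linarith

end Helper21.FVe
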