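import Pool.Agent.Helper21.MEI.FVt
import Pool.Agent.Helper21.MEI.FVe4
import Pool.Agent.Helper73.MEI.FW4

/-!
# Project MEI (M2): the row of a face with couplings

`CertT` = certificate of a face at a vertex, prices `γ` of the couplings; `cert_glueT`;
`row_faceT` = helper73's `row_face` for a coupled system: a moment for every end, third columns.
-/

set_option autoImplicit false

namespace Helper21.FVe

open Set Metric MeasureTheory Helper80.CW Helper82.CW Helper14.CW Helper93.MEI Helper82.M2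
open Helper14.MEI2 Pool.Agent.Helper52.MEI Pool.Agent.Helper73.MEI Helper37.MEI Helper41.MEI
open Helper33.MEI (Wi)
open Pool.Agent.Helper55.Mass (LN vv vv_nonneg B0 B0_ge)
open Pool.Agent.Helper55.Apex (nc)
open Pool.Agent.Helper55.ApexP (PN alP alP_nonneg alP_zeta mu_bal)
open Pool.Agent.Helper55.TentL (PC PX apex_four)
open Pool.Agent.Helper73.MEI.SideP
open Pool.Agent.Helper96.Kap (kap kapL)
open Pool.Agent.Helper31.SR
open Helper78.MEI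
open Pool.Agent.Helper73.MEI.ZEl
open Pool.Agent.Helper73.MEI.ArCor
open Helper75.MEI2 (mu vt Qf)
open scoped RealInnerProductSpace ENNReal

/-- **the certificate of a face at a vertex**, prices `γ` of the couplings -/
def CertT (A' ε k1 k2 K0 K1 : ℝ) (tt ρ : Fin 3 → ℝ) (w0 w1 γ : Fin 3 → Fin 3 → ℝ)
    (Dom : (Fin 3 → Fin 3 → ℝ) → Prop)
    (g : Option (Fin 3) → (Fin 3 → Fin 3 → ℝ) → ℝ)
    (μ : Fin 3 → ℝ) (s : ℝ) (S cp : Fin 3 → ℝ)
    (cost : Option (Fin 3) → Fin 3 → Fin 3 → (Fin 3 → Fin 3 → ℝ) → ℝ) (m : ℝ) : Prop :=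
  ∀ N : Fin 3 → Fin 3 → ℝ, (∀ k m, 0 ≤ N k m) → (∀ k, N k k = 0) → (∀ k, nc N k ≤ tt k) →
    Dom N → ∀ i j : Fin 3, i ≠ j → ∀ cl : Option (Fin 3),
    m ≤ VFt A' ε k1 k2 K0 K1 tt ρ w0 w1 γ N (g cl N) i j s S
      + (μ 0 * (dq (N 1 0) (N 2 0) / (1 + tt 0 / 2) ^ 2 - cp 0)
        + μ 1 * (dq (N 2 1) (N 0 1) / (1 + tt 1 / 2) ^ 2 - cp 1)
        + μ 2 * (dq (N 0 2) (N 1 2) / (1 + tt 2 / 2) ^ 2 - cp 2))
      - cost cl i j N

/-- **gluing**: certificates at the vertices give the value of the face at the state -/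
theorem cert_glueT {A' ε k1 k2 K0 K1 : ℝ} {tt : Fin 3 → ℝ}
    {Dom : (Fin 3 → Fin 3 → ℝ) → Prop} {g : Option (Fin 3) → (Fin 3 → Fin 3 → ℝ) → ℝ}
    {ι : Type*} [Fintype ι] {lam : ι → ℝ} (h0 : ∀ v, 0 ≤ lam v) (h1 : ∑ v, lam v = 1)
    {s : ι → ℝ} {S cp : ι → Fin 3 → ℝ} {μ : Fin 3 → ℝ} (hμ : ∀ k, 0 ≤ μ k)
    {ρv : ι → Fin 3 → ℝ} {w0 w1 π : Fin 3 → Fin 3 → ℝ} {γ : ι → Fin 3 → Fin 3 → ℝ}
    (hw0 : ∀ p k, 0 ≤ w0 p k) (hw1 : ∀ p k, w0 p k ≤ w1 p k) (hγ : ∀ v p k, 0 ≤ γ v p k)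
    (hp0 : ∀ p k, 0 ≤ π p k) (hp1 : ∀ p k, π p k ≤ 1)
    {ρ : Fin 3 → ℝ} (hρd : ∀ p, ρ p = ∑ v, lam v * ρv v p) (hρ0 : ∀ p, 0 < ρ p)
    {ρe : Fin 3 → Fin 3 → ℝ}
    (hρe : ∀ p k, ρe p k = (w0 p k + π p k * (w1 p k - w0 p k)) * ρ p)
    {cost : ι → Option (Fin 3) → Fin 3 → Fin 3 → (Fin 3 → Fin 3 → ℝ) → ℝ} {m : ι → ℝ}
    (hC : ∀ v, CertT A' ε k1 k2 K0 K1 tt (ρv v) w0 w1 (γ v) Dom g μ (s v) (S v) (cp v) (cost v)
      (m v))
    {N : Fin 3 → Fin 3 → ℝ} (hN : ∀ k m, 0 ≤ N k m) (hd : ∀ k, N k k = 0)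
    (ht : ∀ k, nc N k ≤ tt k) (hD : Dom N)
    (c0 : dq (N 1 0) (N 2 0) / (1 + tt 0 / 2) ^ 2 ≤ ∑ v, lam v * cp v 0)
    (c1 : dq (N 2 1) (N 0 1) / (1 + tt 1 / 2) ^ 2 ≤ ∑ v, lam v * cp v 1)
    (c2 : dq (N 0 2) (N 1 2) / (1 + tt 2 / 2) ^ 2 ≤ ∑ v, lam v * cp v 2)
    {i j : Fin 3} (hij : i ≠ j) (cl : Option (Fin 3)) :
    ∑ v, lam v * (m v - s6 fun p k => π p k * γ v p k) ≤
      VFe A' ε k1 k2 K0 K1 tt ρ ρe N (g cl N) i j (∑ v, lam v * s v)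
        (fun k => ∑ v, lam v * S v k) - ∑ v, lam v * cost v cl i j N := by
  have e1 := VFt_conv (A' := A') (ε := ε) (k1 := k1) (k2 := k2) (K0 := K0) (K1 := K1) (τ := tt)
    (w0 := w0) (w1 := w1) (π := π) (N := N) (g := g cl N) (i := i) (j := j) Finset.univ
    (fun v _ => h0 v) h1 ρv γ s S hw0 hw1 hγ hp0 hp1 hρd hρ0 hρe
  have e2 := Finset.sum_le_sum fun v (_ : v ∈ (Finset.univ : Finset ι)) =>
    mul_le_mul_of_nonneg_left (sub_le_sub_right (hC v N hN hd ht hD i j hij cl)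
      (s6 fun p k => π p k * γ v p k)) (h0 v)
  refine e2.trans ?_
  have e4 : ∀ v, lam v * (VFt A' ε k1 k2 K0 K1 tt (ρv v) w0 w1 (γ v) N (g cl N) i j (s v) (S v)
      + (μ 0 * (dq (N 1 0) (N 2 0) / (1 + tt 0 / 2) ^ 2 - cp v 0)
        + μ 1 * (dq (N 2 1) (N 0 1) / (1 + tt 1 / 2) ^ 2 - cp v 1)
        + μ 2 * (dq (N 0 2) (N 1 2) / (1 + tt 2 / 2) ^ 2 - cp v 2))
      - cost v cl i j N - s6 fun p k => π p k * γ v p k) =
      lam v * (VFt A' ε k1 k2 K0 K1 tt (ρv v) w0 w1 (γ v) N (g cl N) i j (s v) (S v) -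
        s6 fun p k => π p k * γ v p k)
      + (μ 0 * (lam v * (dq (N 1 0) (N 2 0) / (1 + tt 0 / 2) ^ 2)) - μ 0 * (lam v * cp v 0)
        + (μ 1 * (lam v * (dq (N 2 1) (N 0 1) / (1 + tt 1 / 2) ^ 2)) - μ 1 * (lam v * cp v 1))
        + (μ 2 * (lam v * (dq (N 0 2) (N 1 2) / (1 + tt 2 / 2) ^ 2)) - μ 2 * (lam v * cp v 2)))
      - lam v * cost v cl i j N := fun v => by ring
  simp only [e4, Finset.sum_add_distrib, Finset.sum_sub_distrib (f := fun v =>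
    lam v * (VFt A' ε k1 k2 K0 K1 tt (ρv v) w0 w1 (γ v) N (g cl N) i j (s v) (S v) -
        s6 fun p k => π p k * γ v p k)
      + (μ 0 * (lam v * (dq (N 1 0) (N 2 0) / (1 + tt 0 / 2) ^ 2)) - μ 0 * (lam v * cp v 0)
        + (μ 1 * (lam v * (dq (N 2 1) (N 0 1) / (1 + tt 1 / 2) ^ 2)) - μ 1 * (lam v * cp v 1))
        + (μ 2 * (lam v * (dq (N 0 2) (N 1 2) / (1 + tt 2 / 2) ^ 2)) - μ 2 * (lam v * cp v 2))))]
  have e5 : ∀ (M : ℝ) (x : ℝ) (k : Fin 3), ∑ v, (M * (lam v * x) - M * (lam v * cp v k)) =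
      M * (x - ∑ v, lam v * cp v k) := by
    intro M x k
    rw [Finset.sum_sub_distrib, ← Finset.mul_sum, ← Finset.mul_sum, ← Finset.sum_mul, h1]
    ring
  rw [e5, e5, e5]
  have m0 := mul_nonneg (hμ 0) (sub_nonneg.2 c0)
  have m1 := mul_nonneg (hμ 1) (sub_nonneg.2 c1)
  have m2 := mul_nonneg (hμ 2) (sub_nonneg.2 c2)
  linarith

variable {a : Fin 4 → E3} {K : Set E3} {S : Fin 4 → ℝ} {σ : Measure (E3 × E3)}
  {c : Fin 4 → E3} {z : Fin 4 → Fin 4 → E3} {X rm qm nb ρ1 Rb gg ε k1 k12 t2 δ : ℝ}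

/-- **THE ROW OF A FACE WITH COUPLINGS**: certificates at the vertices + cost -/
theorem row_faceT [IsFiniteMeasure σ]
    (P : Rn X rm qm nb ρ1 Rb gg ε k1 k12 t2 δ)
    (h : CN K σ a c) (v : Viol K a S) (hz : CV a K z)
    (τ : Equiv.Perm (Fin 4)) (hX : S (τ 0) + (S (τ 1) + S (τ 2) + S (τ 3)) ≤ X)
    {l : Fin 3 → Bool → Bool → E3 × E3 → ℝ} (hl : Lok a l)
    {δ3 dE dm : Fin 3 → ℝ} (hδ : ∀ p, MA σ a l τ p p ≤ δ3 p) (hdE : ∀ p, 0 ≤ dE p)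
    (hdm : ∀ p, 0 ≤ dm p) (hdd : ∀ p, δ3 p ^ 2 ≤ dE p * dm p)
    {rb K0 K1 e r V : ℝ} {D tt : Fin 3 → ℝ}
    (T : Stc X qm nb K0 K1 e rb r V D tt)
    (hDS : ∀ k : Fin 3, S (τ 0) ≤ D k ∨ S (τ k.succ) ≤ D k)
    {ι : Type*} [Fintype ι] {lam : ι → ℝ} (h0 : ∀ w, 0 ≤ lam w) (h1 : ∑ w, lam w = 1)
    {W : ι → Fin 4 → ℝ} (hS : ∀ i, S i = ∑ w, lam w * W w i)
    {mx : Fin 3 → Fin 4} (hmx : ∀ k : Fin 3, mx k = τ 0 ∨ mx k = τ k.succ)
    {ρv : ι → Fin 3 → ℝ} (hρv : ∀ w p, 0 < ρv w p) (hrv : ∀ w p, ρv w p ≤ rb)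
    {w0 w1 π : Fin 3 → Fin 3 → ℝ} {γ : ι → Fin 3 → Fin 3 → ℝ} (hw0 : ∀ p k, 0 ≤ w0 p k)
    (hw1 : ∀ p k, w0 p k ≤ w1 p k) (hw2 : ∀ p k, w1 p k ≤ 1) (hγ : ∀ w p k, 0 ≤ γ w p k)
    (hp0 : ∀ p k, 0 ≤ π p k) (hp1 : ∀ p k, π p k ≤ 1)
    {ρ : Fin 3 → ℝ} (hρd : ∀ p, ρ p = ∑ w, lam w * ρv w p)
    (hM : ∀ p k, k ≠ p → MA σ a l τ p k ≤ (w0 p k + π p k * (w1 p k - w0 p k)) * ρ p)
    {g : Option (Fin 3) → (Fin 3 → Fin 3 → ℝ) → ℝ}
    (hg0 : ∀ cl, ∀ N : Fin 3 → Fin 3 → ℝ, (∀ k m, 0 ≤ N k m) → (∀ k, N k k = 0) →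
      (∀ k, nc N k ≤ tt k) → 0 ≤ g cl N)
    (hgM : ∀ cl, ∀ N : Fin 3 → Fin 3 → ℝ, (∀ k m, 0 ≤ N k m) → (∀ k, N k k = 0) →
      (∀ k, nc N k ≤ tt k) →
      MasB 2.04 (S (τ 0)) r V (phiN 2.04 rb (TN N) (QN N)) (g cl N) N cl)
    {μ : Fin 3 → ℝ} (hμ : ∀ k, 0 ≤ μ k)
    {cost : ι → Option (Fin 3) → Fin 3 → Fin 3 → (Fin 3 → Fin 3 → ℝ) → ℝ} {m : ι → ℝ}
    (hC : ∀ w, CertT 2.04 ε k1 (k12 - k1) K0 K1 tt (ρv w) w0 w1 (γ w) (DomF D tt) g μ (W w (τ 0))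
      (fun k => W w (τ k.succ)) (fun k => W w (mx k)) (cost w) (m w))
    (hW : ∀ x ∈ K, (Qv a (τ 0) x = S (τ 0) ∨ S (τ 0) = 0) → ∀ N : Fin 3 → Fin 3 → ℝ,
      N = NM (fun i => a (τ i)) (fun i j => z (τ i) (τ j)) → ∀ i j : Fin 3, i ≠ j →
      PosB a τ x N tt k1 k12 ε (S (τ 0)) i j → ∀ cl, ClsB a τ x N cl →
      WCF 2.04 σ a K l τ z S x N (Rv tt N) (phiN 2.04 rb (TN N) (QN N))
        (bt 2.04 (kv K0 K1 N) ρ) dE dm (∑ w, lam w * cost w cl i j N)) :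
    ∃ F : ℝ, LLs σ a l (τ 0) + F ≤ Wi a (τ 0) K σ 3.83 ∧
      ∑ w, lam w * (m w - s6 fun p k => π p k * γ w p k) - (dE 0 + dE 1 + dE 2) ≤ F := by
  have h' := h.perm τ
  have v' := viol_perm v τ
  have hz' := hz.perm τ
  have e204 : (3.83 : ℝ) / 2 + 1 / 8 = 2.04 := by norm_num
  -- the capacities
  obtain ⟨wq, hwq⟩ : ∃ w, 0 < lam w := by
    by_contra hcon
    push Not at hcon
    have h3 : ∑ w, lam w = 0 := Finset.sum_eq_zero fun w _ => le_antisymm (hcon w) (h0 w)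
    rw [h1] at h3
    exact one_ne_zero h3
  have hρ : ∀ p, 0 < ρ p := fun p => by
    rw [hρd]
    exact Finset.sum_pos' (fun w _ => mul_nonneg (h0 w) (hρv w p).le)
      ⟨wq, Finset.mem_univ _, mul_pos hwq (hρv wq p)⟩
  have hrb : ∀ p, ρ p ≤ rb := fun p => by
    rw [hρd]
    have h3 := Finset.sum_le_sum fun w (_ : w ∈ (Finset.univ : Finset ι)) =>
      mul_le_mul_of_nonneg_left (hrv w p) (h0 w)
    rw [← Finset.sum_mul, h1, one_mul] at h3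
    exact h3
  have hWw : ∀ p k, 0 ≤ w0 p k + π p k * (w1 p k - w0 p k) ∧
      w0 p k + π p k * (w1 p k - w0 p k) ≤ 1 := fun p k => by
    have h3 := hw0 p k
    have h4 := mul_nonneg (hp0 p k) (sub_nonneg.2 (hw1 p k))
    have h5 := mul_le_mul_of_nonneg_right (hp1 p k) (sub_nonneg.2 (hw1 p k))
    have h6 := hw2 p k
    constructor <;> linarith
  have hMρ : ∀ p k, k ≠ p → MA σ a l τ p k ≤ ρ p := fun p k hk => by
    refine (hM p k hk).trans ?_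
    have h3 := mul_le_mul_of_nonneg_right (hWw p k).2 (hρ p).le
    linarith
  obtain ⟨N, hNd⟩ : ∃ N, N = NM (fun i => a (τ i)) (fun i j => z (τ i) (τ j)) := ⟨_, rfl⟩
  have hN : ∀ k m, 0 ≤ N k m := fun k m => by
    rw [hNd]
    exact NM_nonneg h' v' hz' k m
  have hd : ∀ k, N k k = 0 := fun k => by
    rw [hNd]
    exact NM_diag k
  have C := colsN P h' v' hz' hX
  rw [← hNd] at C
  have htt : ∀ k, nc N k ≤ tt k := by
    intro k
    refine col_le (D := D k) (nc_nonneg hN k) (T.tt0 k) ?_ (T.ttD k)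
    have hp : 0 ≤ 2 * (1 + nc N k / 2) ^ 2 := by positivity
    rcases hDS k with hh | hh
    · have := mul_le_mul_of_nonneg_right hh hp
      linarith [(C k).2.2.2.2.2.2.1]
    · have := mul_le_mul_of_nonneg_right hh hp
      linarith [(C k).2.2.2.2.2.2.2.1]
  have hTN : TN N ≤ tt 0 + tt 1 + tt 2 := by
    unfold TN
    linarith [htt 0, htt 1, htt 2]
  have hTN0 := TN_nonneg hN
  have hN' : ∀ k m, N k m ≤ nb := by
    intro k m
    refine le_trans ?_ (C m).2.1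
    have a0 := hN 0 m
    have a1 := hN 1 m
    have a2 := hN 2 m
    unfold nc
    fin_cases k
    · show N 0 m ≤ N 0 m + N 1 m + N 2 m
      linarith
    · show N 1 m ≤ N 0 m + N 1 m + N 2 m
      linarith
    · show N 2 m ≤ N 0 m + N 1 m + N 2 m
      linarith
  have hκ0 := kv_nonneg hN hN' T.K10 T.K1n
  -- the share
  set φ := phiN 2.04 rb (TN N) (QN N) with hφd
  have hT2 : TN N < 2 := by linarith [T.tt1]
  have hDp : 0 < 1 - TN N ^ 2 / 4 := by nlinarith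
  have hφ0 : 0 < φ := phiN_pos (by norm_num) T.rb0 hTN0 hT2 QN_nonneg
  have hφe : φ * (2.04 * (1 - TN N ^ 2 / 4)) =
      22.6276 * rb * (35 / 48 + 9 / 16 * TN N + 5 / 12 * QN N) ^ 2 := by
    rw [hφd]
    unfold phiN
    exact div_mul_cancel₀ _ (by positivity)
  have hQN := QN_le_sq hN
  have hQ0 : 0 ≤ QN N := QN_nonneg
  have hφ1 : φ ≤ 1 := by
    have hTs : TN N ^ 2 ≤ (tt 0 + tt 1 + tt 2) ^ 2 := pow_le_pow_left₀ hTN0 hTN 2
    have b1 : (35 / 48 + 9 / 16 * TN N + 5 / 12 * QN N) ^ 2 ≤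
        (35 / 48 + 9 / 16 * (tt 0 + tt 1 + tt 2) + 5 / 12 * (tt 0 + tt 1 + tt 2) ^ 2) ^ 2 :=
      pow_le_pow_left₀ (by positivity) (by linarith) 2
    have b2 := mul_le_mul_of_nonneg_left b1 (show 0 ≤ 22.6276 * rb by
      have := T.rb0
      positivity)
    have b3 : φ * (2.04 * (1 - TN N ^ 2 / 4)) ≤ 1 * (2.04 * (1 - TN N ^ 2 / 4)) := by
      rw [hφe]
      have := T.φ1
      linarith
    exact le_of_mul_le_mul_right b3 (by positivity)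
  have hF : ∀ p, 22.6276 * (ρ p - (3.83 / 2 + 1 / 8) * kv K0 K1 N p)
      * (35 / 48 + 9 / 16 * TN N + 5 / 12 * QN N) ^ 2 ≤
      φ * ((3.83 / 2 + 1 / 8) * (1 - TN N ^ 2 / 4)) := by
    intro p
    rw [e204, hφe]
    have b1 : ρ p - 2.04 * kv K0 K1 N p ≤ rb := by
      have := hκ0 p
      have := hrb p
      linarith
    have b2 := mul_le_mul_of_nonneg_right b1
      (sq_nonneg (35 / 48 + 9 / 16 * TN N + 5 / 12 * QN N))
    linarith
  -- the domain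
  have hdom := fun k => dom_VF h v hz τ hNd htt k
  have hDom : DomF D tt N := by
    intro k
    rcases hDS k with hh | hh
    · exact ((hdom k).2.1).trans hh
    · exact ((hdom k).2.2).trans hh
  have hcap : ∀ k, dq (N (k + 1) k) (N (k + 2) k) / (1 + tt k / 2) ^ 2 ≤
      ∑ w, lam w * W w (mx k) := by
    intro k
    rw [← hS]
    rcases hmx k with hh | hh
    · rw [hh]
      exact (hdom k).2.1
    · rw [hh]
      exact (hdom k).2.2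
  obtain ⟨x, hx, hxs⟩ : ∃ x ∈ K, Qv a (τ 0) x = S (τ 0) ∨ S (τ 0) = 0 := by
    rcases v.att (τ 0) with hh | ⟨x, hx, hh⟩
    · obtain ⟨x, hx⟩ := h.ne
      exact ⟨x, hx, Or.inr hh⟩
    · exact ⟨x, hx, Or.inl hh⟩
  obtain ⟨i, j, hij, hU⟩ := pos_VF P h v hz τ hX hx hxs hNd htt T.qt
  have key := face_VFme P h v hz τ hX (A := 3.83) (by norm_num) hl hδ hdE hdm hdd hρ hMρ
    (ρe := fun p k => (w0 p k + π p k * (w1 p k - w0 p k)) * ρ p) hM hx hxs hNd htt T.nb5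
    (by linarith [T.tt1]) T.nbe T.K hκ0 hφ0 hφ1 hF hU
  rw [e204] at key
  have eS : S (τ 0) = ∑ w, lam w * W w (τ 0) := hS _
  have eS' : (fun k : Fin 3 => S (τ k.succ)) = fun k => ∑ w, lam w * W w (τ k.succ) := by
    funext k
    exact hS _
  -- conclusion for a class and a weight
  set ρe : Fin 3 → Fin 3 → ℝ := fun p k => (w0 p k + π p k * (w1 p k - w0 p k)) * ρ p with hρe
  have fin : ∀ cl, ∑ w, lam w * (m w - s6 fun p k => π p k * γ w p k) ≤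
      VFe 2.04 ε k1 (k12 - k1) K0 K1 tt ρ ρe N (g cl N) i j (S (τ 0)) (fun k => S (τ k.succ))
        - ∑ w, lam w * cost w cl i j N := by
    intro cl
    have := cert_glueT h0 h1 (s := fun w => W w (τ 0)) (S := fun w k => W w (τ k.succ))
      (cp := fun w k => W w (mx k)) hμ hw0 hw1 hγ hp0 hp1 hρd hρ (ρe := ρe) (fun _ _ => rfl) hC
      hN hd htt hDom (hcap 0) (hcap 1) (hcap 2) hij cl
    rw [eS, eS']
    exact this
  have hxs0 := hxs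
  rcases hxs with hxs' | hxs'
  · obtain ⟨cl, hcl, ζp, z1, z2, z3⟩ := cls_VF h v hz τ hX T.X3 hx hxs' hNd (fun k => by
      have := htt k
      have t0 := T.tt0 0
      have t1 := T.tt0 1
      have t2 := T.tt0 2
      exact (C k).2.1.trans (by linarith [T.nb5])) T.r0 T.rX T.V0 T.VX T.Vr
    have hg := z3 2.04 φ (g cl N) (by norm_num) hφ1 (hg0 cl N hN hd htt) (hgM cl N hN hd htt)
    have kk := key ζp z1 z2 (1 - φ) (by linarith) le_rfl (g cl N) (hg0 cl N hN hd htt) hg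
      (∑ w, lam w * cost w cl i j N)
      (hW x hx hxs0 N hNd i j hij hU cl hcl ζp z1 z2)
    refine ⟨VFe 2.04 ε k1 (k12 - k1) K0 K1 tt ρ ρe N (g cl N) i j (S (τ 0)) (fun k => S (τ k.succ))
        - ∑ w, lam w * cost w cl i j N - (dE 0 + dE 1 + dE 2), by linarith, ?_⟩
    linarith [fin cl]
  · -- no violation: the weight does not matter
    obtain ⟨cl, hcl⟩ : ∃ cl, ClsB a τ x N cl := by
      by_cases hall : ∀ k, 0 ≤ zc (fun i => a (τ i)) N x k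
      · exact ⟨none, hall⟩
      · push Not at hall
        obtain ⟨k, hk⟩ := hall
        exact ⟨some k, hk.le⟩
    have hR00 : ∀ k, Rv tt N k = 0 := fun k => by
      have q1 := (hdom k).1
      have q2 := (C k).2.2.1
      rw [hxs', mul_zero] at q2
      have q3 : 0 ≤ Rv tt N k := by
        unfold Rv dq
        have n1 := hN (k + 1) k
        have n2 := hN (k + 2) k
        have := T.tt0 k
        positivity
      exact le_antisymm (q1.trans q2) q3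
    have kk := key (fun k => max 1 (zc (fun i => a (τ i)) N x k))
      (fun k => lt_of_lt_of_le one_pos (le_max_left _ _)) (fun k => le_max_right _ _)
      0 le_rfl (by linarith) 0 le_rfl (by simp)
      (∑ w, lam w * cost w cl i j N) (fun lam' q1 q2 =>
        hW x hx hxs0 N hNd i j hij hU cl hcl (fun k => max 1 (zc (fun i => a (τ i)) N x k))
          (fun k => lt_of_lt_of_le one_pos (le_max_left _ _)) (fun k => le_max_right _ _) lam' q1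
          (by linarith))
    have e5 : VFe 2.04 ε k1 (k12 - k1) K0 K1 tt ρ ρe N (g cl N) i j (S (τ 0))
        (fun k => S (τ k.succ)) =
        VFe 2.04 ε k1 (k12 - k1) K0 K1 tt ρ ρe N 0 i j (S (τ 0)) (fun k => S (τ k.succ)) := by
      unfold VFe
      rw [hR00 i, hR00 j, hxs']
      ring
    have f1 := fin cl
    rw [e5] at f1
    refine ⟨VFe 2.04 ε k1 (k12 - k1) K0 K1 tt ρ ρe N 0 i j (S (τ 0)) (fun k => S (τ k.succ))
        - ∑ w, lam w * cost w cl i j N - (dE 0 + dE 1 + dE 2), by linarith, ?_⟩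
    linarith

end Helper21.FVe
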