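import Pool.Agent.Helper21.MEI.FVe3

/-!
# Project MEI (M2): the value of a face at the vertices of a piece, with prices of the couplings

`VFt` = value of a face at a vertex: every strip is a group of three alternatives
`{0, w0 x, w1 x - γ}`, `x = ρ R_k - A' κ_p (R_k + S_k)`; `VFt_conv`: fixed leaks, the value of a
face at a state is at least the combination of the values at the vertices minus the prices.
-/

set_option autoImplicit false

namespace Helper21.FVe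

open Set MeasureTheory Helper14.MEI2
open Helper78.MEI Pool.Agent.Helper73.MEI.ArCor
open Helper93.MEI (pp)

/-- the argument of a strip -/
noncomputable def x3 (A' : ℝ) (ρ κ R S : Fin 3 → ℝ) (p k : Fin 3) : ℝ :=
  ρ p * R k - A' * κ p * (R k + S k)

/-- the group of a strip -/
noncomputable def m3 (w0 w1 γ x : ℝ) : ℝ := max 0 (max (w0 * x) (w1 * x - γ))

theorem m3_ge {w0 w1 γ x π : ℝ} (h0 : 0 ≤ w0) (h1 : w0 ≤ w1) (hγ : 0 ≤ γ) (hp0 : 0 ≤ π)
    (hp1 : π ≤ 1) : (w0 + π * (w1 - w0)) * pp x ≤ m3 w0 w1 γ x + π * γ := by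
  have a0 : 0 ≤ m3 w0 w1 γ x := le_max_left _ _
  have a1 : w0 * x ≤ m3 w0 w1 γ x := (le_max_left _ _).trans (le_max_right _ _)
  have a2 : w1 * x - γ ≤ m3 w0 w1 γ x := (le_max_right _ _).trans (le_max_right _ _)
  have hg := mul_nonneg hp0 hγ
  rcases le_total x 0 with hx | hx
  · have e : pp x = 0 := max_eq_right hx
    rw [e, mul_zero]
    linarith
  · have e : pp x = x := max_eq_left hx
    rw [e]
    have b1 := mul_le_mul_of_nonneg_left a1 (show 0 ≤ 1 - π by linarith)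
    have b2 := mul_le_mul_of_nonneg_left a2 hp0
    nlinarith [b1, b2]

/-- the strips of a face at a vertex -/
noncomputable def arcT (A' : ℝ) (ρ : Fin 3 → ℝ) (w0 w1 γ : Fin 3 → Fin 3 → ℝ)
    (κ R S : Fin 3 → ℝ) : ℝ :=
  (m3 (w0 0 1) (w1 0 1) (γ 0 1) (x3 A' ρ κ R S 0 1) + m3 (w0 0 2) (w1 0 2) (γ 0 2) (x3 A' ρ κ R S 0 2))
    + (m3 (w0 1 0) (w1 1 0) (γ 1 0) (x3 A' ρ κ R S 1 0)
      + m3 (w0 1 2) (w1 1 2) (γ 1 2) (x3 A' ρ κ R S 1 2))
    + (m3 (w0 2 0) (w1 2 0) (γ 2 0) (x3 A' ρ κ R S 2 0)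
      + m3 (w0 2 1) (w1 2 1) (γ 2 1) (x3 A' ρ κ R S 2 1))

/-- sum over the six ends -/
def s6 (f : Fin 3 → Fin 3 → ℝ) : ℝ := (f 0 1 + f 0 2) + (f 1 0 + f 1 2) + (f 2 0 + f 2 1)

theorem arcT_s6 (A' : ℝ) (ρ : Fin 3 → ℝ) (w0 w1 γ : Fin 3 → Fin 3 → ℝ) (κ R S : Fin 3 → ℝ) :
    arcT A' ρ w0 w1 γ κ R S =
      s6 fun p k => m3 (w0 p k) (w1 p k) (γ p k) (x3 A' ρ κ R S p k) := rfl

theorem arcE_s6 (A' : ℝ) (ρ : Fin 3 → ℝ) (ρe : Fin 3 → Fin 3 → ℝ) (κ R S : Fin 3 → ℝ) :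
    arcE A' ρ ρe κ R S = s6 fun p k => ρe p k / ρ p * pp (x3 A' ρ κ R S p k) := rfl

theorem s6_mono {f g : Fin 3 → Fin 3 → ℝ} (h : ∀ p k, k ≠ p → f p k ≤ g p k) : s6 f ≤ s6 g := by
  unfold s6
  have := h 0 1 (by decide)
  have := h 0 2 (by decide)
  have := h 1 0 (by decide)
  have := h 1 2 (by decide)
  have := h 2 0 (by decide)
  have := h 2 1 (by decide)
  linarith

theorem s6_sum {ι : Type*} (t : Finset ι) (f : ι → Fin 3 → Fin 3 → ℝ) :
    s6 (fun p k => ∑ v ∈ t, f v p k) = ∑ v ∈ t, s6 (f v) := by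
  unfold s6
  simp only [Finset.sum_add_distrib]

/-- **the value of a face at a vertex**, prices `γ` of the couplings -/
noncomputable def VFt (A' ε k1 k2 K0 K1 : ℝ) (τ ρ : Fin 3 → ℝ) (w0 w1 γ : Fin 3 → Fin 3 → ℝ)
    (N : Fin 3 → Fin 3 → ℝ) (g : ℝ) (i j : Fin 3) (s : ℝ) (S : Fin 3 → ℝ) : ℝ :=
  corX A' N (rv N) (Rv τ N) S + g * ((1 - ε) * s - k1 * Rv τ N i - k2 * Rv τ N j)
    - arcT A' ρ w0 w1 γ (kv K0 K1 N) (Rv τ N) S

/-- **fixed leaks: the value at a state is at least the combination of the values at the vertices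
minus the prices of the couplings**; capacities `ρ` affine, weights `w0 ≤ w1` constant on the
piece -/
theorem VFt_conv {A' ε k1 k2 K0 K1 : ℝ} {τ : Fin 3 → ℝ} {w0 w1 π : Fin 3 → Fin 3 → ℝ}
    {N : Fin 3 → Fin 3 → ℝ} {g : ℝ} {i j : Fin 3} {ι : Type*} (t : Finset ι) {lam : ι → ℝ}
    (h0 : ∀ v ∈ t, 0 ≤ lam v) (h1 : ∑ v ∈ t, lam v = 1) (ρ : ι → Fin 3 → ℝ)
    (γ : ι → Fin 3 → Fin 3 → ℝ) (s : ι → ℝ) (S : ι → Fin 3 → ℝ)
    (hw0 : ∀ p k, 0 ≤ w0 p k) (hw1 : ∀ p k, w0 p k ≤ w1 p k) (hγ : ∀ v p k, 0 ≤ γ v p k)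
    (hp0 : ∀ p k, 0 ≤ π p k) (hp1 : ∀ p k, π p k ≤ 1)
    {ρs : Fin 3 → ℝ} (hρs : ∀ p, ρs p = ∑ v ∈ t, lam v * ρ v p) (hρ0 : ∀ p, 0 < ρs p)
    {ρe : Fin 3 → Fin 3 → ℝ}
    (hρe : ∀ p k, ρe p k = (w0 p k + π p k * (w1 p k - w0 p k)) * ρs p) :
    ∑ v ∈ t, lam v * (VFt A' ε k1 k2 K0 K1 τ (ρ v) w0 w1 (γ v) N g i j (s v) (S v) -
        s6 fun p k => π p k * γ v p k) ≤
      VFe A' ε k1 k2 K0 K1 τ ρs ρe N g i j (∑ v ∈ t, lam v * s v)
        (fun k => ∑ v ∈ t, lam v * S v k) := by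
  set R := Rv τ N with hR
  set κ := kv K0 K1 N with hκ
  set r := rv N with hr
  -- the strips
  have key : ∀ p k, ρe p k / ρs p * pp (x3 A' ρs κ R (fun k => ∑ v ∈ t, lam v * S v k) p k) ≤
      ∑ v ∈ t, lam v * (m3 (w0 p k) (w1 p k) (γ v p k) (x3 A' (ρ v) κ R (S v) p k) +
        π p k * γ v p k) := by
    intro p k
    have e0 : ρe p k / ρs p = w0 p k + π p k * (w1 p k - w0 p k) := by
      rw [hρe, mul_div_assoc, div_self (hρ0 p).ne', mul_one]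
    have hW : 0 ≤ w0 p k + π p k * (w1 p k - w0 p k) := by
      have := mul_nonneg (hp0 p k) (sub_nonneg.2 (hw1 p k))
      linarith [hw0 p k]
    have e1 : x3 A' ρs κ R (fun k => ∑ v ∈ t, lam v * S v k) p k =
        ∑ v ∈ t, lam v * x3 A' (ρ v) κ R (S v) p k := by
      unfold x3
      have e : ∀ v, lam v * (ρ v p * R k - A' * κ p * (R k + S v k)) =
          lam v * ρ v p * R k - A' * κ p * R k * lam v - A' * κ p * (lam v * S v k) :=
        fun v => by ring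
      simp only [e]
      rw [Finset.sum_sub_distrib, Finset.sum_sub_distrib, ← Finset.sum_mul, ← Finset.mul_sum,
        ← Finset.mul_sum, h1, hρs]
      ring
    rw [e0, e1]
    have h2 := pp_sum t h0 (fun v => x3 A' (ρ v) κ R (S v) p k)
    refine (mul_le_mul_of_nonneg_left h2 hW).trans ?_
    rw [Finset.mul_sum]
    refine Finset.sum_le_sum fun v hv => ?_
    have h3 := m3_ge (x := x3 A' (ρ v) κ R (S v) p k) (hw0 p k) (hw1 p k) (hγ v p k) (hp0 p k)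
      (hp1 p k)
    have h4 := mul_le_mul_of_nonneg_left h3 (h0 v hv)
    linarith
  have key6 : s6 (fun p k => ρe p k / ρs p *
      pp (x3 A' ρs κ R (fun k => ∑ v ∈ t, lam v * S v k) p k)) ≤
      s6 fun p k => ∑ v ∈ t, lam v * (m3 (w0 p k) (w1 p k) (γ v p k)
        (x3 A' (ρ v) κ R (S v) p k) + π p k * γ v p k) := s6_mono fun p k _ => key p k
  rw [s6_sum] at key6
  have e6 : ∀ v, s6 (fun p k => lam v * (m3 (w0 p k) (w1 p k) (γ v p k)
        (x3 A' (ρ v) κ R (S v) p k) + π p k * γ v p k)) =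
      lam v * (arcT A' (ρ v) w0 w1 (γ v) κ R (S v) + s6 fun p k => π p k * γ v p k) := by
    intro v
    rw [arcT_s6]
    unfold s6
    ring
  simp only [e6] at key6
  unfold VFe
  rw [arcE_s6, ← hR, ← hκ, ← hr]
  have e : ∑ v ∈ t, lam v * (VFt A' ε k1 k2 K0 K1 τ (ρ v) w0 w1 (γ v) N g i j (s v) (S v) -
        s6 fun p k => π p k * γ v p k) =
      corX A' N r R (fun k => ∑ v ∈ t, lam v * S v k)
        + g * ((1 - ε) * (∑ v ∈ t, lam v * s v) - k1 * R i - k2 * R j)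
        - ∑ v ∈ t, lam v * (arcT A' (ρ v) w0 w1 (γ v) κ R (S v) +
            s6 fun p k => π p k * γ v p k) := by
    have e1 : ∀ v, lam v * (VFt A' ε k1 k2 K0 K1 τ (ρ v) w0 w1 (γ v) N g i j (s v) (S v) -
        s6 fun p k => π p k * γ v p k) =
        lam v * ((R 0 * (A' * (0.2132 * (1 - rowN N 0) - r 0))
          + R 1 * (A' * (0.2132 * (1 - rowN N 1) - r 1))
          + R 2 * (A' * (0.2132 * (1 - rowN N 2) - r 2))) - g * (k1 * R i + k2 * R j))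
        - A' * ((lam v * S v 0) * r 0 + (lam v * S v 1) * r 1 + (lam v * S v 2) * r 2)
        + g * (1 - ε) * (lam v * s v)
        - lam v * (arcT A' (ρ v) w0 w1 (γ v) κ R (S v) + s6 fun p k => π p k * γ v p k) := by
      intro v
      unfold VFt corX
      rw [← hR, ← hκ, ← hr]
      ring
    simp only [e1, Finset.sum_add_distrib, Finset.sum_sub_distrib, ← Finset.mul_sum,
      ← Finset.sum_mul, h1]
    unfold corX
    ring
  rw [e]
  linarith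

end Helper21.FVe
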