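import Pool.Agent.Helper21.MEI.JPoly

/-!
# Project MEI (M2), TEAM TC: the bilinear form of a pair of edges on the polygons, kernel check

`k e b`: coupling of the end `b` of the edge `e` of a pair.  The couplings of an edge are in
`dn ≤ k ≤ up`, `lo ≤ k e false + k e true`.  `chk` evaluates the bilinear form
`Σ (1 - k e b) k (!e) c g e b c` at the `5 × 5` vertices, in integers.
-/

set_option autoImplicit false

namespace Helper21.JPoly

open Set

/-- the bilinear form of a pair -/
noncomputable def bilR (k : Bool → Bool → ℝ) (g : Bool → Bool → Bool → ℝ) : ℝ :=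
  ∑ e, ∑ b, ∑ c, (1 - k e b) * k (!e) c * g e b c

theorem bilR_eq (k : Bool → Bool → ℝ) (g : Bool → Bool → Bool → ℝ) : bilR k g =
    (1 - k true true) * k false true * g true true true +
    (1 - k true true) * k false false * g true true false +
    ((1 - k true false) * k false true * g true false true +
    (1 - k true false) * k false false * g true false false) +
    ((1 - k false true) * k true true * g false true true +
    (1 - k false true) * k true false * g false true false +
    ((1 - k false false) * k true true * g false false true +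
    (1 - k false false) * k true false * g false false false)) := by
  unfold bilR
  simp only [Fintype.sum_bool, Bool.not_true, Bool.not_false]

/-- couplings from the two edges -/
def mk (p q : ℝ × ℝ) (e b : Bool) : ℝ :=
  if e then (if b then q.2 else q.1) else (if b then p.2 else p.1)

theorem mk_eta (k : Bool → Bool → ℝ) :
    mk (k false false, k false true) (k true false, k true true) = k := by
  funext e b
  cases e <;> cases b <;> rfl

/-- the vertices, with lower caps -/
noncomputable def vs (d d' u v s : ℝ) (i : Fin 5) : ℝ × ℝ :=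
  ((vt (u - d) (v - d') (s - d - d') i).1 + d, (vt (u - d) (v - d') (s - d - d') i).2 + d')

theorem aff1 (g : Bool → Bool → Bool → ℝ) (q : ℝ × ℝ) (d d' : ℝ) :
    ConvexOn ℝ univ fun p : ℝ × ℝ => bilR (mk (p.1 + d, p.2 + d') q) g := by
  refine ⟨convex_univ, fun x _ y _ a b _ _ hab => ?_⟩
  have e : b = 1 - a := by linarith
  subst e
  refine le_of_eq ?_
  simp only [bilR_eq, mk, smul_eq_mul, Prod.fst_add, Prod.snd_add, Prod.smul_fst,
    Prod.smul_snd, Bool.false_eq_true, if_false, if_true]
  ring

theorem aff2 (g : Bool → Bool → Bool → ℝ) (p : ℝ × ℝ) (d d' : ℝ) :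
    ConvexOn ℝ univ fun q : ℝ × ℝ => bilR (mk p (q.1 + d, q.2 + d')) g := by
  refine ⟨convex_univ, fun x _ y _ a b _ _ hab => ?_⟩
  have e : b = 1 - a := by linarith
  subst e
  refine le_of_eq ?_
  simp only [bilR_eq, mk, smul_eq_mul, Prod.fst_add, Prod.snd_add, Prod.smul_fst,
    Prod.smul_snd, Bool.false_eq_true, if_false, if_true]
  ring

/-- **the bilinear form on the two polygons is at most its maximum over the 25 vertices** -/
theorem bil_vertices {g : Bool → Bool → Bool → ℝ} {dn up : Bool → Bool → ℝ} {lo : Bool → ℝ}
    {C : ℝ} (hC : ∀ i j : Fin 5, bilR (mk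
      (vs (dn false false) (dn false true) (up false false) (up false true) (lo false) i)
      (vs (dn true false) (dn true true) (up true false) (up true true) (lo true) j)) g ≤ C)
    {k : Bool → Bool → ℝ} (h0 : ∀ e b, dn e b ≤ k e b) (h1 : ∀ e b, k e b ≤ up e b)
    (hs : ∀ e, lo e ≤ k e false + k e true) : bilR k g ≤ C := by
  have hm : ∀ e, (k e false - dn e false, k e true - dn e true) ∈
      PG (up e false - dn e false) (up e true - dn e true)
        (lo e - dn e false - dn e true) := fun e => by
    have a1 := h0 e false
    have a2 := h0 e true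
    have a3 := h1 e false
    have a4 := h1 e true
    have a5 := hs e
    refine ⟨?_, ?_, ?_, ?_, ?_⟩
    · show 0 ≤ k e false - dn e false
      linarith
    · show k e false - dn e false ≤ up e false - dn e false
      linarith
    · show 0 ≤ k e true - dn e true
      linarith
    · show k e true - dn e true ≤ up e true - dn e true
      linarith
    · show lo e - dn e false - dn e true ≤ k e false - dn e false + (k e true - dn e true)
      linarith
  set p : ℝ × ℝ := (k false false, k false true) with hp
  set q : ℝ × ℝ := (k true false, k true true) with hq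
  have s1 : ∀ i : Fin 5, bilR (mk
      (vs (dn false false) (dn false true) (up false false) (up false true) (lo false) i) q) g
      ≤ C := fun i => by
    have k1 := poly1 (aff2 g (vs (dn false false) (dn false true) (up false false)
      (up false true) (lo false) i) (dn true false) (dn true true)) (C := C)
      (fun j => by
        have := hC i j
        unfold vs at this ⊢
        exact this) (hm true)
    simp only [sub_add_cancel] at k1
    exact k1
  have k2 := poly1 (aff1 g q (dn false false) (dn false true)) (C := C)
      (fun i => by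
        have := s1 i
        unfold vs at this
        exact this) (hm false)
  simp only [sub_add_cancel] at k2
  have ek : mk p q = k := mk_eta k
  rw [← ek]
  exact k2

/-! ### integers -/

/-- the vertices in integers -/
def vz (d d' u v s : ℤ) : Fin 5 → ℤ × ℤ :=
  ![(u, v), (max (s - d - d' - (v - d')) 0 + d, v),
    (max (s - d - d' - (v - d')) 0 + d, min (v - d') (s - d - d') + d'),
    (min (u - d) (s - d - d') + d, max (s - d - d' - (u - d)) 0 + d'),
    (u, max (s - d - d' - (u - d)) 0 + d')]

/-- the form in integers, `U` = unit of the couplings -/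
def bz (U : ℤ) (p q : ℤ × ℤ) (g : Bool → Bool → Bool → ℤ) : ℤ :=
  (U - q.2) * (p.2 * g true true true + p.1 * g true true false) +
    (U - q.1) * (p.2 * g true false true + p.1 * g true false false) +
    ((U - p.2) * (q.2 * g false true true + q.1 * g false true false) +
    (U - p.1) * (q.2 * g false false true + q.1 * g false false false))

/-- the check -/
def chk (U : ℤ) (dn up : Bool → Bool → ℤ) (lo : Bool → ℤ) (g : Bool → Bool → Bool → ℤ)
    (b : ℤ) : Bool :=
  decide (0 < U) && (List.finRange 5).all fun i => (List.finRange 5).all fun j =>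
    decide (bz U
      (vz (dn false false) (dn false true) (up false false) (up false true) (lo false) i)
      (vz (dn true false) (dn true true) (up true false) (up true true) (lo true) j) g
      ≤ b * (U * U))

theorem vz_eq {U : ℤ} (hU : 0 < U) (d d' u v s : ℤ) (i : Fin 5) :
    vs ((d : ℝ) / U) ((d' : ℝ) / U) ((u : ℝ) / U) ((v : ℝ) / U) ((s : ℝ) / U) i =
      (((vz d d' u v s i).1 : ℝ) / U, ((vz d d' u v s i).2 : ℝ) / U) := by
  have hR : (0 : ℝ) < (U : ℝ) := by exact_mod_cast hU
  have m0 : ∀ x : ℝ, max (x / U) 0 = max x 0 / U := fun x => by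
    rw [← max_div_div_right hR.le, zero_div]
  have m1 : ∀ x y : ℝ, min (x / U) (y / U) = min x y / U := fun x y =>
    min_div_div_right hR.le x y
  have e1 : (s : ℝ) / U - d / U - d' / U - ((v : ℝ) / U - d' / U) =
      ((s : ℝ) - d - d' - (v - d')) / U := by ring
  have e2 : (s : ℝ) / U - d / U - d' / U - ((u : ℝ) / U - d / U) =
      ((s : ℝ) - d - d' - (u - d)) / U := by ring
  have e3 : (v : ℝ) / U - d' / U = ((v : ℝ) - d') / U := by ring
  have e4 : (s : ℝ) / U - d / U - d' / U = ((s : ℝ) - d - d') / U := by ring
  have e5 : (u : ℝ) / U - d / U = ((u : ℝ) - d) / U := by ring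
  fin_cases i
  · simp [vs, vt, vz]
  · simp only [vs, vt, vz, Fin.mk_one, Matrix.cons_val_one, Matrix.cons_val_zero]
    rw [e1, m0]
    push_cast
    ext
    · simp only []
      ring
    · simp only []
      ring
  · simp only [vs, vt, vz, Fin.reduceFinMk, Matrix.cons_val]
    rw [e1, m0, e3, e4, m1]
    push_cast
    ext
    · simp only []
      ring
    · simp only []
      ring
  · simp only [vs, vt, vz, Fin.reduceFinMk, Matrix.cons_val]
    rw [e2, m0, e5, e4, m1]
    push_cast
    ext
    · simp only []
      ring
    · simp only []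
      ring
  · simp only [vs, vt, vz, Fin.reduceFinMk, Matrix.cons_val]
    rw [e2, m0]
    push_cast
    ext
    · simp only []
      ring
    · simp only []
      ring

theorem bz_eq {U : ℤ} (hU : 0 < U) {G : ℝ} (p q : ℤ × ℤ)
    (g : Bool → Bool → Bool → ℤ) :
    bilR (mk ((p.1 : ℝ) / U, (p.2 : ℝ) / U) ((q.1 : ℝ) / U, (q.2 : ℝ) / U))
      (fun e b c => (g e b c : ℝ) / G) = ((bz U p q g : ℤ) : ℝ) / (U * U) / G := by
  have hR : (U : ℝ) ≠ 0 := by exact_mod_cast hU.ne'
  rw [bilR_eq]
  simp only [mk, bz, Bool.false_eq_true, if_false, if_true]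
  push_cast
  field_simp

/-- **kernel check of the bilinear form on the two polygons** -/
theorem bil_chk {U : ℤ} {dn up : Bool → Bool → ℤ} {lo : Bool → ℤ}
    {g : Bool → Bool → Bool → ℤ} {b : ℤ} (h : chk U dn up lo g b = true) {G : ℝ} (hG : 0 < G)
    {k : Bool → Bool → ℝ} (h0 : ∀ e b, (dn e b : ℝ) / U ≤ k e b)
    (h1 : ∀ e b, k e b ≤ (up e b : ℝ) / U) (hs : ∀ e, (lo e : ℝ) / U ≤ k e false + k e true) :
    bilR k (fun e b c => (g e b c : ℝ) / G) ≤ (b : ℝ) / G := by
  unfold chk at h
  simp only [Bool.and_eq_true, decide_eq_true_eq, List.all_eq_true] at h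
  obtain ⟨hU, h⟩ := h
  have hR : (0 : ℝ) < (U : ℝ) := by exact_mod_cast hU
  refine bil_vertices (dn := fun e b => (dn e b : ℝ) / U) (up := fun e b => (up e b : ℝ) / U)
    (lo := fun e => (lo e : ℝ) / U) (fun i j => ?_) h0 h1 hs
  rw [vz_eq hU, vz_eq hU, bz_eq hU]
  have h2 := h i (List.mem_finRange i) j (List.mem_finRange j)
  have h3 : ((bz U
      (vz (dn false false) (dn false true) (up false false) (up false true) (lo false) i)
      (vz (dn true false) (dn true true) (up true false) (up true true) (lo true) j) g : ℤ) : ℝ)
      ≤ (b : ℝ) * (U * U) := by exact_mod_cast h2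
  apply div_le_div_of_nonneg_right _ hG.le
  rw [div_le_iff₀ (by positivity)]
  exact h3

/-- example -/
theorem chk_ex : chk 100 (fun _ _ => 0) (fun _ _ => 100) (fun _ => 108)
    (fun _ _ _ => 1000) 2000 = true := by decide +kernel

end Helper21.JPoly
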