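import Pool.Agent.Helper22.MEI.Cpd

/-!
# Project MEI (M2), TEAM TC: moments of the arcs of the coupled pair, joint form

`pp(sM)` of the arc of the vertex `(e, i)` at the end `vx m (!e) i'` of the opposite edge: moment
of `wt - κ₁ φ/(8 D)` plus `(κ₁ - κ)/2` times (number of the end + height moment) plus the
truncation correction.
-/

set_option autoImplicit false

namespace Helper21.JMom

open Set Metric MeasureTheory Helper80.CW Helper14.CW Helper14.MEI2
open Helper93.MEI Helper37.MEI Helper41.MEI Helper78.MEI Helper49.Cpl Helper22.Cpd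
open Pool.Agent.Helper73.MEI (PM TE pf pr)
open Pool.Agent.Helper95.MEI.Fub (Zp eX_cont eY_cont eW_cont Qv_cont pp_cont int_cont)
open scoped RealInnerProductSpace Real

/-- the coordinate of the end of the opposite edge -/
theorem bar_end {a : Fin 4 → E3} (ha : ∀ i j, i ≠ j → dist (a i) (a j) = 1) (m : Fin 3)
    (e i' : Bool) (x : E3) : bar a (vx m (!e) i') x =
      1 / 2 + (if i' then -eY (ap a m e) x else eY (ap a m e) x) +
        √2 / 2 * eV (ap a m e) x := by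
  have h := hgp ha m e
  have h1 : bar a (vx m (!e) i') x = bar (ap a m e) (if i' then 3 else 2) x := by
    have e1 : vx m (!e) i' = pr m e (if i' then 3 else 2) := by
      show vx m (!e) i' = pf m e (if i' then 3 else 2)
      fin_cases m <;> cases e <;> cases i' <;> rfl
    rw [e1]
    exact (bar_perm (pr m e) _ x).symm
  have h2 : √2 / 2 * eV (ap a m e) x = -(√2 / 2 * eW (ap a m e) x) - 1 / 2 := by
    rw [eV_eq h]
    linear_combination -(1 / 4) * s2s
  rw [h1, h2]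
  cases i'
  · simp only [Bool.false_eq_true, if_false]
    rw [bar2_eq]
    ring
  · simp only [if_true]
    rw [bar3_eq]
    ring

section
variable {φ : ℝ → ℝ} {a : Fin 4 → E3} {K : Set E3} {σ : Measure (E3 × E3)} [IsFiniteMeasure σ]

/-- `∫ φ/(4 D) b` at the end of the opposite edge: the number of the end and the height moment -/
theorem int_end (hφ : Continuous φ) (ha : ∀ i j, i ≠ j → dist (a i) (a j) = 1)
    (hK : IsCompact K) (hσ : ∀ᵐ z ∂σ, z.1 ∈ K ∧ z.2 ∈ K) (m : Fin 3) (e i' : Bool) :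
    ∫ z in EE a m e, dp φ (ap a m e) z * bar a (vx m (!e) i') z.2 ∂σ =
      mp φ σ a m (!e) i' + √2 / 2 * pH φ σ (ap a m e) := by
  have cd := dp_cont hφ (ap a m e)
  have d1 : Continuous fun z : E3 × E3 => dp φ (ap a m e) z * eY (ap a m e) z.2 :=
    cd.mul ((eY_cont (ap a m e)).comp continuous_snd)
  have d2 : Continuous fun z : E3 × E3 => dp φ (ap a m e) z * eV (ap a m e) z.2 :=
    cd.mul ((eV_cont (ap a m e)).comp continuous_snd)
  have c0 := (int_cont hK hσ cd).integrableOn (s := EE a m e)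
  have c1 := (int_cont hK hσ d1).integrableOn (s := EE a m e)
  have c2 := (int_cont hK hσ d2).integrableOn (s := EE a m e)
  have c01 : Integrable (fun z : E3 × E3 => 1 / 2 * dp φ (ap a m e) z +
        (if i' then -1 else 1) * (dp φ (ap a m e) z * eY (ap a m e) z.2))
        (σ.restrict (EE a m e)) := (c0.const_mul _).add (c1.const_mul _)
  have e1 : (∫ z in EE a m e, dp φ (ap a m e) z * bar a (vx m (!e) i') z.2 ∂σ) =
      ∫ z in EE a m e, (1 / 2 * dp φ (ap a m e) z +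
        (if i' then -1 else 1) * (dp φ (ap a m e) z * eY (ap a m e) z.2) +
        √2 / 2 * (dp φ (ap a m e) z * eV (ap a m e) z.2)) ∂σ := by
    congr 1
    funext z
    rw [bar_end ha]
    cases i'
    · simp only [Bool.false_eq_true, if_false]; ring
    · simp only [if_true]; ring
  rw [e1, integral_add c01 (c2.const_mul _),
    integral_add (c0.const_mul _) (c1.const_mul _), integral_const_mul, integral_const_mul,
    integral_const_mul]
  unfold mp p0 pY pH
  rw [Bool.not_not]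
  have hE : EE a m e = Zp (ap a m e) 2 3 := rfl
  rw [hE]
  cases i'
  · simp only [Bool.false_eq_true, if_false]; ring
  · simp only [if_true]; ring

/-- the two numbers of an edge add up to the mass of the cell of the other edge -/
theorem mp_sum (φ : ℝ → ℝ) (σ : Measure (E3 × E3)) (a : Fin 4 → E3) (m : Fin 3) (e : Bool) :
    mp φ σ a m (!e) false + mp φ σ a m (!e) true = p0 φ σ (ap a m e) := by
  unfold mp
  rw [Bool.not_not]
  simp only [Bool.false_eq_true, if_false, if_true]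
  ring

/-- height moment by the mass -/
theorem pH_le (hφ : Prof φ) (ha : ∀ i j, i ≠ j → dist (a i) (a j) = 1)
    (hK : IsCompact K) (hσ : ∀ᵐ z ∂σ, z.1 ∈ K ∧ z.2 ∈ K) (hp : ∀ x ∈ K, Pl a x) (m : Fin 3)
    (e : Bool) {H : ℝ} (hH : ∀ x ∈ K, eV (ap a m e) x ≤ H) :
    pH φ σ (ap a m e) ≤ H * (mp φ σ a m (!e) false + mp φ σ a m (!e) true) := by
  have c0 := (int_cont hK hσ (dp_cont hφ.cont (ap a m e))).integrableOn (s := EE a m e)
  have c2 := (int_cont hK hσ ((dp_cont hφ.cont (ap a m e)).mul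
    ((eV_cont (ap a m e)).comp continuous_snd))).integrableOn (s := EE a m e)
  rw [mp_sum]
  have h1 : pH φ σ (ap a m e) ≤ ∫ z in EE a m e, H * dp φ (ap a m e) z ∂σ := by
    refine integral_mono_ae c2 (c0.const_mul _) ?_
    filter_upwards [ae_restrict_of_ae hσ] with z hz
    have h2 := dp_nonneg hφ.nn (hgp ha m e) (Pl_perm _ (hp _ hz.1)) (z := z)
    have h3 := mul_le_mul_of_nonneg_left (hH _ hz.2) h2
    show dp φ (ap a m e) z * eV (ap a m e) z.2 ≤ H * dp φ (ap a m e) z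
    linarith
  refine h1.trans (le_of_eq ?_)
  rw [integral_const_mul]
  rfl

variable {κ : Fin 3 → Bool → Bool → ℝ}

/-- **moment of an arc of the coupled pair** (`κ₁` free: `1`, `1/2`, ...) -/
theorem sM3_X (hφ : Prof φ) (ha : ∀ i j, i ≠ j → dist (a i) (a j) = 1)
    (h0 : ∀ m e i, 0 ≤ κ m e i) (h1 : ∀ m e i, κ m e i ≤ 1) (hK : IsCompact K)
    (hσ : ∀ᵐ z ∂σ, z.1 ∈ K ∧ z.2 ∈ K) (hp : ∀ x ∈ K, Pl a x) (m : Fin 3) (e i i' : Bool)
    (κ1 : ℝ) {κ' : ℝ} (hκ : κ' ≤ κ m e i) :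
    pp (sM σ a (l3 φ κ a) m e i (vx m (!e) i')) ≤
      (∫ z in EE a m e, (wt (ap a m e) i z.1 - κ1 / 2 * dp φ (ap a m e) z) *
          bar a (vx m (!e) i') z.2 ∂σ) +
        (κ1 - κ m e i) / 2 *
          (∫ z in EE a m e, dp φ (ap a m e) z * bar a (vx m (!e) i') z.2 ∂σ) +
        ∫ z in EE a m e, wrt φ κ' (ap a m e) i z.1 * pp (-bar a (vx m (!e) i') z.2) ∂σ := by
  set k := vx m (!e) i' with hk
  have hb := (Helper93.MEI.bar_cont a k).comp (continuous_snd (X := E3) (Y := E3))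
  have cw : Continuous fun z : E3 × E3 => wt (ap a m e) i z.1 :=
    (wt_cont (ap a m e) i).comp continuous_fst
  have cd := dp_cont hφ.cont (ap a m e)
  have cr : ∀ t : ℝ, Continuous fun z : E3 × E3 => wrt φ t (ap a m e) i z.1 := fun t =>
    (wrt_cont hφ t (ap a m e) i).comp continuous_fst
  have c1 : Continuous fun z : E3 × E3 => (wt (ap a m e) i z.1 -
      κ1 / 2 * dp φ (ap a m e) z) * bar a k z.2 := (cw.sub (continuous_const.mul cd)).mul hb
  have c0 : Continuous fun z : E3 × E3 => wrt φ (κ m e i) (ap a m e) i z.1 *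
      pp (bar a k z.2) := (cr (κ m e i)).mul (pp_cont.comp hb)
  have c2 : Continuous fun z : E3 × E3 => dp φ (ap a m e) z * bar a k z.2 := cd.mul hb
  have c3 : Continuous fun z : E3 × E3 => wrt φ κ' (ap a m e) i z.1 *
      pp (-bar a k z.2) := (cr κ').mul (pp_cont.comp hb.neg)
  have i0 := (int_cont hK hσ c0).integrableOn (s := EE a m e)
  have i1 := (int_cont hK hσ c1).integrableOn (s := EE a m e)
  have i2 := (int_cont hK hσ c2).integrableOn (s := EE a m e)
  have i3 := (int_cont hK hσ c3).integrableOn (s := EE a m e)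
  have key := sM3_le (κ := κ) hφ ha h0 h1 hK hσ hp m e i (le_refl (κ m e i)) k
  have i12 : Integrable (fun z : E3 × E3 => (wt (ap a m e) i z.1 -
      κ1 / 2 * dp φ (ap a m e) z) * bar a k z.2 +
      (κ1 - κ m e i) / 2 * (dp φ (ap a m e) z * bar a k z.2)) (σ.restrict (EE a m e)) :=
    i1.add (i2.const_mul _)
  have s1 : ∫ z in EE a m e, ((wt (ap a m e) i z.1 -
      κ1 / 2 * dp φ (ap a m e) z) * bar a k z.2 +
      (κ1 - κ m e i) / 2 * (dp φ (ap a m e) z * bar a k z.2) +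
      wrt φ κ' (ap a m e) i z.1 * pp (-bar a k z.2)) ∂σ =
      (∫ z in EE a m e, (wt (ap a m e) i z.1 - κ1 / 2 * dp φ (ap a m e) z) *
          bar a k z.2 ∂σ) +
        (κ1 - κ m e i) / 2 *
          (∫ z in EE a m e, dp φ (ap a m e) z * bar a k z.2 ∂σ) +
        ∫ z in EE a m e, wrt φ κ' (ap a m e) i z.1 * pp (-bar a k z.2) ∂σ := by
    rw [integral_add i12 i3, integral_add i1 (i2.const_mul _), integral_const_mul]
  rw [← s1]
  refine key.trans (integral_mono_ae i0 (i12.add i3) ?_)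
  filter_upwards [ae_restrict_of_ae hσ] with z hz
  have g := Pl_perm (pr m e) (hp _ hz.1)
  have m1 := mul_le_mul_of_nonneg_right (wrt_anti hφ (hgp ha m e) hκ i g)
    (pp_nonneg (-bar a k z.2))
  have m2 := wrt_dp (a := ap a m e) φ (κ m e i) i z
  have m3 : pp (bar a k z.2) = bar a k z.2 + pp (-bar a k z.2) := by
    have := pp_sub (bar a k z.2)
    linarith
  show wrt φ (κ m e i) (ap a m e) i z.1 * pp (bar a k z.2) ≤
    (wt (ap a m e) i z.1 - κ1 / 2 * dp φ (ap a m e) z) * bar a k z.2 +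
      (κ1 - κ m e i) / 2 * (dp φ (ap a m e) z * bar a k z.2) +
      wrt φ κ' (ap a m e) i z.1 * pp (-bar a k z.2)
  have m4 : wrt φ (κ m e i) (ap a m e) i z.1 * pp (bar a k z.2) =
      (wt (ap a m e) i z.1 - κ m e i / 2 * dp φ (ap a m e) z) * bar a k z.2 +
        wrt φ (κ m e i) (ap a m e) i z.1 * pp (-bar a k z.2) := by
    rw [m3, mul_add, ← m2]
  rw [m4]
  have m5 : (wt (ap a m e) i z.1 - κ m e i / 2 * dp φ (ap a m e) z) * bar a k z.2 =
      (wt (ap a m e) i z.1 - κ1 / 2 * dp φ (ap a m e) z) * bar a k z.2 +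
      (κ1 - κ m e i) / 2 * (dp φ (ap a m e) z * bar a k z.2) := by ring
  rw [m5]
  linarith

/-- the same with the numbers `mp`, `pH` -/
theorem sM3_joint (hφ : Prof φ) (ha : ∀ i j, i ≠ j → dist (a i) (a j) = 1)
    (h0 : ∀ m e i, 0 ≤ κ m e i) (h1 : ∀ m e i, κ m e i ≤ 1) (hK : IsCompact K)
    (hσ : ∀ᵐ z ∂σ, z.1 ∈ K ∧ z.2 ∈ K) (hp : ∀ x ∈ K, Pl a x) (m : Fin 3) (e i i' : Bool)
    (κ1 : ℝ) {κ' : ℝ} (hκ : κ' ≤ κ m e i) :
    pp (sM σ a (l3 φ κ a) m e i (vx m (!e) i')) ≤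
      (∫ z in EE a m e, (wt (ap a m e) i z.1 - κ1 / 2 * dp φ (ap a m e) z) *
          bar a (vx m (!e) i') z.2 ∂σ) +
        (κ1 - κ m e i) / 2 * (mp φ σ a m (!e) i' + √2 / 2 * pH φ σ (ap a m e)) +
        ∫ z in EE a m e, wrt φ κ' (ap a m e) i z.1 * pp (-bar a (vx m (!e) i') z.2) ∂σ := by
  have key := sM3_X (κ := κ) hφ ha h0 h1 hK hσ hp m e i i' κ1 hκ
  rw [int_end hφ.cont ha hK hσ m e i'] at key
  exact key

/-- **joint form, numbers**: `κ` arbitrary in `[0, 1]` with `X ≤ κ M` at the end of the opposite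
edge; `ρ` = moment of `wt - κ₁ φ/(8 D)`, `T` = truncation -/
theorem sM3_num (hφ : Prof φ) (ha : ∀ i j, i ≠ j → dist (a i) (a j) = 1)
    (h0 : ∀ m e i, 0 ≤ κ m e i) (h1 : ∀ m e i, κ m e i ≤ 1) (hK : IsCompact K)
    (hσ : ∀ᵐ z ∂σ, z.1 ∈ K ∧ z.2 ∈ K) (hp : ∀ x ∈ K, Pl a x) (m : Fin 3) (e i i' : Bool)
    {κ1 M ρ T : ℝ} (hκ1 : κ m e i ≤ κ1)
    (hX : ∫ z in EE a m e, dp φ (ap a m e) z * bar a (vx m (!e) i') z.2 ∂σ ≤
      κ m (!e) i' * M)
    (hρ : ∫ z in EE a m e, (wt (ap a m e) i z.1 - κ1 / 2 * dp φ (ap a m e) z) *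
          bar a (vx m (!e) i') z.2 ∂σ ≤ ρ)
    (hT : ∫ z in EE a m e, wt (ap a m e) i z.1 * pp (-bar a (vx m (!e) i') z.2) ∂σ ≤ T) :
    pp (sM σ a (l3 φ κ a) m e i (vx m (!e) i')) ≤
      ρ + T + (κ1 - κ m e i) * κ m (!e) i' * (M / 2) := by
  have key := sM3_X (κ := κ) hφ ha h0 h1 hK hσ hp m e i i' κ1 (κ' := 0) (h0 m e i)
  have e0 : ∀ z : E3 × E3, wrt φ 0 (ap a m e) i z.1 = wt (ap a m e) i z.1 := fun z => by
    rw [wrt_dp]; ring
  simp only [e0] at key
  have h2 := mul_le_mul_of_nonneg_left hX (show 0 ≤ (κ1 - κ m e i) / 2 by linarith)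
  have e3 : (κ1 - κ m e i) / 2 * (κ m (!e) i' * M) =
      (κ1 - κ m e i) * κ m (!e) i' * (M / 2) := by ring
  rw [e3] at h2
  linarith

/-- the truncation for any weight below `wt` -/
theorem trunc_mono (ha : ∀ i j, i ≠ j → dist (a i) (a j) = 1) (hφ : Prof φ)
    (hK : IsCompact K) (hσ : ∀ᵐ z ∂σ, z.1 ∈ K ∧ z.2 ∈ K) (hp : ∀ x ∈ K, Pl a x) (m : Fin 3)
    (e i : Bool) (k : Fin 4) {κ' : ℝ} (h0 : 0 ≤ κ') :
    ∫ z in EE a m e, wrt φ κ' (ap a m e) i z.1 * pp (-bar a k z.2) ∂σ ≤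
      ∫ z in EE a m e, wt (ap a m e) i z.1 * pp (-bar a k z.2) ∂σ := by
  have hb := (Helper93.MEI.bar_cont a k).comp (continuous_snd (X := E3) (Y := E3))
  have c0 : Continuous fun z : E3 × E3 => wrt φ κ' (ap a m e) i z.1 * pp (-bar a k z.2) :=
    ((wrt_cont hφ κ' (ap a m e) i).comp continuous_fst).mul (pp_cont.comp hb.neg)
  have c1 : Continuous fun z : E3 × E3 => wt (ap a m e) i z.1 * pp (-bar a k z.2) :=
    ((wt_cont (ap a m e) i).comp continuous_fst).mul (pp_cont.comp hb.neg)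
  have i0 := (int_cont hK hσ c0).integrableOn (s := EE a m e)
  have i1 := (int_cont hK hσ c1).integrableOn (s := EE a m e)
  refine integral_mono_ae i0 i1 ?_
  filter_upwards [ae_restrict_of_ae hσ] with z hz
  exact mul_le_mul_of_nonneg_right (wrt_le hφ (hgp ha m e) h0 i (Pl_perm _ (hp _ hz.1)))
    (pp_nonneg _)

end

end Helper21.JMom
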