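import Mathlib

/-!
# Project MEI (M2), TEAM TC: the polygon of the reduction factors of a pair

`polyg`: a point `(x, y)` with `0 ≤ x ≤ u`, `0 ≤ y ≤ v`, `s ≤ x + y` is a convex combination of
five explicit vertices.  `poly2`: a function which is convex in the first pair and in the second
pair of variables is at most its maximum over the `5 × 5` vertices.
-/

set_option autoImplicit false

namespace Helper21.JPoly

open Set

/-- the five vertices -/
noncomputable def vt (u v s : ℝ) : Fin 5 → ℝ × ℝ :=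
  ![(u, v), (max (s - v) 0, v), (max (s - v) 0, min v s), (min u s, max (s - u) 0),
    (u, max (s - u) 0)]

/-- the polygon -/
def PG (u v s : ℝ) : Set (ℝ × ℝ) := {p | 0 ≤ p.1 ∧ p.1 ≤ u ∧ 0 ≤ p.2 ∧ p.2 ≤ v ∧ s ≤ p.1 + p.2}

/-- a point between two points on a horizontal line -/
theorem hull_h {S : Set (ℝ × ℝ)} (hS : Convex ℝ S) {x0 x1 x y : ℝ} (h0 : (x0, y) ∈ S)
    (h1 : (x1, y) ∈ S) (hx0 : x0 ≤ x) (hx1 : x ≤ x1) : (x, y) ∈ S := by
  rcases eq_or_lt_of_le (hx0.trans hx1) with h | h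
  · have : x = x0 := le_antisymm (by linarith) hx0
    rw [this]
    exact h0
  · have hd : 0 < x1 - x0 := by linarith
    have k := hS h0 h1 (a := (x1 - x) / (x1 - x0)) (b := (x - x0) / (x1 - x0))
      (div_nonneg (by linarith) hd.le) (div_nonneg (by linarith) hd.le) (by
        rw [← add_div]
        rw [div_eq_one_iff_eq hd.ne']
        ring)
    have e : ((x1 - x) / (x1 - x0)) • ((x0, y) : ℝ × ℝ) + ((x - x0) / (x1 - x0)) • (x1, y) =
        (x, y) := by
      ext
      · simp only [Prod.smul_mk, Prod.mk_add_mk, smul_eq_mul]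
        field_simp
        ring
      · simp only [Prod.smul_mk, Prod.mk_add_mk, smul_eq_mul]
        field_simp
        ring
    rw [e] at k
    exact k

/-- the same, vertical line -/
theorem hull_v {S : Set (ℝ × ℝ)} (hS : Convex ℝ S) {y0 y1 x y : ℝ} (h0 : (x, y0) ∈ S)
    (h1 : (x, y1) ∈ S) (hy0 : y0 ≤ y) (hy1 : y ≤ y1) : (x, y) ∈ S := by
  rcases eq_or_lt_of_le (hy0.trans hy1) with h | h
  · have : y = y0 := le_antisymm (by linarith) hy0
    rw [this]
    exact h0
  · have hd : 0 < y1 - y0 := by linarith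
    have k := hS h0 h1 (a := (y1 - y) / (y1 - y0)) (b := (y - y0) / (y1 - y0))
      (div_nonneg (by linarith) hd.le) (div_nonneg (by linarith) hd.le) (by
        rw [← add_div]
        rw [div_eq_one_iff_eq hd.ne']
        ring)
    have e : ((y1 - y) / (y1 - y0)) • ((x, y0) : ℝ × ℝ) + ((y - y0) / (y1 - y0)) • (x, y1) =
        (x, y) := by
      ext
      · simp only [Prod.smul_mk, Prod.mk_add_mk, smul_eq_mul]
        field_simp
        ring
      · simp only [Prod.smul_mk, Prod.mk_add_mk, smul_eq_mul]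
        field_simp
        ring
    rw [e] at k
    exact k

/-- the same, line `x + y = s` -/
theorem hull_d {S : Set (ℝ × ℝ)} (hS : Convex ℝ S) {s x0 x1 x : ℝ} (h0 : (x0, s - x0) ∈ S)
    (h1 : (x1, s - x1) ∈ S) (hx0 : x0 ≤ x) (hx1 : x ≤ x1) : (x, s - x) ∈ S := by
  rcases eq_or_lt_of_le (hx0.trans hx1) with h | h
  · have : x = x0 := le_antisymm (by linarith) hx0
    rw [this]
    exact h0
  · have hd : 0 < x1 - x0 := by linarith
    have k := hS h0 h1 (a := (x1 - x) / (x1 - x0)) (b := (x - x0) / (x1 - x0))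
      (div_nonneg (by linarith) hd.le) (div_nonneg (by linarith) hd.le) (by
        rw [← add_div]
        rw [div_eq_one_iff_eq hd.ne']
        ring)
    have e : ((x1 - x) / (x1 - x0)) • ((x0, s - x0) : ℝ × ℝ) +
        ((x - x0) / (x1 - x0)) • (x1, s - x1) = (x, s - x) := by
      ext
      · simp only [Prod.smul_mk, Prod.mk_add_mk, smul_eq_mul]
        field_simp
        ring
      · simp only [Prod.smul_mk, Prod.mk_add_mk, smul_eq_mul]
        field_simp
        ring
    rw [e] at k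
    exact k

/-- **the polygon is in the hull of the five vertices** -/
theorem polyg {u v s : ℝ} : PG u v s ⊆ convexHull ℝ (range (vt u v s)) := by
  rintro ⟨x, y⟩ ⟨hx0, hxu, hy0, hyv, hs⟩
  simp only at hx0 hxu hy0 hyv hs
  have hS := convex_convexHull ℝ (range (vt u v s))
  have hv : ∀ i, vt u v s i ∈ convexHull ℝ (range (vt u v s)) := fun i =>
    subset_convexHull ℝ _ (mem_range_self i)
  have v0 : (u, v) ∈ convexHull ℝ (range (vt u v s)) := hv 0
  have v1 : (max (s - v) 0, v) ∈ convexHull ℝ (range (vt u v s)) := hv 1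
  have v2 : (max (s - v) 0, min v s) ∈ convexHull ℝ (range (vt u v s)) := hv 2
  have v3 : (min u s, max (s - u) 0) ∈ convexHull ℝ (range (vt u v s)) := hv 3
  have v4 : (u, max (s - u) 0) ∈ convexHull ℝ (range (vt u v s)) := hv 4
  -- right side
  have r1 : max (s - u) 0 ≤ y := max_le (by linarith) hy0
  have hr : (u, y) ∈ convexHull ℝ (range (vt u v s)) := hull_v hS v4 v0 r1 hyv
  rcases le_total (s - y) 0 with h1 | h1
  · -- the left point is (0, y), y ≥ s
    have hy1 : s ≤ y := by linarith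
    have e1 : max (s - v) 0 = 0 := max_eq_right (by linarith)
    have hl : ((0 : ℝ), y) ∈ convexHull ℝ (range (vt u v s)) := by
      rw [e1] at v1 v2
      exact hull_v hS v2 v1 ((min_le_right _ _).trans hy1) hyv
    exact hull_h hS hl hr hx0 hxu
  · -- the left point is (s - y, y)
    have hsx : s - y ≤ x := by linarith
    have hl : (s - y, y) ∈ convexHull ℝ (range (vt u v s)) := by
      have w2 : (max (s - v) 0, s - max (s - v) 0) ∈ convexHull ℝ (range (vt u v s)) := by
        rcases le_total (s - v) 0 with h2 | h2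
        · rw [max_eq_right h2] at v2 ⊢
          rw [min_eq_right (by linarith)] at v2
          rw [sub_zero]
          exact v2
        · rw [max_eq_left h2] at v2 ⊢
          rw [min_eq_left (by linarith)] at v2
          have : s - (s - v) = v := by ring
          rw [this]
          exact v2
      have w3 : (min u s, s - min u s) ∈ convexHull ℝ (range (vt u v s)) := by
        rcases le_total u s with h2 | h2
        · rw [min_eq_left h2] at v3 ⊢
          rw [max_eq_left (by linarith)] at v3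
          exact v3
        · rw [min_eq_right h2] at v3 ⊢
          rw [max_eq_right (by linarith)] at v3
          rw [sub_self]
          exact v3
      have k := hull_d hS w2 w3 (x := s - y) (max_le (by linarith) h1)
        (le_min (by linarith) (by linarith))
      have e : s - (s - y) = y := by ring
      rw [e] at k
      exact k
    exact hull_h hS hl hr hsx hxu

/-- convex functions on the polygon -/
theorem poly1 {u v s : ℝ} {f : ℝ × ℝ → ℝ} (hf : ConvexOn ℝ univ f) {C : ℝ}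
    (hC : ∀ i, f (vt u v s i) ≤ C) {p : ℝ × ℝ} (hp : p ∈ PG u v s) : f p ≤ C := by
  have h1 : ConvexOn ℝ (convexHull ℝ (range (vt u v s))) f :=
    hf.subset (subset_univ _) (convex_convexHull ℝ _)
  obtain ⟨q, ⟨i, hi⟩, hq⟩ := h1.exists_ge_of_mem_convexHull (subset_convexHull ℝ _) (polyg hp)
  rw [← hi] at hq
  exact hq.trans (hC i)

/-- **block convex functions on the product of two polygons** -/
theorem poly2 {u v s u' v' s' : ℝ} {F : ℝ × ℝ → ℝ × ℝ → ℝ}
    (h1 : ∀ q, ConvexOn ℝ univ fun p => F p q) (h2 : ∀ p, ConvexOn ℝ univ fun q => F p q)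
    {C : ℝ} (hC : ∀ i j, F (vt u v s i) (vt u' v' s' j) ≤ C) {p q : ℝ × ℝ}
    (hp : p ∈ PG u v s) (hq : q ∈ PG u' v' s') : F p q ≤ C :=
  poly1 (h1 q) (fun i => poly1 (h2 _) (hC i) hq) hp

/-! ### the loss of a pair -/

/-- `p = (κ_0, κ_1)`, `q = (κ_2, κ_3)`: losses of the four vertices of the pair: prices `g` (`max`
of the two ends), `l`, `r` (first, second end), `h` (mass) -/
noncomputable def Phi (g l r h : Fin 4 → ℝ) (p q : ℝ × ℝ) : ℝ :=
  (1 - p.1) * (h 0 + g 0 * max q.1 q.2 + l 0 * q.1 + r 0 * q.2) +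
    (1 - p.2) * (h 1 + g 1 * max q.1 q.2 + l 1 * q.1 + r 1 * q.2) +
    ((1 - q.1) * (h 2 + g 2 * max p.1 p.2 + l 2 * p.1 + r 2 * p.2) +
      (1 - q.2) * (h 3 + g 3 * max p.1 p.2 + l 3 * p.1 + r 3 * p.2))

/-- exchange of the two edges -/
def sw (g : Fin 4 → ℝ) : Fin 4 → ℝ := ![g 2, g 3, g 0, g 1]

theorem Phi_symm (g l r h : Fin 4 → ℝ) (p q : ℝ × ℝ) :
    Phi g l r h p q = Phi (sw g) (sw l) (sw r) (sw h) q p := by
  unfold Phi sw
  simp only [Matrix.cons_val]
  ring

/-- convex in the first pair, if the second one is in the unit square -/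
theorem Phi_convex {g : Fin 4 → ℝ} (l r h : Fin 4 → ℝ) (hg : ∀ i, 0 ≤ g i) {q : ℝ × ℝ}
    (hq1 : q.1 ≤ 1) (hq2 : q.2 ≤ 1) : ConvexOn ℝ univ fun p => Phi g l r h p q := by
  have c1 : ConvexOn ℝ univ fun p : ℝ × ℝ => p.1 :=
    (LinearMap.fst ℝ ℝ ℝ).convexOn convex_univ
  have c2 : ConvexOn ℝ univ fun p : ℝ × ℝ => p.2 :=
    (LinearMap.snd ℝ ℝ ℝ).convexOn convex_univ
  have cm : ConvexOn ℝ univ fun p : ℝ × ℝ => max p.1 p.2 := c1.sup c2
  refine ⟨convex_univ, fun x _ y _ a b ha hb hab => ?_⟩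
  have m := cm.2 (mem_univ x) (mem_univ y) ha hb hab
  simp only [smul_eq_mul, Prod.fst_add, Prod.snd_add, Prod.smul_fst, Prod.smul_snd] at m
  have n2 : 0 ≤ (1 - q.1) * g 2 := mul_nonneg (by linarith) (hg 2)
  have n3 : 0 ≤ (1 - q.2) * g 3 := mul_nonneg (by linarith) (hg 3)
  have k2 := mul_le_mul_of_nonneg_left m n2
  have k3 := mul_le_mul_of_nonneg_left m n3
  unfold Phi
  simp only [smul_eq_mul, Prod.fst_add, Prod.snd_add, Prod.smul_fst, Prod.smul_snd]
  have e : b = 1 - a := by linarith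
  subst e
  have id : ∀ X Y Z : ℝ, (1 - q.1) * (h 2 + g 2 * Z + l 2 * X + r 2 * Y) =
      (1 - q.1) * g 2 * Z + (1 - q.1) * (h 2 + l 2 * X + r 2 * Y) := fun X Y Z => by ring
  have id' : ∀ X Y Z : ℝ, (1 - q.2) * (h 3 + g 3 * Z + l 3 * X + r 3 * Y) =
      (1 - q.2) * g 3 * Z + (1 - q.2) * (h 3 + l 3 * X + r 3 * Y) := fun X Y Z => by ring
  rw [id, id, id, id', id', id']
  linarith [k2, k3]

/-- **maximum of the loss of a pair over the two polygons: 25 numbers** -/
theorem Phi_le {g l r h : Fin 4 → ℝ} (hg : ∀ i, 0 ≤ g i) {u v s u' v' s' C : ℝ} (hu : u ≤ 1)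
    (hv : v ≤ 1) (hsu : s ≤ u + v) (hu' : u' ≤ 1) (hv' : v' ≤ 1)
    (hC : ∀ i j, Phi g l r h (vt u v s i) (vt u' v' s' j) ≤ C) {p q : ℝ × ℝ}
    (hp : p ∈ PG u v s) (hq : q ∈ PG u' v' s') : Phi g l r h p q ≤ C := by
  have q1 : q.1 ≤ 1 := hq.2.1.trans hu'
  have q2 : q.2 ≤ 1 := hq.2.2.2.1.trans hv'
  refine poly1 (Phi_convex l r h hg q1 q2) (fun i => ?_) hp
  have b1 : (vt u v s i).1 ≤ 1 ∧ (vt u v s i).2 ≤ 1 := by
    have e1 : max (s - v) 0 ≤ 1 := max_le (by linarith) zero_le_one
    have e2 : max (s - u) 0 ≤ 1 := max_le (by linarith) zero_le_one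
    fin_cases i
    · exact ⟨hu, hv⟩
    · exact ⟨e1, hv⟩
    · exact ⟨e1, (min_le_left _ _).trans hv⟩
    · exact ⟨(min_le_left _ _).trans hu, e2⟩
    · exact ⟨hu, e2⟩
  have hg' : ∀ i, 0 ≤ sw g i := by
    intro i
    fin_cases i
    · exact hg 2
    · exact hg 3
    · exact hg 0
    · exact hg 1
  have k : Phi (sw g) (sw l) (sw r) (sw h) q (vt u v s i) ≤ C := by
    refine poly1 (Phi_convex _ _ _ hg' b1.1 b1.2) (fun j => ?_) hq
    rw [← Phi_symm]
    exact hC i j
  rw [Phi_symm]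
  exact k

end Helper21.JPoly
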