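import Pool.Agent.Helper99.MEI.WT6
import Pool.Agent.Helper41.MEI.VMaj

/-!
# Project MEI (M2), track B: the apex localized at a corner

Class of a corner `k`: the position of the apex in `[p0, p1]` and at most half of the weight at
the corner (`pp b_0 + pp b_1 + pp b_2 ≤ 2 (pp b_j + pp b_l)`). Then `alP (pp b_j + pp b_l) ≤
ax x + ay y`. `hal_L` = hypothesis `hal` of `wcf_gen` for the types with
`(0, kl ax, kl ay)`, `kl (1 - cN) ≥ 2 e1`; `hval_L` = hypothesis `hval` for the value majorants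
`S_k (1 + e1)`, `S_j (1 + e1) + (2 e1 lam ax + 2 φ) s`, ... (own radii) and `S_k (1 + e1)`,
`S_j + (e1 + e1 lam ax + φ) s`, ... (own radius at the corner, full radii at the two others).
-/

set_option autoImplicit false

namespace Helper21.Loc

open Set Metric MeasureTheory Helper80.CW Helper82.CW Helper14.CW Helper93.MEI Helper78.MEI
open Helper82.M2 Helper14.MEI2 Pool.Agent.Helper52.MEI Pool.Agent.Helper73.MEI Helper41.MEI
open Helper37.MEI Helper60.R8 Helper60.R9 Helper29.MEI Helper99.MEI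
open Helper60.R7 (U U_pos jj ll T3_pos')
open Helper33.MEI (Dl M3 mt)
open Helper90.R8T (nw)
open Pool.Agent.Helper55.Sx (Sim)
open Pool.Agent.Helper55.Mass (LN LN_nonneg vv vv_nonneg vv_le Id)
open Pool.Agent.Helper55.Apex (nc vt_vv)
open Pool.Agent.Helper55.ApexP (PN alP alP_nonneg alP_zeta alP_le xx_mu mu_bal)
open Pool.Agent.Helper55.Fill (xx rr rr_nonneg xx_nonneg xx_le xx_feas)
open Pool.Agent.Helper73.MEI.SideP (flP flP_nonneg flP_zero flP_pair)
open Pool.Agent.Helper73.MEI.ArCor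
open Pool.Agent.Helper96.Kap (kap kap_nonneg kap_add)
open Pool.Agent.Helper31.SR hiding qq
open Helper75.MEI2 (mu vt omT omT_nonneg omT_le omT_meas)
open scoped RealInnerProductSpace ENNReal

/-! ### Numbers -/

theorem pp_dec (u : ℝ) : pp u - pp (-u) = u := by
  rcases le_total 0 u with h | h
  · have h1 : pp u = u := max_eq_left h
    have h2 : pp (-u) = 0 := max_eq_right (by linarith)
    rw [h1, h2, sub_zero]
  · have h1 : pp u = 0 := max_eq_right h
    have h2 : pp (-u) = -u := max_eq_left (by linarith)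
    rw [h1, h2]
    ring

/-- a coordinate against a radius -/
theorem neg_mul_r {u r m : ℝ} (hr0 : 0 ≤ r) (hr : r ≤ m) : -(u * r) ≤ pp (-u) * m := by
  have h1 := pp_nonneg (-u)
  have h2 := mul_le_mul_of_nonneg_left hr h1
  have h3 := mul_le_mul_of_nonneg_right (le_pp (-u)) hr0
  linarith

/-- own radii -/
theorem num_O {b r : Fin 3 → ℝ} {s e : ℝ} (hs : 0 ≤ s) (he : 1 ≤ e) (hr0 : ∀ k, 0 ≤ r k)
    (hr : ∀ k, r k ≤ e * s) (hb : 1 ≤ b 0 + b 1 + b 2) :
    s - (b 0 * r 0 + b 1 * r 1 + b 2 * r 2) ≤ e * s * (pp (b 0) + pp (b 1) + pp (b 2)) := by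
  have a0 := neg_mul_r (u := b 0) (hr0 0) (hr 0)
  have a1 := neg_mul_r (u := b 1) (hr0 1) (hr 1)
  have a2 := neg_mul_r (u := b 2) (hr0 2) (hr 2)
  have d0 := pp_dec (b 0)
  have d1 := pp_dec (b 1)
  have d2 := pp_dec (b 2)
  have hes : s ≤ e * s := by
    have := mul_le_mul_of_nonneg_right he hs
    linarith
  have h1 : 1 + (pp (-b 0) + pp (-b 1) + pp (-b 2)) ≤ pp (b 0) + pp (b 1) + pp (b 2) := by
    linarith
  have h2 := mul_le_mul_of_nonneg_left h1 (hs.trans hes)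
  linarith

/-- own radius at one, full radii at two -/
theorem num_M {u v w r s e : ℝ} (hs : 0 ≤ s) (he : 1 ≤ e) (hr0 : 0 ≤ r)
    (hr : r ≤ e * s) (hb : 1 ≤ u + v + w) :
    s - (u * r + v * (e * s) + w * (e * s)) ≤ e * s * pp u := by
  have hes : s ≤ e * s := by
    have := mul_le_mul_of_nonneg_right he hs
    linarith
  have h1 := mul_le_mul_of_nonneg_right hb (hs.trans hes)
  have h2 := mul_le_mul_of_nonneg_right (le_pp u) (sub_nonneg.2 hr)
  have h3 := mul_nonneg (pp_nonneg u) hr0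
  linarith

section abs
variable {N : Fin 3 → Fin 3 → ℝ} (hN : ∀ k m, 0 ≤ N k m) (hd : ∀ k, N k k = 0) {c : ℝ}
  (hc : c < 1) (hcol : ∀ m, nc N m ≤ c)
include hN

omit hN in
theorem sum_LN (f : Fin 3 → ℝ) :
    LN N f 0 + LN N f 1 + LN N f 2 = f 0 * nc N 0 + f 1 * nc N 1 + f 2 * nc N 2 := by
  unfold LN nc
  ring

/-- **the negative parts of the exact contact coordinates** -/
theorem neg_z {cN : ℝ} (hcN : ∀ m, nc N m ≤ cN) {ζ b : Fin 3 → ℝ}
    (hbal : ∀ k, ζ k + LN N ζ k = b k) :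
    (1 - cN ^ 2) * (pp (-ζ 0) + pp (-ζ 1) + pp (-ζ 2)) ≤
      (pp (-b 0) + pp (-b 1) + pp (-b 2)) + cN * (pp (b 0) + pp (b 1) + pp (b 2)) := by
  have n0 : ∀ m, 0 ≤ nc N m := fun m => by
    unfold nc
    have := hN 0 m
    have := hN 1 m
    have := hN 2 m
    linarith
  have cN0 : 0 ≤ cN := (n0 0).trans (hcN 0)
  obtain ⟨P, hP⟩ : ∃ P : Fin 3 → ℝ, ∀ m, P m = pp (ζ m) := ⟨_, fun _ => rfl⟩
  obtain ⟨M, hM⟩ : ∃ M : Fin 3 → ℝ, ∀ m, M m = pp (-ζ m) := ⟨_, fun _ => rfl⟩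
  have P0 : ∀ m, 0 ≤ P m := fun m => by rw [hP]; exact pp_nonneg _
  have M0 : ∀ m, 0 ≤ M m := fun m => by rw [hM]; exact pp_nonneg _
  have hPM : ∀ m, P m - M m = ζ m := fun m => by rw [hP, hM]; exact pp_dec _
  have eL : ∀ k, LN N ζ k = LN N P k - LN N M k := fun k => by
    unfold LN
    rw [← hPM 0, ← hPM 1, ← hPM 2]
    ring
  have LP : ∀ k, 0 ≤ LN N P k := fun k => LN_nonneg hN P0 k
  have LM : ∀ k, 0 ≤ LN N M k := fun k => LN_nonneg hN M0 k
  have hk : ∀ k, M k ≤ pp (-b k) + LN N P k := fun k => by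
    have h1 := hbal k
    have h2 := eL k
    have h3 := LM k
    have h4 := LP k
    have h5 := le_pp (-b k)
    have h6 := pp_nonneg (-b k)
    rw [hM]
    exact max_le (by linarith) (by linarith)
  have hk' : ∀ k, P k ≤ pp (b k) + LN N M k := fun k => by
    have h1 := hbal k
    have h2 := eL k
    have h3 := LM k
    have h4 := LP k
    have h5 := le_pp (b k)
    have h6 := pp_nonneg (b k)
    rw [hP]
    exact max_le (by linarith) (by linarith)
  have s1 := sum_LN (N := N) P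
  have s2 := sum_LN (N := N) M
  have q0 := mul_le_mul_of_nonneg_left (hcN 0) (P0 0)
  have q1 := mul_le_mul_of_nonneg_left (hcN 1) (P0 1)
  have q2 := mul_le_mul_of_nonneg_left (hcN 2) (P0 2)
  have m0 := mul_le_mul_of_nonneg_left (hcN 0) (M0 0)
  have m1 := mul_le_mul_of_nonneg_left (hcN 1) (M0 1)
  have m2 := mul_le_mul_of_nonneg_left (hcN 2) (M0 2)
  have a0 := hk 0
  have a1 := hk 1
  have a2 := hk 2
  have b0 := hk' 0
  have b1 := hk' 1
  have b2 := hk' 2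
  have hA : M 0 + M 1 + M 2 ≤ (pp (-b 0) + pp (-b 1) + pp (-b 2)) + cN * (P 0 + P 1 + P 2) := by
    linarith
  have hB : P 0 + P 1 + P 2 ≤ (pp (b 0) + pp (b 1) + pp (b 2)) + cN * (M 0 + M 1 + M 2) := by
    linarith
  have hC := mul_le_mul_of_nonneg_left hB cN0
  rw [← hM 0, ← hM 1, ← hM 2]
  nlinarith

/-- **the dropped apex through the coordinates** -/
theorem num_L {cN : ℝ} (hcN : ∀ m, nc N m ≤ cN) (hcN1 : cN < 1) {ζ b R : Fin 3 → ℝ}
    (hbal : ∀ k, ζ k + LN N ζ k = b k) {s e : ℝ} (hs : 0 ≤ s) (he : 1 ≤ e)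
    (hR0 : ∀ k, 0 ≤ R k) (hR : ∀ k, R k ≤ e * s) (hb : 1 ≤ b 0 + b 1 + b 2) :
    (1 - cN) * (s - (ζ 0 * R 0 + ζ 1 * R 1 + ζ 2 * R 2)) ≤
      e * s * (pp (b 0) + pp (b 1) + pp (b 2)) := by
  have n0 : 0 ≤ nc N 0 := by
    unfold nc
    have := hN 0 0
    have := hN 1 0
    have := hN 2 0
    linarith
  have cN0 : 0 ≤ cN := n0.trans (hcN 0)
  have a0 := neg_mul_r (u := ζ 0) (hR0 0) (hR 0)
  have a1 := neg_mul_r (u := ζ 1) (hR0 1) (hR 1)
  have a2 := neg_mul_r (u := ζ 2) (hR0 2) (hR 2)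
  have d0 := pp_dec (b 0)
  have d1 := pp_dec (b 1)
  have d2 := pp_dec (b 2)
  have hes : s ≤ e * s := by
    have := mul_le_mul_of_nonneg_right he hs
    linarith
  have key := neg_z hN hcN hbal
  obtain ⟨Z, hZ⟩ : ∃ Z, Z = pp (-ζ 0) + pp (-ζ 1) + pp (-ζ 2) := ⟨_, rfl⟩
  obtain ⟨B, hB⟩ : ∃ B, B = pp (b 0) + pp (b 1) + pp (b 2) := ⟨_, rfl⟩
  obtain ⟨B', hB'⟩ : ∃ B', B' = pp (-b 0) + pp (-b 1) + pp (-b 2) := ⟨_, rfl⟩
  rw [← hZ, ← hB, ← hB'] at key
  have hBB : B' ≤ B - 1 := by linarith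
  -- `(1 - cN²) Z ≤ (1 + cN) B - 1`
  have k1 : (1 - cN ^ 2) * Z ≤ (1 + cN) * B - 1 := by linarith
  have k2 : s - (ζ 0 * R 0 + ζ 1 * R 1 + ζ 2 * R 2) ≤ s + e * s * Z := by
    rw [hZ]
    linarith
  have k3 := mul_le_mul_of_nonneg_left k1 (hs.trans hes)
  have k4 : (1 - cN ^ 2) * (s + e * s * Z) ≤ e * s * ((1 + cN) * B) := by
    have k5 : (1 - cN ^ 2) * s ≤ s := by nlinarith [sq_nonneg cN]
    linarith
  have k6 : (1 - cN ^ 2) * (s - (ζ 0 * R 0 + ζ 1 * R 1 + ζ 2 * R 2)) ≤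
      (1 - cN ^ 2) * (s + e * s * Z) :=
    mul_le_mul_of_nonneg_left k2 (by nlinarith)
  rw [← hB]
  have k7 : (1 + cN) * ((1 - cN) * (s - (ζ 0 * R 0 + ζ 1 * R 1 + ζ 2 * R 2))) ≤
      (1 + cN) * (e * s * B) := by
    have e1 : (1 + cN) * ((1 - cN) * (s - (ζ 0 * R 0 + ζ 1 * R 1 + ζ 2 * R 2))) =
        (1 - cN ^ 2) * (s - (ζ 0 * R 0 + ζ 1 * R 1 + ζ 2 * R 2)) := by ring
    rw [e1]
    linarith
  exact le_of_mul_le_mul_left k7 (by linarith)

include hd hc hcol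

/-- **the apex at a corner of the class** -/
theorem alP_cls {ζ ζp b : Fin 3 → ℝ} (hζp : ∀ k, 0 < ζp k) (hζ : ∀ k, ζ k ≤ ζp k)
    (hbal : ∀ k, ζ k + LN N ζ k = b k) {t : ℝ × ℝ} (ht : t ∈ Sim) {j l : Fin 3} {ax ay : ℝ}
    (hax : 0 ≤ ax) (hay : 0 ≤ ay)
    (hs : 1 ≤ ax * prt (b j) (b l) + ay * (1 - prt (b j) (b l))) :
    alP N ζp t * (pp (b j) + pp (b l)) ≤ ax * vv t j + ay * vv t l := by
  have h0 := alP_nonneg (N := N) hζp t
  have hj := alP_b hN hd hc hcol hζp hζ hbal ht j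
  have hl := alP_b hN hd hc hcol hζp hζ hbal ht l
  have hP : 0 ≤ alP N ζp t * (pp (b j) + pp (b l)) :=
    mul_nonneg h0 (add_nonneg (pp_nonneg _) (pp_nonneg _))
  have hm := prt_mul (b j) (b l)
  have h1 := mul_le_mul_of_nonneg_left hs hP
  have h2 := mul_le_mul_of_nonneg_left hj hax
  have h3 := mul_le_mul_of_nonneg_left hl hay
  have e1 : alP N ζp t * (pp (b j) + pp (b l)) *
      (ax * prt (b j) (b l) + ay * (1 - prt (b j) (b l))) =
      ax * (alP N ζp t * (prt (b j) (b l) * (pp (b j) + pp (b l)))) +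
      ay * (alP N ζp t * ((pp (b j) + pp (b l))
        - prt (b j) (b l) * (pp (b j) + pp (b l)))) := by ring
  rw [e1, hm] at h1
  have e2 : pp (b j) + pp (b l) - pp (b j) = pp (b l) := by ring
  rw [e2] at h1
  linarith

end abs

/-! ### Checks -/

/-- slopes of a class -/
def slk (p0 p1 ax ay : ℕ) : Bool :=
  Nat.ble (1000000 * 1000000) (ax * p0 + ay * (1000000 - p0)) &&
    Nat.ble (1000000 * 1000000) (ax * p1 + ay * (1000000 - p1))

theorem slk_iff {p0 p1 ax ay : ℕ} (h : slk p0 p1 ax ay = true) (h01 : p0 ≤ p1)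
    (h1 : p1 ≤ 1000000) {p : ℝ} (hp0 : qq p0 ≤ p) (hp1 : p ≤ qq p1) :
    1 ≤ qq ax * p + qq ay * (1 - p) := by
  unfold slk at h
  simp only [Bool.and_eq_true, Nat.ble_eq] at h
  have key : ∀ q : ℕ, q ≤ 1000000 → 1000000 * 1000000 ≤ ax * q + ay * (1000000 - q) →
      1 ≤ qq ax * qq q + qq ay * (1 - qq q) := by
    intro q hq h2
    have h3 := (Nat.cast_le (α := ℝ)).2 h2
    rw [Nat.cast_add, Nat.cast_mul ay, Nat.cast_sub hq] at h3
    push_cast at h3
    unfold qq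
    linarith
  exact mul_ends (key p0 (h01.trans h1) h.1) (key p1 h1 h.2) hp0 hp1

/-- the dropped apex: kept, uniform or localized -/
def drl (loc : Bool) (p0 p1 kl : ℕ) (As : List LT) : Bool :=
  As.all fun L => Nat.beq L.z 1 ||
    ((Nat.ble 1000000 L.e0 && Nat.ble 1000000 L.ex && Nat.ble 1000000 L.ey) ||
      (loc && slk p0 p1 L.ax L.ay && Nat.ble (kl * L.ax) (1000000 * L.ex) &&
        Nat.ble (kl * L.ay) (1000000 * L.ey)))

/-- the uniform majorant -/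
def uvk (e1 : ℕ) (W : VT) : Bool :=
  Nat.ble (6000000000000 * e1) W.k.s && Nat.ble 6000000000000000000 W.k.Sk &&
    Nat.ble (6000000000000 * e1) W.j.s && Nat.ble 6000000000000000000 W.j.Sj &&
    Nat.ble (6000000000000 * e1) W.l.s && Nat.ble 6000000000000000000 W.l.Sl

/-- own radius: `S + e1 S` or `S + e1 s` -/
def ndk (e1 cs cS : ℕ) : Bool :=
  Nat.ble (6000000000000 * (1000000 + e1)) cS ||
    (Nat.ble 6000000000000000000 cS && Nat.ble (6000000000000 * e1) cs)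

/-- own radii -/
def ovk (e1 lr ce ax ay : ℕ) (W : VT) : Bool :=
  ndk e1 W.k.s W.k.Sk && ndk e1 W.j.s W.j.Sj && ndk e1 W.l.s W.l.Sl &&
    Nat.ble (12 * e1 * ax * lr) W.j.t && Nat.ble (12 * e1 * ay * lr) W.l.t &&
    Nat.ble (6000000000000 * ce) W.j.p && Nat.ble (6000000000000 * ce) W.l.p

/-- own radius at the corner, full radii at the two others -/
def mvk (e1 lr ce ax ay : ℕ) (W : VT) : Bool :=
  ndk e1 W.k.s W.k.Sk && Nat.ble 6000000000000000000 W.j.Sj &&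
    Nat.ble 6000000000000000000 W.l.Sl && Nat.ble (6000000000000 * e1) W.j.s &&
    Nat.ble (6000000000000 * e1) W.l.s &&
    Nat.ble (6 * e1 * ax * lr) W.j.t && Nat.ble (6 * e1 * ay * lr) W.l.t &&
    Nat.ble (3000000000000 * ce) W.j.p && Nat.ble (3000000000000 * ce) W.l.p

/-- the value majorants: uniform or localized with slopes in the list `G` -/
def vcl (loc : Bool) (p0 p1 e1 lr ce : ℕ) (G : List (ℕ × ℕ)) (Vs : List VT) : Bool :=
  Vs.all fun W => uvk e1 W || (loc && G.any fun g => slk p0 p1 g.1 g.2 &&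
    (ovk e1 lr ce g.1 g.2 W || mvk e1 lr ce g.1 g.2 W))

/-- **the checks of the tables of a corner**, localized apex if `loc` -/
structure OkL {ι : Type*} (C : CT ι) (loc : Bool) (kl : ℕ) (G : List (ℕ × ℕ))
    (A c0 c1 hh e1 : ℕ) : Prop where
  fam : Fam C.Q A c0 c1 (nw C.a C.n1 C.nl) C.ne hh
  tab : ∀ e, tck C.P C.As C.Vs C.q0 C.q1 (C.rs e) (C.Q e) = true
  nls : ∀ e, C.nl ≤ (C.Q e).nl
  n1l : C.n1 ≤ C.nl
  pos : pok C.p0 C.p1 C.As = true
  p01 : C.p0 ≤ C.p1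
  p1 : C.p1 ≤ 1000000
  val : vcl loc C.p0 C.p1 e1 C.P.lr C.P.ce G C.Vs = true
  drp : drl loc C.p0 C.p1 kl C.As = true

theorem OkL.g {ι : Type*} {C : CT ι} {loc : Bool} {kl : ℕ} {G : List (ℕ × ℕ)}
    {A c0 c1 hh e1 : ℕ} (h : OkL C loc kl G A c0 c1 hh e1) : C.OkG A c0 c1 hh :=
  ⟨h.fam, h.tab, h.nls, h.n1l, h.pos⟩

/-- nonnegative numbers of a state -/
structure Nn (r : RR) : Prop where
  s : 0 ≤ r.s
  Sk : 0 ≤ r.Sk
  Sj : 0 ≤ r.Sj
  Sl : 0 ≤ r.Sl
  nk : 0 ≤ r.nk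
  nj : 0 ≤ r.nj
  nl : 0 ≤ r.nl
  b : 0 ≤ r.b
  te : 0 ≤ r.te
  pe : 0 ≤ r.pe

/-- lower bound of an affine function -/
theorem ev_ge (F : AF) {r : RR} (h : Nn r) {cs ck cj cl ct cp : ℝ}
    (hs : cs * 6000000000000000000 ≤ F.s) (hk : ck * 6000000000000000000 ≤ F.Sk)
    (hj : cj * 6000000000000000000 ≤ F.Sj) (hl : cl * 6000000000000000000 ≤ F.Sl)
    (ht : ct * 6000000000000000000 ≤ F.t) (hp : cp * 6000000000000000000 ≤ F.p) :
    cs * r.s + ck * r.Sk + cj * r.Sj + cl * r.Sl + ct * r.te + cp * r.pe ≤ F.ev r := by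
  have a1 := mul_le_mul_of_nonneg_right hs h.s
  have a2 := mul_le_mul_of_nonneg_right hk h.Sk
  have a3 := mul_le_mul_of_nonneg_right hj h.Sj
  have a4 := mul_le_mul_of_nonneg_right hl h.Sl
  have a5 := mul_le_mul_of_nonneg_right ht h.te
  have a6 := mul_le_mul_of_nonneg_right hp h.pe
  have b1 := mul_nonneg (Nat.cast_nonneg (α := ℝ) F.k) h.nk
  have b2 := mul_nonneg (Nat.cast_nonneg (α := ℝ) F.j) h.nj
  have b3 := mul_nonneg (Nat.cast_nonneg (α := ℝ) F.l) h.nl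
  have b4 := mul_nonneg (Nat.cast_nonneg (α := ℝ) F.b) h.b
  have b5 := Nat.cast_nonneg (α := ℝ) F.c0
  unfold AF.ev
  rw [le_div_iff₀ (by norm_num)]
  linarith

theorem ndk_iff {e1 cs cS : ℕ} (h : ndk e1 cs cS = true) {s y : ℝ} (_ : 0 ≤ s)
    (_ : 0 ≤ y) : ∃ us uS : ℝ, us * 6000000000000000000 ≤ cs ∧
      uS * 6000000000000000000 ≤ cS ∧ y + qq e1 * min s y ≤ us * s + uS * y := by
  unfold ndk at h
  simp only [Bool.or_eq_true, Bool.and_eq_true, Nat.ble_eq] at h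
  have he := qq_nonneg e1
  rcases h with h | ⟨h, h'⟩
  · have h1 := (Nat.cast_le (α := ℝ)).2 h
    push_cast at h1
    refine ⟨0, 1 + qq e1, by simp, ?_, ?_⟩
    · unfold qq
      linarith
    · have := mul_le_mul_of_nonneg_left (min_le_right s y) he
      linarith
  · have h1 := (Nat.cast_le (α := ℝ)).2 h
    have h2 := (Nat.cast_le (α := ℝ)).2 h'
    push_cast at h1 h2
    refine ⟨qq e1, 1, ?_, by linarith, ?_⟩
    · unfold qq
      linarith
    · have := mul_le_mul_of_nonneg_left (min_le_left s y) he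
      linarith

/-! ### On the body -/

section body
variable {a : Fin 4 → E3} {σ : Measure (E3 × E3)} {K : Set E3} {S : Fin 4 → ℝ}
  {c : Fin 4 → E3} {z : Fin 4 → Fin 4 → E3} {l : Fin 3 → Bool → Bool → E3 × E3 → ℝ}

/-- the node values against the own violation -/
theorem Rv_own (h : CN K σ a c) (v : Viol K a S) (hz : CV a K z) (τ : Equiv.Perm (Fin 4))
    {N : Fin 3 → Fin 3 → ℝ} (hNd : N = NM (fun i => a (τ i)) (fun i j => z (τ i) (τ j)))
    {tt : Fin 3 → ℝ} (htt : ∀ k, nc N k ≤ tt k) (k : Fin 3) :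
    Rv tt N k ≤ (1 + nc N k / 2) * S (τ k.succ) := by
  have h' := h.perm τ
  have v' := viol_perm v τ
  have hz' := hz.perm τ
  have hN : ∀ k m, 0 ≤ N k m := fun k m => by
    rw [hNd]
    exact NM_nonneg h' v' hz' k m
  have nn : 0 ≤ nc N k := Pool.Agent.Helper73.MEI.SideP.nc_nonneg hN k
  have hdq0 : 0 ≤ dq (N (k + 1) k) (N (k + 2) k) := by
    unfold dq
    nlinarith [sq_nonneg (N (k + 1) k - N (k + 2) k), sq_nonneg (N (k + 1) k + N (k + 2) k),
      mul_nonneg (hN (k + 1) k) (hN (k + 2) k)]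
  have h1 := (dom_VF h v hz τ hNd (tt := fun k => nc N k) (fun _ => le_rfl) k).2.2
  have h2 : 0 < 1 + nc N k / 2 := by linarith
  rw [div_le_iff₀ (by positivity)] at h1
  have h3 : Rv tt N k ≤ dq (N (k + 1) k) (N (k + 2) k) / (1 + nc N k / 2) := by
    unfold Rv
    refine div_le_div_of_nonneg_left hdq0 h2 ?_
    have := htt k
    linarith
  refine h3.trans ?_
  rw [div_le_iff₀ h2]
  linarith

/-- **the value at a face, any radii, no residual arcs** -/
theorem gm_r (h : CN K σ a c) (v : Viol K a S) (hz : CV a K z) (τ : Equiv.Perm (Fin 4))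
    {ρ β : Fin 3 → ℝ} (hMρ : ∀ p k, k ≠ p → MA σ a l τ p k ≤ ρ p)
    {x : E3} {N : Fin 3 → Fin 3 → ℝ} (hNd : N = NM (fun i => a (τ i)) (fun i j => z (τ i) (τ j)))
    {A' : ℝ} (hA' : 0 < A') {φ : ℝ} (hφ : 0 < φ) (hβ : ∀ p, β p = 0)
    (hK : ∀ p, β p * ρ p ≤ A' * Id (fun t => kap N (vv t) p))
    (hF : ∀ p, (1 - β p) * ρ p ≤ φ * (A' * Id (flP (PN N) p)))
    {ζp : Fin 3 → ℝ} (z1 : ∀ k, 0 < ζp k) (z2 : ∀ k, zc (fun i => a (τ i)) N x k ≤ ζp k)
    {lam : ℝ} (l1 : 0 ≤ lam) (l2 : lam ≤ 1 - φ) {t : ℝ × ℝ} (ht : t ∈ Dl)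
    {R r E : Fin 3 → ℝ} (hR : ∀ k, R k ≤ r k) (hr : ∀ k, 0 ≤ r k) {g : ℝ} (hg : 0 ≤ g)
    (hcc : ∀ p, E p - (MB σ a l τ p 0 * r 0 + MB σ a l τ p 1 * r 1 + MB σ a l τ p 2 * r 2) ≤
      g * ρ p) (k : Fin 3) :
    GM A' N (zc (fun i => a (τ i)) N x) ζp lam (fun p t => φ * flP (PN N) p t)
      (fun p t => kap N (vv t) p) β (MB σ a l τ) E R (fun k => S (τ k.succ)) (S (τ 0)) t ≤
      -(T3 t 0 * S (τ 1) + T3 t 1 * S (τ 2) + T3 t 2 * S (τ 3))
        + lam * (alP N ζp t * (S (τ 0) - (b3 (fun i => a (τ i)) x 0 * r 0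
          + b3 (fun i => a (τ i)) x 1 * r 1 + b3 (fun i => a (τ i)) x 2 * r 2)))
        + (T3 t k * (S (τ k.succ) + r k) + T3 t (jj k) * (S (τ (jj k).succ) + r (jj k))
          + T3 t (ll k) * (S (τ (ll k).succ) + r (ll k)))
        + φ * g * (T3 t (jj k) + T3 t (ll k)) := by
  have h' := h.perm τ
  have v' := viol_perm v τ
  have hz' := hz.perm τ
  have hN : ∀ k m, 0 ≤ N k m := fun k m => by
    rw [hNd]
    exact NM_nonneg h' v' hz' k m
  have hd : ∀ k, N k k = 0 := fun k => by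
    rw [hNd]
    exact NM_diag k
  have hcol : ∀ m, nc N m ≤ 9 / 10 := fun m => by
    rw [hNd]
    exact nc_le h' v' hz' m
  have hc : (9 / 10 : ℝ) < 1 := by norm_num
  have htS := Dl_Sim ht
  have hbal : ∀ k, zc (fun i => a (τ i)) N x k + LN N (zc (fun i => a (τ i)) N x) k =
      b3 (fun i => a (τ i)) x k := fun k => by
    unfold zc
    exact mu_bal hN hd hc hcol _ k
  obtain ⟨n1, n2, n3⟩ := jl_ne k
  have hrr : ∀ m, rr N (vv t) m ≤ vv t m := fun m => by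
    have x1 := xx_nonneg hN hc hcol (fun k => vv_nonneg htS k) m
    have x2 := LN_nonneg hN (xx_nonneg hN hc hcol (fun k => vv_nonneg htS k)) m
    unfold rr
    linarith
  have hE0 : ∀ p, E p - (MB σ a l τ p 0 * r 0 + MB σ a l τ p 1 * r 1 + MB σ a l τ p 2 * r 2)
      - (fun _ : Fin 3 => (0 : ℝ)) p ≤ g * ρ p := fun p => by
    have := hcc p
    show _ - (0 : ℝ) ≤ _
    linarith
  have key := Helper41.VMaj.val_body (σ := σ) (l := l) h v hz τ hA' hMρ hNd (R := R) (r := r) hR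
    hr z1 z2 hφ l1 l2 (fun p => (hβ p).ge) (fun p => by rw [hβ p]; exact zero_le_one) hK hF
    (E := E) (c' := fun _ => 0) (s0 := S (τ 0))
    (e' := S (τ 0) - (b3 (fun i => a (τ i)) x 0 * r 0
      + b3 (fun i => a (τ i)) x 1 * r 1 + b3 (fun i => a (τ i)) x 2 * r 2)) (g := g) (rA := 0)
    (Cer := 0) (ν := 1) le_rfl
    (by
      rw [hbal, hbal, hbal]
      linarith) hg hE0 le_rfl (Or.inl hβ) htS (i := k) (j := jj k) (k := ll k) n1 n2 n3
    (by
      have := hrr (jj k)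
      have := hrr (ll k)
      linarith)
  have eP : ∀ e' : ℝ, PV A' N ζp lam φ β (fun _ => 0) e' (fun _ => 0) (fun _ => 0) t =
      lam * (alP N ζp t * e') := fun e' => by
    unfold PV
    ring
  rw [eP] at key
  have ev : ∀ m, vv t m = T3 t m := fun m => (T3_vv t m).symm
  rw [ev, ev, ev, ev, ev] at key
  have u1 : τ (Fin.succ 0) = τ 1 := rfl
  have u2 : τ (Fin.succ 1) = τ 2 := rfl
  have u3 : τ (Fin.succ 2) = τ 3 := rfl
  have hs := jl_sum k (fun m => T3 t m * (S (τ m.succ) + r m))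
  beta_reduce at hs
  rw [u1, u2, u3] at hs
  linarith

/-- **the dropped apex at a corner of the class** -/
theorem hal_L [IsFiniteMeasure σ] (h : CN K σ a c) (v : Viol K a S) (hz : CV a K z)
    (τ : Equiv.Perm (Fin 4)) (hl : Lok a l) (hδ : ∀ p, MA σ a l τ p p ≤ 0)
    {x : E3} (hx : x ∈ K) (hxs : Qv a (τ 0) x = S (τ 0) ∨ S (τ 0) = 0)
    {N : Fin 3 → Fin 3 → ℝ} (hNd : N = NM (fun i => a (τ i)) (fun i j => z (τ i) (τ j)))
    {tt : Fin 3 → ℝ} (htt : ∀ k, nc N k ≤ tt k) {cN : ℝ} (hcN : ∀ m, nc N m ≤ cN)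
    (hcN1 : cN ≤ 1 / 2) {e1 kl : ℕ} (he1 : 1 + cN / 2 ≤ qq e1)
    (hkl : 2 * qq e1 ≤ (1 - cN) * qq kl) {ζp : Fin 3 → ℝ} (z1 : ∀ k, 0 < ζp k)
    (z2 : ∀ k, zc (fun i => a (τ i)) N x k ≤ ζp k) {t : ℝ × ℝ} (ht : t ∈ Dl) (k : Fin 3)
    {p0 p1 : ℕ} (h01 : p0 ≤ p1) (hp : p1 ≤ 1000000)
    (hp0 : qq p0 ≤ prt (b3 (fun i => a (τ i)) x (jj k)) (b3 (fun i => a (τ i)) x (ll k)))
    (hp1 : prt (b3 (fun i => a (τ i)) x (jj k)) (b3 (fun i => a (τ i)) x (ll k)) ≤ qq p1)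
    {loc : Bool} (hloc : loc = true → pp (b3 (fun i => a (τ i)) x k) ≤
      pp (b3 (fun i => a (τ i)) x (jj k)) + pp (b3 (fun i => a (τ i)) x (ll k)))
    {As : List LT} (hA : drl loc p0 p1 kl As = true) {L : LT} (hL : L ∈ As) (hz0 : L.z = 0) :
    alP N ζp t * (S (τ 0) - (zc (fun i => a (τ i)) N x 0 * Rv tt N 0
        + zc (fun i => a (τ i)) N x 1 * Rv tt N 1 + zc (fun i => a (τ i)) N x 2 * Rv tt N 2)) ≤
        S (τ 0) * (qq L.e0 * T3 t k + qq L.ex * T3 t (jj k) + qq L.ey * T3 t (ll k)) := by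
  have h' := h.perm τ
  have v' := viol_perm v τ
  have hz' := hz.perm τ
  have hN : ∀ k m, 0 ≤ N k m := fun k m => by
    rw [hNd]
    exact NM_nonneg h' v' hz' k m
  have hd : ∀ k, N k k = 0 := fun k => by
    rw [hNd]
    exact NM_diag k
  have hcol : ∀ m, nc N m ≤ 9 / 10 := fun m => by
    rw [hNd]
    exact nc_le h' v' hz' m
  have hc : (9 / 10 : ℝ) < 1 := by norm_num
  have htS := Dl_Sim ht
  have F := fn_face h v hz τ hl hδ hx hxs hNd htt hcN he1
  have s0 := F.s0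
  have nn : ∀ m, 0 ≤ nc N m := fun m => Pool.Agent.Helper73.MEI.SideP.nc_nonneg hN m
  have cN0 : 0 ≤ cN := (nn 0).trans (hcN 0)
  have x0 : 0 ≤ T3 t (jj k) := (T3_pos' ht _).le
  have y0 : 0 ≤ T3 t (ll k) := (T3_pos' ht _).le
  have z0 : 0 ≤ T3 t k := (T3_pos' ht _).le
  have hsum := jl_sum k (T3 t)
  have hsum1 : T3 t 0 + T3 t 1 + T3 t 2 = 1 := T3_sum t
  unfold drl at hA
  simp only [List.all_eq_true, Bool.or_eq_true, Bool.and_eq_true, Nat.ble_eq,
    Nat.beq_eq] at hA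
  rcases hA L hL with h1 | ⟨⟨g1, g2⟩, g3⟩ | ⟨⟨⟨g0, g1⟩, g2⟩, g3⟩
  · rw [hz0] at h1
    exact absurd h1 (by decide)
  · have a1 := alP_s0 hN hd hc hcol z1 z2 s0 F.R0 F.R1 F.z1 htS
    have b1 := mul_le_mul_of_nonneg_right (qq_ge_one g1) z0
    have b2 := mul_le_mul_of_nonneg_right (qq_ge_one g2) x0
    have b3 := mul_le_mul_of_nonneg_right (qq_ge_one g3) y0
    have b4 := mul_le_mul_of_nonneg_left (show 1 ≤ qq L.e0 * T3 t k + qq L.ex * T3 t (jj k)
      + qq L.ey * T3 t (ll k) by linarith) s0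
    linarith
  · have r0 : 0 ≤ S (τ 0) * (qq L.e0 * T3 t k + qq L.ex * T3 t (jj k)
        + qq L.ey * T3 t (ll k)) :=
      mul_nonneg s0 (add_nonneg (add_nonneg (mul_nonneg (qq_nonneg _) z0)
        (mul_nonneg (qq_nonneg _) x0)) (mul_nonneg (qq_nonneg _) y0))
    rcases F.xs with hQ | ⟨hs, hR⟩
    · have hgr := gram_of_dist h'.ha
      have hb : 1 ≤ b3 (fun i => a (τ i)) x 0 + b3 (fun i => a (τ i)) x 1
          + b3 (fun i => a (τ i)) x 2 := by
        have hQ' : Qv (fun i => a (τ i)) 0 x = S (τ 0) := hQ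
        exact Helper41.VMaj.b3_ge hgr (h'.hp x hx) (by rw [hQ']; exact s0)
      have hbal : ∀ k, zc (fun i => a (τ i)) N x k + LN N (zc (fun i => a (τ i)) N x) k =
          b3 (fun i => a (τ i)) x k := fun k => by
        unfold zc
        exact mu_bal hN hd hc hcol _ k
      have e1' : 1 ≤ qq e1 := by linarith
      have n1 := num_L hN hcN (by linarith) hbal s0 e1' F.R0 F.Re hb
      have n2 := alP_cls hN hd hc hcol z1 z2 hbal htS (j := jj k) (l := ll k)
        (qq_nonneg L.ax) (qq_nonneg L.ay) (slk_iff g1 h01 hp hp0 hp1)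
      have al0 := alP_nonneg (N := N) z1 t
      have ev : ∀ m, vv t m = T3 t m := fun m => (T3_vv t m).symm
      rw [ev, ev] at n2
      have hs3 := jl_sum k (fun m => pp (b3 (fun i => a (τ i)) x m))
      have hu := hloc g0
      obtain ⟨B, hB⟩ : ∃ B, B = pp (b3 (fun i => a (τ i)) x 0) + pp (b3 (fun i => a (τ i)) x 1)
        + pp (b3 (fun i => a (τ i)) x 2) := ⟨_, rfl⟩
      obtain ⟨P, hP⟩ : ∃ P, P = pp (b3 (fun i => a (τ i)) x (jj k))
        + pp (b3 (fun i => a (τ i)) x (ll k)) := ⟨_, rfl⟩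
      rw [← hP] at n2
      rw [← hB] at n1
      have hBP : B ≤ 2 * P := by
        rw [hB, hP]
        linarith
      have es : 0 ≤ qq e1 * S (τ 0) := mul_nonneg (qq_nonneg _) s0
      have m1 := mul_le_mul_of_nonneg_left n1 al0
      have m2 := mul_le_mul_of_nonneg_left (mul_le_mul_of_nonneg_left hBP es) al0
      have m3 := mul_le_mul_of_nonneg_left n2 es
      have m4 : 0 ≤ S (τ 0) * (qq L.ax * T3 t (jj k) + qq L.ay * T3 t (ll k)) :=
        mul_nonneg s0 (add_nonneg (mul_nonneg (qq_nonneg _) x0) (mul_nonneg (qq_nonneg _) y0))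
      have m5 := mul_le_mul_of_nonneg_right hkl m4
      have cast : ∀ u w : ℕ, kl * u ≤ 1000000 * w → qq kl * qq u ≤ qq w := fun u w hw => by
        have h3 := (Nat.cast_le (α := ℝ)).2 hw
        push_cast at h3
        unfold qq
        linarith
      have m6 := mul_le_mul_of_nonneg_right (cast _ _ g2) x0
      have m7 := mul_le_mul_of_nonneg_right (cast _ _ g3) y0
      have m8 := mul_le_mul_of_nonneg_left (show qq kl * (qq L.ax * T3 t (jj k)
        + qq L.ay * T3 t (ll k)) ≤ qq L.e0 * T3 t k + qq L.ex * T3 t (jj k)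
        + qq L.ey * T3 t (ll k) by
          have := mul_nonneg (qq_nonneg L.e0) z0
          linarith) s0
      have m9 := mul_le_mul_of_nonneg_left m8 (show 0 ≤ 1 - cN by linarith)
      refine le_of_mul_le_mul_left (a := 1 - cN) ?_ (by linarith)
      linarith
    · rw [hs, hR, hR, hR]
      simp

/-- numbers of a corner, nonnegative -/
theorem stc_Nn (v : Viol K a S) (τ : Equiv.Perm (Fin 4)) {N : Fin 3 → Fin 3 → ℝ}
    (hN : ∀ k, 0 ≤ nc N k) {k : Fin 3} {b te pe : ℝ} (hb : 0 ≤ b) (hte : 0 ≤ te)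
    (hpe : 0 ≤ pe) : Nn (stc S τ N k b te pe) :=
  ⟨v.nn _, v.nn _, v.nn _, v.nn _, hN _, hN _, hN _, hb, hte, hpe⟩

/-- **the value majorants at a corner of the class** -/
theorem hval_L [IsFiniteMeasure σ] (h : CN K σ a c) (v : Viol K a S) (hz : CV a K z)
    (τ : Equiv.Perm (Fin 4)) (hl : Lok a l) (hδ : ∀ p, MA σ a l τ p p ≤ 0)
    {ρ β : Fin 3 → ℝ} (hρ : ∀ p, 0 < ρ p) (hMρ : ∀ p k, k ≠ p → MA σ a l τ p k ≤ ρ p)
    {x : E3} (hx : x ∈ K) (hxs : Qv a (τ 0) x = S (τ 0) ∨ S (τ 0) = 0)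
    {N : Fin 3 → Fin 3 → ℝ} (hNd : N = NM (fun i => a (τ i)) (fun i j => z (τ i) (τ j)))
    {tt : Fin 3 → ℝ} (htt : ∀ k, nc N k ≤ tt k) {A' : ℝ} (hA' : 0 < A')
    {φ : ℝ} (hφ : 0 < φ) (hβ0 : ∀ p, 0 ≤ β p) (hβ1 : ∀ p, β p ≤ 1)
    (hK : ∀ p, β p * ρ p ≤ A' * Id (fun t => kap N (vv t) p))
    (hF : ∀ p, (1 - β p) * ρ p ≤ φ * (A' * Id (flP (PN N) p)))
    {cN : ℝ} (hcN : ∀ m, nc N m ≤ cN) {e1 : ℕ} (he1 : 1 + cN / 2 ≤ qq e1)
    {ζp : Fin 3 → ℝ} (z1 : ∀ k, 0 < ζp k) (z2 : ∀ k, zc (fun i => a (τ i)) N x k ≤ ζp k)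
    {lam : ℝ} (l1 : 0 ≤ lam) (l2 : lam ≤ 1 - φ) {t : ℝ × ℝ} (ht : t ∈ Dl) (k : Fin 3)
    {p0 p1 : ℕ} (h01 : p0 ≤ p1) (hp : p1 ≤ 1000000)
    (hp0 : qq p0 ≤ prt (b3 (fun i => a (τ i)) x (jj k)) (b3 (fun i => a (τ i)) x (ll k)))
    (hp1 : prt (b3 (fun i => a (τ i)) x (jj k)) (b3 (fun i => a (τ i)) x (ll k)) ≤ qq p1)
    {loc : Bool} (hloc : loc = true → (∀ p, β p = 0) ∧ pp (b3 (fun i => a (τ i)) x k) ≤
      pp (b3 (fun i => a (τ i)) x (jj k)) + pp (b3 (fun i => a (τ i)) x (ll k)))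
    {lr ce : ℕ} {G : List (ℕ × ℕ)} {Vs : List VT} (hG : vcl loc p0 p1 e1 lr ce G Vs = true)
    {b te pe : ℝ} (hb0 : 0 ≤ b) (hte0 : 0 ≤ te) (hpe0 : 0 ≤ pe)
    (hlr : lam * S (τ 0) ≤ qq lr * te) (hce : φ * (2 * S (τ 0)) ≤ qq ce * pe)
    {W : VT} (hW : W ∈ Vs) :
    GM A' N (zc (fun i => a (τ i)) N x) ζp lam (fun p t => φ * flP (PN N) p t)
        (fun p t => kap N (vv t) p) β (MB σ a l τ)
        (fun p => aE σ a l (τ 0) (τ p.succ) - (fun _ => (0 : ℝ)) p) (Rv tt N)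
        (fun k => S (τ k.succ)) (S (τ 0)) t ≤
      -(T3 t 0 * S (τ 1) + T3 t 1 * S (τ 2) + T3 t 2 * S (τ 3))
        + (W.k.ev (stc S τ N k b te pe) * T3 t k + W.j.ev (stc S τ N k b te pe) * T3 t (jj k)
          + W.l.ev (stc S τ N k b te pe) * T3 t (ll k)) := by
  have h' := h.perm τ
  have v' := viol_perm v τ
  have hz' := hz.perm τ
  have hN : ∀ k m, 0 ≤ N k m := fun k m => by
    rw [hNd]
    exact NM_nonneg h' v' hz' k m
  have hd : ∀ k, N k k = 0 := fun k => by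
    rw [hNd]
    exact NM_diag k
  have hcol : ∀ m, nc N m ≤ 9 / 10 := fun m => by
    rw [hNd]
    exact nc_le h' v' hz' m
  have hc : (9 / 10 : ℝ) < 1 := by norm_num
  have htS := Dl_Sim ht
  have F := fn_face h v hz τ hl hδ hx hxs hNd htt hcN he1
  have s0 := F.s0
  have nn : ∀ m, 0 ≤ nc N m := fun m => Pool.Agent.Helper73.MEI.SideP.nc_nonneg hN m
  have cN0 : 0 ≤ cN := (nn 0).trans (hcN 0)
  have e1' : 1 ≤ qq e1 := by linarith
  have x0 : 0 ≤ T3 t (jj k) := (T3_pos' ht _).le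
  have y0 : 0 ≤ T3 t (ll k) := (T3_pos' ht _).le
  have z0 : 0 ≤ T3 t k := (T3_pos' ht _).le
  have hsum := jl_sum k (T3 t)
  have hsum1 : T3 t 0 + T3 t 1 + T3 t 2 = 1 := T3_sum t
  have sk := v.nn (τ k.succ)
  have sj := v.nn (τ (jj k).succ)
  have sl := v.nn (τ (ll k).succ)
  have u1 : τ (Fin.succ 0) = τ 1 := rfl
  have u2 : τ (Fin.succ 1) = τ 2 := rfl
  have u3 : τ (Fin.succ 2) = τ 3 := rfl
  have hC := jl_sum k (fun m => T3 t m * S (τ m.succ))
  beta_reduce at hC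
  rw [u1, u2, u3] at hC
  have Nr := stc_Nn v τ (N := N) nn (k := k) hb0 hte0 hpe0
  have g0 := val_S h v hz τ hl hδ hρ hMρ hx hxs hNd htt hA' hφ hβ0 hβ1 hK hF hcN he1 z1 z2
    l1 l2 ht
  unfold vcl at hG
  simp only [List.all_eq_true, Bool.or_eq_true, Bool.and_eq_true, List.any_eq_true] at hG
  rcases hG W hW with hu | ⟨hlc, g, -, hg, hv⟩
  · -- uniform
    have hck : Helper99.MEI.vck e1 [W] = true := by
      unfold uvk at hu
      unfold Helper99.MEI.vck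
      simp only [List.all_cons, List.all_nil, Bool.and_true]
      exact hu
    obtain ⟨w1, w2, w3⟩ := vck_iff hck (List.mem_singleton_self W) v.nn (τ := τ) nn (k := k)
      hb0 hte0 hpe0
    have b1 := mul_le_mul_of_nonneg_right w1 z0
    have b2 := mul_le_mul_of_nonneg_right w2 x0
    have b3 := mul_le_mul_of_nonneg_right w3 y0
    have e2 : qq e1 * S (τ 0) * (T3 t k + T3 t (jj k) + T3 t (ll k)) = qq e1 * S (τ 0) := by
      rw [hsum, hsum1, mul_one]
    linarith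
  · obtain ⟨hβ, hu⟩ := hloc hlc
    obtain ⟨ax, ay⟩ := g
    dsimp only at hg hv
    have al0 := alP_nonneg (N := N) z1 t
    have lw0 : 0 ≤ qq lr * te := mul_nonneg (qq_nonneg _) hte0
    have pw0 : 0 ≤ qq ce * pe := mul_nonneg (qq_nonneg _) hpe0
    have es : 0 ≤ qq e1 * S (τ 0) := mul_nonneg (qq_nonneg _) s0
    have hss : S (τ 0) ≤ qq e1 * S (τ 0) := by
      have := mul_le_mul_of_nonneg_right e1' s0
      linarith
    rcases F.xs with hQ | ⟨hs, hR⟩
    swap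
    · -- level zero
      have k1 : ∃ us uS : ℝ, us * 6000000000000000000 ≤ W.k.s ∧
          uS * 6000000000000000000 ≤ W.k.Sk ∧
          S (τ k.succ) + qq e1 * min (S (τ 0)) (S (τ k.succ)) ≤
            us * S (τ 0) + uS * S (τ k.succ) := by
        rcases hv with hv | hv
        · unfold ovk at hv
          simp only [Bool.and_eq_true] at hv
          exact ndk_iff hv.1.1.1.1.1.1 s0 sk
        · unfold mvk at hv
          simp only [Bool.and_eq_true] at hv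
          exact ndk_iff hv.1.1.1.1.1.1.1.1 s0 sk
      obtain ⟨us, uS, q1, q2, q3⟩ := k1
      have low : ∀ y : ℝ, 0 ≤ y → 0 ≤ qq e1 * min (S (τ 0)) y := fun y hy =>
        mul_nonneg (qq_nonneg _) (le_min s0 hy)
      have k2 : S (τ k.succ) ≤ W.k.ev (stc S τ N k b te pe) := by
        have := ev_ge W.k Nr (cs := us) (ck := uS) (cj := 0) (cl := 0) (ct := 0) (cp := 0) q1 q2
          (by simp) (by simp) (by simp) (by simp)
        have hl0 := low _ sk
        unfold stc at this ⊢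
        dsimp only at this
        linarith
      have k3 : S (τ (jj k).succ) ≤ W.j.ev (stc S τ N k b te pe) := by
        have q : ∃ us uS : ℝ, us * 6000000000000000000 ≤ W.j.s ∧
            uS * 6000000000000000000 ≤ W.j.Sj ∧
            S (τ (jj k).succ) ≤ us * S (τ 0) + uS * S (τ (jj k).succ) := by
          rcases hv with hv | hv
          · unfold ovk at hv
            simp only [Bool.and_eq_true] at hv
            obtain ⟨us, uS, q1, q2, q3⟩ := ndk_iff hv.1.1.1.1.1.2 s0 sj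
            exact ⟨us, uS, q1, q2, by have := low _ sj; linarith⟩
          · unfold mvk at hv
            simp only [Bool.and_eq_true, Nat.ble_eq] at hv
            have h5 := (Nat.cast_le (α := ℝ)).2 hv.1.1.1.1.1.1.1.2
            push_cast at h5
            exact ⟨0, 1, by simp, by linarith, by linarith⟩
        obtain ⟨us, uS, q1, q2, q3⟩ := q
        have := ev_ge W.j Nr (cs := us) (ck := 0) (cj := uS) (cl := 0) (ct := 0) (cp := 0) q1
          (by simp) q2 (by simp) (by simp) (by simp)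
        unfold stc at this ⊢
        dsimp only at this
        linarith
      have k4 : S (τ (ll k).succ) ≤ W.l.ev (stc S τ N k b te pe) := by
        have q : ∃ us uS : ℝ, us * 6000000000000000000 ≤ W.l.s ∧
            uS * 6000000000000000000 ≤ W.l.Sl ∧
            S (τ (ll k).succ) ≤ us * S (τ 0) + uS * S (τ (ll k).succ) := by
          rcases hv with hv | hv
          · unfold ovk at hv
            simp only [Bool.and_eq_true] at hv
            obtain ⟨us, uS, q1, q2, q3⟩ := ndk_iff hv.1.1.1.1.2 s0 sl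
            exact ⟨us, uS, q1, q2, by have := low _ sl; linarith⟩
          · unfold mvk at hv
            simp only [Bool.and_eq_true, Nat.ble_eq] at hv
            have h5 := (Nat.cast_le (α := ℝ)).2 hv.1.1.1.1.1.1.2
            push_cast at h5
            exact ⟨0, 1, by simp, by linarith, by linarith⟩
        obtain ⟨us, uS, q1, q2, q3⟩ := q
        have := ev_ge W.l Nr (cs := us) (ck := 0) (cj := 0) (cl := uS) (ct := 0) (cp := 0) q1
          (by simp) (by simp) q2 (by simp) (by simp)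
        unfold stc at this ⊢
        dsimp only at this
        linarith
      have b1 := mul_le_mul_of_nonneg_right k2 z0
      have b2 := mul_le_mul_of_nonneg_right k3 x0
      have b3 := mul_le_mul_of_nonneg_right k4 y0
      rw [hs, mul_zero] at g0
      rw [hs]
      linarith
    -- the main case
    have hgr := gram_of_dist h'.ha
    have hb : 1 ≤ b3 (fun i => a (τ i)) x 0 + b3 (fun i => a (τ i)) x 1
        + b3 (fun i => a (τ i)) x 2 := by
      have hQ' : Qv (fun i => a (τ i)) 0 x = S (τ 0) := hQ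
      exact Helper41.VMaj.b3_ge hgr (h'.hp x hx) (by rw [hQ']; exact s0)
    have hbal : ∀ k, zc (fun i => a (τ i)) N x k + LN N (zc (fun i => a (τ i)) N x) k =
        b3 (fun i => a (τ i)) x k := fun k => by
      unfold zc
      exact mu_bal hN hd hc hcol _ k
    have n2 := alP_cls hN hd hc hcol z1 z2 hbal htS (j := jj k) (l := ll k)
      (qq_nonneg ax) (qq_nonneg ay) (slk_iff hg h01 hp hp0 hp1)
    have ev : ∀ m, vv t m = T3 t m := fun m => (T3_vv t m).symm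
    rw [ev, ev] at n2
    have hs3 := jl_sum k (fun m => pp (b3 (fun i => a (τ i)) x m))
    beta_reduce at hs3
    have hMB : ∀ p m, MB σ a l τ p m ≤ ρ p := fun p m => by
      unfold MB
      split_ifs with e
      · exact (hρ p).le
      · exact hMρ p m e
    have hMB2 : ∀ p, MB σ a l τ p 0 + MB σ a l τ p 1 + MB σ a l τ p 2 ≤ 2 * ρ p := by
      intro p
      have k0 := hMB p 0
      have k1 := hMB p 1
      have k2 := hMB p 2
      have kd := MB_diag (σ := σ) (a := a) (l := l) τ p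
      fin_cases p
      · simp only [Fin.zero_eta] at k0 k1 k2 kd ⊢
        linarith
      · simp only [Fin.mk_one] at k0 k1 k2 kd ⊢
        linarith
      · simp only [Fin.reduceFinMk] at k0 k1 k2 kd ⊢
        linarith
    have M0 : ∀ p m, 0 ≤ MB σ a l τ p m := fun p m => MB_nonneg τ p m
    have own : ∀ m : Fin 3, Rv tt N m ≤ qq e1 * min (S (τ 0)) (S (τ m.succ)) := by
      intro m
      rw [mul_min_of_nonneg _ _ (qq_nonneg _)]
      refine le_min (F.Re m) ((Rv_own h v hz τ hNd htt m).trans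
        (mul_le_mul_of_nonneg_right ?_ (v.nn _)))
      have := hcN m
      linarith
    have own0 : ∀ m : Fin 3, 0 ≤ qq e1 * min (S (τ 0)) (S (τ m.succ)) := fun m =>
      mul_nonneg (qq_nonneg _) (le_min s0 (v.nn _))
    have own1 : ∀ m : Fin 3, qq e1 * min (S (τ 0)) (S (τ m.succ)) ≤ qq e1 * S (τ 0) := fun m =>
      mul_le_mul_of_nonneg_left (min_le_left _ _) (qq_nonneg _)
    obtain ⟨P, hP⟩ : ∃ P, P = pp (b3 (fun i => a (τ i)) x (jj k))
      + pp (b3 (fun i => a (τ i)) x (ll k)) := ⟨_, rfl⟩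
    rw [← hP] at n2 hu
    have cx : 0 ≤ qq ax * T3 t (jj k) + qq ay * T3 t (ll k) :=
      add_nonneg (mul_nonneg (qq_nonneg _) x0) (mul_nonneg (qq_nonneg _) y0)
    rcases hv with hv | hv
    · -- own radii
      unfold ovk at hv
      simp only [Bool.and_eq_true, Nat.ble_eq] at hv
      obtain ⟨⟨⟨⟨⟨⟨c1, c2⟩, c3⟩, c4⟩, c5⟩, c6⟩, c7⟩ := hv
      have key := gm_r (x := x) h v hz τ hMρ hNd hA' hφ hβ hK hF z1 z2 l1 l2 ht
        (R := Rv tt N) (r := fun m => qq e1 * min (S (τ 0)) (S (τ m.succ)))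
        (E := fun p => aE σ a l (τ 0) (τ p.succ) - (fun _ => (0 : ℝ)) p) own own0
        (g := 2 * S (τ 0)) (by linarith) (fun p => by
          have h1 := F.E p
          have h2 := mul_le_mul_of_nonneg_left (hMB2 p) s0
          have m0 := mul_nonneg (M0 p 0) (own0 0)
          have m1 := mul_nonneg (M0 p 1) (own0 1)
          have m2 := mul_nonneg (M0 p 2) (own0 2)
          show aE σ a l (τ 0) (τ p.succ) - 0 - _ ≤ _
          linarith) k
      have n1 := num_O (b := b3 (fun i => a (τ i)) x)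
        (r := fun m => qq e1 * min (S (τ 0)) (S (τ m.succ))) s0 e1' own0 own1 hb
      obtain ⟨B, hB⟩ : ∃ B, B = pp (b3 (fun i => a (τ i)) x 0)
        + pp (b3 (fun i => a (τ i)) x 1) + pp (b3 (fun i => a (τ i)) x 2) := ⟨_, rfl⟩
      rw [← hB] at n1 hs3
      have hBP : B ≤ 2 * P := by
        rw [hP]
        linarith
      have m1 := mul_le_mul_of_nonneg_left n1 al0
      have m2 := mul_le_mul_of_nonneg_left (mul_le_mul_of_nonneg_left hBP es) al0
      have m3 := mul_le_mul_of_nonneg_left n2 es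
      obtain ⟨D, hD⟩ : ∃ D, D = alP N ζp t * (S (τ 0) - (b3 (fun i => a (τ i)) x 0
        * (fun m : Fin 3 => qq e1 * min (S (τ 0)) (S (τ m.succ))) 0
        + b3 (fun i => a (τ i)) x 1 * (fun m : Fin 3 => qq e1 * min (S (τ 0)) (S (τ m.succ))) 1
        + b3 (fun i => a (τ i)) x 2
          * (fun m : Fin 3 => qq e1 * min (S (τ 0)) (S (τ m.succ))) 2)) := ⟨_, rfl⟩
      rw [← hD] at key m1
      have m4 : D ≤ S (τ 0) * (2 * qq e1 * (qq ax * T3 t (jj k) + qq ay * T3 t (ll k))) := by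
        linarith
      have m5 := mul_le_mul_of_nonneg_left m4 l1
      have m6 := mul_le_mul_of_nonneg_right hlr (show 0 ≤ 2 * qq e1 * (qq ax * T3 t (jj k)
        + qq ay * T3 t (ll k)) from mul_nonneg (mul_nonneg (by norm_num) (qq_nonneg _)) cx)
      have m7 := mul_le_mul_of_nonneg_right hce (add_nonneg x0 y0)
      obtain ⟨us, uS, q1, q2, q3⟩ := ndk_iff c1 s0 sk
      obtain ⟨vs, vS, q4, q5, q6⟩ := ndk_iff c2 s0 sj
      obtain ⟨ws, wS, q7, q8, q9⟩ := ndk_iff c3 s0 sl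
      have tq : ∀ (u w : ℕ), 12 * e1 * u * lr ≤ w →
          2 * qq e1 * qq u * qq lr * 6000000000000000000 ≤ w := fun u w hw => by
        have h3 := (Nat.cast_le (α := ℝ)).2 hw
        push_cast at h3
        unfold qq
        linarith
      have pq : ∀ w : ℕ, 6000000000000 * ce ≤ w →
          qq ce * 6000000000000000000 ≤ w := fun w hw => by
        have h3 := (Nat.cast_le (α := ℝ)).2 hw
        push_cast at h3
        unfold qq
        linarith
      have E1 := ev_ge W.k Nr (cs := us) (ck := uS) (cj := 0) (cl := 0) (ct := 0) (cp := 0) q1 q2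
        (by simp) (by simp) (by simp) (by simp)
      have E2 := ev_ge W.j Nr (cs := vs) (ck := 0) (cj := vS) (cl := 0)
        (ct := 2 * qq e1 * qq ax * qq lr) (cp := qq ce) q4 (by simp) q5 (by simp) (tq _ _ c4)
        (pq _ c6)
      have E3' := ev_ge W.l Nr (cs := ws) (ck := 0) (cj := 0) (cl := wS)
        (ct := 2 * qq e1 * qq ay * qq lr) (cp := qq ce) q7 (by simp) (by simp) q8 (tq _ _ c5)
        (pq _ c7)
      have f1 : S (τ k.succ) + qq e1 * min (S (τ 0)) (S (τ k.succ)) ≤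
          W.k.ev (stc S τ N k b te pe) := by
        unfold stc at E1 ⊢
        dsimp only at E1
        linarith
      have f2 : S (τ (jj k).succ) + qq e1 * min (S (τ 0)) (S (τ (jj k).succ))
          + 2 * qq e1 * qq ax * (qq lr * te) + qq ce * pe ≤ W.j.ev (stc S τ N k b te pe) := by
        unfold stc at E2 ⊢
        dsimp only at E2
        linarith
      have f3 : S (τ (ll k).succ) + qq e1 * min (S (τ 0)) (S (τ (ll k).succ))
          + 2 * qq e1 * qq ay * (qq lr * te) + qq ce * pe ≤ W.l.ev (stc S τ N k b te pe) := by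
        unfold stc at E3' ⊢
        dsimp only at E3'
        linarith
      have b1 := mul_le_mul_of_nonneg_right f1 z0
      have b2 := mul_le_mul_of_nonneg_right f2 x0
      have b3 := mul_le_mul_of_nonneg_right f3 y0
      beta_reduce at key
      linarith
    · -- own radius at the corner, full radii at the two others
      unfold mvk at hv
      simp only [Bool.and_eq_true, Nat.ble_eq] at hv
      obtain ⟨⟨⟨⟨⟨⟨⟨⟨c1, c2⟩, c3⟩, c4⟩, c5⟩, c6⟩, c7⟩, c8⟩, c9⟩ := hv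
      obtain ⟨r, hr⟩ : ∃ r : Fin 3 → ℝ, ∀ m, r m = if m = k then
        qq e1 * min (S (τ 0)) (S (τ m.succ)) else qq e1 * S (τ 0) := ⟨_, fun _ => rfl⟩
      obtain ⟨j1, j2, j3⟩ := jl_ne k
      have rk : r k = qq e1 * min (S (τ 0)) (S (τ k.succ)) := by rw [hr, if_pos rfl]
      have rj : r (jj k) = qq e1 * S (τ 0) := by rw [hr, if_neg j1.symm]
      have rl : r (ll k) = qq e1 * S (τ 0) := by rw [hr, if_neg j2.symm]
      have r0 : ∀ m, 0 ≤ r m := fun m => by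
        rw [hr]
        split_ifs
        · exact own0 m
        · exact es
      have r1 : ∀ m, Rv tt N m ≤ r m := fun m => by
        rw [hr]
        split_ifs
        · exact own m
        · exact F.Re m
      have key := gm_r (x := x) h v hz τ hMρ hNd hA' hφ hβ hK hF z1 z2 l1 l2 ht
        (R := Rv tt N) (r := r)
        (E := fun p => aE σ a l (τ 0) (τ p.succ) - (fun _ => (0 : ℝ)) p) r1 r0
        (g := S (τ 0)) s0 (fun p => by
          have h1 := F.E p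
          have h2 := jl_sum k (fun m => MB σ a l τ p m * r m)
          have h3 := jl_sum k (fun m => MB σ a l τ p m)
          beta_reduce at h2 h3
          rw [rj, rl] at h2
          rw [← h3] at h1
          have h4 := mul_le_mul_of_nonneg_left hss (M0 p (jj k))
          have h5 := mul_le_mul_of_nonneg_left hss (M0 p (ll k))
          have h6 := mul_nonneg (M0 p k) (r0 k)
          have h7 := mul_le_mul_of_nonneg_left (hMB p k) s0
          show aE σ a l (τ 0) (τ p.succ) - 0 - _ ≤ _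
          linarith) k
      have hbk := jl_sum k (fun m => b3 (fun i => a (τ i)) x m)
      have hbr := jl_sum k (fun m => b3 (fun i => a (τ i)) x m * r m)
      beta_reduce at hbk hbr
      have n1 := num_M (u := b3 (fun i => a (τ i)) x k) (v := b3 (fun i => a (τ i)) x (jj k))
        (w := b3 (fun i => a (τ i)) x (ll k)) s0 e1' (r0 k) (by
          rw [rk]
          exact own1 k) (by linarith)
      rw [rj, rl] at hbr
      rw [hbr] at n1
      have m1 := mul_le_mul_of_nonneg_left n1 al0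
      have m2 := mul_le_mul_of_nonneg_left (mul_le_mul_of_nonneg_left hu es) al0
      have m3 := mul_le_mul_of_nonneg_left n2 es
      obtain ⟨D, hD⟩ : ∃ D, D = alP N ζp t * (S (τ 0) - (b3 (fun i => a (τ i)) x 0 * r 0
        + b3 (fun i => a (τ i)) x 1 * r 1 + b3 (fun i => a (τ i)) x 2 * r 2)) := ⟨_, rfl⟩
      rw [← hD] at key m1
      have m4 : D ≤ S (τ 0) * (qq e1 * (qq ax * T3 t (jj k) + qq ay * T3 t (ll k))) := by
        linarith
      have m5 := mul_le_mul_of_nonneg_left m4 l1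
      have m6 := mul_le_mul_of_nonneg_right hlr (show 0 ≤ qq e1 * (qq ax * T3 t (jj k)
        + qq ay * T3 t (ll k)) from mul_nonneg (qq_nonneg _) cx)
      have m7 := mul_le_mul_of_nonneg_right hce (add_nonneg x0 y0)
      obtain ⟨us, uS, q1, q2, q3⟩ := ndk_iff c1 s0 sk
      have sq : ∀ w : ℕ, 6000000000000000000 ≤ w →
          (1 : ℝ) * 6000000000000000000 ≤ w := fun w hw => by
        have h3 := (Nat.cast_le (α := ℝ)).2 hw
        push_cast at h3
        linarith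
      have eq' : ∀ w : ℕ, 6000000000000 * e1 ≤ w →
          qq e1 * 6000000000000000000 ≤ w := fun w hw => by
        have h3 := (Nat.cast_le (α := ℝ)).2 hw
        push_cast at h3
        unfold qq
        linarith
      have tq : ∀ (u w : ℕ), 6 * e1 * u * lr ≤ w →
          qq e1 * qq u * qq lr * 6000000000000000000 ≤ w := fun u w hw => by
        have h3 := (Nat.cast_le (α := ℝ)).2 hw
        push_cast at h3
        unfold qq
        linarith
      have pq : ∀ w : ℕ, 3000000000000 * ce ≤ w →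
          qq ce / 2 * 6000000000000000000 ≤ w := fun w hw => by
        have h3 := (Nat.cast_le (α := ℝ)).2 hw
        push_cast at h3
        unfold qq
        linarith
      have E1 := ev_ge W.k Nr (cs := us) (ck := uS) (cj := 0) (cl := 0) (ct := 0) (cp := 0) q1 q2
        (by simp) (by simp) (by simp) (by simp)
      have E2 := ev_ge W.j Nr (cs := qq e1) (ck := 0) (cj := 1) (cl := 0)
        (ct := qq e1 * qq ax * qq lr) (cp := qq ce / 2) (eq' _ c4) (by simp) (sq _ c2) (by simp)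
        (tq _ _ c6) (pq _ c8)
      have E3' := ev_ge W.l Nr (cs := qq e1) (ck := 0) (cj := 0) (cl := 1)
        (ct := qq e1 * qq ay * qq lr) (cp := qq ce / 2) (eq' _ c5) (by simp) (by simp) (sq _ c3)
        (tq _ _ c7) (pq _ c9)
      have f1 : S (τ k.succ) + r k ≤ W.k.ev (stc S τ N k b te pe) := by
        rw [rk]
        unfold stc at E1 ⊢
        dsimp only at E1
        linarith
      have f2 : S (τ (jj k).succ) + r (jj k)
          + qq e1 * qq ax * (qq lr * te) + qq ce * pe / 2 ≤ W.j.ev (stc S τ N k b te pe) := by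
        rw [rj]
        unfold stc at E2 ⊢
        dsimp only at E2
        linarith
      have f3 : S (τ (ll k).succ) + r (ll k)
          + qq e1 * qq ay * (qq lr * te) + qq ce * pe / 2 ≤ W.l.ev (stc S τ N k b te pe) := by
        rw [rl]
        unfold stc at E3' ⊢
        dsimp only at E3'
        linarith
      have b1 := mul_le_mul_of_nonneg_right f1 z0
      have b2 := mul_le_mul_of_nonneg_right f2 x0
      have b3 := mul_le_mul_of_nonneg_right f3 y0
      linarith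

/-- **THE COST OF A FACE FROM THREE FAMILIES OF TABLES WITH A LOCALIZED APEX**, third columns 0 -/
theorem wcf_loc {ι : Type*} [Fintype ι] [IsFiniteMeasure σ] (h : CN K σ a c)
    (v : Viol K a S) (hz : CV a K z) (τ : Equiv.Perm (Fin 4)) (hl : Lok a l)
    (hδ : ∀ p, MA σ a l τ p p ≤ 0) {ρ β : Fin 3 → ℝ} (hρ : ∀ p, 0 < ρ p)
    (hMρ : ∀ p k, k ≠ p → MA σ a l τ p k ≤ ρ p)
    {x : E3} (hx : x ∈ K) (hxs : Qv a (τ 0) x = S (τ 0) ∨ S (τ 0) = 0)
    {N : Fin 3 → Fin 3 → ℝ} (hNd : N = NM (fun i => a (τ i)) (fun i j => z (τ i) (τ j)))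
    {tt : Fin 3 → ℝ} (htt : ∀ k, nc N k ≤ tt k)
    {A : ℕ} {A' : ℝ} (hA : (A : ℝ) / U = A') (hA' : 0 < A')
    {φ : ℝ} (hφ : 0 < φ) (hφ1 : φ ≤ 1) (hβ0 : ∀ p, 0 ≤ β p) (hβ1 : ∀ p, β p ≤ 1)
    (hK : ∀ p, β p * ρ p ≤ A' * Id (fun t => kap N (vv t) p))
    (hF : ∀ p, (1 - β p) * ρ p ≤ φ * (A' * Id (flP (PN N) p)))
    {cN : ℝ} (hcN : ∀ m, nc N m ≤ cN) (hcN1 : cN ≤ 1 / 2)
    {s χ ω : ℝ} (hS : ∀ i, S i ≤ s) (hχ0 : 0 ≤ χ) (hχ : 3 / 2 + 2 * s ≤ χ ^ 2)
    (hω0 : 0 ≤ ω) (hω : (1 - ω) * χ ≤ 1) {V : ℝ} (hV : ∀ k : Fin 3, S (τ k.succ) ≤ V)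
    {C : Fin 3 → CT ι} {loc : Fin 3 → Bool} {G : Fin 3 → List (ℕ × ℕ)} {c0 c1 hh e1 kl : ℕ}
    (hC : ∀ k, OkL (C k) (loc k) kl (G k) A c0 c1 hh e1)
    (he1 : 1 + cN / 2 ≤ qq e1) (hkl : 2 * qq e1 ≤ (1 - cN) * qq kl)
    (hloc : ∀ k, loc k = true → (∀ p, β p = 0) ∧ pp (b3 (fun i => a (τ i)) x k) ≤
      pp (b3 (fun i => a (τ i)) x (jj k)) + pp (b3 (fun i => a (τ i)) x (ll k)))
    {wt : Fin 3 → ι → ℝ} {μ : Fin 3 → ι → ℕ → ℝ} {b te pe : Fin 3 → ℝ}
    (hk : ∀ k, CN1 (C k) a S τ x N β φ ω cN V (wt k) (μ k) k (b k) (te k) (pe k))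
    {Sm d0 d1 : ℝ} (hI : IsC Sm d0 d1) (hSm : ∀ k, S k ≤ Sm) (hd1 : 0 ≤ d1)
    (hd3 : 3 * d1 * (1 + S (τ 0)) ≤ d0) (hc0 : (c0 : ℝ) / U ≤ d0) (hc1 : d1 ≤ (c1 : ℝ) / U)
    {X y M dj : ℝ} (hX : S (τ 0) + (S (τ 1) + S (τ 2) + S (τ 3)) ≤ X) (hX1 : X ≤ 1 / 10)
    (hh1 : (hh : ℝ) / U ≤ 1 / 100) (hj1 : 2 / 3 ≤ dj)
    (hj2 : 2 / 3 * cN + φ * (2 * ω + 2 / 3 * cN) ≤ dj) (hj3 : 2 * ω ≤ dj) (hj4 : dj ≤ 2)
    (hy : 0.2823 + A' * ((1 / 2 + dj) * (2 * ((hh : ℝ) / U)) + 1.134 * X) ≤ y)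
    (hM : 0 ≤ M) (hMh : 1 ≤ M ^ 2 * (1 - 2 * ((hh : ℝ) / U)) ^ 3)
    {cst : ℝ} (hcst : (√2)⁻¹ * ((∑ e, wt 0 e * ((C 0).Q e).W (μ 0 e))
      + (∑ e, wt 1 e * ((C 1).Q e).W (μ 1 e)) + (∑ e, wt 2 e * ((C 2).Q e).W (μ 2 e)))
      + 17 * ((hh : ℝ) / U) ^ 2 * M * y ≤ cst) :
    WCF A' σ a K l τ z S x N (Rv tt N) φ β (fun _ => 0) (fun _ => 0) cst := by
  have s0 := v.nn (τ 0)
  refine wcf_gen h v hz τ hl hδ hρ hMρ hx hxs hNd htt hA hA' hφ hφ1 hβ0 hβ1 hK hF hcN hcN1 hS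
    hχ0 hχ hω0 hω hV (C := C) (fun k => (hC k).g) hk ?_ ?_ hI hSm hd1 hd3 hc0 hc1 hX hX1 hh1 hj1
    hj2 hj3 hj4 hy hM hMh hcst
  · intro k ζp z1 z2 t ht _ _ L hL hz0
    exact hal_L h v hz τ hl hδ hx hxs hNd htt hcN hcN1 he1 hkl z1 z2 ht k (hC k).p01 (hC k).p1
      (hk k).p0 (hk k).p1 (fun hlc => (hloc k hlc).2) (hC k).drp hL hz0
  · intro k ζp z1 z2 lam l1 l2 t ht _ _ W hW
    have hlr : lam * S (τ 0) ≤ qq (C k).P.lr * te k :=
      (mul_le_mul_of_nonneg_right l2 s0).trans (hk k).nb.lr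
    exact hval_L h v hz τ hl hδ hρ hMρ hx hxs hNd htt hA' hφ hβ0 hβ1 hK hF hcN he1 z1 z2 l1 l2
      ht k (hC k).p01 (hC k).p1 (hk k).p0 (hk k).p1 (hloc k) (hC k).val (hk k).b0 (hk k).te0
      (hk k).pe0 hlr (hk k).nb.ce hW

end body

end Helper21.Loc
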