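import Pool.Agent.Helper21.MEI.Alp
import Pool.Agent.Helper73.MEI.Reg1
import Pool.Agent.Helper37.MEI.LossG

/-!
# Project MEI, all bodies: the first moment of the loss measure of an arc is balanced

The weighted transversal flux through an edge cell is small, so both coordinates of the second
point have almost the same weighted integral.
-/

set_option autoImplicit false

namespace Helper21.Mom

open Set MeasureTheory Filter Topology Metric
open Helper80.CW Helper22.Wedge Helper22.Sig Helper14.CW Helper14.MEI2 Helper93.MEI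
open Helper22.MEI (s t FD FD_pos E1 E2 E3 E2_of)
open Helper21.Sec
open Pool.Agent.Helper95.MEI.Cst (As AsE AxE AsE_eq AxE_eq AsE_meas AxE_meas cs sh sh_mp sh_emb
  cs_mp cs_emb vAs vAx v_hi)
open Pool.Agent.Helper95.MEI.Fub (Zp int_cont co_e Zp_meas)
open Pool.Agent.Helper73.MEI
open scoped RealInnerProductSpace ContDiff Real

/-! ### the weight -/

/-- the weight in coordinates -/
noncomputable def om (η : ℝ) (q : ℝ × ℝ × ℝ) : ℝ := (1 / 2 + η * (7 / 16) * q.1) / (4 * FD q)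

/-- its transversal derivative -/
noncomputable def omy (η : ℝ) (q : ℝ × ℝ × ℝ) : ℝ :=
  -((1 / 2 + η * (7 / 16) * q.1) * q.2.1 / (2 * FD q ^ 2))

theorem om_cd (η : ℝ) {n : WithTop ℕ∞} : ContDiff ℝ n (om η) := by
  have h := Helper37.MEI.FD_cdn (n := n)
  unfold om
  exact ContDiff.div (by fun_prop) (contDiff_const.mul h) fun q => by
    have := FD_pos q
    positivity

theorem omy_cont (η : ℝ) : Continuous (omy η) := by
  have h := (Helper37.MEI.FD_cdn (n := 0)).continuous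
  unfold omy
  refine Continuous.neg (Continuous.div (by fun_prop) (by fun_prop) fun q => ?_)
  have := FD_pos q
  positivity

theorem E2_om (η : ℝ) (q : ℝ × ℝ × ℝ) : E2 (om η) q = omy η q := by
  refine E2_of (om_cd η) ?_
  have hD := FD_pos q
  have h1 : HasDerivAt (fun a : ℝ => 4 * FD (q.1, a, q.2.2)) (4 * (2 * q.2.1)) q.2.1 := by
    have h2 := (((hasDerivAt_pow 2 q.2.1).add_const ((q.2.2 - t) ^ 2)).const_add
      (1 / 4 + q.1 ^ 2 / 8)).const_mul 4
    have h3 : 4 * (((2 : ℕ) : ℝ) * q.2.1 ^ (2 - 1)) = 4 * (2 * q.2.1) := by norm_num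
    rw [h3] at h2
    exact h2
  have h2 := (hasDerivAt_const q.2.1 (1 / 2 + η * (7 / 16) * q.1)).div h1
    (by have : FD (q.1, q.2.1, q.2.2) = FD q := rfl
        rw [this]; positivity)
  have h4 : (0 * (4 * FD (q.1, q.2.1, q.2.2)) - (1 / 2 + η * (7 / 16) * q.1) * (4 * (2 * q.2.1))) /
      (4 * FD (q.1, q.2.1, q.2.2)) ^ 2 = omy η q := by
    have h3 : FD (q.1, q.2.1, q.2.2) = FD q := rfl
    unfold omy
    rw [h3]
    field_simp
    ring
  rw [h4] at h2
  exact h2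

variable (b : OrthonormalBasis (Fin 3) ℝ E3) (c : E3)

theorem co_cdn {n : WithTop ℕ∞} : ContDiff ℝ n (co b c) := by
  have hip : ∀ u : E3, ContDiff ℝ n (fun y : E3 => ⟪u, y - c⟫) := fun u =>
    (innerSL ℝ u).contDiff.comp (contDiff_id.sub contDiff_const)
  exact (hip (b 0)).prodMk ((hip (b 1)).prodMk (hip (b 2)))

theorem fd_om (η : ℝ) (x : E3) : fderiv ℝ (fun y => om η (co b c y)) x (b 1) =
    omy η (co b c x) := by
  obtain ⟨⟨i00, i01, i02⟩, ⟨i10, i11, i12⟩, ⟨i20, i21, i22⟩⟩ := ibv b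
  rw [fd_co b c (om_cd η), i01, i11, i21]
  exact E2_om η _

/-- the weight in wall coordinates; the same function for both walls -/
noncomputable def omh (η : ℝ) (p : (ℝ × ℝ) × ℝ) : ℝ :=
  (1 / 2 + η * (7 / 16) * p.1.1) /
    (4 * (1 / 4 + p.1.1 ^ 2 / 8 + ((√2 / 2 * p.1.2 - p.2) ^ 2 + p.1.2 ^ 2)))

theorem omh_cont (η : ℝ) : Continuous (omh η) := by
  unfold omh
  refine Continuous.div (by fun_prop) (by fun_prop) fun q => ?_
  positivity

theorem om_omh (η : ℝ) {ε : ℝ} (hε : ε = 1 ∨ ε = -1) (x : E3) :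
    om η (co b c x) = omh η (Tw b c ε x) := by
  unfold om omh Tw FD t
  simp only
  have e : (√2 / 2 * ((co b c x).2.2 - √2 / 4) -
      (√2 / 2 * ((co b c x).2.2 - √2 / 4) - ε * (co b c x).2.1)) ^ 2 = (co b c x).2.1 ^ 2 := by
    rcases hε with h | h <;> rw [h] <;> ring
  rw [e]

theorem omh_bd {η : ℝ} (hη : |η| ≤ 1) {p : (ℝ × ℝ) × ℝ} (hX : |p.1.1| ≤ 1 / 2) :
    0 ≤ omh η p ∧ omh η p ≤ 0.64 := by
  have h1 : |η * p.1.1| ≤ |p.1.1| := by
    rw [abs_mul]; exact mul_le_of_le_one_left (abs_nonneg _) hη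
  obtain ⟨h2, h3⟩ := abs_le.1 h1
  have hq : 0 ≤ (√2 / 2 * p.1.2 - p.2) ^ 2 + p.1.2 ^ 2 := by positivity
  have h0 := abs_nonneg p.1.1
  have hs := sq_abs p.1.1
  unfold omh
  constructor
  · apply div_nonneg _ (by positivity)
    linarith
  · rw [div_le_iff₀ (by positivity)]
    nlinarith

/-! ### the limit of the weighted wall integrals -/

/-- weighted wall integral -/
noncomputable def Jw (η : ℝ) (K : Set E3) (ε : ℝ) (m : ℕ) : ℝ :=
  ∫ p in Tw b c ε '' K, omh η p * jk (m + 1) p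

/-- **the weighted transversal flux** through the cell -/
theorem fluxw_lim {σ : Measure (E3 × E3)} [IsFiniteMeasure σ] {K : Set E3} (hK : IsCompact K)
    (hσ : ∀ᵐ z ∂σ, z.1 ∈ K ∧ z.2 ∈ K)
    (hU : ∀ G : E3 → E3, ContDiff ℝ ∞ G → ∫ z, ⟪G z.1, z.1 - z.2⟫ ∂σ = ∫ x in K, dvg G x)
    (η : ℝ) :
    Tendsto (fun m : ℕ => Jw b c η K (-1) m - Jw b c η K 1 m) atTop
      (𝓝 ((∫ z in {z | z.1 ∈ Cel (nuw b) (cw b c)}, om η (co b c z.1) * ⟪b 1, z.1 - z.2⟫ ∂σ) -
        ∫ x in K ∩ Cel (nuw b) (cw b c), omy η (co b c x))) := by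
  classical
  have hCo := Cel_open (nuw b) (cw b c)
  have hKm : MeasurableSet K := hK.isClosed.measurableSet
  have hcc := (co_cd b c).continuous
  have hoc : Continuous (fun x => om η (co b c x)) := ((om_cd η (n := 0)).continuous).comp hcc
  have hyc : Continuous (fun x => omy η (co b c x)) := (omy_cont η).comp hcc
  have hc1 : Continuous (fun z : E3 × E3 => om η (co b c z.1) * ⟪b 1, z.1 - z.2⟫) :=
    (hoc.comp continuous_fst).mul (by fun_prop)
  obtain ⟨B1, hB1⟩ := (hK.prod hK).bddAbove_image (hc1.abs).continuousOn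
  obtain ⟨B2, hB2⟩ := hK.bddAbove_image (hyc.abs).continuousOn
  have hb1 : ∀ᵐ z ∂σ, |om η (co b c z.1) * ⟪b 1, z.1 - z.2⟫| ≤ B1 := by
    filter_upwards [hσ] with z hz
    exact hB1 ⟨z, ⟨hz.1, hz.2⟩, rfl⟩
  have hom : ContDiff ℝ ∞ (fun x => om η (co b c x)) := (om_cd η).comp (co_cdn b c)
  obtain ⟨_, n0, n1⟩ := nuw_b b 0
  -- the identity with the cut-off
  have hid : ∀ m : ℕ, (∫ z, Wf (nuw b) (cw b c) m z.1 *
      (om η (co b c z.1) * ⟪b 1, z.1 - z.2⟫) ∂σ) -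
      (∫ x in K, Wf (nuw b) (cw b c) m x * omy η (co b c x))
      = Jw b c η K (-1) m - Jw b c η K 1 m := by
    intro m
    have hWc : Continuous (Wf (nuw b) (cw b c) m) :=
      (Wf_cd (nuw b) (cw b c) m (n := 1)).continuous
    have h1 := hU (fun y => Wf (nuw b) (cw b c) m y • (om η (co b c y) • b 1))
      ((Wf_cd (nuw b) (cw b c) m).smul (hom.smul contDiff_const))
    have h2 : ∀ z : E3 × E3, ⟪Wf (nuw b) (cw b c) m z.1 • (om η (co b c z.1) • b 1), z.1 - z.2⟫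
        = Wf (nuw b) (cw b c) m z.1 * (om η (co b c z.1) * ⟪b 1, z.1 - z.2⟫) := fun z => by
      rw [real_inner_smul_left, real_inner_smul_left]
    simp only [h2] at h1
    rw [h1]
    have h3 : ∀ x : E3, dvg (fun y => Wf (nuw b) (cw b c) m y • (om η (co b c y) • b 1)) x =
        Wf (nuw b) (cw b c) m x * omy η (co b c x) + (omh η (Tw b c (-1) x) *
          jk (m + 1) (Tw b c (-1) x) - omh η (Tw b c 1 x) * jk (m + 1) (Tw b c 1 x)) := by
      intro x
      have hd : DifferentiableAt ℝ (fun y => om η (co b c y)) x :=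
        (hom.differentiable (by simp)) x
      have h4 := dvg_smul (W := Wf (nuw b) (cw b c) m) (G := fun y => om η (co b c y) • b 1)
        (x := x) ((Wf_cd (nuw b) (cw b c) m (n := 1)).differentiable one_ne_zero x)
        (hd.smul_const (b 1))
      have h4' := dvg_smul (W := fun y => om η (co b c y)) (G := fun _ : E3 => b 1)
        (x := x) hd (differentiableAt_const (b 1))
      have h5 : dvg (fun _ : E3 => b 1) x = 0 := by
        unfold dvg
        rw [fderiv_fun_const]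
        simp
      rw [h5, mul_zero, zero_add, fd_om] at h4'
      rw [h4, h4', Wf_dir, real_inner_smul_right, real_inner_smul_right, n0, n1,
        ← om_omh b c η (Or.inl rfl) x, ← om_omh b c η (Or.inr rfl) x]
      ring
    have h6 : (fun x : E3 => dvg (fun y => Wf (nuw b) (cw b c) m y • (om η (co b c y) • b 1)) x) =
        fun x => Wf (nuw b) (cw b c) m x * omy η (co b c x) + (omh η (Tw b c (-1) x) *
          jk (m + 1) (Tw b c (-1) x) - omh η (Tw b c 1 x) * jk (m + 1) (Tw b c 1 x)) := funext h3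
    rw [h6]
    have hi0 : IntegrableOn (fun x => Wf (nuw b) (cw b c) m x * omy η (co b c x)) K :=
      (hWc.mul hyc).continuousOn.integrableOn_compact hK
    have hi : ∀ ε : ℝ, IntegrableOn (fun x => omh η (Tw b c ε x) * jk (m + 1) (Tw b c ε x)) K := by
      intro ε
      refine ContinuousOn.integrableOn_compact hK (Continuous.continuousOn ?_)
      exact ((omh_cont η).comp (Tw_cont b c ε)).mul ((jk_cont _).comp (Tw_cont b c ε))
    have hadd := integral_add (μ := volume.restrict K)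
      (f := fun x => Wf (nuw b) (cw b c) m x * omy η (co b c x))
      (g := fun x => omh η (Tw b c (-1) x) * jk (m + 1) (Tw b c (-1) x) -
        omh η (Tw b c 1 x) * jk (m + 1) (Tw b c 1 x)) hi0 ((hi _).sub (hi _))
    have hsub := integral_sub (μ := volume.restrict K)
      (f := fun x => omh η (Tw b c (-1) x) * jk (m + 1) (Tw b c (-1) x))
      (g := fun x => omh η (Tw b c 1 x) * jk (m + 1) (Tw b c 1 x)) (hi _) (hi _)
    rw [hadd, hsub]
    unfold Jw
    rw [int_Tw b c (Or.inl rfl) K (fun p => omh η p * jk (m + 1) p),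
      int_Tw b c (Or.inr rfl) K (fun p => omh η p * jk (m + 1) p)]
    ring
  -- limit of the left side
  have hl1 : Tendsto (fun m : ℕ => ∫ z, Wf (nuw b) (cw b c) m z.1 *
      (om η (co b c z.1) * ⟪b 1, z.1 - z.2⟫) ∂σ) atTop
      (𝓝 (∫ z, (if z.1 ∈ Cel (nuw b) (cw b c) then 1 else 0) *
        (om η (co b c z.1) * ⟪b 1, z.1 - z.2⟫) ∂σ)) := by
    refine tendsto_integral_of_dominated_convergence (fun _ => B1) (fun m => ?_)
      (integrable_const _) (fun m => ?_) (Eventually.of_forall fun z => ?_)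
    · have h3 : Continuous (Wf (nuw b) (cw b c) m) :=
        (Wf_cd (nuw b) (cw b c) m (n := 1)).continuous
      exact ((h3.comp continuous_fst).mul hc1).aestronglyMeasurable
    · filter_upwards [hb1] with z hz
      rw [Real.norm_eq_abs, abs_mul, abs_of_nonneg (Wf_nonneg _ _ _ _)]
      exact (mul_le_of_le_one_left (abs_nonneg _) (Wf_le _ _ _ _)).trans hz
    · exact (Wf_lim (nuw b) (cw b c) z.1).mul_const _
  have e1 : ∫ z, (if z.1 ∈ Cel (nuw b) (cw b c) then (1 : ℝ) else 0) *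
      (om η (co b c z.1) * ⟪b 1, z.1 - z.2⟫) ∂σ
      = ∫ z in {z | z.1 ∈ Cel (nuw b) (cw b c)}, om η (co b c z.1) * ⟪b 1, z.1 - z.2⟫ ∂σ := by
    have hm : MeasurableSet {z : E3 × E3 | z.1 ∈ Cel (nuw b) (cw b c)} :=
      (hCo.preimage continuous_fst).measurableSet
    rw [← integral_indicator hm]
    refine integral_congr_ae (Eventually.of_forall fun z => ?_)
    by_cases h : z.1 ∈ Cel (nuw b) (cw b c)
    · rw [indicator_of_mem (show z ∈ {z : E3 × E3 | z.1 ∈ Cel (nuw b) (cw b c)} from h)]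
      simp only [if_pos h, one_mul]
    · rw [indicator_of_notMem (show z ∉ {z : E3 × E3 | z.1 ∈ Cel (nuw b) (cw b c)} from h)]
      simp only [if_neg h, zero_mul]
  rw [e1] at hl1
  -- limit of the volume part
  have hvK : volume K < ⊤ := hK.measure_lt_top
  have hl2 : Tendsto (fun m : ℕ => ∫ x in K, Wf (nuw b) (cw b c) m x * omy η (co b c x)) atTop
      (𝓝 (∫ x in K, (if x ∈ Cel (nuw b) (cw b c) then 1 else 0) * omy η (co b c x))) := by
    have : IsFiniteMeasure (volume.restrict K) := ⟨by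
      rw [Measure.restrict_apply_univ]; exact hvK⟩
    refine tendsto_integral_of_dominated_convergence (fun _ => B2) (fun m => ?_)
      (integrable_const _) (fun m => ?_) (Eventually.of_forall fun x => ?_)
    · have h3 : Continuous (Wf (nuw b) (cw b c) m) :=
        (Wf_cd (nuw b) (cw b c) m (n := 1)).continuous
      exact (h3.mul hyc).aestronglyMeasurable
    · filter_upwards [ae_restrict_mem hKm] with x hx
      rw [Real.norm_eq_abs, abs_mul, abs_of_nonneg (Wf_nonneg _ _ _ _)]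
      exact (mul_le_of_le_one_left (abs_nonneg _) (Wf_le _ _ _ _)).trans (hB2 ⟨x, hx, rfl⟩)
    · exact (Wf_lim (nuw b) (cw b c) x).mul_const _
  have e2 : ∫ x in K, (if x ∈ Cel (nuw b) (cw b c) then (1 : ℝ) else 0) * omy η (co b c x)
      = ∫ x in K ∩ Cel (nuw b) (cw b c), omy η (co b c x) := by
    rw [← setIntegral_indicator hCo.measurableSet]
    refine integral_congr_ae (Eventually.of_forall fun x => ?_)
    by_cases h : x ∈ Cel (nuw b) (cw b c)
    · simp only [indicator_of_mem h, if_pos h, one_mul]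
    · simp only [indicator_of_notMem h, if_neg h, zero_mul]
  rw [e2] at hl2
  exact (hl1.sub hl2).congr hid

/-! ### the wall sections -/

variable {b c} in
/-- the lower region is in the sections by both walls -/
theorem low_mem {K : Set E3} {s1 s2 s3 s4 : ℝ} (h : Bod b c K s1 s2 s3 s4)
    {ε : ℝ} (hε : ε = 1 ∨ ε = -1) (m : ℕ) {r : ℝ × ℝ}
    (hr : r ∈ Wlow (0.5774 * (s1 + s2) + 2 / (m + 1)) (s1 - s2) (√2 / (m + 1))) {l : ℝ}
    (hl : l ∈ Ioo (0 : ℝ) (1 / (m + 1))) :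
    (r, l) ∈ Tw b c ε '' K ∧ 1 / ((m : ℝ) + 1) ≤ √2 * r.2 - l := by
  obtain ⟨hl0, hl1⟩ := hl
  obtain ⟨X, W⟩ := r
  have hM : (0 : ℝ) < m + 1 := by positivity
  have hM1 : (1 : ℝ) / (m + 1) ≤ 1 := by
    rw [div_le_one hM]
    have : (0 : ℝ) ≤ m := Nat.cast_nonneg m
    linarith
  have h2 := r2
  have h2p : (0 : ℝ) < √2 := by positivity
  unfold Wlow regionBetween at hr
  simp only [mem_ofPred_eq, mem_Ioo, mem_Ioc] at hr
  obtain ⟨⟨hXl, hXu⟩, hWl, hWu⟩ := hr
  have hX : |X| ≤ 1 / 2 := abs_le.2 ⟨hXl.le, hXu⟩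
  have hW0 : 0 < W := lt_trans (by positivity) hWl
  have hs1 := h.s1_nn
  have hs2 := h.s2_nn
  have he : 0 ≤ 0.5774 * (s1 + s2) + 2 / ((m : ℝ) + 1) + (s1 - s2) * X := by
    have h3 : 0 ≤ 2 / ((m : ℝ) + 1) := by positivity
    have h4 : 0 ≤ s1 * (0.5774 + X) := mul_nonneg hs1 (by linarith)
    have h5 : 0 ≤ s2 * (0.5774 - X) := mul_nonneg hs2 (by linarith)
    have h6 : s1 * (0.5774 + X) + s2 * (0.5774 - X) =
      0.5774 * (s1 + s2) + (s1 - s2) * X := by ring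
    linarith
  have hq := low_in hX hW0.le he hWu
  have hsqW : √2 * W > 2 / (m + 1) := by
    have h3 : √2 * (√2 / (m + 1)) < √2 * W := mul_lt_mul_of_pos_left hWl h2p
    have h4 : √2 * (√2 / ((m : ℝ) + 1)) = 2 / (m + 1) := by rw [← mul_div_assoc, h2]
    linarith
  have hMM : (2 : ℝ) / (m + 1) = 1 / (m + 1) + 1 / (m + 1) := by ring
  refine ⟨?_, by simp only; linarith⟩
  -- the point
  set y := √2 / 2 * W with hy
  have hy0 : 0 < y := by positivity
  have hyW : √2 * y = W := by rw [hy]; linear_combination W / 2 * h2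
  have hyy : y ^ 2 = W ^ 2 / 2 := by rw [← hyW]; linear_combination -(y ^ 2) / 2 * h2
  have hq' : X ^ 2 + W ^ 2 + y ^ 2 + 3 * y ≤
      1 / 4 - (0.5774 * (s1 + s2) + 2 / ((m : ℝ) + 1) + (s1 - s2) * X) := by
    have : qw X W = X ^ 2 + W ^ 2 + y ^ 2 + 3 * y := by
      unfold qw; rw [hyy, hy]; ring
    rw [← this]; exact hq
  have hysm : y ≤ 0.0774 := by
    have h3 : 3 * y ^ 2 + 3 * y ≤ 1 / 4 := by nlinarith [sq_nonneg X]
    by_contra hcon
    rw [not_le] at hcon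
    nlinarith
  obtain ⟨x, hx⟩ := co_surj b c (X, ε * (y - l), √2 / 4 + W)
  have hx1 : (co b c x).1 = X := by rw [hx]
  have hx2 : (co b c x).2.1 = ε * (y - l) := by rw [hx]
  have hx3 : (co b c x).2.2 = √2 / 4 + W := by rw [hx]
  have hεε : ε * ε = 1 := by rcases hε with h | h <;> rw [h] <;> norm_num
  have hεa : |ε| = 1 := by rcases hε with h | h <;> rw [h] <;> simp
  refine ⟨x, h.comp x fun q hq => ?_, ?_⟩
  · have hn := norm_co b c x q
    rw [hx1, hx2, hx3] at hn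
    set X' := (co b c q).1 with hX'
    set Y' := (co b c q).2.1 with hY'
    set W' := (co b c q).2.2 - √2 / 4 with hW'
    have hZ : √2 / 4 + W - (co b c q).2.2 = W - W' := by rw [hW']; ring
    rw [hZ] at hn
    have hq1 := h.Q1 q hq
    have hq2 := h.Q2 q hq
    have hYq := h.Y_le q hq
    rw [← hX', ← hY', ← hW'] at hq1 hq2
    rw [← hY'] at hYq
    have hεY : ε * Y' ≤ 1 / 2 := by
      have h5 := le_abs_self (ε * Y')
      rw [abs_mul, hεa, one_mul] at h5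
      linarith
    have hfin : (X - X') ^ 2 + (ε * (y - l) - Y') ^ 2 + (W - W') ^ 2 ≤ 1 := by
      have hq'' : X ^ 2 + W ^ 2 + y ^ 2 + 3 * y ≤
          1 / 4 - (0.5774 * (s1 + s2) + 2 * (1 / ((m : ℝ) + 1)) + (s1 - s2) * X) := by
        have : (2 : ℝ) * (1 / ((m : ℝ) + 1)) = 2 / (m + 1) := by ring
        rw [this]; exact hq'
      exact low_poly hyW hεε hεY hX hy0.le hysm hl0 hl1 hM1 hs1 hs2 hq1 hq2 hq''
    rw [dist_eq_norm]
    have : ‖x - q‖ ^ 2 ≤ 1 ^ 2 := by rw [hn, one_pow]; exact hfin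
    exact le_of_sq_le_sq this (by norm_num)
  · unfold Tw
    rw [hx1, hx2, hx3]
    have e1 : √2 / 4 + W - √2 / 4 = W := by ring
    rw [e1, ← hy]
    have e2 : y - ε * (ε * (y - l)) = l := by
      have : ε * (ε * (y - l)) = (ε * ε) * (y - l) := by ring
      rw [this, hεε]; ring
    rw [e2]

/-- comparison of two weighted integrals -/
theorem wdiff {A B : Set ((ℝ × ℝ) × ℝ)} (hA : IsCompact A) (hB : IsCompact B)
    {g j : (ℝ × ℝ) × ℝ → ℝ} (hg : Continuous g) (hj : Continuous j) {C : ℝ}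
    (hgA : ∀ p ∈ A, 0 ≤ g p) (hgB : ∀ p ∈ B, g p ≤ C * j p) :
    (∫ p in B, g p) - (∫ p in A, g p) ≤ C * ((∫ p in B, j p) - ∫ p in A ∩ B, j p) := by
  have iA := hg.continuousOn.integrableOn_compact hA (μ := volume)
  have iB := hg.continuousOn.integrableOn_compact hB (μ := volume)
  have jB := hj.continuousOn.integrableOn_compact hB (μ := volume)
  have h1 := integral_inter_add_sdiff (s := B) hA.measurableSet iB
  have h2 := integral_inter_add_sdiff (s := B) hA.measurableSet jB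
  have h3 : ∫ p in B ∩ A, g p ≤ ∫ p in A, g p := by
    refine setIntegral_mono_set iA ?_ inter_subset_right.eventuallyLE
    exact (ae_restrict_iff' hA.measurableSet).2 (ae_of_all _ fun p hp => hgA p hp)
  have h4 : ∫ p in B \ A, g p ≤ C * ∫ p in B \ A, j p := by
    rw [← integral_const_mul]
    exact setIntegral_mono_on (iB.mono_set sdiff_subset) ((jB.mono_set sdiff_subset).const_mul C)
      (hB.measurableSet.diff hA.measurableSet) fun p hp => hgB p hp.1
  have e : A ∩ B = B ∩ A := inter_comm _ _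
  rw [e]
  have h5 : ∫ p in B \ A, j p = (∫ p in B, j p) - ∫ p in B ∩ A, j p := by linarith
  rw [h5] at h4
  linarith

variable {b c} in
/-- both wall sections contain the lower region -/
theorem low_int {K : Set E3} {s1 s2 s3 s4 : ℝ} (hK : IsCompact K) (h : Bod b c K s1 s2 s3 s4)
    {ε : ℝ} (hε : ε = 1 ∨ ε = -1) (m : ℕ) :
    √2 / 2 * cz - √2 / 3 * (0.5774 * (s1 + s2) + 2 / (m + 1)) - √2 / (m + 1) ≤
      ∫ p in Tw b c ε '' K ∩ Tw b c (-ε) '' K, jk (m + 1) p := by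
  have hM : (0 : ℝ) < m + 1 := by positivity
  have hε' : -ε = 1 ∨ -ε = -1 := by
    rcases hε with h | h
    · right; rw [h]
    · left; rw [h]; norm_num
  refine (Wlow_area (0.5774 * (s1 + s2) + 2 / (m + 1)) (s1 - s2) (√2 / (m + 1))).trans
    (wall_lower hM ((hK.image (Tw_cont b c ε)).inter (hK.image (Tw_cont b c (-ε))))
      (Wlow_meas _ _ _) ?_)
  intro r hr l hl
  obtain ⟨h1, h2⟩ := low_mem h hε m hr hl
  obtain ⟨h3, _⟩ := low_mem h hε' m hr hl
  exact ⟨⟨h1, h3⟩, h2⟩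

variable {b c} in
/-- difference of the weighted wall integrals -/
theorem Jw_diff {K : Set E3} {s1 s2 s3 s4 s' : ℝ} (hK : IsCompact K)
    (h : Bod b c K s1 s2 s3 s4) (hs' : 0 ≤ s') {η : ℝ} (hη : |η| ≤ 1) {ε : ℝ}
    (hε : ε = 1 ∧ s4 ≤ s' ∨ ε = -1 ∧ s3 ≤ s') (m : ℕ) :
    Jw b c η K ε m - Jw b c η K (-ε) m ≤
      0.64 * (√2 / 3 * (0.5774 * (s1 + s2) + s' + 4 * (1 / ((m : ℝ) + 1)))
        + √2 * (1 / ((m : ℝ) + 1))) := by
  have hM : (0 : ℝ) < m + 1 := by positivity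
  have hε1 : ε = 1 ∨ ε = -1 := by
    rcases hε with h | h
    · exact Or.inl h.1
    · exact Or.inr h.1
  have h1 := Iw_upper hK h hs' hε m
  have h2 := low_int hK h hε1 m
  rw [inter_comm] at h2
  have hX : ∀ ε : ℝ, ∀ p ∈ Tw b c ε '' K, |p.1.1| ≤ 1 / 2 := by
    rintro ε p ⟨x, hx, rfl⟩
    exact h.X_le x hx
  have h3 := wdiff (C := 0.64) (hK.image (Tw_cont b c (-ε))) (hK.image (Tw_cont b c ε))
    (g := fun p => omh η p * jk (m + 1) p) (j := jk (m + 1))
    ((omh_cont η).mul (jk_cont _)) (jk_cont _)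
    (fun p hp => mul_nonneg (omh_bd hη (hX _ p hp)).1 (jk_nonneg hM p))
    (fun p hp => mul_le_mul_of_nonneg_right (omh_bd hη (hX _ p hp)).2 (jk_nonneg hM p))
  have e1 : (2 : ℝ) / (m + 1) = 2 * (1 / ((m : ℝ) + 1)) := by ring
  have e2 : √2 / ((m : ℝ) + 1) = √2 * (1 / ((m : ℝ) + 1)) := by ring
  rw [e1, e2] at h2
  rw [e1] at h1
  unfold Iw at h1
  refine h3.trans (mul_le_mul_of_nonneg_left ?_ (by norm_num))
  linarith

variable {b c} in
/-- **the weighted transversal flux** -/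
theorem fluxw {σ : Measure (E3 × E3)} [IsFiniteMeasure σ] {K : Set E3} (hK : IsCompact K)
    (hσ : ∀ᵐ z ∂σ, z.1 ∈ K ∧ z.2 ∈ K)
    (hU : ∀ G : E3 → E3, ContDiff ℝ ∞ G → ∫ z, ⟪G z.1, z.1 - z.2⟫ ∂σ = ∫ x in K, dvg G x)
    {s1 s2 s3 s4 : ℝ} (h : Bod b c K s1 s2 s3 s4) {η : ℝ} (hη : |η| ≤ 1) :
    |(∫ z in {z | z.1 ∈ EC b c}, om η (co b c z.1) * ⟪b 1, z.1 - z.2⟫ ∂σ) -
        ∫ x in K ∩ EC b c, omy η (co b c x)| ≤
      0.3018 * (0.5774 * (s1 + s2) + max s3 s4) := by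
  have hl := fluxw_lim b c hK hσ hU η
  rw [cel_eq] at hl
  have h1 := lim_inv
  have k1 := h.s1_nn
  have k2 := h.s2_nn
  have k3 := h.s3_nn
  have k4 := h.s4_nn
  have hs' : 0 ≤ max s3 s4 := le_max_of_le_left k3
  have hlim : Tendsto (fun m : ℕ => 0.64 * (√2 / 3 * (0.5774 * (s1 + s2) + max s3 s4
      + 4 * (1 / ((m : ℝ) + 1))) + √2 * (1 / ((m : ℝ) + 1)))) atTop
      (𝓝 (0.64 * (√2 / 3 * (0.5774 * (s1 + s2) + max s3 s4)))) := by
    have h7 := ((((h1.const_mul 4).const_add (0.5774 * (s1 + s2) + max s3 s4)).const_mul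
      (√2 / 3)).add (h1.const_mul √2)).const_mul 0.64
    simpa using h7
  have hle : 0.64 * (√2 / 3 * (0.5774 * (s1 + s2) + max s3 s4)) ≤
      0.3018 * (0.5774 * (s1 + s2) + max s3 s4) := by
    have s2q : √2 < 1.41422 := by
      rw [Real.sqrt_lt' (by norm_num)]; norm_num
    have h0 : 0 ≤ 0.5774 * (s1 + s2) + max s3 s4 := by positivity
    have h8 := mul_le_mul_of_nonneg_right s2q.le h0
    linarith
  rw [abs_le]
  constructor
  · have h5 : -(0.64 * (√2 / 3 * (0.5774 * (s1 + s2) + max s3 s4))) ≤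
        (∫ z in {z | z.1 ∈ EC b c}, om η (co b c z.1) * ⟪b 1, z.1 - z.2⟫ ∂σ) -
        ∫ x in K ∩ EC b c, omy η (co b c x) := by
      refine le_of_tendsto_of_tendsto' hlim.neg hl fun m => ?_
      have h6 := Jw_diff hK h hs' hη (ε := 1) (Or.inl ⟨rfl, le_max_right _ _⟩) m
      linarith
    linarith
  · have h5 : (∫ z in {z | z.1 ∈ EC b c}, om η (co b c z.1) * ⟪b 1, z.1 - z.2⟫ ∂σ) -
        ∫ x in K ∩ EC b c, omy η (co b c x) ≤
        0.64 * (√2 / 3 * (0.5774 * (s1 + s2) + max s3 s4)) := by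
      refine le_of_tendsto_of_tendsto' hl hlim fun m => ?_
      have h6 := Jw_diff hK h hs' hη (ε := -1) (Or.inr ⟨rfl, le_max_left _ _⟩) m
      rw [neg_neg] at h6
      linarith
    linarith

/-! ### the odd part -/

theorem int_omy (η : ℝ) : ∫ x in AsE b c, omy η (co b c x) = 0 := by
  have h := (co_mp b c).setIntegral_preimage_emb (co_emb b c) (omy η) Helper78.MEI.K4.Aq
  have e : AsE b c = co b c ⁻¹' Helper78.MEI.K4.Aq := rfl
  rw [e, h]
  have h2 := Helper78.MEI.K4.rf_mp.setIntegral_preimage_emb Helper78.MEI.K4.rf_emb (omy η)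
    Helper78.MEI.K4.Aq
  have e2 : Helper78.MEI.K4.rf ⁻¹' Helper78.MEI.K4.Aq = Helper78.MEI.K4.Aq := by
    ext q
    constructor
    · intro hq
      have h3 := Helper78.MEI.K4.Aq_rf (q := Helper78.MEI.K4.rf q) hq
      have h4 : Helper78.MEI.K4.rf (Helper78.MEI.K4.rf q) = q := by
        unfold Helper78.MEI.K4.rf
        simp
      rwa [h4] at h3
    · intro hq
      exact Helper78.MEI.K4.Aq_rf hq
  have e3 : ∀ q, omy η (Helper78.MEI.K4.rf q) = - omy η q := by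
    intro q
    unfold omy Helper78.MEI.K4.rf FD
    simp only [neg_sq]
    ring
  rw [e2] at h2
  simp only [e3] at h2
  rw [integral_neg] at h2
  linarith

theorem omy_bd {η : ℝ} (hη : |η| ≤ 1) {q : ℝ × ℝ × ℝ} (hX : |q.1| ≤ 1 / 2)
    (hY : 2 * q.2.1 ^ 2 ≤ (q.2.2 - t) ^ 2) : |omy η q| ≤ 0.54 := by
  have h1 : |η * q.1| ≤ |q.1| := by
    rw [abs_mul]; exact mul_le_of_le_one_left (abs_nonneg _) hη
  obtain ⟨h2, h3⟩ := abs_le.1 h1
  have hD := FD_pos q
  have hDe : FD q = 1 / 4 + q.1 ^ 2 / 8 + (q.2.1 ^ 2 + (q.2.2 - t) ^ 2) := rfl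
  unfold omy
  rw [abs_neg, abs_div, abs_mul, abs_of_pos (show 0 < 2 * FD q ^ 2 by positivity),
    div_le_iff₀ (by positivity)]
  have hn : |1 / 2 + η * (7 / 16) * q.1| ≤ 0.72 := by
    rw [abs_le]
    constructor <;> linarith
  have hy := abs_nonneg q.2.1
  have hy2 := sq_abs q.2.1
  set y := |q.2.1| with hyd
  have hD2 : 1 / 4 + 3 * y ^ 2 ≤ FD q := by
    rw [hDe, hy2]
    nlinarith [sq_nonneg q.1]
  have hD3 : (1 / 4 + 3 * y ^ 2) ^ 2 ≤ FD q ^ 2 := pow_le_pow_left₀ (by positivity) hD2 2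
  have hk : 2 / 3 * y ≤ (1 / 4 + 3 * y ^ 2) ^ 2 := by
    have h5 : (1 / 4 + 3 * y ^ 2) ^ 2 - 2 / 3 * y = (y - 1 / 6) ^ 2 * (9 * y ^ 2 + 3 * y + 9 / 4) := by
      ring
    have h6 : 0 ≤ (y - 1 / 6) ^ 2 * (9 * y ^ 2 + 3 * y + 9 / 4) := by positivity
    linarith
  have h7 : |1 / 2 + η * (7 / 16) * q.1| * y ≤ 0.72 * y := mul_le_mul_of_nonneg_right hn hy
  linarith

variable {b c} in
theorem omy_int {K : Set E3} (hK : IsCompact K) (hX : ∀ x ∈ K, |(co b c x).1| ≤ 1 / 2) {η : ℝ}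
    (hη : |η| ≤ 1) :
    |∫ x in K ∩ EC b c, omy η (co b c x)| ≤ 0.54 * (lE b c K + xiE b c K + beE b c K) := by
  have hKm : MeasurableSet K := hK.isClosed.measurableSet
  have hKf : volume K ≠ ⊤ := hK.measure_lt_top.ne
  have hc : Continuous fun x => omy η (co b c x) := (omy_cont η).comp (co_cd b c).continuous
  have iA : IntegrableOn (fun x => omy η (co b c x)) (AsE b c) :=
    (hc.continuousOn.integrableOn_compact (Helper21.Alp.AsE_bdd b c).isCompact_closure).mono_set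
      subset_closure
  have iK : IntegrableOn (fun x => omy η (co b c x)) K := hc.continuousOn.integrableOn_compact hK
  have iKE : IntegrableOn (fun x => omy η (co b c x)) (K ∩ EC b c) := iK.mono_set inter_subset_left
  have hcell : ∀ x ∈ EC b c, 2 * (co b c x).2.1 ^ 2 ≤ ((co b c x).2.2 - t) ^ 2 := by
    intro x hx
    have h3 : |(co b c x).2.1| < s * ((co b c x).2.2 - t) := hx
    have h4 : (co b c x).2.1 ^ 2 ≤ (s * ((co b c x).2.2 - t)) ^ 2 := by
      rw [← sq_abs]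
      exact pow_le_pow_left₀ (abs_nonneg _) h3.le 2
    have h5 : s ^ 2 = 1 / 2 := by
      have := r2
      unfold s
      nlinarith
    rw [mul_pow, h5] at h4
    linarith
  have hXA : ∀ x ∈ AsE b c, |(co b c x).1| ≤ 1 / 2 := by
    intro x hx
    rw [AsE_eq] at hx
    obtain ⟨h1, h2⟩ := hx
    have hw := Helper78.MEI.EC_w b c h1
    have e : cs b c x = ((co b c x).1, (co b c x).2.1, (co b c x).2.2 - t) := rfl
    simp only [mem_ofPred_eq] at h2
    rw [e] at h2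
    simp only at h2
    have h3 := abs_nonneg (co b c x).2.1
    have h4 : 0 ≤ √2 * ((co b c x).2.2 - t) := by positivity
    have h5 : (co b c x).1 ^ 2 ≤ (1 / 2) ^ 2 := by
      nlinarith [sq_nonneg (co b c x).2.1, sq_nonneg ((co b c x).2.2 - t)]
    exact abs_le_of_sq_le_sq h5 (by norm_num)
  have h1 := integral_inter_add_sdiff (AsE_meas b c) iKE
  have e1 : (K ∩ EC b c) ∩ AsE b c = AsE b c ∩ K := by
    ext x
    constructor
    · rintro ⟨⟨h1, h2⟩, h3⟩; exact ⟨h3, h1⟩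
    · rintro ⟨h3, h1⟩; exact ⟨⟨h1, AsE_sub_EC b c h3⟩, h3⟩
  have h2 := integral_inter_add_sdiff hKm iA
  rw [int_omy] at h2
  rw [e1] at h1
  have fd : volume ((K ∩ EC b c) \ AsE b c) ≠ ⊤ :=
    ne_top_of_le_ne_top hKf (measure_mono (sdiff_subset.trans inter_subset_left))
  have fA : volume (AsE b c \ K) ≠ ⊤ :=
    ne_top_of_le_ne_top (AsE_fin b c) (measure_mono sdiff_subset)
  have h3 : |∫ x in (K ∩ EC b c) \ AsE b c, omy η (co b c x)| ≤ 0.54 * beE b c K := by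
    have h4 := norm_setIntegral_le_of_norm_le_const (f := fun x => omy η (co b c x)) (C := 0.54)
      (lt_top_iff_ne_top.2 fd) (fun x hx => by
        rw [Real.norm_eq_abs]
        exact omy_bd hη (hX x hx.1.1) (hcell x hx.1.2))
    rw [Real.norm_eq_abs] at h4
    exact h4
  have h5 : |∫ x in AsE b c \ K, omy η (co b c x)| ≤ 0.54 * (lE b c K + xiE b c K) := by
    have h4 := norm_setIntegral_le_of_norm_le_const (f := fun x => omy η (co b c x)) (C := 0.54)
      (lt_top_iff_ne_top.2 fA) (fun x hx => by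
        rw [Real.norm_eq_abs]
        exact omy_bd hη (hXA x hx.1) (hcell x (AsE_sub_EC b c hx.1)))
    rw [Real.norm_eq_abs] at h4
    refine h4.trans (mul_le_mul_of_nonneg_left ?_ (by norm_num))
    have h6 : AsE b c \ K ⊆ ((AsE b c \ AxE b c) \ K) ∪ (AxE b c \ K) := by
      rintro x ⟨h7, h8⟩
      by_cases h9 : x ∈ AxE b c
      · exact Or.inr ⟨h9, h8⟩
      · exact Or.inl ⟨⟨h7, h9⟩, h8⟩
    unfold lE xiE
    refine (measureReal_mono h6 ?_).trans (measureReal_union_le _ _)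
    exact measure_union_ne_top
      (ne_top_of_le_ne_top (AsE_fin b c) (measure_mono (sdiff_subset.trans sdiff_subset)))
      (ne_top_of_le_ne_top (AxE_fin b c) (measure_mono sdiff_subset))
  obtain ⟨a1, a2⟩ := abs_le.1 h3
  obtain ⟨b1, b2⟩ := abs_le.1 h5
  rw [abs_le]
  constructor <;> linarith

/-! ### the edge cell -/

/-- bound of the transversal coordinate in the cell -/
noncomputable def Y0 (S : ℝ) : ℝ := √((1 + S) / 3) - 1 / 2

theorem Y0_le {y S : ℝ} (h : 3 * y ^ 2 + 3 * |y| ≤ 1 / 4 + S) : |y| ≤ Y0 S := by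
  unfold Y0
  have h1 : (|y| + 1 / 2) ^ 2 ≤ (1 + S) / 3 := by
    have := sq_abs y
    nlinarith
  have h2 := Real.le_sqrt_of_sq_le h1
  linarith

section main
variable {a : Fin 4 → E3} (ha : ∀ i j, i ≠ j → dist (a i) (a j) = 1)
  {K : Set E3} {σ : Measure (E3 × E3)} [IsFiniteMeasure σ] (h : PM K σ)
  (hcomp : ∀ p : E3, (∀ q ∈ K, dist p q ≤ 1) → p ∈ K)
  (hpl : ∀ x ∈ K, Pl a x) {b : OrthonormalBasis (Fin 3) ℝ E3} (hb : Fr a b)
  {S : Fin 4 → ℝ} (hQ : ∀ x ∈ K, ∀ i, Qv a i x ≤ S i) (hS0 : ∀ i, 0 ≤ S i)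

/-- sign of the vertex -/
def sg (i : Bool) : ℝ := if i then -1 else 1

theorem sg_abs (i : Bool) : |sg i| ≤ 1 := by
  cases i <;> simp [sg]

omit [IsFiniteMeasure σ] in
include ha hb in
theorem wt_om (i : Bool) (x : E3) : Helper37.MEI.wt a i x = om (sg i) (co b (cen a) x) := by
  obtain ⟨w0, w1⟩ := Helper37.MEI.wt_wD (gram_of_dist ha) hb x
  cases i
  · rw [w0]
    show _ = (1 / 2 + sg false * (7 / 16) * (co b (cen a) x).1) / (4 * FD (co b (cen a) x))
    have e : sg false = 1 := by simp [sg]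
    rw [e]
    rfl
  · rw [w1]
    show _ = (1 / 2 + sg true * (7 / 16) * (co b (cen a) x).1) / (4 * FD (co b (cen a) x))
    have e : sg true = -1 := by simp [sg]
    rw [e]
    rfl

include ha hQ in
omit [IsFiniteMeasure σ] in
theorem Yp_le {x : E3} (hx : x ∈ K) (hz : √2 * |eY a x| ≤ eW a x) {T : ℝ} (hT : ∀ i, S i ≤ T) :
    |eY a x| ≤ Y0 T := by
  have hG := gram_of_dist ha
  have h1 := edge_cell_ball hG ((hQ x hx 2).trans (hT 2)) ((hQ x hx 3).trans (hT 3))
  refine Y0_le ?_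
  have h2 := s2s
  have h3 := abs_nonneg (eY a x)
  have h4 := sq_abs (eY a x)
  have h5 : 0 ≤ √2 * |eY a x| := by positivity
  have h6 : (√2 * |eY a x|) ^ 2 ≤ eW a x ^ 2 := pow_le_pow_left₀ h5 hz 2
  have h7 : √2 * (√2 * |eY a x|) ≤ √2 * eW a x := mul_le_mul_of_nonneg_left hz (by positivity)
  have h8 : (√2 * |eY a x|) ^ 2 = 2 * |eY a x| ^ 2 := by
    rw [mul_pow, sq √2, h2]
  have h9 : √2 * (√2 * |eY a x|) = 2 * |eY a x| := by rw [← mul_assoc, h2]
  nlinarith [sq_nonneg (eX a x)]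

include ha h hcomp hpl hb hQ hS0 in
/-- **balance of the weighted transversal moment** -/
theorem mom_Y (i : Bool) {T : ℝ} (hT : ∀ i, S i ≤ T) :
    |∫ z in Zp a 2 3, Helper37.MEI.wt a i z.1 * eY a z.2 ∂σ| ≤
      Y0 T * (∫ z in Zp a 2 3, Helper37.MEI.wt a i z.1 ∂σ) +
        0.3018 * (0.5774 * (S 0 + S 1) + max (S 2) (S 3)) +
        0.54 * (lE b (cen a) K + xiE b (cen a) K + beE b (cen a) K) := by
  have hG := gram_of_dist ha
  have hB := Helper21.Alp.bod ha hcomp hpl hb hQ hS0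
  have h1 := fluxw h.cpt h.mem h.flux hB (sg_abs i)
  have h2 := omy_int h.cpt hB.X_le (sg_abs i)
  rw [← Helper21.Alp.Zp_eq ha hb] at h1
  have hwc := Helper37.MEI.wt_cont a i
  have hYc := Pool.Agent.Helper95.MEI.Fub.eY_cont a
  have i0 : Integrable (fun z : E3 × E3 => Helper37.MEI.wt a i z.1) σ :=
    int_cont h.cpt h.mem (hwc.comp continuous_fst)
  have i1 : Integrable (fun z : E3 × E3 => Helper37.MEI.wt a i z.1 * eY a z.2) σ :=
    int_cont h.cpt h.mem ((hwc.comp continuous_fst).mul (hYc.comp continuous_snd))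
  have i2 : Integrable (fun z : E3 × E3 => Helper37.MEI.wt a i z.1 * eY a z.1) σ :=
    int_cont h.cpt h.mem ((hwc.comp continuous_fst).mul (hYc.comp continuous_fst))
  have e1 : ∫ z in Zp a 2 3, om (sg i) (co b (cen a) z.1) * ⟪b 1, z.1 - z.2⟫ ∂σ =
      (∫ z in Zp a 2 3, Helper37.MEI.wt a i z.1 * eY a z.1 ∂σ) -
        ∫ z in Zp a 2 3, Helper37.MEI.wt a i z.1 * eY a z.2 ∂σ := by
    rw [← integral_sub i2.integrableOn i1.integrableOn]
    refine integral_congr_ae (Eventually.of_forall fun z => ?_)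
    simp only
    have f1 := (frame_e hG hb.1 hb.2.1 hb.2.2 z.1).2.1
    have f2 := (frame_e hG hb.1 hb.2.1 hb.2.2 z.2).2.1
    have f3 : ⟪b 1, z.1 - z.2⟫ = ⟪b 1, z.1 - cen a⟫ - ⟪b 1, z.2 - cen a⟫ := by
      rw [← inner_sub_right]; congr 1; abel
    rw [← wt_om ha hb i z.1, f3, f1, f2]
    ring
  rw [e1] at h1
  have h3 : |∫ z in Zp a 2 3, Helper37.MEI.wt a i z.1 * eY a z.1 ∂σ| ≤
      Y0 T * ∫ z in Zp a 2 3, Helper37.MEI.wt a i z.1 ∂σ := by
    rw [← integral_const_mul]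
    refine abs_integral_le_integral_abs.trans (integral_mono_ae i2.integrableOn.abs
      (i0.integrableOn.const_mul _) ?_)
    filter_upwards [ae_restrict_mem (Zp_meas a 2 3), ae_restrict_of_ae (s := Zp a 2 3) h.mem]
      with z hz hm
    have hw0 := Helper37.MEI.wt_nonneg hG i (hpl _ hm.1)
    have hcell := (edge_cell_iff' z.1).1 hz
    have h4 := Yp_le ha hQ hm.1 hcell.le hT
    rw [abs_mul, abs_of_nonneg hw0, mul_comm]
    exact mul_le_mul_of_nonneg_right h4 hw0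
  obtain ⟨a1, a2⟩ := abs_le.1 h1
  obtain ⟨b1, b2⟩ := abs_le.1 h2
  obtain ⟨c1, c2⟩ := abs_le.1 h3
  rw [abs_le]
  constructor <;> linarith

/-- pointwise bound of the two coordinates -/
theorem pp_bar_le (ha : ∀ i j, i ≠ j → dist (a i) (a j) = 1) {q : E3} (hq : Pl a q) {T : ℝ}
    (hT0 : 0 ≤ T) (hT : ∀ i, Qv a i q ≤ T) :
    pp (bar a 2 q) ≤ 1 / 2 * √(3 / 2 + 2 * T) + eY a q ∧
    pp (bar a 3 q) ≤ 1 / 2 * √(3 / 2 + 2 * T) - eY a q := by
  have hG := gram_of_dist ha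
  obtain ⟨_, _, hy⟩ := pl_e hG hq
  obtain ⟨y1, y2⟩ := abs_le.1 hy
  have h1 := Helper37.MEI.sum_pp_le hG hq hT0 hT 0
  rw [Fin.sum_univ_four] at h1
  simp only [if_true, Fin.reduceEq, if_false, zero_add] at h1
  have p1 := pp_nonneg (bar a 1 q)
  have p2 := le_pp (bar a 2 q)
  have p3 := le_pp (bar a 3 q)
  have hs : 1 < √(3 / 2 + 2 * T) := by
    rw [Real.lt_sqrt (by norm_num)]
    linarith
  have hsum : bar a 2 q + bar a 3 q ≤ √(3 / 2 + 2 * T) := by linarith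
  have hdef : eY a q = (bar a 2 q - bar a 3 q) / 2 := rfl
  constructor
  · unfold pp
    refine max_le ?_ ?_
    · rw [hdef]; linarith
    · linarith
  · unfold pp
    refine max_le ?_ ?_
    · rw [hdef]; linarith
    · linarith

include ha h hcomp hpl hb hQ hS0 in
/-- **first moment of the loss measure of an arc** -/
theorem mom (i : Bool) {T : ℝ} (hT : ∀ i, S i ≤ T) {k : Fin 4} (hk : k = 2 ∨ k = 3) :
    ∫ z in Zp a 2 3, Helper37.MEI.wt a i z.1 * pp (bar a k z.2) ∂σ ≤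
      (1 / 2 * √(3 / 2 + 2 * T) + Y0 T) * (∫ z in Zp a 2 3, Helper37.MEI.wt a i z.1 ∂σ) +
        0.3018 * (0.5774 * (S 0 + S 1) + max (S 2) (S 3)) +
        0.54 * (lE b (cen a) K + xiE b (cen a) K + beE b (cen a) K) := by
  have hG := gram_of_dist ha
  have h1 := mom_Y ha h hcomp hpl hb hQ hS0 i hT
  have hwc := Helper37.MEI.wt_cont a i
  have hYc := Pool.Agent.Helper95.MEI.Fub.eY_cont a
  have hpc := Pool.Agent.Helper95.MEI.Fub.pp_cont
  have hbc := Pool.Agent.Helper95.MEI.Fub.bar_cont a k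
  have hT0 : 0 ≤ T := (hS0 0).trans (hT 0)
  have i0 : Integrable (fun z : E3 × E3 => Helper37.MEI.wt a i z.1) σ :=
    int_cont h.cpt h.mem (hwc.comp continuous_fst)
  have i1 : Integrable (fun z : E3 × E3 => Helper37.MEI.wt a i z.1 * eY a z.2) σ :=
    int_cont h.cpt h.mem ((hwc.comp continuous_fst).mul (hYc.comp continuous_snd))
  have i3 : Integrable (fun z : E3 × E3 => Helper37.MEI.wt a i z.1 * pp (bar a k z.2)) σ :=
    int_cont h.cpt h.mem ((hwc.comp continuous_fst).mul (hpc.comp (hbc.comp continuous_snd)))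
  obtain ⟨c1, c2⟩ := abs_le.1 h1
  rcases hk with hk | hk
  · have h2 : ∫ z in Zp a 2 3, Helper37.MEI.wt a i z.1 * pp (bar a k z.2) ∂σ ≤
        ∫ z in Zp a 2 3, (1 / 2 * √(3 / 2 + 2 * T) * Helper37.MEI.wt a i z.1 +
          Helper37.MEI.wt a i z.1 * eY a z.2) ∂σ := by
      refine integral_mono_ae i3.integrableOn
        ((i0.integrableOn.const_mul _).add i1.integrableOn) ?_
      filter_upwards [ae_restrict_of_ae (s := Zp a 2 3) h.mem] with z hm
      have hw0 := Helper37.MEI.wt_nonneg hG i (hpl _ hm.1)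
      have h3 := (pp_bar_le ha (hpl _ hm.2) hT0 (fun j => (hQ _ hm.2 j).trans (hT j))).1
      have h4 := mul_le_mul_of_nonneg_left h3 hw0
      rw [hk]
      linarith
    rw [integral_add (i0.integrableOn.const_mul _) i1.integrableOn, integral_const_mul] at h2
    linarith
  · have h2 : ∫ z in Zp a 2 3, Helper37.MEI.wt a i z.1 * pp (bar a k z.2) ∂σ ≤
        ∫ z in Zp a 2 3, (1 / 2 * √(3 / 2 + 2 * T) * Helper37.MEI.wt a i z.1 -
          Helper37.MEI.wt a i z.1 * eY a z.2) ∂σ := by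
      refine integral_mono_ae i3.integrableOn
        ((i0.integrableOn.const_mul _).sub i1.integrableOn) ?_
      filter_upwards [ae_restrict_of_ae (s := Zp a 2 3) h.mem] with z hm
      have hw0 := Helper37.MEI.wt_nonneg hG i (hpl _ hm.1)
      have h3 := (pp_bar_le ha (hpl _ hm.2) hT0 (fun j => (hQ _ hm.2 j).trans (hT j))).2
      have h4 := mul_le_mul_of_nonneg_left h3 hw0
      rw [hk]
      linarith
    rw [integral_sub (i0.integrableOn.const_mul _) i1.integrableOn, integral_const_mul] at h2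
    linarith

end main

/-! ### all six edges, closed bound -/

/-- closed bound of the first moment -/
noncomputable def Mbar (T : ℝ) : ℝ :=
  (1 / 2 * √(3 / 2 + 2 * T) + Y0 T) *
    ((0.0642 + 18.4 * ((0.0393 + 0.2358 * T) * T)) / (1 - 4 * T)) +
    0.6504 * T + 0.54 * (0.000767 + 0.0726 * T + 2 * ((0.0393 + 0.2358 * T) * T))

section six
variable {a : Fin 4 → E3} {K : Set E3} {σ : Measure (E3 × E3)}

/-- **first moment of the loss measure**: both coordinates are at most `Mbar` -/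
theorem mom_all [IsFiniteMeasure σ] (h : PM K σ) (ha : ∀ i j, i ≠ j → dist (a i) (a j) = 1)
    (hull : ∀ p, (∀ q ∈ K, ‖p - q‖ ≤ 1) → p ∈ K) (hp : ∀ x ∈ K, Pl a x)
    {B : Fin 3 → Bool → OrthonormalBasis (Fin 3) ℝ E3}
    (hB : ∀ m e, Fr (fun i => a (pr m e i)) (B m e)) {S : Fin 4 → ℝ} (hS0 : ∀ i, 0 ≤ S i)
    (hQ : ∀ i, ∀ q ∈ K, Qv a i q ≤ S i) {T : ℝ} (hT : ∀ i, S i ≤ T) (hT1 : T ≤ 3 / 16)
    (m : Fin 3) (e i : Bool) {k : Fin 4} (hk : k = 2 ∨ k = 3) :
    ∫ z in Helper37.MEI.EE a m e, Helper37.MEI.wt (Helper37.MEI.ap a m e) i z.1 *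
      pp (bar a (pf m e k) z.2) ∂σ ≤ Mbar T := by
  have ha' := Helper37.MEI.hap ha m e
  have hb : Fr (Helper37.MEI.ap a m e) (B m e) := hB m e
  have hcomp : ∀ p : E3, (∀ q ∈ K, dist p q ≤ 1) → p ∈ K := fun p hpp =>
    hull p fun q hq => by rw [← dist_eq_norm]; exact hpp q hq
  have hp' : ∀ x ∈ K, Pl (Helper37.MEI.ap a m e) x := fun x hx => Pl_perm _ (hp x hx)
  have hc : cen (Helper37.MEI.ap a m e) = cen a := cen_perm _
  have hQ' : ∀ x ∈ K, ∀ j, Qv (Helper37.MEI.ap a m e) j x ≤ S (pf m e j) :=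
    fun x hx j => hQ (pf m e j) x hx
  have hS' : ∀ j, 0 ≤ S (pf m e j) := fun j => hS0 _
  have hT' : ∀ j, S (pf m e j) ≤ T := fun j => hT _
  have h1 := mom ha' h hcomp hp' hb hQ' hS' i hT' hk
  have hbk : ∀ x, bar (Helper37.MEI.ap a m e) k x = bar a (pf m e k) x := fun x =>
    bar_perm (pr m e) k x
  simp only [hbk] at h1
  rw [hc] at h1
  have h2 := Helper37.MEI.wt_mass ha h hp hB hS0 hQ m e i
  have h3 := lE_le (K := K) (b := B m e) (cen a)
  have h4 := Helper72.MEI.xiE_le ha hB hull hS0 hQ m e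
  have h5 := Helper72.MEI.beE_le ha hB hp hS0 hQ m e
  have h6 := v_hi
  have h7 := Pool.Agent.Helper95.MEI.Cst.fAs_bd.2
  have s0 := hS0 (pf m e 0)
  have s1 := hS0 (pf m e 1)
  have s2 := hS0 (pf m e 2)
  have s3 := hS0 (pf m e 3)
  have t0 := hT (pf m e 0)
  have t1 := hT (pf m e 1)
  have t2 := hT (pf m e 2)
  have t3 := hT (pf m e 3)
  have hT0 : 0 ≤ T := s0.trans t0
  set u0 := S (pf m e 0)
  set u1 := S (pf m e 1)
  set u2 := S (pf m e 2)
  set u3 := S (pf m e 3)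
  have hd : 1 - 4 * T ≤ 1 - 2 * (u0 + u1) - 1.54 * (u0 - u1) ^ 2 := by
    have h8 : (u0 - u1) ^ 2 ≤ T * (2 * T - u0 - u1) := by
      nlinarith [mul_nonneg s0 (sub_nonneg.2 t0), mul_nonneg s1 (sub_nonneg.2 t1),
        mul_nonneg s0 s1, mul_nonneg (sub_nonneg.2 t0) (sub_nonneg.2 t1)]
    nlinarith
  have hd0 : 0 < 1 - 4 * T := by linarith
  have hmass0 : 0 ≤ ∫ z in Helper37.MEI.EE a m e,
      Helper37.MEI.wt (Helper37.MEI.ap a m e) i z.1 ∂σ := by
    apply integral_nonneg_of_ae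
    filter_upwards [ae_restrict_of_ae h.mem] with z hz
    exact Helper37.MEI.wt_nonneg (gram_of_dist ha') i (hp' _ hz.1)
  have g2 : (0.0393 + 0.2358 * u2) * u2 ≤ (0.0393 + 0.2358 * T) * T :=
    mul_le_mul (by linarith) t2 s2 (by positivity)
  have g3 : (0.0393 + 0.2358 * u3) * u3 ≤ (0.0393 + 0.2358 * T) * T :=
    mul_le_mul (by linarith) t3 s3 (by positivity)
  have hmass : ∫ z in Helper37.MEI.EE a m e,
      Helper37.MEI.wt (Helper37.MEI.ap a m e) i z.1 ∂σ ≤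
      (0.0642 + 18.4 * ((0.0393 + 0.2358 * T) * T)) / (1 - 4 * T) := by
    rw [le_div_iff₀ hd0, mul_comm]
    have h9 := mul_le_mul_of_nonneg_right hd hmass0
    linarith
  have hY : 0 ≤ 1 / 2 * √(3 / 2 + 2 * T) + Y0 T := by
    unfold Y0
    have h10 : 1 < √(3 / 2 + 2 * T) := by
      rw [Real.lt_sqrt (by norm_num)]
      linarith
    have h11 := Real.sqrt_nonneg ((1 + T) / 3)
    linarith
  have hm2 := mul_le_mul_of_nonneg_left hmass hY
  have hmax : max u2 u3 ≤ T := max_le t2 t3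
  have e1 : ∫ z in Helper37.MEI.EE a m e, Helper37.MEI.wt (Helper37.MEI.ap a m e) i z.1 *
      pp (bar a (pf m e k) z.2) ∂σ = ∫ z in Zp (Helper37.MEI.ap a m e) 2 3,
      Helper37.MEI.wt (Helper37.MEI.ap a m e) i z.1 * pp (bar a (pf m e k) z.2) ∂σ := rfl
  have e2 : ∫ z in Helper37.MEI.EE a m e, Helper37.MEI.wt (Helper37.MEI.ap a m e) i z.1 ∂σ =
      ∫ z in Zp (Helper37.MEI.ap a m e) 2 3, Helper37.MEI.wt (Helper37.MEI.ap a m e) i z.1 ∂σ := rfl
  rw [e2] at hm2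
  rw [e1]
  unfold Mbar
  linarith

/-- the same for every density below the weight -/
theorem mom_dens [IsFiniteMeasure σ] (h : PM K σ) (ha : ∀ i j, i ≠ j → dist (a i) (a j) = 1)
    (hull : ∀ p, (∀ q ∈ K, ‖p - q‖ ≤ 1) → p ∈ K) (hp : ∀ x ∈ K, Pl a x)
    {B : Fin 3 → Bool → OrthonormalBasis (Fin 3) ℝ E3}
    (hB : ∀ m e, Fr (fun i => a (pr m e i)) (B m e)) {S : Fin 4 → ℝ} (hS0 : ∀ i, 0 ≤ S i)
    (hQ : ∀ i, ∀ q ∈ K, Qv a i q ≤ S i) {T : ℝ} (hT : ∀ i, S i ≤ T) (hT1 : T ≤ 3 / 16)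
    (m : Fin 3) (e i : Bool) {k : Fin 4} (hk : k = 2 ∨ k = 3) {c : E3 × E3 → ℝ} {C : ℝ}
    (hc : Measurable c) (hc0 : ∀ᵐ z ∂σ, 0 ≤ c z) (hcC : ∀ᵐ z ∂σ, c z ≤ C)
    (hcw : ∀ᵐ z ∂(σ.restrict (Helper37.MEI.EE a m e)),
      c z ≤ Helper37.MEI.wt (Helper37.MEI.ap a m e) i z.1) :
    ∫ z in Helper37.MEI.EE a m e, c z * bar a (pf m e k) z.2 ∂σ ≤ Mbar T := by
  refine le_trans ?_ (mom_all h ha hull hp hB hS0 hQ hT hT1 m e i hk)
  have hbc := Pool.Agent.Helper95.MEI.Fub.bar_cont a (pf m e k)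
  have hpc := Pool.Agent.Helper95.MEI.Fub.pp_cont
  have hwc := Helper37.MEI.wt_cont (Helper37.MEI.ap a m e) i
  have i1 := Helper37.MEI.dens_int (σ := σ) h.cpt h.mem hc hc0 hcC
    (hbc.comp continuous_snd)
  have i2 : Integrable (fun z : E3 × E3 => Helper37.MEI.wt (Helper37.MEI.ap a m e) i z.1 *
      pp (bar a (pf m e k) z.2)) σ :=
    int_cont h.cpt h.mem ((hwc.comp continuous_fst).mul (hpc.comp (hbc.comp continuous_snd)))
  refine integral_mono_ae i1.integrableOn i2.integrableOn ?_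
  filter_upwards [hcw, ae_restrict_of_ae hc0] with z h1 h2
  have h3 := le_pp (bar a (pf m e k) z.2)
  have h4 := pp_nonneg (bar a (pf m e k) z.2)
  exact (mul_le_mul_of_nonneg_left h3 h2).trans (mul_le_mul_of_nonneg_right h1 h4)

/-- the arc of `Loss2` -/
theorem cM_le_Mbar [IsFiniteMeasure σ] (h : PM K σ) (ha : ∀ i j, i ≠ j → dist (a i) (a j) = 1)
    (hull : ∀ p, (∀ q ∈ K, ‖p - q‖ ≤ 1) → p ∈ K) (hp : ∀ x ∈ K, Pl a x)
    {B : Fin 3 → Bool → OrthonormalBasis (Fin 3) ℝ E3}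
    (hB : ∀ m e, Fr (fun i => a (pr m e i)) (B m e)) {S : Fin 4 → ℝ} (hS0 : ∀ i, 0 ≤ S i)
    (hQ : ∀ i, ∀ q ∈ K, Qv a i q ≤ S i) {T : ℝ} (hT : ∀ i, S i ≤ T) (hT1 : T ≤ 3 / 16)
    (m : Fin 3) (e i : Bool) {k : Fin 4} (hk : k = 2 ∨ k = 3) :
    pp (Helper37.MEI.cM σ a m e i (pf m e k)) ≤ Mbar T := by
  refine le_trans ?_ (mom_all h ha hull hp hB hS0 hQ hT hT1 m e i hk)
  have ha' := Helper37.MEI.hap ha m e
  have hp' : ∀ x ∈ K, Pl (Helper37.MEI.ap a m e) x := fun x hx => Pl_perm _ (hp x hx)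
  obtain ⟨h1, h2⟩ := Helper37.MEI.cell_M_le (a := a) h.cpt h.mem (E := Helper37.MEI.EE a m e)
    (Helper37.MEI.wt_cont (Helper37.MEI.ap a m e) i)
    (fun x hx => Helper37.MEI.wt_nonneg (gram_of_dist ha') i (hp' x hx))
    (Helper37.MEI.vx m e i) (pf m e k)
  have h3 : pp (Helper37.MEI.cM σ a m e i (pf m e k)) ≤
      ∫ z in Helper37.MEI.EE a m e ∩ Helper37.MEI.Pos a (Helper37.MEI.vx m e i),
        Helper37.MEI.wt (Helper37.MEI.ap a m e) i z.1 * pp (bar a (pf m e k) z.2) ∂σ := by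
    unfold pp
    exact max_le h1 h2
  refine h3.trans ?_
  have hbc := Pool.Agent.Helper95.MEI.Fub.bar_cont a (pf m e k)
  have hpc := Pool.Agent.Helper95.MEI.Fub.pp_cont
  have hwc := Helper37.MEI.wt_cont (Helper37.MEI.ap a m e) i
  have i2 : Integrable (fun z : E3 × E3 => Helper37.MEI.wt (Helper37.MEI.ap a m e) i z.1 *
      pp (bar a (pf m e k) z.2)) σ :=
    int_cont h.cpt h.mem ((hwc.comp continuous_fst).mul (hpc.comp (hbc.comp continuous_snd)))
  refine setIntegral_mono_set i2.integrableOn ?_ inter_subset_left.eventuallyLE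
  filter_upwards [ae_restrict_of_ae h.mem] with z hz
  exact mul_nonneg (Helper37.MEI.wt_nonneg (gram_of_dist ha') i (hp' _ hz.1)) (pp_nonneg _)

end six

/-! ### numbers -/

theorem Mbar_num {T A B : ℝ} (hT0 : 0 ≤ T) (hT : T ≤ 3 / 16) (hA0 : 0 ≤ A) (hB0 : 0 ≤ B)
    (hA : 3 / 2 + 2 * T ≤ A ^ 2) (hB : (1 + T) / 3 ≤ B ^ 2) :
    Mbar T ≤ (A / 2 + B - 1 / 2) *
      ((0.0642 + 18.4 * ((0.0393 + 0.2358 * T) * T)) / (1 - 4 * T)) +
      0.6504 * T + 0.54 * (0.000767 + 0.0726 * T + 2 * ((0.0393 + 0.2358 * T) * T)) := by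
  have h1 : √(3 / 2 + 2 * T) ≤ A := Real.sqrt_le_iff.2 ⟨hA0, hA⟩
  have h2 : √((1 + T) / 3) ≤ B := Real.sqrt_le_iff.2 ⟨hB0, hB⟩
  unfold Mbar Y0
  have h3 : 0 ≤ (0.0642 + 18.4 * ((0.0393 + 0.2358 * T) * T)) / (1 - 4 * T) := by
    apply div_nonneg (by positivity)
    linarith
  have h4 : 1 / 2 * √(3 / 2 + 2 * T) + (√((1 + T) / 3) - 1 / 2) ≤ A / 2 + B - 1 / 2 := by linarith
  have h5 := mul_le_mul_of_nonneg_right h4 h3
  linarith

theorem Mbar_002 : Mbar 0.002 ≤ 0.04764 := by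
  refine (Mbar_num (A := 1.22638) (B := 0.57793) (by norm_num) (by norm_num) (by norm_num)
    (by norm_num) (by norm_num) (by norm_num)).trans ?_
  norm_num

theorem Mbar_003 : Mbar 0.003 ≤ 0.0492 := by
  refine (Mbar_num (A := 1.2272) (B := 0.57822) (by norm_num) (by norm_num) (by norm_num)
    (by norm_num) (by norm_num) (by norm_num)).trans ?_
  norm_num

theorem Mbar_005 : Mbar 0.005 ≤ 0.0522 := by
  refine (Mbar_num (A := 1.22884) (B := 0.5788) (by norm_num) (by norm_num) (by norm_num)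
    (by norm_num) (by norm_num) (by norm_num)).trans ?_
  norm_num

end Helper21.Mom
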