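import Pool.Agent.Helper21.MEI.Alp
import Pool.Agent.Helper73.MEI.Reg1

/-!
# Project MEI, all bodies, regime I: the edge part of the master inequality, no open hypothesis
-/

set_option autoImplicit false

namespace Helper21.Reg

open Set MeasureTheory Filter Topology Metric
open Helper80.CW Helper22.Wedge Helper22.Sig Helper14.CW Helper14.MEI2 Helper93.MEI
open Pool.Agent.Helper95.MEI.Fub (Zp exc exn)
open Pool.Agent.Helper73.MEI
open scoped RealInnerProductSpace ContDiff Real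

variable {K : Set E3} {σ : Measure (E3 × E3)} [IsFiniteMeasure σ] {a : Fin 4 → E3}
  {B : Fin 3 → Bool → OrthonormalBasis (Fin 3) ℝ E3}

/-- depth and null integral for all six edges -/
theorem six (h : PM K σ) (ha : ∀ i j, i ≠ j → dist (a i) (a j) = 1)
    (hp : ∀ x ∈ K, Pl a x) (hull : ∀ p, (∀ q ∈ K, ‖p - q‖ ≤ 1) → p ∈ K)
    (hB : ∀ m e, Fr (fun i => a (pr m e i)) (B m e)) {S : Fin 4 → ℝ} (hS0 : ∀ i, 0 ≤ S i)
    (hS : ∀ i, S i ≤ 0.002) (hQ : ∀ x ∈ K, ∀ i, Qv a i x ≤ S i) (m : Fin 3) (e : Bool) :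
    12.2 * (lE (B m e) (cen a) K - 0.0564 * (S 0 + S 1 + S 2 + S 3)) ≤
      ∫ z in Zp (fun i => a (pr m e i)) 2 3, eV (fun i => a (pr m e i)) z.2 ∂σ ∧
    |∫ z in Zp (fun i => a (pr m e i)) 2 3, (eY (fun i => a (pr m e i)) z.1 -
      eY (fun i => a (pr m e i)) z.2) ∂σ| ≤ 0.0045 := by
  have ha' : ∀ i j, i ≠ j → dist ((fun i => a (pr m e i)) i) ((fun i => a (pr m e i)) j) = 1 :=
    fun i j hij => ha _ _ (fun h => hij ((pr m e).injective h))
  have hcomp : ∀ p : E3, (∀ q ∈ K, dist p q ≤ 1) → p ∈ K := fun p hq =>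
    hull p fun q hqK => by rw [← dist_eq_norm]; exact hq q hqK
  have hpl : ∀ x ∈ K, Pl (fun i => a (pr m e i)) x := fun x hx => Pl_perm (pr m e) (hp x hx)
  have hQ' : ∀ x ∈ K, ∀ i, Qv (fun i => a (pr m e i)) i x ≤ (fun i => S (pr m e i)) i :=
    fun x hx i => hQ x hx (pr m e i)
  have hS0' : ∀ i, 0 ≤ (fun i => S (pr m e i)) i := fun i => hS0 _
  have hS' : ∀ i, (fun i => S (pr m e i)) i ≤ 0.002 := fun i => hS _
  have h1 := Helper21.Alp.alpha ha' h hcomp hpl (hB m e) hQ' hS0' hS'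
  have h2 := Helper21.Alp.null ha' h hcomp hpl (hB m e) hQ' hS0' hS'
  rw [cen_perm] at h1
  refine ⟨?_, h2.trans (by norm_num)⟩
  refine le_trans ?_ h1
  have h3 : 0.0561 * (S (pr m e 0) + S (pr m e 1)) + 0.0564 * (S (pr m e 2) + S (pr m e 3)) ≤
      0.0564 * (S 0 + S 1 + S 2 + S 3) := by
    have k0 := hS0 (pr m e 0)
    have k1 := hS0 (pr m e 1)
    have hs : S (pr m e 0) + S (pr m e 1) + S (pr m e 2) + S (pr m e 3) = S 0 + S 1 + S 2 + S 3 := by
      have h4 := Equiv.sum_comp (pr m e) S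
      rw [Fin.sum_univ_four, Fin.sum_univ_four] at h4
      exact h4
    rw [← hs]
    linarith
  linarith

/-- **regime I**: the master inequality with the edge part inserted, only the negative parts
`exn` of the edge excess and the faces are left -/
theorem reg1 (h : PM K σ) (ha : ∀ i j, i ≠ j → dist (a i) (a j) = 1)
    (hp : ∀ x ∈ K, Pl a x) (hz : ∀ᵐ z ∂σ, Pl a z.1 ∧ ∀ k, bar a k z.1 ≠ 0)
    (hd : ∀ x ∈ K, ∀ y ∈ K, ‖x - y‖ ≤ 1)
    (hull : ∀ p, (∀ q ∈ K, ‖p - q‖ ≤ 1) → p ∈ K)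
    (hB : ∀ m e, Fr (fun i => a (pr m e i)) (B m e)) {S : Fin 4 → ℝ} (hS0 : ∀ i, 0 ≤ S i)
    (hS : ∀ i, S i ≤ 0.002) (hQ : ∀ x ∈ K, ∀ i, Qv a i x ≤ S i) :
    FT a σ + 3.97 * (∑ i, volume.real (K ∩ Wc a i) - 4 * (Om / 3 - √2 / 12))
      - 1.72 * (√2 / 12 - volume.real (K ∩ T0 a)) - 0.1351 * (S 0 + S 1 + S 2 + S 3)
      - ∑ m, ((∫ z in Zp (fun i => a (pr m false i)) 2 3, exn (fun i => a (pr m false i)) z ∂σ) +
          ∫ z in Zp (fun i => a (pr m true i)) 2 3, exn (fun i => a (pr m true i)) z ∂σ) ≤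
    4.22 * (volume.real K - Helper82.CW.VM) :=
  reg1_star h ha hp hz hd hull hB hS0 hS hQ
    (fun m e => (six h ha hp hull hB hS0 hS hQ m e).1)
    (fun m e => (six h ha hp hull hB hS0 hS hQ m e).2)

end Helper21.Reg
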