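import Pool.Agent.Helper22.MEI.Sig

/-!
# Project MEI, all bodies: sections of the body by the walls of an edge cell

The flux of a constant vector through the part of the boundary in an edge cell is the area of the
projection of the two wall sections.
-/

namespace Helper21.Sec

open Set MeasureTheory Filter Topology Metric
open Helper80.CW Helper82.CW Helper22.Wedge Helper22.Sig
open scoped RealInnerProductSpace

/-! ### the one-dimensional kernel -/

theorem st_deriv_nonneg (r : ℝ) : 0 ≤ deriv Real.smoothTransition r :=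
  Real.smoothTransition.monotone.deriv_nonneg

theorem st_deriv_cont : Continuous (deriv Real.smoothTransition) :=
  (Real.smoothTransition.contDiff (n := 1)).continuous_deriv le_rfl

/-- the kernel `M g'(M l)` has integral one -/
theorem int_g {M : ℝ} (hM : 0 < M) :
    ∫ l in Ioo (0 : ℝ) (1 / M), M * deriv Real.smoothTransition (l * M) = 1 := by
  rw [← integral_Ioc_eq_integral_Ioo, ← intervalIntegral.integral_of_le (by positivity)]
  have h1 : ∀ l : ℝ, HasDerivAt (fun l => Real.smoothTransition (l * M))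
      (M * deriv Real.smoothTransition (l * M)) l := by
    intro l
    have h2 : HasDerivAt Real.smoothTransition (deriv Real.smoothTransition (l * M)) (l * M) :=
      ((Real.smoothTransition.contDiff (n := 1)).differentiable one_ne_zero _).hasDerivAt
    have h3 : HasDerivAt (fun l : ℝ => l * M) M l := by
      simpa using (hasDerivAt_id l).mul_const M
    have h4 := h2.comp l h3
    rw [mul_comm] at h4
    exact h4
  have hc : Continuous (fun l : ℝ => M * deriv Real.smoothTransition (l * M)) :=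
    continuous_const.mul (st_deriv_cont.comp (continuous_id.mul continuous_const))
  rw [intervalIntegral.integral_eq_sub_of_hasDerivAt (fun l _ => h1 l)
    (hc.intervalIntegrable _ _)]
  rw [one_div, inv_mul_cancel₀ hM.ne', zero_mul, Real.smoothTransition.one,
    Real.smoothTransition.zero, sub_zero]

/-- wall kernel in the coordinates `((X, W), l)` of a wall, `l` is (a multiple of) the distance
from the wall -/
noncomputable def jk (M : ℝ) (p : (ℝ × ℝ) × ℝ) : ℝ :=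
  M * deriv Real.smoothTransition (p.2 * M) *
    Real.smoothTransition ((√2 * p.1.2 - p.2) * M)

theorem jk_cont (M : ℝ) : Continuous (jk M) := by
  unfold jk
  have h1 : Continuous (fun p : (ℝ × ℝ) × ℝ => deriv Real.smoothTransition (p.2 * M)) :=
    st_deriv_cont.comp (continuous_snd.mul continuous_const)
  have h2 : Continuous (fun p : (ℝ × ℝ) × ℝ =>
      Real.smoothTransition ((√2 * p.1.2 - p.2) * M)) :=
    Real.smoothTransition.continuous.comp (by fun_prop)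
  exact (continuous_const.mul h1).mul h2

theorem jk_nonneg {M : ℝ} (hM : 0 < M) (p : (ℝ × ℝ) × ℝ) : 0 ≤ jk M p :=
  mul_nonneg (mul_nonneg hM.le (st_deriv_nonneg _)) (Real.smoothTransition.nonneg _)

theorem jk_zero {M : ℝ} (hM : 0 < M) {p : (ℝ × ℝ) × ℝ}
    (h : ¬ (p.2 ∈ Ioo (0 : ℝ) (1 / M) ∧ 0 < √2 * p.1.2 - p.2)) : jk M p = 0 := by
  unfold jk
  by_cases h1 : p.2 ∈ Ioo (0 : ℝ) (1 / M)
  · have h2 : √2 * p.1.2 - p.2 ≤ 0 := by
      by_contra hcon
      exact h ⟨h1, not_le.1 hcon⟩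
    rw [Real.smoothTransition.zero_of_nonpos (mul_nonpos_of_nonpos_of_nonneg h2 hM.le), mul_zero]
  · have h2 : deriv Real.smoothTransition (p.2 * M) = 0 := by
      refine st_deriv_zero ?_
      rw [mem_Ioo, not_and_or, not_lt, not_lt] at h1
      rcases h1 with h1 | h1
      · left
        exact mul_nonpos_of_nonpos_of_nonneg h1 hM.le
      · right
        have h3 := mul_le_mul_of_nonneg_right h1 hM.le
        rwa [one_div, inv_mul_cancel₀ hM.ne'] at h3
    rw [h2, mul_zero, zero_mul]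

theorem jk_le {M : ℝ} (hM : 0 < M) (p : (ℝ × ℝ) × ℝ) :
    jk M p ≤ 1 * (M * deriv Real.smoothTransition (p.2 * M)) := by
  unfold jk
  rw [one_mul]
  exact mul_le_of_le_one_right (mul_nonneg hM.le (st_deriv_nonneg _))
    (Real.smoothTransition.le_one _)

theorem int_layer {M : ℝ} (hM : 0 < M) (Ω : Set (ℝ × ℝ)) :
    ∫ p in Ω ×ˢ Ioo (0 : ℝ) (1 / M), (fun _ : ℝ × ℝ => (1 : ℝ)) p.1 *
      (fun l : ℝ => M * deriv Real.smoothTransition (l * M)) p.2 = volume.real Ω := by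
  have h := setIntegral_prod_mul (μ := (volume : Measure (ℝ × ℝ))) (ν := (volume : Measure ℝ))
    (fun _ : ℝ × ℝ => (1 : ℝ)) (fun l : ℝ => M * deriv Real.smoothTransition (l * M)) Ω
    (Ioo (0 : ℝ) (1 / M))
  have h2 : (volume : Measure (ℝ × ℝ)).prod (volume : Measure ℝ) = volume := rfl
  rw [h2] at h
  rw [h, int_g hM, mul_one, setIntegral_const, smul_eq_mul, mul_one]

/-- lower bound of a wall integral -/
theorem wall_lower {M : ℝ} (hM : 0 < M) {B : Set ((ℝ × ℝ) × ℝ)} (hB : IsCompact B)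
    {Ω : Set (ℝ × ℝ)} (hΩ : MeasurableSet Ω)
    (h : ∀ r ∈ Ω, ∀ l ∈ Ioo (0 : ℝ) (1 / M), (r, l) ∈ B ∧ 1 / M ≤ √2 * r.2 - l) :
    volume.real Ω ≤ ∫ p in B, jk M p := by
  have hsub : Ω ×ˢ Ioo (0 : ℝ) (1 / M) ⊆ B := by
    rintro ⟨r, l⟩ ⟨h1, h2⟩
    exact (h r h1 l h2).1
  have hint : IntegrableOn (jk M) B := (jk_cont M).continuousOn.integrableOn_compact hB
  have h1 : ∫ p in Ω ×ˢ Ioo (0 : ℝ) (1 / M), jk M p ≤ ∫ p in B, jk M p :=
    setIntegral_mono_set hint (Eventually.of_forall fun p => jk_nonneg hM p)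
      hsub.eventuallyLE
  refine le_trans (le_of_eq ?_) h1
  rw [← int_layer hM Ω]
  refine setIntegral_congr_fun (hΩ.prod measurableSet_Ioo) ?_
  rintro ⟨r, l⟩ ⟨h2, h3⟩
  have h4 := (h r h2 l h3).2
  have h5 : (1 : ℝ) ≤ (√2 * r.2 - l) * M := by
    have h6 := mul_le_mul_of_nonneg_right h4 hM.le
    rwa [one_div, inv_mul_cancel₀ hM.ne'] at h6
  simp only [jk]
  rw [Real.smoothTransition.one_of_one_le h5, mul_one, one_mul]

/-- upper bound of a wall integral -/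
theorem wall_upper {M : ℝ} (hM : 0 < M) {B : Set ((ℝ × ℝ) × ℝ)} (hB : IsCompact B)
    {Ω : Set (ℝ × ℝ)} (hΩ : MeasurableSet Ω) (hΩb : Bornology.IsBounded Ω)
    (h : ∀ r : ℝ × ℝ, ∀ l ∈ Ioo (0 : ℝ) (1 / M), (r, l) ∈ B → 0 < √2 * r.2 - l → r ∈ Ω) :
    ∫ p in B, jk M p ≤ volume.real Ω := by
  set S : Set ((ℝ × ℝ) × ℝ) := Ω ×ˢ Ioo (0 : ℝ) (1 / M) with hS
  have hSm : MeasurableSet S := hΩ.prod measurableSet_Ioo
  have hSb : Bornology.IsBounded S := hΩb.prod (isBounded_Ioo _ _)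
  have hc : Continuous (fun p : (ℝ × ℝ) × ℝ => (fun _ : ℝ × ℝ => (1 : ℝ)) p.1 *
      (fun l : ℝ => M * deriv Real.smoothTransition (l * M)) p.2) := by
    refine continuous_const.mul (continuous_const.mul ?_)
    exact st_deriv_cont.comp (continuous_snd.mul continuous_const)
  have hintS : IntegrableOn (fun p : (ℝ × ℝ) × ℝ => (fun _ : ℝ × ℝ => (1 : ℝ)) p.1 *
      (fun l : ℝ => M * deriv Real.smoothTransition (l * M)) p.2) S :=
    (hc.continuousOn.integrableOn_compact hSb.isCompact_closure).mono_set subset_closure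
  have hint : IntegrableOn (jk M) B := (jk_cont M).continuousOn.integrableOn_compact hB
  have h1 : ∫ p in B, jk M p = ∫ p in B ∩ S, jk M p := by
    rw [← setIntegral_indicator hSm]
    refine integral_congr_ae ?_
    filter_upwards [ae_restrict_mem hB.measurableSet] with p hp
    by_cases hpS : p ∈ S
    · rw [indicator_of_mem hpS]
    · rw [indicator_of_notMem hpS]
      refine jk_zero hM fun hcon => hpS ⟨?_, hcon.1⟩
      exact h p.1 p.2 hcon.1 hp hcon.2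
  rw [h1, ← int_layer hM Ω]
  have h2 : ∫ p in B ∩ S, jk M p ≤ ∫ p in B ∩ S, (fun _ : ℝ × ℝ => (1 : ℝ)) p.1 *
      (fun l : ℝ => M * deriv Real.smoothTransition (l * M)) p.2 := by
    refine setIntegral_mono_on (hint.mono_set inter_subset_left)
      (hintS.mono_set inter_subset_right) (hB.measurableSet.inter hSm) fun p _ => jk_le hM p
  refine h2.trans (setIntegral_mono_set hintS (Eventually.of_forall fun p => ?_)
    inter_subset_right.eventuallyLE)
  exact mul_nonneg zero_le_one (mul_nonneg hM.le (st_deriv_nonneg _))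

/-! ### wall coordinates -/

/-- coordinates adapted to a wall, `ε = ±1` -/
noncomputable def Tw (b : OrthonormalBasis (Fin 3) ℝ E3) (c : E3) (ε : ℝ) (x : E3) :
    (ℝ × ℝ) × ℝ :=
  (((co b c x).1, (co b c x).2.2 - √2 / 4),
    √2 / 2 * ((co b c x).2.2 - √2 / 4) - ε * (co b c x).2.1)

/-- the linear change of coordinates -/
def Lw (σ τ ε : ℝ) (q : ℝ × ℝ × ℝ) : (ℝ × ℝ) × ℝ := ((q.1, q.2.2 - τ), σ * (q.2.2 - τ) - ε * q.2.1)

theorem Lw_mp (σ τ : ℝ) {ε : ℝ} (hε : ε = 1 ∨ ε = -1) :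
    MeasurePreserving (Lw σ τ ε) volume volume := by
  -- (X,(Y,Z)) -> (X,(Z,Y)) -> ((X,Z),Y) -> ((X,Z-τ), σ (Z-τ) - ε Y)
  have h1 : MeasurePreserving (Prod.map id Prod.swap : ℝ × (ℝ × ℝ) → ℝ × (ℝ × ℝ)) volume volume :=
    (MeasurePreserving.id volume).prod Measure.measurePreserving_swap
  have h2 : MeasurePreserving (MeasurableEquiv.prodAssoc.symm : ℝ × ℝ × ℝ ≃ᵐ (ℝ × ℝ) × ℝ)
      volume volume := (measurePreserving_prodAssoc volume volume volume).symm _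
  have h3 : MeasurePreserving (Prod.map id (fun z : ℝ => z - τ) : ℝ × ℝ → ℝ × ℝ) volume volume :=
    (MeasurePreserving.id volume).prod (measurePreserving_sub_right volume τ)
  have h4 : MeasurePreserving (fun p : (ℝ × ℝ) × ℝ =>
      ((Prod.map id (fun z : ℝ => z - τ) : ℝ × ℝ → ℝ × ℝ) p.1,
        σ * (p.1.2 - τ) - ε * p.2)) volume volume := by
    have hm : Measurable (Function.uncurry fun (r : ℝ × ℝ) (y : ℝ) => σ * (r.2 - τ) - ε * y) := by
      have : Continuous (Function.uncurry fun (r : ℝ × ℝ) (y : ℝ) => σ * (r.2 - τ) - ε * y) := by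
        unfold Function.uncurry
        fun_prop
      exact this.measurable
    refine h3.skew_product (g := fun (r : ℝ × ℝ) (y : ℝ) => σ * (r.2 - τ) - ε * y) hm
      (ae_of_all _ fun r => ?_)
    rcases hε with h | h
    · rw [h]
      have h5 := ((measurePreserving_add_left (volume : Measure ℝ) (σ * (r.2 - τ))).comp
        (Measure.measurePreserving_neg (volume : Measure ℝ))).map_eq
      have h6 : (fun y : ℝ => σ * (r.2 - τ) - 1 * y) =
          (fun y : ℝ => σ * (r.2 - τ) + y) ∘ Neg.neg := by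
        funext y; simp only [Function.comp]; ring
      rw [h6]; exact h5
    · rw [h]
      have h5 := (measurePreserving_add_left (volume : Measure ℝ) (σ * (r.2 - τ))).map_eq
      have h6 : (fun y : ℝ => σ * (r.2 - τ) - -1 * y) = fun y => σ * (r.2 - τ) + y := by
        funext y; ring
      rw [h6]; exact h5
  exact h4.comp (h2.comp h1)

variable (b : OrthonormalBasis (Fin 3) ℝ E3) (c : E3)

theorem Tw_eq (ε : ℝ) : Tw b c ε = Lw (√2 / 2) (√2 / 4) ε ∘ co b c := rfl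

theorem Tw_mp {ε : ℝ} (hε : ε = 1 ∨ ε = -1) : MeasurePreserving (Tw b c ε) volume volume :=
  (Lw_mp _ _ hε).comp (co_mp b c)

theorem Tw_cont (ε : ℝ) : Continuous (Tw b c ε) := by
  have h := (co_cd b c).continuous
  unfold Tw
  fun_prop

theorem Tw_inj {ε : ℝ} (hε : ε = 1 ∨ ε = -1) : Function.Injective (Tw b c ε) := by
  intro x y h
  apply co_inj b c
  have h1 : (co b c x).1 = (co b c y).1 := congrArg (fun q : (ℝ × ℝ) × ℝ => q.1.1) h
  have h2 : (co b c x).2.2 - √2 / 4 = (co b c y).2.2 - √2 / 4 :=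
    congrArg (fun q : (ℝ × ℝ) × ℝ => q.1.2) h
  have h3 : √2 / 2 * ((co b c x).2.2 - √2 / 4) - ε * (co b c x).2.1 =
    √2 / 2 * ((co b c y).2.2 - √2 / 4) - ε * (co b c y).2.1 :=
    congrArg (fun q : (ℝ × ℝ) × ℝ => q.2) h
  rw [h2] at h3
  have h4 : (co b c x).2.1 = (co b c y).2.1 := by
    rcases hε with h | h <;> rw [h] at h3 <;> linarith
  exact Prod.ext h1 (Prod.ext h4 (by linarith))

theorem Tw_emb {ε : ℝ} (hε : ε = 1 ∨ ε = -1) : MeasurableEmbedding (Tw b c ε) :=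
  (Tw_cont b c ε).measurableEmbedding (Tw_inj b c hε)

theorem int_Tw {ε : ℝ} (hε : ε = 1 ∨ ε = -1) (K : Set E3) (F : (ℝ × ℝ) × ℝ → ℝ) :
    ∫ x in K, F (Tw b c ε x) = ∫ p in Tw b c ε '' K, F p := by
  have h := (Tw_mp b c hε).setIntegral_preimage_emb (Tw_emb b c hε) F (Tw b c ε '' K)
  rwa [(Tw_inj b c hε).preimage_image] at h

/-! ### the walls of the edge cell -/

/-- normals of the walls -/
noncomputable def nuw (b : OrthonormalBasis (Fin 3) ℝ E3) (j : Fin 2) : E3 :=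
  ![(√2 / 2) • b 2 - b 1, (√2 / 2) • b 2 + b 1] j

/-- levels of the walls -/
noncomputable def cw (b : OrthonormalBasis (Fin 3) ℝ E3) (c : E3) (j : Fin 2) : ℝ :=
  ⟪nuw b j, c⟫ + √2 / 2 * (√2 / 4)

theorem nuw0 (x : E3) : ⟪nuw b 0, x⟫ - cw b c 0 = (Tw b c 1 x).2 := by
  unfold cw Tw co
  have h : nuw b 0 = (√2 / 2) • b 2 - b 1 := rfl
  rw [h]
  simp only [inner_sub_left, inner_sub_right, real_inner_smul_left]
  ring

theorem nuw1 (x : E3) : ⟪nuw b 1, x⟫ - cw b c 1 = (Tw b c (-1) x).2 := by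
  unfold cw Tw co
  have h : nuw b 1 = (√2 / 2) • b 2 + b 1 := rfl
  rw [h]
  simp only [inner_add_left, inner_sub_right, real_inner_smul_left]
  ring

/-- the cell is the open edge cell -/
theorem cel_eq : Cel (nuw b) (cw b c) = EC b c := by
  ext x
  unfold Cel EC
  simp only [mem_ofPred_eq, Fin.forall_fin_two]
  have h0 := nuw0 b c x
  have h1 := nuw1 b c x
  unfold Tw at h0 h1
  unfold Helper22.MEI.s Helper22.MEI.t
  simp only at h0 h1
  rw [abs_lt]
  constructor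
  · rintro ⟨h2, h3⟩
    constructor <;> linarith
  · rintro ⟨h2, h3⟩
    constructor <;> linarith

/-- derivative of the cut-off in a constant direction -/
theorem Wf_dir (m : ℕ) (x v : E3) : fderiv ℝ (Wf (nuw b) (cw b c) m) x v =
    ⟪nuw b 0, v⟫ * jk (m + 1) (Tw b c 1 x) + ⟪nuw b 1, v⟫ * jk (m + 1) (Tw b c (-1) x) := by
  rw [Wf_fd, Fin.sum_univ_two]
  have e0 : ∀ D : DecidableEq (Fin 2), (@Finset.erase (Fin 2) D Finset.univ 0) = {1} := by
    intro D; ext k; fin_cases k <;> simp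
  have e1 : ∀ D : DecidableEq (Fin 2), (@Finset.erase (Fin 2) D Finset.univ 1) = {0} := by
    intro D; ext k; fin_cases k <;> simp
  rw [e0, e1, Finset.prod_singleton, Finset.prod_singleton, wf_fd, wf_fd]
  unfold wf jk
  rw [nuw0, nuw1]
  have k0 : √2 * (Tw b c 1 x).1.2 - (Tw b c 1 x).2 = (Tw b c (-1) x).2 := by
    unfold Tw; simp only; ring
  have k1 : √2 * (Tw b c (-1) x).1.2 - (Tw b c (-1) x).2 = (Tw b c 1 x).2 := by
    unfold Tw; simp only; ring
  rw [k0, k1]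
  ring

/-- the wall integral -/
noncomputable def Iw (b : OrthonormalBasis (Fin 3) ℝ E3) (c : E3) (K : Set E3) (ε : ℝ) (m : ℕ) :
    ℝ := ∫ p in Tw b c ε '' K, jk (m + 1) p

/-- **the flux of a constant vector** through the cell is the limit of the wall integrals -/
theorem flux_lim {σ : Measure (E3 × E3)} [IsFiniteMeasure σ] {K : Set E3} (hK : IsCompact K)
    (hσ : ∀ᵐ z ∂σ, z.1 ∈ K ∧ z.2 ∈ K) {n : ℕ∞}
    (hU : ∀ G : E3 → E3, ContDiff ℝ n G → ∫ z, ⟪G z.1, z.1 - z.2⟫ ∂σ = ∫ x in K, dvg G x)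
    (v : E3) :
    Tendsto (fun m : ℕ => ⟪nuw b 0, v⟫ * Iw b c K 1 m + ⟪nuw b 1, v⟫ * Iw b c K (-1) m) atTop
      (𝓝 (∫ z in {z | z.1 ∈ Cel (nuw b) (cw b c)}, ⟪v, z.1 - z.2⟫ ∂σ)) := by
  classical
  have hCo := Cel_open (nuw b) (cw b c)
  have hc1 : Continuous (fun z : E3 × E3 => ⟪v, z.1 - z.2⟫) := by fun_prop
  obtain ⟨B1, hB1⟩ := (hK.prod hK).bddAbove_image (hc1.abs).continuousOn
  have hb1 : ∀ᵐ z ∂σ, |⟪v, z.1 - z.2⟫| ≤ B1 := by
    filter_upwards [hσ] with z hz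
    exact hB1 ⟨z, ⟨hz.1, hz.2⟩, rfl⟩
  -- the identity with the cut-off
  have hid : ∀ m : ℕ, ∫ z, Wf (nuw b) (cw b c) m z.1 * ⟪v, z.1 - z.2⟫ ∂σ
      = ⟪nuw b 0, v⟫ * Iw b c K 1 m + ⟪nuw b 1, v⟫ * Iw b c K (-1) m := by
    intro m
    have h1 := hU (fun y => Wf (nuw b) (cw b c) m y • v)
      ((Wf_cd (nuw b) (cw b c) m).smul contDiff_const)
    have h2 : ∀ z : E3 × E3, ⟪Wf (nuw b) (cw b c) m z.1 • v, z.1 - z.2⟫
        = Wf (nuw b) (cw b c) m z.1 * ⟪v, z.1 - z.2⟫ := fun z => real_inner_smul_left _ _ _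
    simp only [h2] at h1
    rw [h1]
    have h3 : ∀ x : E3, dvg (fun y => Wf (nuw b) (cw b c) m y • v) x =
        ⟪nuw b 0, v⟫ * jk (m + 1) (Tw b c 1 x) + ⟪nuw b 1, v⟫ * jk (m + 1) (Tw b c (-1) x) := by
      intro x
      have h4 := dvg_smul (W := Wf (nuw b) (cw b c) m) (G := fun _ => v) (x := x)
        ((Wf_cd (nuw b) (cw b c) m (n := 1)).differentiable one_ne_zero x)
        (differentiableAt_const v)
      have h5 : dvg (fun _ : E3 => v) x = 0 := by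
        unfold dvg
        rw [fderiv_fun_const]
        simp
      rw [h5, mul_zero, zero_add] at h4
      rw [h4, Wf_dir]
    have h6 : (fun x : E3 => dvg (fun y => Wf (nuw b) (cw b c) m y • v) x) = fun x =>
        ⟪nuw b 0, v⟫ * jk (m + 1) (Tw b c 1 x) + ⟪nuw b 1, v⟫ * jk (m + 1) (Tw b c (-1) x) :=
      funext h3
    have hi : ∀ (ε : ℝ) (a : ℝ), IntegrableOn (fun x => a * jk (m + 1) (Tw b c ε x)) K := by
      intro ε a
      refine ContinuousOn.integrableOn_compact hK (Continuous.continuousOn ?_)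
      exact continuous_const.mul ((jk_cont _).comp (Tw_cont b c ε))
    rw [h6, integral_add (hi 1 _) (hi (-1) _), integral_const_mul, integral_const_mul]
    unfold Iw
    rw [int_Tw b c (Or.inl rfl) K (jk (m + 1)), int_Tw b c (Or.inr rfl) K (jk (m + 1))]
  -- limit of the left side
  have hl1 : Tendsto (fun m : ℕ => ∫ z, Wf (nuw b) (cw b c) m z.1 * ⟪v, z.1 - z.2⟫ ∂σ) atTop
      (𝓝 (∫ z, (if z.1 ∈ Cel (nuw b) (cw b c) then 1 else 0) * ⟪v, z.1 - z.2⟫ ∂σ)) := by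
    refine tendsto_integral_of_dominated_convergence (fun _ => B1) (fun m => ?_)
      (integrable_const _) (fun m => ?_) (Eventually.of_forall fun z => ?_)
    · have h3 : Continuous (Wf (nuw b) (cw b c) m) :=
        (Wf_cd (nuw b) (cw b c) m (n := 1)).continuous
      exact ((h3.comp continuous_fst).mul hc1).aestronglyMeasurable
    · filter_upwards [hb1] with z hz
      rw [Real.norm_eq_abs, abs_mul, abs_of_nonneg (Wf_nonneg _ _ _ _)]
      exact (mul_le_of_le_one_left (abs_nonneg _) (Wf_le _ _ _ _)).trans hz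
    · exact (Wf_lim (nuw b) (cw b c) z.1).mul_const _
  have e1 : ∫ z, (if z.1 ∈ Cel (nuw b) (cw b c) then (1 : ℝ) else 0) * ⟪v, z.1 - z.2⟫ ∂σ
      = ∫ z in {z | z.1 ∈ Cel (nuw b) (cw b c)}, ⟪v, z.1 - z.2⟫ ∂σ := by
    have hm : MeasurableSet {z : E3 × E3 | z.1 ∈ Cel (nuw b) (cw b c)} :=
      (hCo.preimage continuous_fst).measurableSet
    rw [← integral_indicator hm]
    refine integral_congr_ae (Eventually.of_forall fun z => ?_)
    by_cases h : z.1 ∈ Cel (nuw b) (cw b c)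
    · rw [indicator_of_mem (show z ∈ {z : E3 × E3 | z.1 ∈ Cel (nuw b) (cw b c)} from h)]
      simp only [if_pos h, one_mul]
    · rw [indicator_of_notMem (show z ∉ {z : E3 × E3 | z.1 ∈ Cel (nuw b) (cw b c)} from h)]
      simp only [if_neg h, zero_mul]
  rw [e1] at hl1
  exact hl1.congr hid

theorem nuw_b (j : Fin 2) : ⟪nuw b j, b 2⟫ = √2 / 2 ∧ ⟪nuw b 0, b 1⟫ = -1 ∧ ⟪nuw b 1, b 1⟫ = 1 := by
  obtain ⟨⟨i00, i01, i02⟩, ⟨i10, i11, i12⟩, ⟨i20, i21, i22⟩⟩ := ibv b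
  have h0 : nuw b 0 = (√2 / 2) • b 2 - b 1 := rfl
  have h1 : nuw b 1 = (√2 / 2) • b 2 + b 1 := rfl
  refine ⟨?_, ?_, ?_⟩
  · fin_cases j
    · change ⟪nuw b 0, b 2⟫ = √2 / 2
      rw [h0, inner_sub_left, real_inner_smul_left, i22, i12]; ring
    · change ⟪nuw b 1, b 2⟫ = √2 / 2
      rw [h1, inner_add_left, real_inner_smul_left, i22, i12]; ring
  · rw [h0, inner_sub_left, real_inner_smul_left, i21, i11]; ring
  · rw [h1, inner_add_left, real_inner_smul_left, i21, i11]; ring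

/-! ### areas in the wall -/

theorem r2 : √2 * √2 = (2 : ℝ) := Real.mul_self_sqrt (by norm_num)

/-- the reference area -/
noncomputable def cz : ℝ := Real.pi / (3 * √3) - 1 / 2

/-- upper end of the section of the reference body -/
noncomputable def W0 (X : ℝ) : ℝ := √2 / √3 * √(1 - X ^ 2) - √2 / 2

theorem W0_cont : Continuous W0 := by unfold W0; fun_prop

theorem int_half_circle : ∫ x in (-(1 / 2) : ℝ)..(1 / 2), √(1 - x ^ 2) = Real.pi / 6 + √3 / 4 := by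
  have h1 : ∀ x ∈ uIcc (-(1 / 2) : ℝ) (1 / 2),
      HasDerivAt (fun x => (x * √(1 - x ^ 2) + Real.arcsin x) / 2) (√(1 - x ^ 2)) x := by
    intro x hx
    rw [uIcc_of_le (by norm_num), mem_Icc] at hx
    have hp : 0 < 1 - x ^ 2 := by nlinarith
    have hs : 0 < √(1 - x ^ 2) := Real.sqrt_pos.2 hp
    have h2 : HasDerivAt (fun x : ℝ => 1 - x ^ 2) (-(2 * x)) x := by
      simpa using (hasDerivAt_pow 2 x).const_sub 1
    have h3 := h2.sqrt hp.ne'
    have h4 := (hasDerivAt_id x).mul h3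
    have h5 := Real.hasDerivAt_arcsin (x := x) (by linarith) (by linarith)
    have h6 := (h4.add h5).div_const 2
    have h7 : (1 * √(1 - x ^ 2) + id x * (-(2 * x) / (2 * √(1 - x ^ 2))) + 1 / √(1 - x ^ 2)) / 2
        = √(1 - x ^ 2) := by
      have h8 : √(1 - x ^ 2) * √(1 - x ^ 2) = 1 - x ^ 2 := Real.mul_self_sqrt hp.le
      simp only [id]
      field_simp
      nlinarith
    rw [h7] at h6
    exact h6
  rw [intervalIntegral.integral_eq_sub_of_hasDerivAt h1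
    ((by fun_prop : Continuous fun x : ℝ => √(1 - x ^ 2)).intervalIntegrable _ _)]
  have h2 : √(1 - (1 / 2 : ℝ) ^ 2) = √3 / 2 := by
    rw [show (1 - (1 / 2 : ℝ) ^ 2) = 3 / 2 ^ 2 by norm_num, Real.sqrt_div (by norm_num),
      Real.sqrt_sq (by norm_num)]
  have h3 : Real.arcsin (1 / 2) = Real.pi / 6 := by
    rw [← Real.sin_pi_div_six, Real.arcsin_sin] <;> linarith [Real.pi_pos]
  have h4 : (-(1 / 2) : ℝ) ^ 2 = (1 / 2) ^ 2 := by norm_num
  rw [h4, h2, Real.arcsin_neg, h3]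
  ring

theorem int_W0 : ∫ x in (-(1 / 2) : ℝ)..(1 / 2), W0 x = √2 / 2 * cz := by
  unfold W0 cz
  rw [intervalIntegral.integral_sub
    ((by fun_prop : Continuous fun x : ℝ => √2 / √3 * √(1 - x ^ 2)).intervalIntegrable _ _)
    (by simp), intervalIntegral.integral_const_mul, int_half_circle,
    intervalIntegral.integral_const]
  have h3 : √3 * √3 = (3 : ℝ) := Real.mul_self_sqrt (by norm_num)
  have h3p : (0 : ℝ) < √3 := by positivity
  simp only [smul_eq_mul]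
  field_simp
  nlinarith

/-- integral of the upper end with a linear correction -/
theorem int_W0' (e d w : ℝ) : ∫ x in (-(1 / 2) : ℝ)..(1 / 2),
    (W0 x - √2 / 3 * (e + d * x) - w) = √2 / 2 * cz - √2 / 3 * e - w := by
  have h1 : ∫ x in (-(1 / 2) : ℝ)..(1 / 2), (W0 x - √2 / 3 * (e + d * x) - w)
      = (∫ x in (-(1 / 2) : ℝ)..(1 / 2), W0 x) -
        ∫ x in (-(1 / 2) : ℝ)..(1 / 2), (√2 / 3 * (e + d * x) + w) := by
    rw [← intervalIntegral.integral_sub (W0_cont.intervalIntegrable _ _)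
      ((by fun_prop : Continuous fun x : ℝ => √2 / 3 * (e + d * x) + w).intervalIntegrable _ _)]
    refine intervalIntegral.integral_congr fun x _ => ?_
    ring
  have h2 : ∫ x in (-(1 / 2) : ℝ)..(1 / 2), (√2 / 3 * (e + d * x) + w) = √2 / 3 * e + w := by
    have h3 : (fun x : ℝ => √2 / 3 * (e + d * x) + w) =
        fun x => (√2 / 3 * d) * x + (√2 / 3 * e + w) := by funext x; ring
    rw [h3, intervalIntegral.integral_add
      ((by fun_prop : Continuous fun x : ℝ => (√2 / 3 * d) * x).intervalIntegrable _ _)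
      (by simp), intervalIntegral.integral_const_mul, integral_id,
      intervalIntegral.integral_const]
    simp only [smul_eq_mul]
    ring
  rw [h1, int_W0, h2]
  ring

/-- the quadratic form of the wall section -/
noncomputable def qw (X W : ℝ) : ℝ := X ^ 2 + 3 / 2 * W ^ 2 + 3 * (√2 / 2) * W

theorem qw_W0 {X : ℝ} (hX : |X| ≤ 1 / 2) : 0 ≤ W0 X ∧ qw X (W0 X) = 1 / 4 := by
  have hX2 : X ^ 2 ≤ 1 / 4 := by
    have := sq_abs X
    have h0 := abs_nonneg X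
    nlinarith
  have hs : √(1 - X ^ 2) * √(1 - X ^ 2) = 1 - X ^ 2 := Real.mul_self_sqrt (by linarith)
  have h2 := r2
  have h3 : √3 * √3 = (3 : ℝ) := Real.mul_self_sqrt (by norm_num)
  have h3p : (0 : ℝ) < √3 := by positivity
  constructor
  · unfold W0
    have h4 : √3 / 2 ≤ √(1 - X ^ 2) := by
      apply Real.le_sqrt_of_sq_le
      nlinarith
    have h5 : √2 / √3 * (√3 / 2) ≤ √2 / √3 * √(1 - X ^ 2) :=
      mul_le_mul_of_nonneg_left h4 (by positivity)
    have h6 : √2 / √3 * (√3 / 2) = √2 / 2 := by field_simp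
    linarith
  · unfold qw W0
    have h7 : (√2 / √3 * √(1 - X ^ 2)) * (√2 / √3 * √(1 - X ^ 2)) = 2 / 3 * (1 - X ^ 2) := by
      have : (√2 / √3) * (√2 / √3) = 2 / 3 := by
        field_simp
        nlinarith
      calc _ = ((√2 / √3) * (√2 / √3)) * (√(1 - X ^ 2) * √(1 - X ^ 2)) := by ring
        _ = _ := by rw [this, hs]
    nlinarith

theorem qw_mono {X W δ : ℝ} (hW : 0 ≤ W) (hδ : 0 ≤ δ) :
    qw X W + δ ≤ qw X (W + √2 / 3 * δ) := by
  unfold qw
  have h2 := r2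
  have h2p : (0 : ℝ) ≤ √2 := by positivity
  have h3 : 0 ≤ √2 / 3 * δ := by positivity
  have h4 : 3 * (√2 / 2) * (√2 / 3 * δ) = δ := by
    calc 3 * (√2 / 2) * (√2 / 3 * δ) = (√2 * √2) / 2 * δ := by ring
      _ = δ := by rw [h2]; ring
  nlinarith [mul_nonneg hW h3]

theorem low_in {X W e : ℝ} (hX : |X| ≤ 1 / 2) (hW : 0 ≤ W) (he : 0 ≤ e)
    (h : W < W0 X - √2 / 3 * e) : qw X W ≤ 1 / 4 - e := by
  have h1 := qw_mono (X := X) hW he
  obtain ⟨h2, h3⟩ := qw_W0 hX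
  have h4 : 0 ≤ √2 / 3 * e := by positivity
  have h5 : qw X (W + √2 / 3 * e) ≤ qw X (W0 X) := by
    unfold qw
    have h6 : W + √2 / 3 * e ≤ W0 X := by linarith
    have h7 : 0 ≤ W + √2 / 3 * e := by linarith
    have h8 : (0 : ℝ) ≤ 3 * (√2 / 2) := by positivity
    nlinarith [mul_le_mul_of_nonneg_left h6 h8]
  linarith

theorem up_in {X W e e' : ℝ} (hX : |X| ≤ 1 / 2) (he : 0 ≤ e) (hee : e < e')
    (h : qw X W ≤ 1 / 4 + e) : W < W0 X + √2 / 3 * e' := by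
  by_contra hcon
  rw [not_lt] at hcon
  obtain ⟨h2, h3⟩ := qw_W0 hX
  have h5 : 0 ≤ W - √2 / 3 * e' := by linarith
  have h1 := qw_mono (X := X) (W := W - √2 / 3 * e') h5 (he.trans hee.le)
  rw [sub_add_cancel] at h1
  have h6 : qw X (W0 X) ≤ qw X (W - √2 / 3 * e') := by
    unfold qw
    have h7 : W0 X ≤ W - √2 / 3 * e' := by linarith
    have h8 : (0 : ℝ) ≤ 3 * (√2 / 2) := by positivity
    nlinarith [mul_le_mul_of_nonneg_left h7 h8]
  linarith

/-- the lower region -/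
noncomputable def Wlow (e d w : ℝ) : Set (ℝ × ℝ) :=
  regionBetween (fun _ => w) (fun X => W0 X - √2 / 3 * (e + d * X)) (Ioc (-(1 / 2)) (1 / 2))

/-- the upper region -/
noncomputable def Wup (e : ℝ) : Set (ℝ × ℝ) :=
  regionBetween (fun _ => (0 : ℝ)) (fun X => W0 X + √2 / 3 * e) (Icc (-(1 / 2)) (1 / 2))

theorem Wlow_meas (e d w : ℝ) : MeasurableSet (Wlow e d w) :=
  measurableSet_regionBetween measurable_const
    (by have := W0_cont; exact (by fun_prop : Continuous fun X =>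
      W0 X - √2 / 3 * (e + d * X)).measurable) measurableSet_Ioc

theorem Wup_meas (e : ℝ) : MeasurableSet (Wup e) :=
  measurableSet_regionBetween measurable_const
    (by have := W0_cont; exact (by fun_prop : Continuous fun X =>
      W0 X + √2 / 3 * e).measurable) measurableSet_Icc

theorem W0_le (X : ℝ) : W0 X ≤ 1 := by
  unfold W0
  have h1 : √(1 - X ^ 2) ≤ 1 := by
    rw [Real.sqrt_le_one]
    nlinarith [sq_nonneg X]
  have h2 : √2 / √3 ≤ 1 := by
    rw [div_le_one (by positivity)]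
    exact Real.sqrt_le_sqrt (by norm_num)
  have h3 : √2 / √3 * √(1 - X ^ 2) ≤ 1 * 1 :=
    mul_le_mul h2 h1 (Real.sqrt_nonneg _) zero_le_one
  have h4 : (0 : ℝ) ≤ √2 := Real.sqrt_nonneg _
  linarith

theorem Wlow_area (e d w : ℝ) : √2 / 2 * cz - √2 / 3 * e - w ≤ volume.real (Wlow e d w) := by
  have hc : Continuous (fun X => W0 X - √2 / 3 * (e + d * X)) := by
    have := W0_cont; fun_prop
  -- compare with the region below the positive part
  set h : ℝ → ℝ := fun X => max (W0 X - √2 / 3 * (e + d * X)) w with hh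
  have hhc : Continuous h := hc.max continuous_const
  have hreg : Wlow e d w = regionBetween (fun _ => w) h (Ioc (-(1 / 2)) (1 / 2)) := by
    ext p
    unfold Wlow regionBetween
    simp only [mem_ofPred_eq, mem_Ioo, hh, lt_max_iff]
    constructor
    · rintro ⟨h1, h2, h3⟩; exact ⟨h1, h2, Or.inl h3⟩
    · rintro ⟨h1, h2, h3⟩
      rcases h3 with h3 | h3
      · exact ⟨h1, h2, h3⟩
      · exact absurd h2 (not_lt.2 h3.le)
  have hi : IntegrableOn h (Ioc (-(1 / 2) : ℝ) (1 / 2)) volume :=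
    (hhc.continuousOn.integrableOn_compact isCompact_Icc).mono_set Ioc_subset_Icc_self
  have hv := volume_regionBetween_eq_integral (μ := (volume : Measure ℝ)) (f := fun _ => w)
    (g := h) (s := Ioc (-(1 / 2) : ℝ) (1 / 2)) (by simp) hi measurableSet_Ioc
    (fun x _ => le_max_right _ _)
  have hv2 : volume.real (Wlow e d w) = ∫ y in Ioc (-(1 / 2) : ℝ) (1 / 2), (h y - w) := by
    rw [hreg, Measure.real]
    have h2 : (volume : Measure ℝ).prod (volume : Measure ℝ) = volume := rfl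
    rw [h2] at hv
    rw [hv, ENNReal.toReal_ofReal]
    · rfl
    · refine integral_nonneg fun y => ?_
      simp only [Pi.sub_apply, Pi.zero_apply, sub_nonneg]
      exact le_max_right _ _
  rw [hv2, ← intervalIntegral.integral_of_le (by norm_num), ← int_W0' e d w]
  refine intervalIntegral.integral_mono_on (by norm_num) ?_ ?_ fun x _ => ?_
  · exact (by have := W0_cont; fun_prop : Continuous fun x =>
      W0 x - √2 / 3 * (e + d * x) - w).intervalIntegrable _ _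
  · exact (hhc.sub continuous_const).intervalIntegrable _ _
  · have := le_max_left (W0 x - √2 / 3 * (e + d * x)) w
    simp only [hh]
    linarith

theorem Wup_area {e : ℝ} (he : 0 ≤ e) : volume.real (Wup e) = √2 / 2 * cz + √2 / 3 * e := by
  have hc : Continuous (fun X => W0 X + √2 / 3 * e) := by
    have := W0_cont; fun_prop
  have hi : IntegrableOn (fun X => W0 X + √2 / 3 * e) (Icc (-(1 / 2) : ℝ) (1 / 2)) volume :=
    hc.continuousOn.integrableOn_compact isCompact_Icc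
  have hpos : ∀ x ∈ Icc (-(1 / 2) : ℝ) (1 / 2), (0 : ℝ) ≤ W0 x + √2 / 3 * e := by
    intro x hx
    have h1 := (qw_W0 (X := x) (abs_le.2 ⟨hx.1, hx.2⟩)).1
    have h2 : 0 ≤ √2 / 3 * e := by positivity
    linarith
  have hv := volume_regionBetween_eq_integral (μ := (volume : Measure ℝ)) (f := fun _ => (0 : ℝ))
    (g := fun X => W0 X + √2 / 3 * e) (s := Icc (-(1 / 2) : ℝ) (1 / 2)) (by simp) hi
    measurableSet_Icc hpos
  have h2 : (volume : Measure ℝ).prod (volume : Measure ℝ) = volume := rfl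
  rw [h2] at hv
  unfold Wup
  rw [Measure.real, hv]
  have h3 : ∫ y in Icc (-(1 / 2) : ℝ) (1 / 2),
      (((fun X => W0 X + √2 / 3 * e) - fun _ => (0 : ℝ)) : ℝ → ℝ) y = √2 / 2 * cz + √2 / 3 * e := by
    rw [integral_Icc_eq_integral_Ioc, ← intervalIntegral.integral_of_le (by norm_num)]
    have h4 := int_W0' (-e) 0 0
    have h5 : ∫ x in (-(1 / 2) : ℝ)..(1 / 2), (W0 x - √2 / 3 * (-e + 0 * x) - 0) =
        ∫ x in (-(1 / 2) : ℝ)..(1 / 2), (((fun X => W0 X + √2 / 3 * e) - fun _ => (0 : ℝ)) : ℝ → ℝ) x := by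
      refine intervalIntegral.integral_congr fun x _ => ?_
      simp only [Pi.sub_apply]
      ring
    rw [← h5, h4]
    ring
  rw [h3, ENNReal.toReal_ofReal]
  rw [← h3]
  refine setIntegral_nonneg measurableSet_Icc fun x hx => ?_
  simp only [Pi.sub_apply, sub_zero]
  exact hpos x hx

theorem Wup_bdd (e : ℝ) : Bornology.IsBounded (Wup e) := by
  have h : Wup e ⊆ Icc (-(1 / 2)) (1 / 2) ×ˢ Icc 0 (1 + √2 / 3 * |e|) := by
    rintro ⟨X, W⟩ hp
    unfold Wup regionBetween at hp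
    simp only [mem_ofPred_eq, mem_Ioo] at hp
    obtain ⟨h1, h2, h3⟩ := hp
    refine ⟨h1, h2.le, ?_⟩
    have h4 := W0_le X
    have h5 : √2 / 3 * e ≤ √2 / 3 * |e| := mul_le_mul_of_nonneg_left (le_abs_self e) (by positivity)
    simp only
    linarith
  exact ((isBounded_Icc _ _).prod (isBounded_Icc _ _)).subset h

/-! ### the body -/

/-- hypotheses on the body at the edge `a1 a2`, in the coordinates `X, Y, W = Z - √2/4`;
`Q_i ≤ s_i` for the squared distances from the four vertices -/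
structure Bod (b : OrthonormalBasis (Fin 3) ℝ E3) (c : E3) (K : Set E3) (s1 s2 s3 s4 : ℝ) :
    Prop where
  comp : ∀ p : E3, (∀ q ∈ K, dist p q ≤ 1) → p ∈ K
  X_le : ∀ x ∈ K, |(co b c x).1| ≤ 1 / 2
  Y_le : ∀ x ∈ K, |(co b c x).2.1| ≤ 1 / 2
  W_le : ∀ x ∈ K, √2 * ((co b c x).2.2 - √2 / 4) ≤ 1 / 2
  Q1 : ∀ x ∈ K, (co b c x).1 ^ 2 + (co b c x).2.1 ^ 2 + ((co b c x).2.2 - √2 / 4) ^ 2
    - (co b c x).1 - 3 / 4 ≤ s1
  Q2 : ∀ x ∈ K, (co b c x).1 ^ 2 + (co b c x).2.1 ^ 2 + ((co b c x).2.2 - √2 / 4) ^ 2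
    + (co b c x).1 - 3 / 4 ≤ s2
  Q3 : ∀ x ∈ K, (co b c x).1 ^ 2 + (co b c x).2.1 ^ 2 + ((co b c x).2.2 - √2 / 4) ^ 2
    - (co b c x).2.1 + √2 * ((co b c x).2.2 - √2 / 4) - 1 / 4 ≤ s3
  Q4 : ∀ x ∈ K, (co b c x).1 ^ 2 + (co b c x).2.1 ^ 2 + ((co b c x).2.2 - √2 / 4) ^ 2
    + (co b c x).2.1 + √2 * ((co b c x).2.2 - √2 / 4) - 1 / 4 ≤ s4
  s1_nn : 0 ≤ s1
  s2_nn : 0 ≤ s2
  s3_nn : 0 ≤ s3
  s4_nn : 0 ≤ s4

/-- the identity of the wall criterion -/
theorem low_id {X W y l ε X' Y' W' : ℝ} (hy : √2 * y = W) (hε : ε * ε = 1) :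
    (X - X') ^ 2 + (ε * (y - l) - Y') ^ 2 + (W - W') ^ 2 - 1
        = (1 / 2 + y + X) * (X' ^ 2 + Y' ^ 2 + W' ^ 2 - X' - 3 / 4)
          + (1 / 2 + y - X) * (X' ^ 2 + Y' ^ 2 + W' ^ 2 + X' - 3 / 4)
          - 2 * y * (X' ^ 2 + (Y' + ε / 2) ^ 2 + (W' + √2 / 2) ^ 2)
          - (1 / 4 - (X ^ 2 + W ^ 2 + y ^ 2 + 3 * y))
          + (-2 * l * y + 2 * l * (ε * Y') + l ^ 2) := by
  have h2 := r2
  have e2 : (√2 / 2) ^ 2 = (1 / 2 : ℝ) := by linear_combination 1 / 4 * h2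
  have e3 : 2 * y * (W' * √2) = 2 * W * W' := by linear_combination 2 * W' * hy
  have e4 : (ε * (y - l) - Y') ^ 2 = (ε * ε) * (y - l) ^ 2 - 2 * (y - l) * (ε * Y') + Y' ^ 2 := by
    ring
  have e5 : (Y' + ε / 2) ^ 2 = Y' ^ 2 + ε * Y' + (ε * ε) / 4 := by ring
  have e6 : (W' + √2 / 2) ^ 2 = W' ^ 2 + W' * √2 + (√2 / 2) ^ 2 := by ring
  rw [e4, e5, e6, e2, hε]
  linear_combination e3

theorem low_poly {X W y l ε X' Y' W' s1 s2 r : ℝ} (hy : √2 * y = W) (hε : ε * ε = 1)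
    (hεY : ε * Y' ≤ 1 / 2) (hX : |X| ≤ 1 / 2) (hy0 : 0 ≤ y) (hysm : y ≤ 0.0774)
    (hl0 : 0 < l) (hl1 : l < r) (hr : r ≤ 1) (hs1 : 0 ≤ s1) (hs2 : 0 ≤ s2)
    (hq1 : X' ^ 2 + Y' ^ 2 + W' ^ 2 - X' - 3 / 4 ≤ s1)
    (hq2 : X' ^ 2 + Y' ^ 2 + W' ^ 2 + X' - 3 / 4 ≤ s2)
    (hq : X ^ 2 + W ^ 2 + y ^ 2 + 3 * y ≤ 1 / 4 - (0.5774 * (s1 + s2) + 2 * r + (s1 - s2) * X)) :
    (X - X') ^ 2 + (ε * (y - l) - Y') ^ 2 + (W - W') ^ 2 ≤ 1 := by
  obtain ⟨hXl, hXu⟩ := abs_le.1 hX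
  have hid := low_id (X := X) (l := l) (X' := X') (Y' := Y') (W' := W') hy hε
  have hb1 : 0 ≤ 1 / 2 + y + X := by linarith
  have hb2 : 0 ≤ 1 / 2 + y - X := by linarith
  have k1 := mul_le_mul_of_nonneg_left hq1 hb1
  have k2 := mul_le_mul_of_nonneg_left hq2 hb2
  have k3 : 0 ≤ 2 * y * (X' ^ 2 + (Y' + ε / 2) ^ 2 + (W' + √2 / 2) ^ 2) := by positivity
  have hl2 : l ^ 2 ≤ l := by
    rw [sq]; exact mul_le_of_le_one_left hl0.le (by linarith)
  have k4 : (1 / 2 + y) * (s1 + s2) ≤ 0.5774 * (s1 + s2) :=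
    mul_le_mul_of_nonneg_right (by linarith) (by linarith)
  have k5 : 2 * l * (ε * Y') ≤ 2 * l * (1 / 2) := mul_le_mul_of_nonneg_left hεY (by linarith)
  have k6 : 0 ≤ 2 * l * y := by positivity
  have k7 : (1 / 2 + y + X) * s1 + (1 / 2 + y - X) * s2 = (1 / 2 + y) * (s1 + s2) + (s1 - s2) * X := by
    ring
  linarith

variable {b c} in
theorem Iw_lower {K : Set E3} {s1 s2 s3 s4 : ℝ} (hK : IsCompact K) (h : Bod b c K s1 s2 s3 s4)
    {ε : ℝ} (hε : ε = 1 ∨ ε = -1) (m : ℕ) :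
    √2 / 2 * cz - √2 / 3 * (0.5774 * (s1 + s2) + 2 / (m + 1)) - √2 / (m + 1) ≤ Iw b c K ε m := by
  have hM : (0 : ℝ) < m + 1 := by positivity
  have hM1 : (1 : ℝ) / (m + 1) ≤ 1 := by
    rw [div_le_one hM]
    have : (0 : ℝ) ≤ m := Nat.cast_nonneg m
    linarith
  refine (Wlow_area (0.5774 * (s1 + s2) + 2 / (m + 1)) (s1 - s2) (√2 / (m + 1))).trans
    (wall_lower hM (hK.image (Tw_cont b c ε)) (Wlow_meas _ _ _) ?_)
  rintro ⟨X, W⟩ hr l ⟨hl0, hl1⟩
  have h2 := r2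
  have h2p : (0 : ℝ) < √2 := by positivity
  unfold Wlow regionBetween at hr
  simp only [mem_ofPred_eq, mem_Ioo, mem_Ioc] at hr
  obtain ⟨⟨hXl, hXu⟩, hWl, hWu⟩ := hr
  have hX : |X| ≤ 1 / 2 := abs_le.2 ⟨hXl.le, hXu⟩
  have hW0 : 0 < W := lt_trans (by positivity) hWl
  have hs1 := h.s1_nn
  have hs2 := h.s2_nn
  have he : 0 ≤ 0.5774 * (s1 + s2) + 2 / ((m : ℝ) + 1) + (s1 - s2) * X := by
    have h3 : 0 ≤ 2 / ((m : ℝ) + 1) := by positivity
    have h4 : 0 ≤ s1 * (0.5774 + X) := mul_nonneg hs1 (by linarith)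
    have h5 : 0 ≤ s2 * (0.5774 - X) := mul_nonneg hs2 (by linarith)
    have h6 : s1 * (0.5774 + X) + s2 * (0.5774 - X) =
      0.5774 * (s1 + s2) + (s1 - s2) * X := by ring
    linarith
  have hq := low_in hX hW0.le he hWu
  have hsqW : √2 * W > 2 / (m + 1) := by
    have h3 : √2 * (√2 / (m + 1)) < √2 * W := mul_lt_mul_of_pos_left hWl h2p
    have h4 : √2 * (√2 / ((m : ℝ) + 1)) = 2 / (m + 1) := by rw [← mul_div_assoc, h2]
    linarith
  have hMM : (2 : ℝ) / (m + 1) = 1 / (m + 1) + 1 / (m + 1) := by ring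
  refine ⟨?_, by simp only; linarith⟩
  -- the point
  set y := √2 / 2 * W with hy
  have hy0 : 0 < y := by positivity
  have hyW : √2 * y = W := by rw [hy]; linear_combination W / 2 * h2
  have hyy : y ^ 2 = W ^ 2 / 2 := by rw [← hyW]; linear_combination -(y ^ 2) / 2 * h2
  have hq' : X ^ 2 + W ^ 2 + y ^ 2 + 3 * y ≤
      1 / 4 - (0.5774 * (s1 + s2) + 2 / ((m : ℝ) + 1) + (s1 - s2) * X) := by
    have : qw X W = X ^ 2 + W ^ 2 + y ^ 2 + 3 * y := by
      unfold qw; rw [hyy, hy]; ring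
    rw [← this]; exact hq
  have hysm : y ≤ 0.0774 := by
    have h3 : 3 * y ^ 2 + 3 * y ≤ 1 / 4 := by nlinarith [sq_nonneg X]
    by_contra hcon
    rw [not_le] at hcon
    nlinarith
  obtain ⟨x, hx⟩ := co_surj b c (X, ε * (y - l), √2 / 4 + W)
  have hx1 : (co b c x).1 = X := by rw [hx]
  have hx2 : (co b c x).2.1 = ε * (y - l) := by rw [hx]
  have hx3 : (co b c x).2.2 = √2 / 4 + W := by rw [hx]
  have hεε : ε * ε = 1 := by rcases hε with h | h <;> rw [h] <;> norm_num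
  have hεa : |ε| = 1 := by rcases hε with h | h <;> rw [h] <;> simp
  refine ⟨x, h.comp x fun q hq => ?_, ?_⟩
  · have hn := norm_co b c x q
    rw [hx1, hx2, hx3] at hn
    set X' := (co b c q).1 with hX'
    set Y' := (co b c q).2.1 with hY'
    set W' := (co b c q).2.2 - √2 / 4 with hW'
    have hZ : √2 / 4 + W - (co b c q).2.2 = W - W' := by rw [hW']; ring
    rw [hZ] at hn
    have hq1 := h.Q1 q hq
    have hq2 := h.Q2 q hq
    have hYq := h.Y_le q hq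
    rw [← hX', ← hY', ← hW'] at hq1 hq2
    rw [← hY'] at hYq
    have hεY : ε * Y' ≤ 1 / 2 := by
      have h5 := le_abs_self (ε * Y')
      rw [abs_mul, hεa, one_mul] at h5
      linarith
    have hfin : (X - X') ^ 2 + (ε * (y - l) - Y') ^ 2 + (W - W') ^ 2 ≤ 1 := by
      have hq'' : X ^ 2 + W ^ 2 + y ^ 2 + 3 * y ≤
          1 / 4 - (0.5774 * (s1 + s2) + 2 * (1 / ((m : ℝ) + 1)) + (s1 - s2) * X) := by
        have : (2 : ℝ) * (1 / ((m : ℝ) + 1)) = 2 / (m + 1) := by ring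
        rw [this]; exact hq'
      exact low_poly hyW hεε hεY hX hy0.le hysm hl0 hl1 hM1 hs1 hs2 hq1 hq2 hq''
    rw [dist_eq_norm]
    have : ‖x - q‖ ^ 2 ≤ 1 ^ 2 := by rw [hn, one_pow]; exact hfin
    exact le_of_sq_le_sq this (by norm_num)
  · unfold Tw
    rw [hx1, hx2, hx3]
    have e1 : √2 / 4 + W - √2 / 4 = W := by ring
    rw [e1, ← hy]
    have e2 : y - ε * (ε * (y - l)) = l := by
      have : ε * (ε * (y - l)) = (ε * ε) * (y - l) := by ring
      rw [this, hεε]; ring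
    rw [e2]

variable {b c} in
theorem Iw_upper {K : Set E3} {s1 s2 s3 s4 s' : ℝ} (hK : IsCompact K)
    (h : Bod b c K s1 s2 s3 s4) (hs' : 0 ≤ s') {ε : ℝ} (hε : ε = 1 ∧ s4 ≤ s' ∨ ε = -1 ∧ s3 ≤ s')
    (m : ℕ) : Iw b c K ε m ≤ √2 / 2 * cz + √2 / 3 * (s' + 2 / (m + 1)) := by
  have hM : (0 : ℝ) < m + 1 := by positivity
  have he' : 0 ≤ s' + 2 / ((m : ℝ) + 1) := by positivity
  rw [← Wup_area he']
  refine wall_upper hM (hK.image (Tw_cont b c ε)) (Wup_meas _) (Wup_bdd _) ?_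
  rintro ⟨X, W⟩ l ⟨hl0, hl1⟩ ⟨x, hxK, hx⟩ hlW
  have h2 := r2
  simp only at hlW
  have hεε : ε * ε = 1 := by rcases hε with h | h <;> rw [h.1] <;> norm_num
  have e1 : (co b c x).1 = X := congrArg (fun q : (ℝ × ℝ) × ℝ => q.1.1) hx
  have e2 : (co b c x).2.2 - √2 / 4 = W := congrArg (fun q : (ℝ × ℝ) × ℝ => q.1.2) hx
  have e3 : √2 / 2 * ((co b c x).2.2 - √2 / 4) - ε * (co b c x).2.1 = l :=
    congrArg (fun q : (ℝ × ℝ) × ℝ => q.2) hx
  rw [e2] at e3
  have hX := h.X_le x hxK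
  have hW := h.W_le x hxK
  have hQ : (co b c x).1 ^ 2 + (co b c x).2.1 ^ 2 + ((co b c x).2.2 - √2 / 4) ^ 2
    + ε * (co b c x).2.1 + √2 * ((co b c x).2.2 - √2 / 4) - 1 / 4 ≤ s' := by
    rcases hε with ⟨h3, h4⟩ | ⟨h3, h4⟩
    · have := h.Q4 x hxK
      rw [h3]; linarith
    · have := h.Q3 x hxK
      rw [h3]; linarith
  rw [e1] at hX hQ
  rw [e2] at hW hQ
  set Y := (co b c x).2.1 with hY
  have hYl : ε * Y = √2 / 2 * W - l := by linarith
  have hY2 : Y ^ 2 = (√2 / 2 * W - l) ^ 2 := by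
    rw [← hYl]; linear_combination -(Y ^ 2) * hεε
  rw [hY2, hYl] at hQ
  have hlM : l * (1 + √2 * W) ≤ 3 / 2 * l := by
    have : l * (1 + √2 * W) ≤ l * (1 + 1 / 2) := mul_le_mul_of_nonneg_left (by linarith) hl0.le
    linarith
  have hqw : qw X W ≤ 1 / 4 + (s' + 3 / 2 * (1 / ((m : ℝ) + 1))) := by
    have h5 : qw X W = (X ^ 2 + (√2 / 2 * W - l) ^ 2 + W ^ 2 + (√2 / 2 * W - l) + √2 * W - 1 / 4)
        + 1 / 4 + l * (1 + √2 * W) - l ^ 2 := by
      unfold qw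
      linear_combination -(W ^ 2) / 4 * h2
    have h6 : 0 ≤ l ^ 2 := sq_nonneg l
    have h7 : 3 / 2 * l ≤ 3 / 2 * (1 / ((m : ℝ) + 1)) := by linarith
    linarith
  have hpos : (0 : ℝ) < 1 / ((m : ℝ) + 1) := by positivity
  have h8 : (2 : ℝ) / (m + 1) = 2 * (1 / ((m : ℝ) + 1)) := by ring
  have hup := up_in (e' := s' + 2 / ((m : ℝ) + 1)) hX (by positivity)
    (by rw [h8]; linarith) hqw
  unfold Wup regionBetween
  simp only [mem_ofPred_eq, mem_Ioo]
  refine ⟨abs_le.1 hX, ?_, hup⟩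
  by_contra hcon
  rw [not_lt] at hcon
  have : √2 * W ≤ 0 := mul_nonpos_of_nonneg_of_nonpos (by positivity) hcon
  linarith

theorem lim_inv : Tendsto (fun m : ℕ => (1 : ℝ) / (m + 1)) atTop (𝓝 0) :=
  tendsto_one_div_add_atTop_nhds_zero_nat

variable {b c} in
/-- **flux of the direction of the axis through the cell, lower bound** -/
theorem flux_Z_lower {σ : Measure (E3 × E3)} [IsFiniteMeasure σ] {K : Set E3} (hK : IsCompact K)
    (hσ : ∀ᵐ z ∂σ, z.1 ∈ K ∧ z.2 ∈ K) {n : ℕ∞}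
    (hU : ∀ G : E3 → E3, ContDiff ℝ n G → ∫ z, ⟪G z.1, z.1 - z.2⟫ ∂σ = ∫ x in K, dvg G x)
    {s1 s2 s3 s4 : ℝ} (h : Bod b c K s1 s2 s3 s4) :
    cz - 2 / 3 * 0.5774 * (s1 + s2) ≤
      ∫ z in {z | z.1 ∈ Cel (nuw b) (cw b c)}, ⟪b 2, z.1 - z.2⟫ ∂σ := by
  have hl := flux_lim b c hK hσ hU (b 2)
  have hlow : Tendsto (fun m : ℕ => √2 / 2 * (√2 / 2 * cz - √2 / 3 * (0.5774 * (s1 + s2)
      + 2 * (1 / ((m : ℝ) + 1))) - √2 * (1 / ((m : ℝ) + 1))) * 2) atTop
      (𝓝 (√2 / 2 * (√2 / 2 * cz - √2 / 3 * (0.5774 * (s1 + s2) + 2 * 0) - √2 * 0) * 2)) := by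
    have h1 := lim_inv
    exact (((tendsto_const_nhds.sub (((h1.const_mul 2).const_add _).const_mul _)).sub
      (h1.const_mul _)).const_mul _).mul_const _
  have hval : √2 / 2 * (√2 / 2 * cz - √2 / 3 * (0.5774 * (s1 + s2) + 2 * 0) - √2 * 0) * 2
      = cz - 2 / 3 * 0.5774 * (s1 + s2) := by
    have h2 := r2
    linear_combination (cz / 2 - 1 / 3 * (0.5774 * (s1 + s2))) * h2
  rw [hval] at hlow
  refine le_of_tendsto_of_tendsto' hlow hl fun m => ?_
  have h3 := Iw_lower hK h (Or.inl rfl) m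
  have h4 := Iw_lower hK h (Or.inr rfl) m
  have e1 : (2 : ℝ) / (m + 1) = 2 * (1 / ((m : ℝ) + 1)) := by ring
  have e2 : √2 / ((m : ℝ) + 1) = √2 * (1 / ((m : ℝ) + 1)) := by ring
  rw [e1, e2] at h3 h4
  have h5 : (0 : ℝ) ≤ √2 / 2 := by positivity
  rw [(nuw_b b 0).1, (nuw_b b 1).1]
  have h6 := mul_le_mul_of_nonneg_left h3 h5
  have h7 := mul_le_mul_of_nonneg_left h4 h5
  linarith

variable {b c} in
/-- **flux of the direction of the axis through the cell, upper bound** -/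
theorem flux_Z_upper {σ : Measure (E3 × E3)} [IsFiniteMeasure σ] {K : Set E3} (hK : IsCompact K)
    (hσ : ∀ᵐ z ∂σ, z.1 ∈ K ∧ z.2 ∈ K) {n : ℕ∞}
    (hU : ∀ G : E3 → E3, ContDiff ℝ n G → ∫ z, ⟪G z.1, z.1 - z.2⟫ ∂σ = ∫ x in K, dvg G x)
    {s1 s2 s3 s4 : ℝ} (h : Bod b c K s1 s2 s3 s4) :
    ∫ z in {z | z.1 ∈ Cel (nuw b) (cw b c)}, ⟪b 2, z.1 - z.2⟫ ∂σ ≤
      cz + 1 / 3 * (s3 + s4) := by
  have hl := flux_lim b c hK hσ hU (b 2)
  have hlow : Tendsto (fun m : ℕ => √2 / 2 * (√2 / 2 * cz + √2 / 3 * (s4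
      + 2 * (1 / ((m : ℝ) + 1)))) + √2 / 2 * (√2 / 2 * cz + √2 / 3 * (s3
      + 2 * (1 / ((m : ℝ) + 1))))) atTop
      (𝓝 (√2 / 2 * (√2 / 2 * cz + √2 / 3 * (s4 + 2 * 0)) +
        √2 / 2 * (√2 / 2 * cz + √2 / 3 * (s3 + 2 * 0)))) := by
    have h1 := lim_inv
    exact (((((h1.const_mul 2).const_add _).const_mul _).const_add _).const_mul _).add
      (((((h1.const_mul 2).const_add _).const_mul _).const_add _).const_mul _)
  have hval : √2 / 2 * (√2 / 2 * cz + √2 / 3 * (s4 + 2 * 0)) +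
        √2 / 2 * (√2 / 2 * cz + √2 / 3 * (s3 + 2 * 0)) = cz + 1 / 3 * (s3 + s4) := by
    have h2 := r2
    linear_combination (cz / 2 + 1 / 6 * (s3 + s4)) * h2
  rw [hval] at hlow
  refine le_of_tendsto_of_tendsto' hl hlow fun m => ?_
  have h3 := Iw_upper hK h h.s4_nn (Or.inl ⟨rfl, le_rfl⟩) m
  have h4 := Iw_upper hK h h.s3_nn (Or.inr ⟨rfl, le_rfl⟩) m
  have e1 : (2 : ℝ) / (m + 1) = 2 * (1 / ((m : ℝ) + 1)) := by ring
  rw [e1] at h3 h4
  have h5 : (0 : ℝ) ≤ √2 / 2 := by positivity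
  rw [(nuw_b b 0).1, (nuw_b b 1).1]
  have h6 := mul_le_mul_of_nonneg_left h3 h5
  have h7 := mul_le_mul_of_nonneg_left h4 h5
  linarith

variable {b c} in
/-- **flux of the transversal direction through the cell** -/
theorem flux_Y {σ : Measure (E3 × E3)} [IsFiniteMeasure σ] {K : Set E3} (hK : IsCompact K)
    (hσ : ∀ᵐ z ∂σ, z.1 ∈ K ∧ z.2 ∈ K) {n : ℕ∞}
    (hU : ∀ G : E3 → E3, ContDiff ℝ n G → ∫ z, ⟪G z.1, z.1 - z.2⟫ ∂σ = ∫ x in K, dvg G x)
    {s1 s2 s3 s4 : ℝ} (h : Bod b c K s1 s2 s3 s4) :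
    - (√2 / 3 * (0.5774 * (s1 + s2) + s4)) ≤
      ∫ z in {z | z.1 ∈ Cel (nuw b) (cw b c)}, ⟪b 1, z.1 - z.2⟫ ∂σ ∧
    ∫ z in {z | z.1 ∈ Cel (nuw b) (cw b c)}, ⟪b 1, z.1 - z.2⟫ ∂σ ≤
      √2 / 3 * (0.5774 * (s1 + s2) + s3) := by
  have hl := flux_lim b c hK hσ hU (b 1)
  rw [(nuw_b b 0).2.1, (nuw_b b 0).2.2] at hl
  have h1 := lim_inv
  -- the difference of the bounds
  have hb : ∀ m : ℕ, Iw b c K (-1) m - Iw b c K 1 m ≤ √2 / 3 * (0.5774 * (s1 + s2) + s3
      + 4 * (1 / ((m : ℝ) + 1))) + √2 * (1 / ((m : ℝ) + 1)) ∧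
      -(√2 / 3 * (0.5774 * (s1 + s2) + s4
      + 4 * (1 / ((m : ℝ) + 1))) + √2 * (1 / ((m : ℝ) + 1))) ≤
        Iw b c K (-1) m - Iw b c K 1 m := by
    intro m
    have h3 := Iw_upper hK h h.s4_nn (Or.inl ⟨rfl, le_rfl⟩) m
    have h4 := Iw_upper hK h h.s3_nn (Or.inr ⟨rfl, le_rfl⟩) m
    have h5 := Iw_lower hK h (Or.inl rfl) m
    have h6 := Iw_lower hK h (Or.inr rfl) m
    have e1 : (2 : ℝ) / (m + 1) = 2 * (1 / ((m : ℝ) + 1)) := by ring
    have e2 : √2 / ((m : ℝ) + 1) = √2 * (1 / ((m : ℝ) + 1)) := by ring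
    rw [e1, e2] at h5 h6
    rw [e1] at h3 h4
    constructor <;> linarith
  have hlim : ∀ e : ℝ, Tendsto (fun m : ℕ => √2 / 3 * (e + 4 * (1 / ((m : ℝ) + 1)))
      + √2 * (1 / ((m : ℝ) + 1))) atTop (𝓝 (√2 / 3 * e)) := by
    intro e
    have h7 := (((h1.const_mul 4).const_add e).const_mul (√2 / 3)).add (h1.const_mul √2)
    simpa using h7
  constructor
  · refine le_of_tendsto_of_tendsto' (hlim _).neg hl fun m => ?_
    have := (hb m).2
    linarith
  · refine le_of_tendsto_of_tendsto' hl (hlim _) fun m => ?_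
    have := (hb m).1
    linarith

end Helper21.Sec
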