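import Pool.Agent.Helper21.MEI.JBil
import Pool.Agent.Helper31.SR.IntC
import Pool.Agent.Helper72.MEI.JGen

/-!
# Project MEI (M2), track B: the couplings seen from the faces

`tf i` = the labelling of
the face of `i`; `pf3 κ i p k` = product of the couplings in the moment of the arc `p` of the face
of `i` at the end `k`; `sum_faces`: the prices of the four faces are the three bilinear forms.
-/

set_option autoImplicit false

namespace Helper21.Sk

open Set MeasureTheory
open Pool.Agent.Helper31.SR Pool.Agent.Helper31.SR.IntB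
open Helper41.MEI Helper37.MEI
open Helper72.J (kap4)

/-- the labelling of the face of `i` -/
def tf : Fin 4 → Fin 4 → Fin 4
  | 0 => ![0, 1, 2, 3]
  | 1 => ![1, 0, 2, 3]
  | 2 => ![2, 0, 1, 3]
  | 3 => ![3, 0, 1, 2]

theorem tf_bij : ∀ i, Function.Bijective (tf i) := by decide

/-- the same as a permutation -/
noncomputable def tq (i : Fin 4) : Equiv.Perm (Fin 4) := Equiv.ofBijective (tf i) (tf_bij i)

theorem tq_apply (i k : Fin 4) : tq i k = tf i k := rfl

theorem tq_zero (i : Fin 4) : tq i 0 = i := by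
  rw [tq_apply]
  revert i
  decide

/-- the third corner of a face -/
def th : Fin 3 → Fin 3 → Fin 3
  | 0 => ![0, 2, 1]
  | 1 => ![2, 1, 0]
  | 2 => ![1, 0, 2]

/-- the coupling product of the arc `p` of the face of `i`, end `k` -/
def pf3 (κ : Fin 3 → Bool → Bool → ℝ) (i : Fin 4) (p k : Fin 3) : ℝ :=
  (1 - kap4 κ i (tf i p.succ)) * kap4 κ (tf i k.succ) (tf i (th p k).succ)

/-- a price array: `G i l k` = price of the moment of the arc `(i; l)` at the end `k` -/
def gG (G : Fin 4 → Fin 4 → Fin 4 → ℝ) (m : Fin 3) (e b c : Bool) : ℝ :=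
  G (vx m e b) (vx m e (!b)) (vx m (!e) c)

/-- sum over the six ends of a face -/
def s6 (f : Fin 3 → Fin 3 → ℝ) : ℝ := (f 0 1 + f 0 2) + (f 1 0 + f 1 2) + (f 2 0 + f 2 1)

/-- **the prices of the four faces are the three bilinear forms** -/
theorem sum_faces (κ : Fin 3 → Bool → Bool → ℝ) (G : Fin 4 → Fin 4 → Fin 4 → ℝ) :
    ∑ i, s6 (fun p k => pf3 κ i p k * G i (tf i p.succ) (tf i k.succ)) =
      ∑ m, bil (κ m) (gG G m) := by
  simp only [Fin.sum_univ_four, Fin.sum_univ_three, s6, pf3, kap4, tf, th, bil, gG, vx,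
    Fintype.sum_bool]
  simp [idx, Pool.Agent.Helper73.MEI.pf]
  ring

end Helper21.Sk
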