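import Pool.Agent.Helper21.MEI.SkA
import Pool.Agent.Helper21.MEI.FVr

/-!
# Project MEI (M2), track B: the core statement on a piece of the states

`PD` = numbers of the four faces on a piece, `PD.Ok` = what they satisfy, `Sys` = what the loss
system of a body satisfies, `coreP_sk` = the core statement from numbers, certificates, cost.
-/

set_option autoImplicit false

namespace Helper21.Sk

open Set Metric MeasureTheory Filter Topology Helper93.MEI Helper80.CW Helper14.CW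
open Helper14.MEI2 Pool.Agent.Helper73.MEI Helper82.M2 Helper82.CW Helper41.MEI
open Pool.Agent.Helper31.SR Helper37.MEI
open Helper33.MEI (Wi)
open Helper78.MEI
open Helper13.PLM (StX stX)
open Pool.Agent.Helper31.SR.IntB
open Pool.Agent.Helper31.SR.IntC
open Helper72.J (kap4)
open Pool.Agent.Helper55.Apex (nc)
open Pool.Agent.Helper73.MEI.SideP
open Pool.Agent.Helper73.MEI.ArCor
open Helper21.FVe (CertT row_faceT)
open scoped RealInnerProductSpace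

variable {ι : Type} [Fintype ι]

/-- **the numbers of the four faces on a piece**; `i` = the face, `v` = a vertex of the piece,
`p` = arc, `k` = column (`0, 1, 2` = the other vertices in increasing order) -/
structure PD (ι : Type) where
  /-- caps -/
  D : Fin 4 → Fin 3 → ℝ
  /-- columns -/
  tt : Fin 4 → Fin 3 → ℝ
  /-- a bound of the own level -/
  sM : Fin 4 → ℝ
  /-- a bound of the capacities -/
  rb : Fin 4 → ℝ
  /-- the smaller one of the levels `i` and `k` -/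
  mx : Fin 4 → Fin 3 → Fin 4
  /-- prices of the caps -/
  μ : Fin 4 → Fin 3 → ℝ
  /-- weight of the apex by classes -/
  g : Fin 4 → Option (Fin 3) → (Fin 3 → Fin 3 → ℝ) → ℝ
  /-- capacities of the arcs at the vertices -/
  ρ : Fin 4 → ι → Fin 3 → ℝ
  /-- share of the moment without the coupled part -/
  w0 : Fin 4 → Fin 3 → Fin 3 → ℝ
  /-- share of the full moment -/
  w1 : Fin 4 → Fin 3 → Fin 3 → ℝ
  /-- prices of the couplings: arc `(i, l)`, end `k` -/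
  G : ι → Fin 4 → Fin 4 → Fin 4 → ℝ
  /-- cost of the second order term -/
  cost : Fin 4 → ι → Option (Fin 3) → Fin 3 → Fin 3 → (Fin 3 → Fin 3 → ℝ) → ℝ
  /-- values of the faces -/
  m : Fin 4 → ι → ℝ
  /-- third columns -/
  dE : Fin 4 → ι → ℝ
  dm : Fin 4 → ι → ℝ

/-- **what the numbers satisfy**: `Xs` bound of the sum of the levels, `V` the vertices,
`Kp` the admissible couplings, `bb` the bound of the prices of the couplings -/
structure PD.Ok (d : PD ι) (Xs qm nb K0 K1 e r V0 ε k1 k12 c0 c1 : ℝ)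
    (V : ι → Fin 4 → ℝ) (Kp : (Fin 3 → Bool → Bool → ℝ) → Prop) (bb : ι → ℝ) : Prop where
  st : ∀ i, Stc Xs qm nb K0 K1 e (d.rb i) r V0 (d.D i) (d.tt i)
  mx : ∀ i k, d.mx i k = i ∨ d.mx i k = tf i k.succ
  ρ : ∀ i v p, 0 < d.ρ i v p ∧ d.ρ i v p ≤ d.rb i
  w : ∀ i p k, 0 ≤ d.w0 i p k ∧ d.w0 i p k ≤ d.w1 i p k ∧ d.w1 i p k ≤ 1
  G : ∀ v i l k, 0 ≤ d.G v i l k
  μ : ∀ i k, 0 ≤ d.μ i k
  g : ∀ i cl, ∀ N : Fin 3 → Fin 3 → ℝ, (∀ k m, 0 ≤ N k m) → (∀ k, N k k = 0) →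
    (∀ k, nc N k ≤ d.tt i k) → 0 ≤ d.g i cl N ∧
      MasB 2.04 (d.sM i) r V0 (phiN 2.04 (d.rb i) (TN N) (QN N)) (d.g i cl N) N cl
  cert : ∀ i v, CertT 2.04 ε k1 (k12 - k1) K0 K1 (d.tt i) (d.ρ i v) (d.w0 i) (d.w1 i)
    (fun p k => d.G v i (tf i p.succ) (tf i k.succ)) (DomF (d.D i) (d.tt i)) (d.g i) (d.μ i)
    (V v i) (fun k => V v (tf i k.succ)) (fun k => V v (d.mx i k)) (d.cost i v) (d.m i v)
  dE : ∀ i v, 0 ≤ d.dE i v
  dm : ∀ i v, 0 ≤ d.dm i v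
  pr : ∀ v κ, Kp κ → (∑ m, bil (κ m) (gG (d.G v) m)) + 3 * ∑ i, d.dE i v ≤ bb v
  num : ∀ v, nd c0 c1 (V v) + bb v ≤ ∑ i, d.m i v

/-- **what the loss system of a body satisfies**, `κ` the couplings -/
structure Sys (d : PD ι) (σ : Measure (E3 × E3)) (a : Fin 4 → E3) (lam : ι → ℝ)
    (l : Fin 3 → Bool → Bool → E3 × E3 → ℝ) (κ : Fin 3 → Bool → Bool → ℝ) : Prop where
  ok : Lok a l
  k01 : ∀ m e b, 0 ≤ κ m e b ∧ κ m e b ≤ 1
  col : ∀ i p k, k ≠ p → MA σ a l (tq i) p k ≤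
    (d.w0 i p k + pf3 κ i p k * (d.w1 i p k - d.w0 i p k)) * ∑ v, lam v * d.ρ i v p
  dia : ∀ i p, ∃ δ, MA σ a l (tq i) p p ≤ δ ∧
    δ ^ 2 ≤ (∑ v, lam v * d.dE i v) * ∑ v, lam v * d.dm i v

/-- **the cost of the faces of a body** -/
def Cst (d : PD ι) (K0 K1 ε k1 k12 : ℝ) (σ : Measure (E3 × E3)) (a : Fin 4 → E3) (K : Set E3)
    (S : Fin 4 → ℝ) (lam : ι → ℝ) (l : Fin 3 → Bool → Bool → E3 × E3 → ℝ)
    (z : Fin 4 → Fin 4 → E3) : Prop :=
  ∀ i, ∀ x ∈ K, (Qv a i x = S i ∨ S i = 0) → ∀ N : Fin 3 → Fin 3 → ℝ,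
    N = NM (fun j => a (tq i j)) (fun j j' => z (tq i j) (tq i j')) →
    ∀ j j' : Fin 3, j ≠ j' → PosB a (tq i) x N (d.tt i) k1 k12 ε (S i) j j' →
    ∀ cl, ClsB a (tq i) x N cl →
    WCF 2.04 σ a K l (tq i) z S x N (Rv (d.tt i) N) (phiN 2.04 (d.rb i) (TN N) (QN N))
      (bt 2.04 (kv K0 K1 N) (fun p => ∑ v, lam v * d.ρ i v p))
      (fun _ => ∑ v, lam v * d.dE i v) (fun _ => ∑ v, lam v * d.dm i v)
      (∑ v, lam v * d.cost i v cl j j' N)

theorem pf3_01 {κ : Fin 3 → Bool → Bool → ℝ} (h : ∀ m e b, 0 ≤ κ m e b ∧ κ m e b ≤ 1)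
    (i : Fin 4) (p k : Fin 3) : 0 ≤ pf3 κ i p k ∧ pf3 κ i p k ≤ 1 := by
  unfold pf3 kap4
  obtain ⟨a0, a1⟩ := h (idx i (tf i p.succ)).1 (idx i (tf i p.succ)).2.1
    (idx i (tf i p.succ)).2.2
  obtain ⟨b0, b1⟩ := h (idx (tf i k.succ) (tf i (th p k).succ)).1
    (idx (tf i k.succ) (tf i (th p k).succ)).2.1 (idx (tf i k.succ) (tf i (th p k).succ)).2.2
  refine ⟨mul_nonneg (by linarith) b0, mul_le_one₀ (by linarith) b0 b1⟩

/-- **THE CORE STATEMENT ON A PIECE** -/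
theorem coreP_sk {X κ c0 c1 Xs rm qm nb ρ1 Rb gg ε k1 k12 t2 δ K0 K1 e r V0 : ℝ} (hκ : 0 ≤ κ)
    {P : (Fin 4 → ℝ) → Prop} (V : ι → Fin 4 → ℝ)
    (hV0 : ∀ v i, 0 ≤ V v i) (hP : ∀ S : Fin 4 → ℝ, (∀ i, 0 ≤ S i) → P S → ∃ lam, Dc V S lam)
    (hc : ∀ S : Fin 4 → ℝ, (∀ i, 0 ≤ S i) → P S →
      1.85e-4 + (0.0039 + 4.08 * κ) * ∑ i, S i ≤ c0 + c1 * ∑ i, S i)
    (hR : Rn Xs rm qm nb ρ1 Rb gg ε k1 k12 t2 δ)
    (hXs : ∀ S : Fin 4 → ℝ, (∀ i, 0 ≤ S i) → P S → ∑ i, S i ≤ Xs)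
    {Kp : (Fin 3 → Bool → Bool → ℝ) → Prop} {b : ι → ℝ} (d : PD ι)
    (hd : d.Ok Xs qm nb K0 K1 e r V0 ε k1 k12 c0 c1 V Kp b)
    (hsM : ∀ S : Fin 4 → ℝ, (∀ i, 0 ≤ S i) → P S → ∀ i, S i ≤ d.sM i)
    (hD : ∀ S : Fin 4 → ℝ, (∀ i, 0 ≤ S i) → P S → ∀ i (k : Fin 3),
      S i ≤ d.D i k ∨ S (tf i k.succ) ≤ d.D i k)
    (H : ∀ (K : Set E3) (σ : Measure (E3 × E3)), IsFiniteMeasure σ →
      ∀ a c : Fin 4 → E3, CN K σ a c → EpsLe c X → ∀ S : Fin 4 → ℝ, Viol K a S → P S →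
      ∀ lam, Dc V S lam →
      ∀ B : Fin 3 → Bool → OrthonormalBasis (Fin 3) ℝ E3,
      (∀ m e, Fr (fun i => a (pr m e i)) (B m e)) →
      ∃ (l : Fin 3 → Bool → Bool → E3 × E3 → ℝ) (κs : Fin 3 → Bool → Bool → ℝ),
        TL σ a B l 0 ∧ Kp κs ∧ Sys d σ a lam l κs ∧
        ∀ z : Fin 4 → Fin 4 → E3, CV a K z → Cst d K0 K1 ε k1 k12 σ a K S lam l z) :
    CoreP P X κ := by
  refine coreP_X hκ V hV0 hP hc d.m b hd.num ?_
  intro K σ hσ a c hC hX S hv hS lam hlam B hB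
  obtain ⟨l, κs, hT, hKp, hsys, hcst⟩ := H K σ hσ a c hC hX S hv hS lam hlam B hB
  obtain ⟨z, hz⟩ := cv_exists hC
  have hW := hcst z hz
  have h01 := hsys.k01
  have row : ∀ i, ∃ F : ℝ, LLs σ a l i + F ≤ Wi a i K σ 3.83 ∧
      ∑ v, lam v * (d.m i v - ((Helper21.FVe.s6 fun p k => pf3 κs i p k *
        d.G v i (tf i p.succ) (tf i k.succ)) + 3 * d.dE i v)) ≤ F := by
    intro i
    have e0 : tq i 0 = i := tq_zero i
    have hsum : S (tq i 0) + (S (tq i 1) + S (tq i 2) + S (tq i 3)) ≤ Xs := by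
      have h1 := hXs S hv.nn hS
      rw [← Equiv.sum_comp (tq i) S, Fin.sum_univ_four] at h1
      linarith
    obtain ⟨δ3, hδ1, hδ2⟩ : ∃ δ3 : Fin 3 → ℝ, (∀ p, MA σ a l (tq i) p p ≤ δ3 p) ∧
        ∀ p, δ3 p ^ 2 ≤ (∑ v, lam v * d.dE i v) * ∑ v, lam v * d.dm i v := by
      choose f hf1 hf2 using fun p => hsys.dia i p
      exact ⟨f, hf1, hf2⟩
    have hE0 : 0 ≤ ∑ v, lam v * d.dE i v :=
      Finset.sum_nonneg fun v _ => mul_nonneg (hlam.nn v) (hd.dE i v)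
    have hm0 : 0 ≤ ∑ v, lam v * d.dm i v :=
      Finset.sum_nonneg fun v _ => mul_nonneg (hlam.nn v) (hd.dm i v)
    have key := row_faceT hR hC hv hz (tq i) hsum hsys.ok (δ3 := δ3)
      (dE := fun _ => ∑ v, lam v * d.dE i v) (dm := fun _ => ∑ v, lam v * d.dm i v)
      hδ1 (fun _ => hE0) (fun _ => hm0) hδ2 (hd.st i)
      (fun k => by
        rw [e0]
        exact hD S hv.nn hS i k)
      hlam.nn hlam.one (W := V) hlam.eq (mx := d.mx i)
      (fun k => by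
        rw [e0]
        exact hd.mx i k)
      (ρv := d.ρ i) (fun v p => (hd.ρ i v p).1) (fun v p => (hd.ρ i v p).2)
      (w0 := d.w0 i) (w1 := d.w1 i) (π := pf3 κs i)
      (γ := fun v p k => d.G v i (tf i p.succ) (tf i k.succ))
      (fun p k => (hd.w i p k).1) (fun p k => (hd.w i p k).2.1) (fun p k => (hd.w i p k).2.2)
      (fun v p k => hd.G v i _ _) (fun p k => (pf3_01 h01 i p k).1)
      (fun p k => (pf3_01 h01 i p k).2) (ρ := fun p => ∑ v, lam v * d.ρ i v p)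
      (fun p => rfl) (fun p k hk => hsys.col i p k hk) (g := d.g i)
      (fun cl N n1 n2 n3 => (hd.g i cl N n1 n2 n3).1)
      (fun cl N n1 n2 n3 => by
        obtain ⟨g1, g2⟩ := hd.g i cl N n1 n2 n3
        rw [e0]
        cases cl with
        | none =>
          have h3 : d.g i none N * √(1 + d.sM i) ≤
              2.04 * (1 - phiN 2.04 (d.rb i) (TN N) (QN N)) *
                (1872 / 10000 * Pool.Agent.Helper55.TentL.PC N) := g2
          have h4 := mul_le_mul_of_nonneg_left (Real.sqrt_le_sqrt (show 1 + S i ≤ 1 + d.sM i by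
            linarith [hsM S hv.nn hS i])) g1
          exact h4.trans h3
        | some q => exact g2)
      (μ := d.μ i) (hd.μ i) (cost := d.cost i) (m := d.m i)
      (fun v => by
        rw [e0]
        exact hd.cert i v)
      (fun x hx hxs N hN j j' hj hp cl hcl => by
        rw [e0] at hxs hp
        exact hW i x hx hxs N hN j j' hj hp cl hcl)
    obtain ⟨F, f1, f2⟩ := key
    rw [e0] at f1
    refine ⟨F, f1, le_trans (le_of_eq ?_) f2⟩
    have e1 : ∀ v, lam v * (d.m i v - ((Helper21.FVe.s6 fun p k => pf3 κs i p k *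
        d.G v i (tf i p.succ) (tf i k.succ)) + 3 * d.dE i v)) =
        lam v * (d.m i v - Helper21.FVe.s6 fun p k => pf3 κs i p k *
        d.G v i (tf i p.succ) (tf i k.succ)) - 3 * (lam v * d.dE i v) := fun v => by ring
    simp only [e1]
    rw [Finset.sum_sub_distrib, ← Finset.mul_sum]
    ring
  choose F hF1 hF2 using row
  refine ⟨l, F, fun i v => (Helper21.FVe.s6 fun p k => pf3 κs i p k *
        d.G v i (tf i p.succ) (tf i k.succ)) + 3 * d.dE i v, hT, fun v => ?_, hF1, hF2⟩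
  have h1 := hd.pr v κs hKp
  have h2 := sum_faces κs (d.G v)
  rw [Finset.sum_add_distrib, ← Finset.mul_sum]
  have h3 : (∑ i, Helper21.FVe.s6 fun p k => pf3 κs i p k *
      d.G v i (tf i p.succ) (tf i k.succ)) = ∑ m, bil (κs m) (gG (d.G v) m) := h2
  rw [h3]
  exact h1

end Helper21.Sk
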