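import Pool.Agent.Helper21.MEI.SkB
import Pool.Agent.Helper41.MEI.ArcY

/-!
# Project MEI (M2), track B: the core statement on a piece, no couplings

`colA` = an affine bound of a column of an arc; `coreP_N` = the core statement on a piece with
levels at most `0.026` from numbers, certificates and the cost, losses `l2`.
-/

set_option autoImplicit false

namespace Helper21.Sk

open Set Metric MeasureTheory Filter Topology Helper93.MEI Helper80.CW Helper14.CW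
open Helper14.MEI2 Pool.Agent.Helper73.MEI Helper82.M2 Helper82.CW Helper41.MEI
open Pool.Agent.Helper31.SR Helper37.MEI
open Helper33.MEI (Wi)
open Helper78.MEI
open Helper13.PLM (StX stX)
open Pool.Agent.Helper31.SR.IntB
open Pool.Agent.Helper31.SR.IntC
open Helper72.J (kap4)
open Pool.Agent.Helper55.Apex (nc)
open Pool.Agent.Helper73.MEI.SideP
open Pool.Agent.Helper73.MEI.ArCor
open Helper41.ArcT (sS)
open Helper41.ArcY (MA_6 c93)
open scoped RealInnerProductSpace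

variable {ι : Type} [Fintype ι]

/-- an affine bound of the column `k` of the arc `p` of the face `i`; `th p k` the other end -/
noncomputable def colA (C Cj Ck C0 Cp : ℝ) (S : Fin 4 → ℝ) (i : Fin 4) (p k : Fin 3) : ℝ :=
  C + Cj * S (tf i (th p k).succ) + Ck * S (tf i k.succ) + C0 * S i + Cp * S (tf i p.succ)

theorem th_ne : ∀ p k : Fin 3, k ≠ p → th p k ≠ p ∧ th p k ≠ k := by decide

/-- an affine function from the vertices -/
theorem colA_eq {V : ι → Fin 4 → ℝ} {S : Fin 4 → ℝ} {lam : ι → ℝ} (h : Dc V S lam)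
    (C Cj Ck C0 Cp : ℝ) (i : Fin 4) (p k : Fin 3) :
    colA C Cj Ck C0 Cp S i p k = ∑ v, lam v * colA C Cj Ck C0 Cp (V v) i p k := by
  unfold colA
  have e : ∀ v, lam v * (C + Cj * V v (tf i (th p k).succ) + Ck * V v (tf i k.succ) +
      C0 * V v i + Cp * V v (tf i p.succ)) = C * lam v + Cj * (lam v * V v (tf i (th p k).succ)) +
      Ck * (lam v * V v (tf i k.succ)) + C0 * (lam v * V v i) +
      Cp * (lam v * V v (tf i p.succ)) := fun v => by ring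
  simp only [e, Finset.sum_add_distrib, ← Finset.mul_sum, h.one, ← h.eq]
  ring

/-- from the vertices to the state -/
theorem colA_le {V : ι → Fin 4 → ℝ} {S : Fin 4 → ℝ} {lam : ι → ℝ} (h : Dc V S lam)
    {C Cj Ck C0 Cp w : ℝ} {i : Fin 4} {p k : Fin 3} {ρ : ι → ℝ}
    (hv : ∀ v, colA C Cj Ck C0 Cp (V v) i p k ≤ w * ρ v) :
    colA C Cj Ck C0 Cp S i p k ≤ w * ∑ v, lam v * ρ v := by
  rw [colA_eq h, Finset.mul_sum]
  refine Finset.sum_le_sum fun v _ => ?_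
  have := mul_le_mul_of_nonneg_left (hv v) (h.nn v)
  linarith

/-- **the losses without couplings** -/
theorem sys_l2 {d : PD ι} {K : Set E3} {σ : Measure (E3 × E3)} [IsFiniteMeasure σ]
    {a c : Fin 4 → E3} (hC : CN K σ a c) {S : Fin 4 → ℝ} (hv : Viol K a S)
    {B : Fin 3 → Bool → OrthonormalBasis (Fin 3) ℝ E3}
    (hB : ∀ m e, Fr (fun i => a (pr m e i)) (B m e)) {V : ι → Fin 4 → ℝ} {lam : ι → ℝ}
    (hl : Dc V S lam) (hS : ∑ i, S i ≤ 0.0604) (hS1 : ∀ i, S i ≤ 0.026) {t θ : ℝ} (t0 : 0 ≤ t)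
    (t1 : t ≤ 3 / 10) (u0 : 0 ≤ θ) (u1 : θ ≤ 1)
    (hm : ∀ i v p k, k ≠ p → colA (c93 t θ + 0.00194) (0.3358 - 0.5798 * t) 0.0484
      (0.09927 + 0.02322 * θ + 0.00823 * θ ^ 2) (0.08338 + 0.01992 * θ + 0.00734 * θ ^ 2)
      (V v) i p k ≤ d.w0 i p k * d.ρ i v p)
    (hdE : ∀ i v, 0 ≤ d.dE i v) (hdm : ∀ i v, 0 ≤ d.dm i v) :
    Sys d σ a lam (l2 a) 0 where
  ok := l2_ok hC.ha
  k01 m e b := ⟨le_rfl, zero_le_one⟩
  col i p k hk := by
    have hT : sS S ≤ 0.0604 := by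
      rw [Fin.sum_univ_four] at hS
      exact hS
    have h1 := MA_6 hC.ha hC.pm hC.hull hC.hp hB hv.nn hv.le (l2_ok hC.ha) hT t0 t1 u0 u1
      (tq i) hk (th_ne p k hk).1 (th_ne p k hk).2
    have e0 : pf3 (0 : Fin 3 → Bool → Bool → ℝ) i p k = 0 := by
      unfold pf3 kap4
      simp
    rw [e0, zero_mul, add_zero]
    rw [tq_zero] at h1
    exact h1.trans (colA_le hl fun v => hm i v p k hk)
  dia i p := by
    refine ⟨0, ?_, ?_⟩
    · rw [MA_third hC.ha hC.cpt hC.pm.mem hC.hp (tq i) (fun x hx => (hv.le _ x hx).trans (hS1 _)) p]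
    · rw [zero_pow (by norm_num)]
      exact mul_nonneg (Finset.sum_nonneg fun v _ => mul_nonneg (hl.nn v) (hdE i v))
        (Finset.sum_nonneg fun v _ => mul_nonneg (hl.nn v) (hdm i v))

/-- **THE CORE STATEMENT ON A PIECE, NO COUPLINGS**: levels at most `0.026` -/
theorem coreP_N {X κ c0 c1 Xs rm qm nb ρ1 Rb gg ε k1 k12 t2 δ K0 K1 e r V0 : ℝ} (hκ : 0 ≤ κ)
    {P : (Fin 4 → ℝ) → Prop} (V : ι → Fin 4 → ℝ)
    (hV0 : ∀ v i, 0 ≤ V v i) (hP : ∀ S : Fin 4 → ℝ, (∀ i, 0 ≤ S i) → P S → ∃ lam, Dc V S lam)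
    (hc : ∀ S : Fin 4 → ℝ, (∀ i, 0 ≤ S i) → P S →
      1.85e-4 + (0.0039 + 4.08 * κ) * ∑ i, S i ≤ c0 + c1 * ∑ i, S i)
    (hR : Rn Xs rm qm nb ρ1 Rb gg ε k1 k12 t2 δ) (hXs1 : Xs ≤ 0.0604)
    (hXs : ∀ S : Fin 4 → ℝ, (∀ i, 0 ≤ S i) → P S → ∑ i, S i ≤ Xs)
    {b : ι → ℝ} (d : PD ι)
    (hd : d.Ok Xs qm nb K0 K1 e r V0 ε k1 k12 c0 c1 V (fun κ => κ = 0) b)
    (hsM : ∀ S : Fin 4 → ℝ, (∀ i, 0 ≤ S i) → P S → ∀ i, S i ≤ d.sM i)
    (hs26 : ∀ i, d.sM i ≤ 0.026)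
    (hD : ∀ S : Fin 4 → ℝ, (∀ i, 0 ≤ S i) → P S → ∀ i (k : Fin 3),
      S i ≤ d.D i k ∨ S (tf i k.succ) ≤ d.D i k)
    {t θ : ℝ} (t0 : 0 ≤ t) (t1 : t ≤ 3 / 10) (u0 : 0 ≤ θ) (u1 : θ ≤ 1)
    (hm : ∀ i v p k, k ≠ p → colA (c93 t θ + 0.00194) (0.3358 - 0.5798 * t) 0.0484
      (0.09927 + 0.02322 * θ + 0.00823 * θ ^ 2) (0.08338 + 0.01992 * θ + 0.00734 * θ ^ 2)
      (V v) i p k ≤ d.w0 i p k * d.ρ i v p)
    (hW : ∀ (K : Set E3) (σ : Measure (E3 × E3)), IsFiniteMeasure σ →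
      ∀ a c : Fin 4 → E3, CN K σ a c → EpsLe c X → ∀ S : Fin 4 → ℝ, Viol K a S → P S →
      ∀ lam, Dc V S lam → Sys d σ a lam (l2 a) 0 →
      ∀ z : Fin 4 → Fin 4 → E3, CV a K z → Cst d K0 K1 ε k1 k12 σ a K S lam (l2 a) z) :
    CoreP P X κ := by
  refine coreP_sk hκ V hV0 hP hc hR hXs d hd hsM hD ?_
  intro K σ hσ a c hC hX S hv hS lam hlam B hB
  have hs := sys_l2 (d := d) hC hv hB hlam ((hXs S hv.nn hS).trans hXs1)
    (fun i => (hsM S hv.nn hS i).trans (hs26 i)) t0 t1 u0 u1 hm hd.dE hd.dm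
  exact ⟨l2 a, 0, TL_l2 hC.pm hC.ha hB, rfl, hs, hW K σ hσ a c hC hX S hv hS lam hlam hs⟩

end Helper21.Sk
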