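import Pool.Agent.Helper21.MEI.SkN
import Pool.Agent.Helper31.SR.PcB

/-!
# Project MEI (M2), track B: the core statement on the whole range, seven shapes and two levels

`V7` = the vertices, `dc7` = every sorted state is a combination of them, `coreP_7` = the core
statement for the states of the window theorem from numbers, certificates and the cost.
-/

set_option autoImplicit false

namespace Helper21.Sk

open Set Metric MeasureTheory Filter Topology Helper93.MEI Helper80.CW Helper14.CW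
open Helper14.MEI2 Pool.Agent.Helper73.MEI Helper82.M2 Helper82.CW Helper41.MEI
open Pool.Agent.Helper31.SR Helper37.MEI
open Helper78.MEI
open Helper13.PLM (StX stX StY)
open Pool.Agent.Helper31.SR.Sort
open Pool.Agent.Helper31.SR.IntB
open Pool.Agent.Helper31.SR.IntC Pool.Agent.Helper31.SR.IntD
open Pool.Agent.Helper31.SR.PcB
open Pool.Agent.Helper55.Apex (nc)
open Pool.Agent.Helper73.MEI.ArCor
open Helper41.ArcY (c93)
open scoped RealInnerProductSpace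

/-- pushing the weights -/
theorem Dc_push {ι ι' : Type} [Fintype ι] [Fintype ι'] [DecidableEq ι'] {V : ι → Fin 4 → ℝ}
    {V' : ι' → Fin 4 → ℝ} {S : Fin 4 → ℝ} {lam : ι → ℝ} (h : Dc V S lam) (g : ι → ι')
    (hg : ∀ v i, V v i = V' (g v) i) :
    Dc V' S fun w => ∑ v ∈ Finset.univ.filter fun v => g v = w, lam v where
  nn w := Finset.sum_nonneg fun v _ => h.nn v
  one := by
    rw [Finset.sum_fiberwise, h.one]
  eq i := by
    rw [h.eq, ← Finset.sum_fiberwise Finset.univ g fun v => lam v * V v i]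
    refine Finset.sum_congr rfl fun w _ => ?_
    rw [Finset.sum_mul]
    refine Finset.sum_congr rfl fun v hv => ?_
    rw [hg, (Finset.mem_filter.1 hv).2]

/-- the seven shapes -/
noncomputable def T7 (b : ℝ) : Fin 7 → Fin 4 → ℝ :=
  ![![b, 0, 0, 0], ![b, 1 - b, 0, 0], ![b, (1 - b) / 2, (1 - b) / 2, 0],
    ![b, (1 - b) / 3, (1 - b) / 3, (1 - b) / 3], ![1 / 2, 1 / 2, 0, 0],
    ![1 / 3, 1 / 3, 1 / 3, 0], ![1 / 4, 1 / 4, 1 / 4, 1 / 4]]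

/-- the fourteen vertices -/
noncomputable def V7 (b Xl Xu : ℝ) (v : Fin 2 × Fin 7) (i : Fin 4) : ℝ :=
  (if v.1 = 0 then Xl else Xu) * T7 b v.2 i

theorem T7_nonneg {b : ℝ} (h0 : 0 ≤ b) (h1 : b ≤ 1) (q : Fin 7) (i : Fin 4) : 0 ≤ T7 b q i := by
  have h2 : 0 ≤ 1 - b := by linarith
  fin_cases q <;> fin_cases i <;> simp [T7] <;> linarith

theorem V7_nonneg {b Xl Xu : ℝ} (h0 : 0 ≤ b) (h1 : b ≤ 1) (hl : 0 ≤ Xl) (hu : 0 ≤ Xu)
    (v : Fin 2 × Fin 7) (i : Fin 4) : 0 ≤ V7 b Xl Xu v i := by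
  unfold V7
  split_ifs
  · exact mul_nonneg hl (T7_nonneg h0 h1 _ _)
  · exact mul_nonneg hu (T7_nonneg h0 h1 _ _)

/-- from a cone to the seven shapes -/
theorem dc7_of {b Xl Xu : ℝ} (hXl : 0 ≤ Xl) {T : Fin 4 → Fin 4 → ℝ} {S : Fin 4 → ℝ}
    (h : ConeL T Xl Xu S) (f : Fin 4 → Fin 7) (hf : ∀ n, T n = T7 b (f n)) :
    ∃ lam, Dc (V7 b Xl Xu) S lam := by
  obtain ⟨lam, hl⟩ := h.dc hXl
  refine ⟨_, Dc_push hl (fun v => (v.1, f v.2)) fun v i => ?_⟩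
  show (if v.1 = 0 then Xl else Xu) * T v.2 i = (if v.1 = 0 then Xl else Xu) * T7 b (f v.2) i
  rw [hf]

/-- **every sorted state is a combination of the vertices** -/
theorem dc7 {b Xl Xu : ℝ} (hb : 1 / 2 < b) (hb1 : b < 1) (hXl : 0 ≤ Xl) {S : Fin 4 → ℝ}
    (hD : Dec S) (h3 : 0 ≤ S 3) (hl : Xl ≤ ∑ i, S i) (hu : ∑ i, S i ≤ Xu)
    (h0 : S 0 ≤ b * Xu) : ∃ lam, Dc (V7 b Xl Xu) S lam := by
  rcases coneL_roots hD h3 hb hb1 hl hu h0 with h | h | h | h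
  · exact dc7_of hXl h ![0, 1, 2, 3] fun n => by fin_cases n <;> rfl
  · exact dc7_of hXl h ![3, 1, 2, 6] fun n => by fin_cases n <;> rfl
  · exact dc7_of hXl h ![2, 1, 5, 6] fun n => by fin_cases n <;> rfl
  · exact dc7_of hXl h ![1, 4, 5, 6] fun n => by fin_cases n <;> rfl

/-- the levels of a sorted state -/
theorem dec_levels {S : Fin 4 → ℝ} (hD : Dec S) (h3 : 0 ≤ S 3) {B β : ℝ}
    (hB : ∑ i, S i ≤ B) (hβ : S 0 ≤ β) :
    ∀ i, S i ≤ (![β, B / 2, B / 3, B / 4] : Fin 4 → ℝ) i := by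
  obtain ⟨a, b, c⟩ := hD
  rw [Fin.sum_univ_four] at hB
  intro i
  fin_cases i
  · exact hβ
  · show S 1 ≤ B / 2
    linarith
  · show S 2 ≤ B / 3
    linarith
  · show S 3 ≤ B / 4
    linarith

/-- **THE CORE STATEMENT ON THE WHOLE RANGE, NO COUPLINGS** -/
theorem coreP_7 {X κ B β T1 bq rm qm nb ρ1 Rb gg ε k1 k12 t2 δ K0 K1 e r V0 : ℝ} (hκ : 0 ≤ κ)
    (hT1 : 0 ≤ T1) (hT1B : T1 ≤ B) (hbq : 1 / 2 < bq) (hbq1 : bq < 1) (hββ : β ≤ bq * B)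
    (hR : Rn B rm qm nb ρ1 Rb gg ε k1 k12 t2 δ) (hB : B ≤ 0.0604) (d : PD (Fin 2 × Fin 7))
    (hd : d.Ok B qm nb K0 K1 e r V0 ε k1 k12 1.85e-4 (0.0039 + 4.08 * κ) (V7 bq T1 B)
      (fun κ => κ = 0) fun _ => 0)
    (hsM : ∀ i, (![β, B / 2, B / 3, B / 4] : Fin 4 → ℝ) i ≤ d.sM i)
    (hs26 : ∀ i, d.sM i ≤ 0.026)
    (hD : ∀ i (k : Fin 3), (![β, B / 2, B / 3, B / 4] : Fin 4 → ℝ) i ≤ d.D i k ∨
      (![β, B / 2, B / 3, B / 4] : Fin 4 → ℝ) (tf i k.succ) ≤ d.D i k)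
    {t θ : ℝ} (t0 : 0 ≤ t) (t1 : t ≤ 3 / 10) (u0 : 0 ≤ θ) (u1 : θ ≤ 1)
    (hm : ∀ i v p k, k ≠ p → colA (c93 t θ + 0.00194) (0.3358 - 0.5798 * t) 0.0484
      (0.09927 + 0.02322 * θ + 0.00823 * θ ^ 2) (0.08338 + 0.01992 * θ + 0.00734 * θ ^ 2)
      (V7 bq T1 B v) i p k ≤ d.w0 i p k * d.ρ i v p)
    (hW : ∀ (K : Set E3) (σ : Measure (E3 × E3)), IsFiniteMeasure σ →
      ∀ a c : Fin 4 → E3, CN K σ a c → EpsLe c X → ∀ S : Fin 4 → ℝ, Viol K a S →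
      (StY X B β S ∧ T1 ≤ ∑ i, S i) ∧ Dec S →
      ∀ lam, Dc (V7 bq T1 B) S lam → Sys d σ a lam (l2 a) 0 →
      ∀ z : Fin 4 → Fin 4 → E3, CV a K z → Cst d K0 K1 ε k1 k12 σ a K S lam (l2 a) z) :
    CoreP (fun S => StY X B β S ∧ T1 ≤ ∑ i, S i) X κ := by
  have hB0 : 0 ≤ B := hT1.trans hT1B
  have hlev : ∀ S : Fin 4 → ℝ, (∀ i, 0 ≤ S i) → (StY X B β S ∧ T1 ≤ ∑ i, S i) ∧ Dec S →
      ∀ i, S i ≤ (![β, B / 2, B / 3, B / 4] : Fin 4 → ℝ) i := fun S hS hP =>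
    dec_levels hP.2 (hS 3) hP.1.1.sumB (hP.1.1.one 0)
  refine coreP_sortY (coreP_N hκ (V7 bq T1 B)
    (V7_nonneg (by linarith) hbq1.le hT1 hB0) (fun S hS hP => ?_) (fun S _ _ => le_rfl) hR hB
    (fun S _ hP => hP.1.1.sumB) d hd (fun S hS hP i => (hlev S hS hP i).trans (hsM i)) hs26
    (fun S hS hP i k => ?_) t0 t1 u0 u1 hm hW)
  · exact dc7 hbq hbq1 hT1 hP.2 (hS 3) hP.1.2 hP.1.1.sumB ((hP.1.1.one 0).trans hββ)
  · rcases hD i k with h | h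
    · exact Or.inl ((hlev S hS hP i).trans h)
    · exact Or.inr ((hlev S hS hP _).trans h)

/-- the cost which is affine in the leaks -/
noncomputable def cstL (A B0 B1 B2 : Fin 4 → Fin 2 × Fin 7 → ℝ) (i : Fin 4) (v : Fin 2 × Fin 7)
    (_ : Option (Fin 3)) (_ _ : Fin 3) (N : Fin 3 → Fin 3 → ℝ) : ℝ :=
  A i v + B0 i v * nc N 0 + B1 i v * nc N 1 + B2 i v * nc N 2

end Helper21.Sk
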