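import Pool.Agent.Helper21.MEI.SkN
import Pool.Agent.Helper72.MEI.JNum
import Pool.Agent.Helper95.MEI.JtP
import Pool.Agent.Helper63.MEI.Rad4
import Pool.Agent.Helper52.MEI.Third

/-!
# Project MEI (M2), track B: the core statement on a piece, joint couplings

`CD` = numbers of the couplings on a piece; `sys_l3` = the loss system with couplings;
`coreP_T` = the core statement on a piece from numbers, certificates and the cost, losses `l3`.
-/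

set_option autoImplicit false

namespace Helper21.Sk

open Set Metric MeasureTheory Filter Topology Helper93.MEI Helper80.CW Helper14.CW
open Helper14.MEI2 Pool.Agent.Helper73.MEI Helper82.M2 Helper82.CW Helper41.MEI
open Pool.Agent.Helper31.SR Helper37.MEI
open Helper33.MEI (Wi)
open Helper78.MEI
open Helper13.PLM (StX stX)
open Pool.Agent.Helper31.SR.IntB
open Pool.Agent.Helper31.SR.IntC
open Helper72.J (kap4 Pt exists_pt MA_num RhB NgB rhB_ph10)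
open Helper22.Cpd
open Helper49.Cpl (ph22 p0)
open Helper95.MEI.Jt (JL)
open Helper95.MEI.JP (Ud Ud_eq cX cP cO jl_gen)
open Pool.Agent.Helper52.MEI.Third (third_l3)
open Pool.Agent.Helper55.Apex (nc)
open Pool.Agent.Helper73.MEI.SideP
open Pool.Agent.Helper73.MEI.ArCor
open Helper41.ArcT (sS)
open scoped RealInnerProductSpace

variable {ι : Type} [Fintype ι]

/-- an affine function of a state, five levels -/
theorem Ud_dc {V : ι → Fin 4 → ℝ} {S : Fin 4 → ℝ} {lam : ι → ℝ} (h : Dc V S lam)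
    (r θ τ : ℝ) (m : Fin 3) (e i : Bool) :
    Ud r θ τ S m e i = ∑ v, lam v * Ud r θ τ (V v) m e i := by
  simp only [Ud_eq]
  have e : ∀ v, lam v * ((1 + r) * cX θ τ +
      cP τ * ((1 + r / 2) * V v (vx m e (!i)) + r / 2 * V v (vx m e i)) +
      (1 + r) * cO θ * (V v (vx m (!e) false) + V v (vx m (!e) true))) =
      ((1 + r) * cX θ τ) * lam v + (cP τ * (1 + r / 2)) * (lam v * V v (vx m e (!i))) +
        (cP τ * (r / 2)) * (lam v * V v (vx m e i)) +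
        ((1 + r) * cO θ) * (lam v * V v (vx m (!e) false)) +
        ((1 + r) * cO θ) * (lam v * V v (vx m (!e) true)) := fun v => by ring
  simp only [e, Finset.sum_add_distrib, ← Finset.mul_sum, h.one, ← h.eq]
  ring

/-- the row of the mass of the cell with the ends `x`, `y` -/
noncomputable def msR (x y : ℝ) : ℝ :=
  0.07713 - 0.21162 * (x + y) - (0.11121 * (x + y) ^ 2 + 0.01209 * (x - y) ^ 2)

/-- the row is concave -/
theorem msR_dc {V : ι → Fin 4 → ℝ} {S : Fin 4 → ℝ} {lam : ι → ℝ} (h : Dc V S lam)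
    {p q : Fin 4} {s : ι → ℝ} (hs : ∀ v, s v ≤ msR (V v p) (V v q)) :
    ∑ v, lam v * s v ≤ msR (S p) (S q) := by
  have h1 := Finset.sum_le_sum fun v (_ : v ∈ (Finset.univ : Finset ι)) =>
    mul_le_mul_of_nonneg_left (hs v) (h.nn v)
  refine h1.trans ?_
  -- tangent at the state
  have h2 : ∀ v, lam v * msR (V v p) (V v q) ≤ lam v * (msR (S p) (S q) +
      (-0.21162 - 2 * 0.11121 * (S p + S q) - 2 * 0.01209 * (S p - S q)) * (V v p - S p) +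
      (-0.21162 - 2 * 0.11121 * (S p + S q) + 2 * 0.01209 * (S p - S q)) * (V v q - S q)) := by
    intro v
    refine mul_le_mul_of_nonneg_left ?_ (h.nn v)
    unfold msR
    nlinarith [sq_nonneg (V v p + V v q - (S p + S q)), sq_nonneg (V v p - V v q - (S p - S q))]
  refine (Finset.sum_le_sum fun v _ => h2 v).trans (le_of_eq ?_)
  have e : ∀ v, lam v * (msR (S p) (S q) +
      (-0.21162 - 2 * 0.11121 * (S p + S q) - 2 * 0.01209 * (S p - S q)) * (V v p - S p) +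
      (-0.21162 - 2 * 0.11121 * (S p + S q) + 2 * 0.01209 * (S p - S q)) * (V v q - S q)) =
      (msR (S p) (S q) -
      (-0.21162 - 2 * 0.11121 * (S p + S q) - 2 * 0.01209 * (S p - S q)) * S p -
      (-0.21162 - 2 * 0.11121 * (S p + S q) + 2 * 0.01209 * (S p - S q)) * S q) * lam v +
      (-0.21162 - 2 * 0.11121 * (S p + S q) - 2 * 0.01209 * (S p - S q)) * (lam v * V v p) +
      (-0.21162 - 2 * 0.11121 * (S p + S q) + 2 * 0.01209 * (S p - S q)) * (lam v * V v q) :=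
    fun v => by ring
  simp only [e, Finset.sum_add_distrib, ← Finset.mul_sum, h.one, ← h.eq]
  ring

/-- helper41's negative part up to the sum `0.0604` -/
theorem ngB_60 {K : Set E3} {σ : Measure (E3 × E3)} [IsFiniteMeasure σ]
    {a c : Fin 4 → E3} (hC : CN K σ a c) {S : Fin 4 → ℝ} (hv : Viol K a S)
    {B : Fin 3 → Bool → OrthonormalBasis (Fin 3) ℝ E3}
    (hB : ∀ m e, Fr (fun i => a (pr m e i)) (B m e)) (hT : sS S ≤ 0.0604) :
    NgB σ a S 0.00194 0.0372 0.0484 0.0261 0.0261 := by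
  intro m e i k k' hk
  have h1 := Helper41.ArcY.ngB_6 hC.ha hC.pm hC.hull hC.hp hB hv.nn hv.le hT m e i k k' hk
  have h2 := Helper41.ArcY.vx_sum S m e i
  unfold Helper72.J.ngP pp
  refine h1.trans (le_of_eq ?_)
  rw [← h2]
  ring

/-- **the numbers of the couplings on a piece** -/
structure CD (ι : Type) where
  /-- normalisation of the moments, per vertex and pair -/
  M : ι → Fin 3 → ℝ
  /-- caps and sum rows of the couplings -/
  up : Fin 3 → Bool → Bool → ℝ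
  lo : Fin 3 → Bool → ℝ
  /-- maximal coupling -/
  km : ℝ
  /-- parameters of the moments: height part, bulk, slab; bound of the levels -/
  r : ℝ
  θ : ℝ
  τ : ℝ
  T : ℝ
  /-- third columns: range, cut, slope; mass -/
  X3 : Fin 4 → ℝ
  om : Fin 4 → ℝ
  t3 : Fin 4 → ℝ
  W3 : ℝ

/-- what they satisfy -/
structure CD.Ok (e : CD ι) (V : ι → Fin 4 → ℝ) : Prop where
  M : ∀ v m, 0 < e.M v m
  k0 : 0 < e.km
  k1 : e.km ≤ 1
  upk : ∀ m x i, e.up m x i ≤ e.km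
  loup : ∀ m x i, e.lo m x ≤ e.up m x i
  r0 : 0 ≤ e.r
  r1 : e.r ≤ 1
  rT : (1 - e.r) ^ 2 * (3 / 2 + 2 * e.T) ≤ 1
  θ0 : 0 ≤ e.θ
  θ1 : e.θ ≤ 1
  τ0 : 0 ≤ e.τ
  τ1 : e.τ ≤ 3 / 10
  U : ∀ v m x i, Ud e.r e.θ e.τ (V v) m x i ≤ e.up m x i * e.M v m
  s : ∀ v m x, e.lo m x * e.M v m ≤ msR (V v (pf m (!x) 0)) (V v (pf m (!x) 1))
  th : ∀ i, ThOK ph22 0 e.km (e.X3 i) (e.om i) (e.t3 i * e.X3 i)
  t0 : ∀ i, 0 ≤ e.t3 i
  om0 : ∀ i, 0 < e.om i
  om1 : ∀ i, e.om i ≤ 3 / 8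
  X1 : ∀ i, e.X3 i ≤ 8 / 3 * e.om i ^ 2
  W : 0 ≤ e.W3

/-- the admissible couplings -/
def CD.Kp (e : CD ι) (κ : Fin 3 → Bool → Bool → ℝ) : Prop := ∀ m, Poly (e.up m) (e.lo m) (κ m)

/-- normalisation at a state -/
theorem lam_pos {lam f : ι → ℝ} (h0 : ∀ v, 0 ≤ lam v) (h1 : ∑ v, lam v = 1)
    (hf : ∀ v, 0 < f v) : 0 < ∑ v, lam v * f v := by
  obtain ⟨w, hw⟩ : ∃ w, 0 < lam w := by
    by_contra hcon
    push Not at hcon
    have h3 : ∑ w, lam w = 0 := Finset.sum_eq_zero fun w _ => le_antisymm (hcon w) (h0 w)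
    rw [h1] at h3
    exact one_ne_zero h3
  exact Finset.sum_pos' (fun v _ => mul_nonneg (h0 v) (hf v).le)
    ⟨w, Finset.mem_univ _, mul_pos hw (hf w)⟩

/-- **the losses with couplings** -/
theorem sys_l3 {d : PD ι} {e : CD ι} {K : Set E3} {σ : Measure (E3 × E3)} [IsFiniteMeasure σ]
    {a c : Fin 4 → E3} (hC : CN K σ a c) {S : Fin 4 → ℝ} (hv : Viol K a S)
    {B : Fin 3 → Bool → OrthonormalBasis (Fin 3) ℝ E3}
    (hB : ∀ m e, Fr (fun i => a (pr m e i)) (B m e)) {V : ι → Fin 4 → ℝ} {lam : ι → ℝ}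
    (hl : Dc V S lam) (hV0 : ∀ v i, 0 ≤ V v i) (he : e.Ok V) (hS : ∑ i, S i ≤ 0.12)
    (hT : ∀ i, S i ≤ e.T) (hX3 : ∀ i, S i ≤ e.X3 i)
    {C Cj Ck C0 Cp D Dj Dk D0 Dp : ℝ} (hRh : RhB ph22 σ a S C Cj Ck C0 Cp)
    (hNg : NgB σ a S D Dj Dk D0 Dp)
    (hW : ∀ m x i, ∫ z in EE a m x, wt (ap a m x) i z.1 ∂σ ≤ e.W3)
    (hm0 : ∀ i v p k, k ≠ p → colA (C + D) (Cj + Dj) (Ck + Dk) (C0 + D0) (Cp + Dp)
      (V v) i p k ≤ d.w0 i p k * d.ρ i v p)
    (hm1 : ∀ i v p k, k ≠ p → colA (C + D) (Cj + Dj) (Ck + Dk) (C0 + D0) (Cp + Dp)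
      (V v) i p k + e.M v (idx i (tf i p.succ)).1 / 2 ≤ d.w1 i p k * d.ρ i v p)
    (hdE : ∀ i v, 0 ≤ d.dE i v) (hdm : ∀ i v, 0 ≤ d.dm i v)
    (h3 : ∀ i v, (2 * e.t3 i * V v i * e.W3) ^ 2 ≤ d.dE i v * d.dm i v) :
    ∃ κ κ₁ : Fin 3 → Bool → Bool → ℝ, TL σ a B (l3 ph22 κ a) 0 ∧ e.Kp κ₁ ∧
      (∀ m x i, 0 ≤ κ₁ m x i ∧ κ₁ m x i ≤ κ m x i ∧ κ m x i ≤ e.km) ∧
      Sys d σ a lam (l3 ph22 κ a) κ₁ := by
  obtain ⟨M, hM⟩ : ∃ M : Fin 3 → ℝ, M = fun m => ∑ v, lam v * e.M v m := ⟨_, rfl⟩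
  have hMm : ∀ m, M m = ∑ v, lam v * e.M v m := fun m => by rw [hM]
  have hM0 : ∀ m, 0 < M m := fun m => by
    rw [hMm]
    exact lam_pos hl.nn hl.one fun v => he.M v m
  have hi : ∀ i, S i ≤ 0.12 := fun i =>
    (Finset.single_le_sum (f := S) (fun j _ => hv.nn j) (Finset.mem_univ i)).trans hS
  have hJ : JL ph22 σ a e.km M (fun m x i => e.up m x i * M m) (fun _ _ _ => 0)
      (fun m x => e.lo m x * M m) := by
    refine jl_gen hC.pm hC.ha hC.hull hC.hp hB hv.nn hv.le he.τ0 he.τ1 he.θ0 he.θ1 hT he.r0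
      he.r1 he.rT he.k0 he.k1 hM0 (fun m x i => ?_) (fun m x i => ?_) (fun m x => ?_)
      (fun m x i => ?_)
    · rw [Ud_dc hl, hMm, Finset.mul_sum]
      refine Finset.sum_le_sum fun v _ => ?_
      have := mul_le_mul_of_nonneg_left (he.U v m x i) (hl.nn v)
      linarith
    · exact mul_le_mul_of_nonneg_right (he.upk m x i) (hM0 m).le
    · have h1 := msR_dc hl (fun v => he.s v m x)
      have h2 := Helper63.Rad.mass_ph2 hC.pm hC.ha hC.hull hC.hp hB hv.nn hv.le m (!x)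
      have e1 : ∑ v, lam v * (e.lo m x * e.M v m) = e.lo m x * M m := by
        rw [hMm, Finset.mul_sum]
        exact Finset.sum_congr rfl fun v _ => by ring
      rw [e1] at h1
      exact h1.trans h2
    · exact mul_le_mul_of_nonneg_right (he.loup m x i) (hM0 m).le
  obtain ⟨κ, κ₁, hpt, hTL⟩ := exists_pt prof22 hC.pm hC.ha
    hC.hd hC.hp
    (fun j q hq => (hv.le j q hq).trans (hi j)) hJ hB
  have hk0 : ∀ m x i, 0 ≤ κ m x i := fun m x i => (hpt.le m x i).1.trans (hpt.le m x i).2.1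
  have hkm : ∀ m x i, κ m x i ≤ e.km := fun m x i => (hpt.le m x i).2.2
  have hk1 : ∀ m x i, κ m x i ≤ 1 := fun m x i => (hkm m x i).trans he.k1
  refine ⟨κ, κ₁, hTL, fun m => ⟨fun x i => (hpt.le m x i).1, fun x i => ?_, fun x => ?_⟩,
    hpt.le, ⟨l3_ok prof22 hC.ha hk0 hk1, fun m x i => ⟨(hpt.le m x i).1,
      (hpt.le m x i).2.1.trans (hk1 m x i)⟩, fun i p k hk => ?_, fun i p => ?_⟩⟩
  · exact le_of_mul_le_mul_right (hpt.box m x i).2 (hM0 m)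
  · exact le_of_mul_le_mul_right (hpt.sum m x) (hM0 m)
  · have hn := th_ne p k hk
    have h1 := MA_num prof22 hC.pm hC.ha hC.hp hpt hRh hNg (tq i) hk hn.1 hn.2
    rw [tq_zero] at h1
    have e2 : colA (C + D) (Cj + Dj) (Ck + Dk) (C0 + D0) (Cp + Dp) S i p k =
        (C + D) + (Cj + Dj) * S (tq i (th p k).succ) + (Ck + Dk) * S (tq i k.succ) +
        (C0 + D0) * S i + (Cp + Dp) * S (tq i p.succ) := rfl
    have e3 : (1 - kap4 κ₁ i (tq i p.succ)) * kap4 κ₁ (tq i k.succ) (tq i (th p k).succ) =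
        pf3 κ₁ i p k := rfl
    have e4 : M (idx i (tq i p.succ)).1 = M (idx i (tf i p.succ)).1 := rfl
    rw [← e2, e3, e4] at h1
    have k01 : 0 ≤ pf3 κ₁ i p k ∧ pf3 κ₁ i p k ≤ 1 := pf3_01 (fun m x i =>
      ⟨(hpt.le m x i).1, (hpt.le m x i).2.1.trans (hk1 m x i)⟩) i p k
    have a0 := colA_le hl fun v => hm0 i v p k hk
    have a1 : colA (C + D) (Cj + Dj) (Ck + Dk) (C0 + D0) (Cp + Dp) S i p k +
        M (idx i (tf i p.succ)).1 / 2 ≤ d.w1 i p k * ∑ v, lam v * d.ρ i v p := by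
      rw [colA_eq hl, hMm, Finset.mul_sum, Finset.sum_div, ← Finset.sum_add_distrib]
      refine Finset.sum_le_sum fun v _ => ?_
      have := mul_le_mul_of_nonneg_left (hm1 i v p k hk) (hl.nn v)
      linarith
    refine h1.trans ?_
    have b0 := mul_le_mul_of_nonneg_left a0 (sub_nonneg.2 k01.2)
    have b1 := mul_le_mul_of_nonneg_left a1 k01.1
    linarith
  · have h4 := third_l3 (t := e.t3 i) (X := e.X3 i) (ω := e.om i) prof22 hC.ha he.k1 hk0 hkm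
      hC.cpt hC.pm.mem hC.hp (he.th i) (he.t0 i) (he.om0 i) (he.om1 i) (he.X1 i) (tq i) he.W
      (S := S) (by rw [tq_zero]; exact hX3 i) (fun x hx => hv.le _ x hx) hW hl hV0
      (hdE i) (hdm i) (fun v => by rw [tq_zero]; exact h3 i v) p
    exact h4

/-- **prices of the couplings from an integer check**: `gi v i l k / G` the prices, `up / U`,
`lo / U` the caps and the sum rows -/
theorem pr_chk {d : PD ι} {e : CD ι} {U : ℤ} {up : Fin 3 → Bool → Bool → ℤ}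
    {lo : Fin 3 → Bool → ℤ} {gi : ι → Fin 4 → Fin 4 → Fin 4 → ℤ} {bz : ι → Fin 3 → ℤ}
    (h : ∀ v m, Helper21.JPoly.chk U (fun _ _ => 0) (up m) (lo m)
      (fun x b c => gi v (vx m x b) (vx m x (!b)) (vx m (!x) c)) (bz v m) = true)
    {G : ℝ} (hG : 0 < G) (hg : ∀ v i l k, d.G v i l k = (gi v i l k : ℝ) / G)
    (hup : ∀ m x b, e.up m x b ≤ (up m x b : ℝ) / U) (hlo : ∀ m x, (lo m x : ℝ) / U ≤ e.lo m x)
    {bb : ι → ℝ} (hb : ∀ v, (bz v 0 + bz v 1 + bz v 2 : ℝ) / G + 3 * ∑ i, d.dE i v ≤ bb v)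
    (v : ι) (κ : Fin 3 → Bool → Bool → ℝ) (hκ : e.Kp κ) :
    (∑ m, bil (κ m) (gG (d.G v) m)) + 3 * ∑ i, d.dE i v ≤ bb v := by
  have key : ∀ m, bil (κ m) (gG (d.G v) m) ≤ (bz v m : ℝ) / G := by
    intro m
    have h1 := Helper21.JPoly.bil_chk (h v m) hG (k := κ m)
      (fun x b => by simpa using (hκ m).nn x b)
      (fun x b => ((hκ m).le x b).trans (hup m x b))
      (fun x => (hlo m x).trans ((hκ m).sum x))
    refine le_trans (le_of_eq ?_) h1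
    have e1 : gG (d.G v) m = fun x b c =>
        (gi v (vx m x b) (vx m x (!b)) (vx m (!x) c) : ℝ) / G := by
      funext x b c
      exact hg v _ _ _
    rw [e1]
    rfl
  have k0 := key 0
  have k1 := key 1
  have k2 := key 2
  rw [Fin.sum_univ_three]
  have h2 : (bz v 0 : ℝ) / G + (bz v 1 : ℝ) / G + (bz v 2 : ℝ) / G =
      (bz v 0 + bz v 1 + bz v 2 : ℝ) / G := by ring
  linarith [hb v]

/-- **THE CORE STATEMENT ON A PIECE, JOINT COUPLINGS** -/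
theorem coreP_T {X κ c0 c1 Xs rm qm nb ρ1 Rb gg ε k1 k12 t2 δ K0 K1 e r V0 : ℝ} (hκ : 0 ≤ κ)
    {P : (Fin 4 → ℝ) → Prop} (V : ι → Fin 4 → ℝ)
    (hV0 : ∀ v i, 0 ≤ V v i) (hP : ∀ S : Fin 4 → ℝ, (∀ i, 0 ≤ S i) → P S → ∃ lam, Dc V S lam)
    (hc : ∀ S : Fin 4 → ℝ, (∀ i, 0 ≤ S i) → P S →
      1.85e-4 + (0.0039 + 4.08 * κ) * ∑ i, S i ≤ c0 + c1 * ∑ i, S i)
    (hR : Rn Xs rm qm nb ρ1 Rb gg ε k1 k12 t2 δ) (hXs1 : Xs ≤ 0.0604)
    (hXs : ∀ S : Fin 4 → ℝ, (∀ i, 0 ≤ S i) → P S → ∑ i, S i ≤ Xs)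
    {b : ι → ℝ} (d : PD ι) (f : CD ι) (hf : f.Ok V)
    (hd : d.Ok Xs qm nb K0 K1 e r V0 ε k1 k12 c0 c1 V f.Kp b)
    (hsM : ∀ S : Fin 4 → ℝ, (∀ i, 0 ≤ S i) → P S → ∀ i, S i ≤ d.sM i)
    (hsT : ∀ i, d.sM i ≤ f.T) (hsX : ∀ i, d.sM i ≤ f.X3 i)
    (hD : ∀ S : Fin 4 → ℝ, (∀ i, 0 ≤ S i) → P S → ∀ i (k : Fin 3),
      S i ≤ d.D i k ∨ S (tf i k.succ) ≤ d.D i k)
    (hWm : ∀ (K : Set E3) (σ : Measure (E3 × E3)), IsFiniteMeasure σ →
      ∀ a c : Fin 4 → E3, CN K σ a c → ∀ S : Fin 4 → ℝ, Viol K a S → P S →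
      ∀ m x i, ∫ z in EE a m x, wt (ap a m x) i z.1 ∂σ ≤ f.W3)
    (hm0 : ∀ i v p k, k ≠ p → colA 0.010257 0.10373 0.0484 0.066906 0.046821
      (V v) i p k ≤ d.w0 i p k * d.ρ i v p)
    (hm1 : ∀ i v p k, k ≠ p → colA 0.010257 0.10373 0.0484 0.066906 0.046821
      (V v) i p k + f.M v (idx i (tf i p.succ)).1 / 2 ≤ d.w1 i p k * d.ρ i v p)
    (h3 : ∀ i v, (2 * f.t3 i * V v i * f.W3) ^ 2 ≤ d.dE i v * d.dm i v)
    (hW : ∀ (K : Set E3) (σ : Measure (E3 × E3)), IsFiniteMeasure σ →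
      ∀ a c : Fin 4 → E3, CN K σ a c → EpsLe c X → ∀ S : Fin 4 → ℝ, Viol K a S → P S →
      ∀ lam, Dc V S lam → ∀ κ κ₁ : Fin 3 → Bool → Bool → ℝ,
      (∀ m x i, 0 ≤ κ₁ m x i ∧ κ₁ m x i ≤ κ m x i ∧ κ m x i ≤ f.km) →
      Sys d σ a lam (l3 ph22 κ a) κ₁ →
      ∀ z : Fin 4 → Fin 4 → E3, CV a K z → Cst d K0 K1 ε k1 k12 σ a K S lam (l3 ph22 κ a) z) :
    CoreP P X κ := by
  refine coreP_sk hκ V hV0 hP hc hR hXs d hd hsM hD ?_
  intro K σ hσ a c hC hX S hv hS lam hlam B hB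
  have hs6 : ∑ i, S i ≤ 0.0604 := (hXs S hv.nn hS).trans hXs1
  have hsS : sS S ≤ 0.0604 := by
    rw [Fin.sum_univ_four] at hs6
    exact hs6
  have hRh := rhB_ph10 hC.pm hC.ha hC.hull hC.hp hB hv.nn hv.le
  have hNg := ngB_60 hC hv hB hsS
  obtain ⟨κs, κ₁, q1, q2, q3, q4⟩ := sys_l3 (d := d) (e := f) hC hv hB hlam hV0 hf
    (hs6.trans (by norm_num)) (fun i => (hsM S hv.nn hS i).trans (hsT i))
    (fun i => (hsM S hv.nn hS i).trans (hsX i)) hRh hNg (hWm K σ hσ a c hC S hv hS)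
    (fun i v p k hk => by
      have h := hm0 i v p k hk
      norm_num at h ⊢
      exact h)
    (fun i v p k hk => by
      have h := hm1 i v p k hk
      norm_num at h ⊢
      exact h)
    hd.dE hd.dm h3
  exact ⟨l3 ph22 κs a, κ₁, q1, q2, q4, hW K σ hσ a c hC hX S hv hS lam hlam κs κ₁ q3 q4⟩

end Helper21.Sk
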