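import Pool.Agent.Helper21.MEI.SkX

/-!
# Project MEI (M2), track B: any polytope of the sorted states

`coreP_VW` / `coreP_VX` = the core statement for the states of the window theorem with any vertices
`V` which cover the sorted states; `coreP_8W` / `coreP_8X` = the eight vertices `U1 .. U4` times two
levels (`VT TU T1 B`, `ι = Fin 2 × Fin 4`).
-/

set_option autoImplicit false

namespace Helper21.Sk

open Set Metric MeasureTheory Filter Topology Helper93.MEI Helper80.CW Helper14.CW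
open Helper14.MEI2 Pool.Agent.Helper73.MEI Helper82.M2 Helper82.CW Helper41.MEI
open Pool.Agent.Helper31.SR Helper37.MEI
open Helper78.MEI
open Helper13.PLM (StX stX StY)
open Pool.Agent.Helper31.SR.Sort
open Pool.Agent.Helper31.SR.IntB
open Pool.Agent.Helper31.SR.IntC Pool.Agent.Helper31.SR.IntD
open Pool.Agent.Helper31.SR.PcB
open Pool.Agent.Helper55.Apex (nc)
open Pool.Agent.Helper73.MEI.SideP
open Pool.Agent.Helper73.MEI.ArCor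
open Helper41.ArcT (sS)
open Helper41.ArcY (c93)
open scoped RealInnerProductSpace

variable {ι : Type} [Fintype ι]

/-- the states of a run -/
def PD3 (Xk B β T1 : ℝ) (S : Fin 4 → ℝ) : Prop := (StY Xk B β S ∧ T1 ≤ ∑ i, S i) ∧ Dec S

/-- **THE CORE STATEMENT, NO COUPLINGS, ANY VERTICES** -/
theorem coreP_VW {Xk κ B β T1 rm qm nb ρ1 Rb gg ε k1 k12 t2 δ K0 K1 e r V0 : ℝ} (hκ : 0 ≤ κ)
    {V : ι → Fin 4 → ℝ} (hV0 : ∀ v i, 0 ≤ V v i)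
    (hDc : ∀ S : Fin 4 → ℝ, (∀ i, 0 ≤ S i) → PD3 Xk B β T1 S → ∃ lam, Dc V S lam)
    (hR : Rn B rm qm nb ρ1 Rb gg ε k1 k12 t2 δ) (hB : B ≤ 0.0604) (d : PD ι)
    (hd : d.Ok B qm nb K0 K1 e r V0 ε k1 k12 1.85e-4 (0.0039 + 4.08 * κ) V
      (fun κ => κ = 0) fun _ => 0)
    (hE : ∀ i v, d.dE i v = 0) (hm0 : ∀ i v, d.dm i v = 0)
    (hsM : ∀ i, (![β, B / 2, B / 3, B / 4] : Fin 4 → ℝ) i ≤ d.sM i)
    (hs26 : ∀ i, d.sM i ≤ 0.026)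
    (hD : ∀ i (k : Fin 3), (![β, B / 2, B / 3, B / 4] : Fin 4 → ℝ) i ≤ d.D i k ∨
      (![β, B / 2, B / 3, B / 4] : Fin 4 → ℝ) (tf i k.succ) ≤ d.D i k)
    {t θ : ℝ} (t0 : 0 ≤ t) (t1 : t ≤ 3 / 10) (u0 : 0 ≤ θ) (u1 : θ ≤ 1)
    (hm : ∀ i v p k, k ≠ p → colA (c93 t θ + 0.00194) (0.3358 - 0.5798 * t) 0.0484
      (0.09927 + 0.02322 * θ + 0.00823 * θ ^ 2) (0.08338 + 0.01992 * θ + 0.00734 * θ ^ 2)
      (V v) i p k ≤ d.w0 i p k * d.ρ i v p)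
    (hW : ∀ i, WFace d i V Xk (PD3 Xk B β T1) nb K0 K1 ε k1 k12) :
    CoreP (fun S => StY Xk B β S ∧ T1 ≤ ∑ i, S i) Xk κ := by
  have hlev : ∀ S : Fin 4 → ℝ, (∀ i, 0 ≤ S i) → PD3 Xk B β T1 S →
      ∀ i, S i ≤ (![β, B / 2, B / 3, B / 4] : Fin 4 → ℝ) i := fun S hS hP =>
    dec_levels hP.2 (hS 3) hP.1.1.sumB (hP.1.1.one 0)
  have hDD : ∀ S : Fin 4 → ℝ, (∀ i, 0 ≤ S i) → PD3 Xk B β T1 S →
      ∀ i (k : Fin 3), S i ≤ d.D i k ∨ S (tf i k.succ) ≤ d.D i k := fun S hS hP i k => by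
    rcases hD i k with h | h
    · exact Or.inl ((hlev S hS hP i).trans h)
    · exact Or.inr ((hlev S hS hP _).trans h)
  refine coreP_sortY (coreP_N hκ (P := PD3 Xk B β T1) V hV0 hDc
    (fun S _ _ => le_rfl) hR hB (fun S _ hP => hP.1.1.sumB) d hd
    (fun S hS hP i => (hlev S hS hP i).trans (hsM i)) hs26 hDD t0 t1 u0 u1 hm ?_)
  intro K σ hσ a c hC hX S hv hP lam hlam hs z hz
  exact cst_of_faces hR hd hE hm0 (fun S _ hP => hP.1.1.sumB)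
    (fun S hS hP i => ((hlev S hS hP i).trans (hsM i)).trans (hs26 i)) hDD
    hW hσ hC hX hv hP hlam hs hz

/-- **THE CORE STATEMENT, NO COUPLINGS, ANY VERTICES, LARGE LEVELS** -/
theorem coreP_VX {Xk κ B β T1 rm qm nb ρ1 Rb gg ε k1 k12 t2 δ K0 K1 e r V0 : ℝ} (hκ : 0 ≤ κ)
    {V : ι → Fin 4 → ℝ} (hV0 : ∀ v i, 0 ≤ V v i)
    (hDc : ∀ S : Fin 4 → ℝ, (∀ i, 0 ≤ S i) → PD3 Xk B β T1 S → ∃ lam, Dc V S lam)
    (hR : Rn B rm qm nb ρ1 Rb gg ε k1 k12 t2 δ) (hB : B ≤ 0.0604) (d : PD ι)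
    {bb : ι → ℝ}
    (hd : d.Ok B qm nb K0 K1 e r V0 ε k1 k12 1.85e-4 (0.0039 + 4.08 * κ) V
      (fun κ => κ = 0) bb)
    (h3 : ∀ i v, (16 / 9 * pp (√(V v i) - 0.1623) ^ 2 * 0.1003) ^ 2 ≤ d.dE i v * d.dm i v)
    (hsM : ∀ i, (![β, B / 2, B / 3, B / 4] : Fin 4 → ℝ) i ≤ d.sM i)
    (hD : ∀ i (k : Fin 3), (![β, B / 2, B / 3, B / 4] : Fin 4 → ℝ) i ≤ d.D i k ∨
      (![β, B / 2, B / 3, B / 4] : Fin 4 → ℝ) (tf i k.succ) ≤ d.D i k)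
    {t θ : ℝ} (t0 : 0 ≤ t) (t1 : t ≤ 3 / 10) (u0 : 0 ≤ θ) (u1 : θ ≤ 1)
    (hm : ∀ i v p k, k ≠ p → colA (c93 t θ + 0.00194) (0.3358 - 0.5798 * t) 0.0484
      (0.09927 + 0.02322 * θ + 0.00823 * θ ^ 2) (0.08338 + 0.01992 * θ + 0.00734 * θ ^ 2)
      (V v) i p k ≤ d.w0 i p k * d.ρ i v p)
    (hW : ∀ i, WFaceX d i V Xk (PD3 Xk B β T1) nb K0 K1 ε k1 k12) :
    CoreP (fun S => StY Xk B β S ∧ T1 ≤ ∑ i, S i) Xk κ := by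
  have hlev : ∀ S : Fin 4 → ℝ, (∀ i, 0 ≤ S i) → PD3 Xk B β T1 S →
      ∀ i, S i ≤ (![β, B / 2, B / 3, B / 4] : Fin 4 → ℝ) i := fun S hS hP =>
    dec_levels hP.2 (hS 3) hP.1.1.sumB (hP.1.1.one 0)
  have hDD : ∀ S : Fin 4 → ℝ, (∀ i, 0 ≤ S i) → PD3 Xk B β T1 S →
      ∀ i (k : Fin 3), S i ≤ d.D i k ∨ S (tf i k.succ) ≤ d.D i k := fun S hS hP i k => by
    rcases hD i k with h | h
    · exact Or.inl ((hlev S hS hP i).trans h)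
    · exact Or.inr ((hlev S hS hP _).trans h)
  refine coreP_sortY (coreP_sk hκ (P := PD3 Xk B β T1) V hV0 hDc
    (fun S _ _ => le_rfl) hR (fun S _ hP => hP.1.1.sumB) d hd
    (fun S hS hP i => (hlev S hS hP i).trans (hsM i)) hDD ?_)
  intro K σ hσ a c hC hX S hv hP lam hlam Bs hBs
  have hs := sys_l2x (d := d) hC hv hBs hV0 hlam (hP.1.1.sumB.trans hB) t0 t1 u0 u1 hm
    hd.dE hd.dm h3
  exact ⟨l2 a, 0, TL_l2 hC.pm hC.ha hBs, rfl, hs, fun z hz =>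
    cst_of_facesX hR hd (fun S _ hP => hP.1.1.sumB) hDD hW hσ hC hX hv hP hlam hs hz⟩

/-- the eight vertices cover the sorted states -/
theorem dc8 {Xk B β T1 : ℝ} (hT1 : 0 ≤ T1) {S : Fin 4 → ℝ} (hS : ∀ i, 0 ≤ S i)
    (hP : PD3 Xk B β T1 S) : ∃ lam, Dc (VT TU T1 B) S lam :=
  (coneL_dec hP.2 (hS 3) hP.1.2 hP.1.1.sumB).dc hT1

theorem TU_nonneg (n i : Fin 4) : 0 ≤ TU n i := by
  fin_cases n <;> fin_cases i <;> norm_num [TU]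

/-- **eight vertices** (`VT TU T1 B`), no couplings -/
theorem coreP_8W {Xk κ B β T1 rm qm nb ρ1 Rb gg ε k1 k12 t2 δ K0 K1 e r V0 : ℝ} (hκ : 0 ≤ κ)
    (hT1 : 0 ≤ T1) (hT1B : T1 ≤ B)
    (hR : Rn B rm qm nb ρ1 Rb gg ε k1 k12 t2 δ) (hB : B ≤ 0.0604) (d : PD (Fin 2 × Fin 4))
    (hd : d.Ok B qm nb K0 K1 e r V0 ε k1 k12 1.85e-4 (0.0039 + 4.08 * κ) (VT TU T1 B)
      (fun κ => κ = 0) fun _ => 0)
    (hE : ∀ i v, d.dE i v = 0) (hm0 : ∀ i v, d.dm i v = 0)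
    (hsM : ∀ i, (![β, B / 2, B / 3, B / 4] : Fin 4 → ℝ) i ≤ d.sM i)
    (hs26 : ∀ i, d.sM i ≤ 0.026)
    (hD : ∀ i (k : Fin 3), (![β, B / 2, B / 3, B / 4] : Fin 4 → ℝ) i ≤ d.D i k ∨
      (![β, B / 2, B / 3, B / 4] : Fin 4 → ℝ) (tf i k.succ) ≤ d.D i k)
    {t θ : ℝ} (t0 : 0 ≤ t) (t1 : t ≤ 3 / 10) (u0 : 0 ≤ θ) (u1 : θ ≤ 1)
    (hm : ∀ i v p k, k ≠ p → colA (c93 t θ + 0.00194) (0.3358 - 0.5798 * t) 0.0484
      (0.09927 + 0.02322 * θ + 0.00823 * θ ^ 2) (0.08338 + 0.01992 * θ + 0.00734 * θ ^ 2)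
      (VT TU T1 B v) i p k ≤ d.w0 i p k * d.ρ i v p)
    (hW : ∀ i, WFace d i (VT TU T1 B) Xk (PD3 Xk B β T1) nb K0 K1 ε k1 k12) :
    CoreP (fun S => StY Xk B β S ∧ T1 ≤ ∑ i, S i) Xk κ :=
  coreP_VW hκ (VT_nonneg TU_nonneg hT1 hT1B) (fun _ hS hP => dc8 hT1 hS hP) hR hB d hd hE hm0
    hsM hs26 hD t0 t1 u0 u1 hm hW

/-- **eight vertices** (`VT TU T1 B`), no couplings, large levels -/
theorem coreP_8X {Xk κ B β T1 rm qm nb ρ1 Rb gg ε k1 k12 t2 δ K0 K1 e r V0 : ℝ} (hκ : 0 ≤ κ)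
    (hT1 : 0 ≤ T1) (hT1B : T1 ≤ B)
    (hR : Rn B rm qm nb ρ1 Rb gg ε k1 k12 t2 δ) (hB : B ≤ 0.0604) (d : PD (Fin 2 × Fin 4))
    {bb : Fin 2 × Fin 4 → ℝ}
    (hd : d.Ok B qm nb K0 K1 e r V0 ε k1 k12 1.85e-4 (0.0039 + 4.08 * κ) (VT TU T1 B)
      (fun κ => κ = 0) bb)
    (h3 : ∀ i v, (16 / 9 * pp (√(VT TU T1 B v i) - 0.1623) ^ 2 * 0.1003) ^ 2 ≤
      d.dE i v * d.dm i v)
    (hsM : ∀ i, (![β, B / 2, B / 3, B / 4] : Fin 4 → ℝ) i ≤ d.sM i)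
    (hD : ∀ i (k : Fin 3), (![β, B / 2, B / 3, B / 4] : Fin 4 → ℝ) i ≤ d.D i k ∨
      (![β, B / 2, B / 3, B / 4] : Fin 4 → ℝ) (tf i k.succ) ≤ d.D i k)
    {t θ : ℝ} (t0 : 0 ≤ t) (t1 : t ≤ 3 / 10) (u0 : 0 ≤ θ) (u1 : θ ≤ 1)
    (hm : ∀ i v p k, k ≠ p → colA (c93 t θ + 0.00194) (0.3358 - 0.5798 * t) 0.0484
      (0.09927 + 0.02322 * θ + 0.00823 * θ ^ 2) (0.08338 + 0.01992 * θ + 0.00734 * θ ^ 2)
      (VT TU T1 B v) i p k ≤ d.w0 i p k * d.ρ i v p)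
    (hW : ∀ i, WFaceX d i (VT TU T1 B) Xk (PD3 Xk B β T1) nb K0 K1 ε k1 k12) :
    CoreP (fun S => StY Xk B β S ∧ T1 ≤ ∑ i, S i) Xk κ :=
  coreP_VX hκ (VT_nonneg TU_nonneg hT1 hT1B) (fun _ hS hP => dc8 hT1 hS hP) hR hB d hd h3
    hsM hD t0 t1 u0 u1 hm hW

end Helper21.Sk
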