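import Pool.Agent.Helper21.MEI.SkP

/-!
# Project MEI (M2), track B: the cost of one face

`leaks_face` = the leaks of a face on a piece; `WFace` = the hypothesis about the cost of the
second order term, one face at a time, with everything that is known about the face;
`coreP_7W` = the core statement on the whole range from numbers, certificates and `WFace`.
-/

set_option autoImplicit false

namespace Helper21.Sk

open Set Metric MeasureTheory Filter Topology Helper93.MEI Helper80.CW Helper14.CW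
open Helper14.MEI2 Pool.Agent.Helper73.MEI Helper82.M2 Helper82.CW Helper41.MEI
open Pool.Agent.Helper31.SR Helper37.MEI
open Helper78.MEI
open Helper13.PLM (StX stX StY)
open Pool.Agent.Helper31.SR.Sort
open Pool.Agent.Helper31.SR.IntB
open Pool.Agent.Helper31.SR.IntC Pool.Agent.Helper31.SR.IntD
open Pool.Agent.Helper31.SR.PcB
open Pool.Agent.Helper55.Apex (nc)
open Pool.Agent.Helper73.MEI.SideP
open Pool.Agent.Helper73.MEI.ArCor
open Helper41.ArcY (c93)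
open scoped RealInnerProductSpace

variable {K : Set E3} {σ : Measure (E3 × E3)} {a c : Fin 4 → E3} {S : Fin 4 → ℝ}
  {z : Fin 4 → Fin 4 → E3}
variable {X rm qm nb ρ1 Rb gg ε k1 k12 t2 δ : ℝ}

/-- **the leaks of a face** -/
theorem leaks_face (P : Rn X rm qm nb ρ1 Rb gg ε k1 k12 t2 δ) (h : CN K σ a c) (v : Viol K a S)
    (hz : CV a K z) (τ : Equiv.Perm (Fin 4))
    (hX : S (τ 0) + (S (τ 1) + S (τ 2) + S (τ 3)) ≤ X)
    {rb K0 K1 e r V : ℝ} {D tt : Fin 3 → ℝ} (T : Stc X qm nb K0 K1 e rb r V D tt)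
    (hDS : ∀ k : Fin 3, S (τ 0) ≤ D k ∨ S (τ k.succ) ≤ D k) {N : Fin 3 → Fin 3 → ℝ}
    (hNd : N = NM (fun i => a (τ i)) (fun i j => z (τ i) (τ j))) :
    (∀ k m, 0 ≤ N k m) ∧ (∀ k, N k k = 0) ∧ (∀ k, nc N k ≤ nb) ∧ (∀ k, nc N k ≤ tt k) ∧
      DomF D tt N ∧ 0 < phiN 2.04 rb (TN N) (QN N) ∧ phiN 2.04 rb (TN N) (QN N) ≤ 1 := by
  have h' := h.perm τ
  have v' := viol_perm v τ
  have hz' := hz.perm τ
  have hN : ∀ k m, 0 ≤ N k m := fun k m => by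
    rw [hNd]
    exact NM_nonneg h' v' hz' k m
  have hd : ∀ k, N k k = 0 := fun k => by
    rw [hNd]
    exact NM_diag k
  have C := colsN P h' v' hz' hX
  rw [← hNd] at C
  have htt : ∀ k, nc N k ≤ tt k := by
    intro k
    refine col_le (D := D k) (nc_nonneg hN k) (T.tt0 k) ?_ (T.ttD k)
    have hp : 0 ≤ 2 * (1 + nc N k / 2) ^ 2 := by positivity
    rcases hDS k with hh | hh
    · have := mul_le_mul_of_nonneg_right hh hp
      linarith [(C k).2.2.2.2.2.2.1]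
    · have := mul_le_mul_of_nonneg_right hh hp
      linarith [(C k).2.2.2.2.2.2.2.1]
  have hTN : TN N ≤ tt 0 + tt 1 + tt 2 := by
    unfold TN
    linarith [htt 0, htt 1, htt 2]
  have hTN0 := TN_nonneg hN
  have hT2 : TN N < 2 := by linarith [T.tt1]
  have hDp : 0 < 1 - TN N ^ 2 / 4 := by nlinarith
  have hφ0 : 0 < phiN 2.04 rb (TN N) (QN N) :=
    phiN_pos (by norm_num) T.rb0 hTN0 hT2 QN_nonneg
  have hφe : phiN 2.04 rb (TN N) (QN N) * (2.04 * (1 - TN N ^ 2 / 4)) =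
      22.6276 * rb * (35 / 48 + 9 / 16 * TN N + 5 / 12 * QN N) ^ 2 := by
    unfold phiN
    exact div_mul_cancel₀ _ (by positivity)
  have hQN := QN_le_sq hN
  have hQ0 : 0 ≤ QN N := QN_nonneg
  have hφ1 : phiN 2.04 rb (TN N) (QN N) ≤ 1 := by
    have hTs : TN N ^ 2 ≤ (tt 0 + tt 1 + tt 2) ^ 2 := pow_le_pow_left₀ hTN0 hTN 2
    have b1 : (35 / 48 + 9 / 16 * TN N + 5 / 12 * QN N) ^ 2 ≤
        (35 / 48 + 9 / 16 * (tt 0 + tt 1 + tt 2) + 5 / 12 * (tt 0 + tt 1 + tt 2) ^ 2) ^ 2 :=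
      pow_le_pow_left₀ (by positivity) (by linarith) 2
    have b2 := mul_le_mul_of_nonneg_left b1 (show 0 ≤ 22.6276 * rb by
      have := T.rb0
      positivity)
    have b3 : phiN 2.04 rb (TN N) (QN N) * (2.04 * (1 - TN N ^ 2 / 4)) ≤
        1 * (2.04 * (1 - TN N ^ 2 / 4)) := by
      rw [hφe]
      have := T.φ1
      linarith
    exact le_of_mul_le_mul_right b3 (by positivity)
  have hdom := fun k => dom_VF h v hz τ hNd htt k
  refine ⟨hN, hd, fun k => (C k).2.1, htt, fun k => ?_, hφ0, hφ1⟩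
  rcases hDS k with hh | hh
  · exact ((hdom k).2.1).trans hh
  · exact ((hdom k).2.2).trans hh

variable {ι : Type} [Fintype ι]

/-- **the cost of the second order term of a face on a piece**, no couplings -/
def WFace (d : PD ι) (i : Fin 4) (V : ι → Fin 4 → ℝ) (X : ℝ) (P : (Fin 4 → ℝ) → Prop)
    (nb K0 K1 ε k1 k12 : ℝ) : Prop :=
  ∀ (K : Set E3) (σ : Measure (E3 × E3)), IsFiniteMeasure σ →
    ∀ a c : Fin 4 → E3, CN K σ a c → EpsLe c X → ∀ S : Fin 4 → ℝ, Viol K a S → P S →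
    ∀ lam, Dc V S lam → ∀ z : Fin 4 → Fin 4 → E3, CV a K z →
    ∀ ρ : Fin 3 → ℝ, ρ = (fun p => ∑ v, lam v * d.ρ i v p) → (∀ p, 0 < ρ p) →
    (∀ p, ρ p ≤ d.rb i) → (∀ p k : Fin 3, k ≠ p → MA σ a (l2 a) (tq i) p k ≤ ρ p) →
    (∀ p : Fin 3, MA σ a (l2 a) (tq i) p p ≤ 0) →
    ∀ x ∈ K, (Qv a (tq i 0) x = S (tq i 0) ∨ S (tq i 0) = 0) → ∀ N : Fin 3 → Fin 3 → ℝ,
    N = NM (fun j => a (tq i j)) (fun j j' => z (tq i j) (tq i j')) →
    (∀ k m, 0 ≤ N k m) → (∀ k, N k k = 0) → (∀ k, nc N k ≤ nb) → (∀ k, nc N k ≤ d.tt i k) →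
    DomF (d.D i) (d.tt i) N → ∀ φ, φ = phiN 2.04 (d.rb i) (TN N) (QN N) → 0 < φ → φ ≤ 1 →
    ∀ j j' : Fin 3, j ≠ j' → PosB a (tq i) x N (d.tt i) k1 k12 ε (S (tq i 0)) j j' →
    ∀ cl, ClsB a (tq i) x N cl →
    WCF 2.04 σ a K (l2 a) (tq i) z S x N (Rv (d.tt i) N) φ (bt 2.04 (kv K0 K1 N) ρ)
      (fun _ => 0) (fun _ => 0) (∑ v, lam v * d.cost i v cl j j' N)

/-- from the cost of the faces to the cost of a body -/
theorem cst_of_faces {d : PD ι} {V : ι → Fin 4 → ℝ} {P : (Fin 4 → ℝ) → Prop}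
    {K0 K1 e r V0 c0 c1 Xk : ℝ} {Kp : (Fin 3 → Bool → Bool → ℝ) → Prop} {bb : ι → ℝ}
    (hR : Rn X rm qm nb ρ1 Rb gg ε k1 k12 t2 δ)
    (hd : d.Ok X qm nb K0 K1 e r V0 ε k1 k12 c0 c1 V Kp bb)
    (hE : ∀ i v, d.dE i v = 0) (hm : ∀ i v, d.dm i v = 0)
    (hXs : ∀ S : Fin 4 → ℝ, (∀ i, 0 ≤ S i) → P S → ∑ i, S i ≤ X)
    (h26 : ∀ S : Fin 4 → ℝ, (∀ i, 0 ≤ S i) → P S → ∀ i, S i ≤ 0.026)
    (hD : ∀ S : Fin 4 → ℝ, (∀ i, 0 ≤ S i) → P S → ∀ i (k : Fin 3),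
      S i ≤ d.D i k ∨ S (tf i k.succ) ≤ d.D i k)
    (hW : ∀ i, WFace d i V Xk P nb K0 K1 ε k1 k12) {K : Set E3} {σ : Measure (E3 × E3)}
    (hσ : IsFiniteMeasure σ) {a c : Fin 4 → E3} (hC : CN K σ a c) (hc : EpsLe c Xk)
    {S : Fin 4 → ℝ} (hv : Viol K a S) (hP : P S) {lam : ι → ℝ} (hlam : Dc V S lam)
    (hs : Sys d σ a lam (l2 a) 0) {z : Fin 4 → Fin 4 → E3} (hz : CV a K z) :
    Cst d K0 K1 ε k1 k12 σ a K S lam (l2 a) z := by
  intro i x hx hxs N hN j j' hj hp cl hcl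
  have e0 : tq i 0 = i := tq_zero i
  have hsum : S (tq i 0) + (S (tq i 1) + S (tq i 2) + S (tq i 3)) ≤ X := by
    have h1 := hXs S hv.nn hP
    rw [← Equiv.sum_comp (tq i) S, Fin.sum_univ_four] at h1
    linarith
  obtain ⟨n1, n2, n3, n4, n5, n6, n7⟩ := leaks_face hR hC hv hz (tq i) hsum (hd.st i)
    (fun k => by
      rw [e0]
      exact hD S hv.nn hP i k) hN
  obtain ⟨wq, hwq⟩ : ∃ w, 0 < lam w := by
    by_contra hcon
    push Not at hcon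
    have h3 : ∑ w, lam w = 0 := Finset.sum_eq_zero fun w _ => le_antisymm (hcon w) (hlam.nn w)
    rw [hlam.one] at h3
    exact one_ne_zero h3
  have hρ : ∀ p, 0 < ∑ v, lam v * d.ρ i v p := fun p =>
    Finset.sum_pos' (fun w _ => mul_nonneg (hlam.nn w) (hd.ρ i w p).1.le)
      ⟨wq, Finset.mem_univ _, mul_pos hwq (hd.ρ i wq p).1⟩
  have hrb : ∀ p, ∑ v, lam v * d.ρ i v p ≤ d.rb i := fun p => by
    have h3 := Finset.sum_le_sum fun w (_ : w ∈ (Finset.univ : Finset ι)) =>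
      mul_le_mul_of_nonneg_left (hd.ρ i w p).2 (hlam.nn w)
    rw [← Finset.sum_mul, hlam.one, one_mul] at h3
    exact h3
  have hM : ∀ p k : Fin 3, k ≠ p → MA σ a (l2 a) (tq i) p k ≤ ∑ v, lam v * d.ρ i v p := by
    intro p k hk
    refine (hs.col i p k hk).trans ?_
    obtain ⟨w1, w2, w3⟩ := hd.w i p k
    obtain ⟨p1, p2⟩ := pf3_01 hs.k01 i p k
    have h4 : d.w0 i p k + pf3 (0 : Fin 3 → Bool → Bool → ℝ) i p k *
        (d.w1 i p k - d.w0 i p k) ≤ 1 := by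
      have h5 := mul_le_mul_of_nonneg_right p2 (sub_nonneg.2 w2)
      linarith
    have h6 := mul_le_mul_of_nonneg_right h4 (hρ p).le
    linarith
  have hδ : ∀ p : Fin 3, MA σ a (l2 a) (tq i) p p ≤ 0 := fun p =>
    (MA_third hC.ha hC.cpt hC.pm.mem hC.hp (tq i)
      (fun y hy => (hv.le _ y hy).trans (h26 S hv.nn hP _)) p).le
  have key := hW i K σ hσ a c hC hc S hv hP lam hlam z hz _ rfl hρ hrb hM hδ x hx
    (by
      rw [e0]
      exact hxs) N hN n1 n2 n3 n4 n5 _ rfl n6 n7 j j' hj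
    (by
      rw [e0]
      exact hp) cl hcl
  have e1 : (fun _ : Fin 3 => ∑ v, lam v * d.dE i v) = fun _ => 0 := by
    funext _
    simp [hE]
  have e2 : (fun _ : Fin 3 => ∑ v, lam v * d.dm i v) = fun _ => 0 := by
    funext _
    simp [hm]
  rw [e1, e2]
  exact key

/-- **THE CORE STATEMENT ON THE WHOLE RANGE, NO COUPLINGS, COST FACE BY FACE** -/
theorem coreP_7W {Xk κ B β T1 bq rm qm nb ρ1 Rb gg ε k1 k12 t2 δ K0 K1 e r V0 : ℝ} (hκ : 0 ≤ κ)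
    (hT1 : 0 ≤ T1) (hT1B : T1 ≤ B) (hbq : 1 / 2 < bq) (hbq1 : bq < 1) (hββ : β ≤ bq * B)
    (hR : Rn B rm qm nb ρ1 Rb gg ε k1 k12 t2 δ) (hB : B ≤ 0.0604) (d : PD (Fin 2 × Fin 7))
    (hd : d.Ok B qm nb K0 K1 e r V0 ε k1 k12 1.85e-4 (0.0039 + 4.08 * κ) (V7 bq T1 B)
      (fun κ => κ = 0) fun _ => 0)
    (hE : ∀ i v, d.dE i v = 0) (hm0 : ∀ i v, d.dm i v = 0)
    (hsM : ∀ i, (![β, B / 2, B / 3, B / 4] : Fin 4 → ℝ) i ≤ d.sM i)
    (hs26 : ∀ i, d.sM i ≤ 0.026)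
    (hD : ∀ i (k : Fin 3), (![β, B / 2, B / 3, B / 4] : Fin 4 → ℝ) i ≤ d.D i k ∨
      (![β, B / 2, B / 3, B / 4] : Fin 4 → ℝ) (tf i k.succ) ≤ d.D i k)
    {t θ : ℝ} (t0 : 0 ≤ t) (t1 : t ≤ 3 / 10) (u0 : 0 ≤ θ) (u1 : θ ≤ 1)
    (hm : ∀ i v p k, k ≠ p → colA (c93 t θ + 0.00194) (0.3358 - 0.5798 * t) 0.0484
      (0.09927 + 0.02322 * θ + 0.00823 * θ ^ 2) (0.08338 + 0.01992 * θ + 0.00734 * θ ^ 2)
      (V7 bq T1 B v) i p k ≤ d.w0 i p k * d.ρ i v p)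
    (hW : ∀ i, WFace d i (V7 bq T1 B) Xk
      (fun S => (StY Xk B β S ∧ T1 ≤ ∑ i, S i) ∧ Dec S) nb K0 K1 ε k1 k12) :
    CoreP (fun S => StY Xk B β S ∧ T1 ≤ ∑ i, S i) Xk κ := by
  have hlev : ∀ S : Fin 4 → ℝ, (∀ i, 0 ≤ S i) → (StY Xk B β S ∧ T1 ≤ ∑ i, S i) ∧ Dec S →
      ∀ i, S i ≤ (![β, B / 2, B / 3, B / 4] : Fin 4 → ℝ) i := fun S hS hP =>
    dec_levels hP.2 (hS 3) hP.1.1.sumB (hP.1.1.one 0)
  refine coreP_7 hκ hT1 hT1B hbq hbq1 hββ hR hB d hd hsM hs26 hD t0 t1 u0 u1 hm ?_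
  intro K σ hσ a c hC hX S hv hP lam hlam hs z hz
  exact cst_of_faces hR hd hE hm0 (fun S _ hP => hP.1.1.sumB)
    (fun S hS hP i => ((hlev S hS hP i).trans (hsM i)).trans (hs26 i))
    (fun S hS hP i k => by
      rcases hD i k with h | h
      · exact Or.inl ((hlev S hS hP i).trans h)
      · exact Or.inr ((hlev S hS hP _).trans h))
    hW hσ hC hX hv hP hlam hs hz

end Helper21.Sk
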