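import Pool.Agent.Helper21.MEI.SkW
import Pool.Agent.Helper52.MEI.Third
import Pool.Agent.Helper53.MEI.Mass4

/-!
# Project MEI (M2), track B: large levels

`mass_W` = the mass of the full weight of an arc for `∑ S ≤ 0.0604`; `sys_l2x` = the losses
without couplings with the third column; `coreP_7X` = the core statement on the whole range
(levels up to `0.0604`) from numbers, certificates and the cost of the faces.
-/

set_option autoImplicit false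

namespace Helper21.Sk

open Set Metric MeasureTheory Filter Topology Helper93.MEI Helper80.CW Helper14.CW
open Helper14.MEI2 Pool.Agent.Helper73.MEI Helper82.M2 Helper82.CW Helper41.MEI
open Pool.Agent.Helper31.SR Helper37.MEI
open Helper78.MEI
open Helper13.PLM (StX stX StY)
open Pool.Agent.Helper31.SR.Sort
open Pool.Agent.Helper31.SR.IntB
open Pool.Agent.Helper31.SR.IntC Pool.Agent.Helper31.SR.IntD
open Pool.Agent.Helper31.SR.PcB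
open Pool.Agent.Helper55.Apex (nc)
open Pool.Agent.Helper73.MEI.SideP
open Pool.Agent.Helper73.MEI.ArCor
open Helper41.ArcT (sS)
open Helper41.ArcY (c93)
open scoped RealInnerProductSpace

/-- **the mass of the full weight of an arc** -/
theorem mass_W {K : Set E3} {σ : Measure (E3 × E3)} [IsFiniteMeasure σ] {a c : Fin 4 → E3}
    (hC : CN K σ a c) {S : Fin 4 → ℝ} (hv : Viol K a S)
    {B : Fin 3 → Bool → OrthonormalBasis (Fin 3) ℝ E3}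
    (hB : ∀ m e, Fr (fun i => a (pr m e i)) (B m e)) (hT : ∑ i, S i ≤ 0.0604) (m : Fin 3)
    (e i : Bool) : ∫ z in EE a m e, wt (ap a m e) i z.1 ∂σ ≤ 0.1003 := by
  have hs := hv.nn
  have h4 : S (pf m e 0) + S (pf m e 1) + S (pf m e 2) + S (pf m e 3) ≤ 0.0604 := by
    have h1 : ∑ k, S (pr m e k) = ∑ k, S k := Equiv.sum_comp (pr m e) S
    rw [Fin.sum_univ_four] at h1
    have h2 : S (pf m e 0) + S (pf m e 1) + S (pf m e 2) + S (pf m e 3) = ∑ k, S k := h1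
    linarith
  obtain ⟨x0, hx0⟩ : ∃ x, x = S (pf m e 0) := ⟨_, rfl⟩
  obtain ⟨x1, hx1⟩ : ∃ x, x = S (pf m e 1) := ⟨_, rfl⟩
  obtain ⟨x2, hx2⟩ : ∃ x, x = S (pf m e 2) := ⟨_, rfl⟩
  obtain ⟨x3, hx3⟩ : ∃ x, x = S (pf m e 3) := ⟨_, rfl⟩
  have p0 : 0 ≤ x0 := hx0 ▸ hs _
  have p1 : 0 ≤ x1 := hx1 ▸ hs _
  have p2 : 0 ≤ x2 := hx2 ▸ hs _
  have p3 : 0 ≤ x3 := hx3 ▸ hs _
  have hs5 : ∀ k, S k ≤ 1 / 5 := fun k => by
    have h1 := Finset.single_le_sum (f := S) (fun j _ => hs j) (Finset.mem_univ k)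
    linarith
  rw [← hx0, ← hx1, ← hx2, ← hx3] at h4
  obtain ⟨c1, c2, c3⟩ := Helper53.MEI.cond_ok p0 p1 (by linarith) (by linarith)
  have key := Helper53.MEI.wt_mass3 hC.ha hC.pm hC.hp hB hs hs5 (fun j q hq => hv.le j q hq) m e i
    (by rw [← hx0, ← hx1]; exact c1) (by rw [← hx0, ← hx1]; exact c2)
    (by rw [← hx0, ← hx1]; exact c3)
  rw [← hx0, ← hx1, ← hx2, ← hx3] at key
  have hk0 : 0 ≤ Helper53.MEI.kk i x0 x1 := le_max_right _ _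
  have hk1 : Helper53.MEI.kk i x0 x1 ≤ 0.0527 := by
    unfold Helper53.MEI.kk
    refine max_le ?_ (by norm_num)
    rw [div_le_iff₀ c1]
    have h1 : Helper53.MEI.sg i * (x0 - x1) ≤ x0 + x1 := by
      unfold Helper53.MEI.sg
      split_ifs <;> linarith
    nlinarith
  obtain ⟨I, hI⟩ : ∃ I, I = ∫ z in EE a m e, wt (ap a m e) i z.1 ∂σ := ⟨_, rfl⟩
  rw [← hI] at key ⊢
  obtain ⟨k, hk⟩ : ∃ k, k = Helper53.MEI.kk i x0 x1 := ⟨_, rfl⟩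
  rw [← hk] at key hk0 hk1
  have hM : 1 - 2 * (x0 + x1) ≥ 0.8792 + 2 * (x2 + x3) := by linarith
  have h5 : (0.0393 + 0.2358 * x2) * x2 + (0.0393 + 0.2358 * x3) * x3 ≤
      0.05355 * (x2 + x3) := by nlinarith
  have h6 : (8.14 + 5.44 * k) * ((0.0393 + 0.2358 * x2) * x2 + (0.0393 + 0.2358 * x3) * x3) ≤
      8.43 * (0.05355 * (x2 + x3)) :=
    mul_le_mul (by linarith) h5 (by positivity) (by norm_num)
  by_contra hcon
  push Not at hcon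
  have h7 : (0.8792 + 2 * (x2 + x3)) * I ≤ (1 - 2 * (x0 + x1)) * I :=
    mul_le_mul_of_nonneg_right hM.le (by linarith)
  have h8 : 0.8792 * 0.1003 + 2 * (x2 + x3) * 0.1003 ≤ (0.8792 + 2 * (x2 + x3)) * I := by
    have h9 := mul_le_mul_of_nonneg_left hcon.le
      (show 0 ≤ 0.8792 + 2 * (x2 + x3) by positivity)
    linarith
  linarith

variable {ι : Type} [Fintype ι]

/-- **the losses without couplings, with the third column** -/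
theorem sys_l2x {d : PD ι} {K : Set E3} {σ : Measure (E3 × E3)} [IsFiniteMeasure σ]
    {a c : Fin 4 → E3} (hC : CN K σ a c) {S : Fin 4 → ℝ} (hv : Viol K a S)
    {B : Fin 3 → Bool → OrthonormalBasis (Fin 3) ℝ E3}
    (hB : ∀ m e, Fr (fun i => a (pr m e i)) (B m e)) {V : ι → Fin 4 → ℝ}
    (hV0 : ∀ v i, 0 ≤ V v i) {lam : ι → ℝ}
    (hl : Dc V S lam) (hS : ∑ i, S i ≤ 0.0604) {t θ : ℝ} (t0 : 0 ≤ t)
    (t1 : t ≤ 3 / 10) (u0 : 0 ≤ θ) (u1 : θ ≤ 1)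
    (hm : ∀ i v p k, k ≠ p → colA (c93 t θ + 0.00194) (0.3358 - 0.5798 * t) 0.0484
      (0.09927 + 0.02322 * θ + 0.00823 * θ ^ 2) (0.08338 + 0.01992 * θ + 0.00734 * θ ^ 2)
      (V v) i p k ≤ d.w0 i p k * d.ρ i v p)
    (hdE : ∀ i v, 0 ≤ d.dE i v) (hdm : ∀ i v, 0 ≤ d.dm i v)
    (h3 : ∀ i v, (16 / 9 * pp (√(V v i) - 0.1623) ^ 2 * 0.1003) ^ 2 ≤ d.dE i v * d.dm i v) :
    Sys d σ a lam (l2 a) 0 where
  ok := l2_ok hC.ha
  k01 m e b := ⟨le_rfl, zero_le_one⟩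
  col i p k hk := by
    have hT : sS S ≤ 0.0604 := by
      rw [Fin.sum_univ_four] at hS
      exact hS
    have h1 := Helper41.ArcY.MA_6 hC.ha hC.pm hC.hull hC.hp hB hv.nn hv.le (l2_ok hC.ha) hT t0 t1 u0 u1
      (tq i) hk (th_ne p k hk).1 (th_ne p k hk).2
    have e0 : pf3 (0 : Fin 3 → Bool → Bool → ℝ) i p k = 0 := by
      unfold pf3 Helper72.J.kap4
      simp
    rw [e0, zero_mul, add_zero]
    rw [tq_zero] at h1
    exact h1.trans (colA_le hl fun v => hm i v p k hk)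
  dia i p := by
    have h15 : S (tq i 0) ≤ 3 / 20 := by
      have h1 := Finset.single_le_sum (f := S) (fun j _ => hv.nn j)
        (Finset.mem_univ (tq i 0))
      linarith
    exact Pool.Agent.Helper52.MEI.Third.third_l2 hC.ha hC.cpt hC.pm.mem hC.hp (tq i)
      (by norm_num) h15 (fun x hx => hv.le _ x hx) (mass_W hC hv hB hS) hl hV0 (hdE i) (hdm i)
      (fun v => by
        rw [tq_zero]
        exact h3 i v) p

/-- **the cost of the second order term of a face on a piece**, no couplings, with the third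
columns -/
def WFaceX (d : PD ι) (i : Fin 4) (V : ι → Fin 4 → ℝ) (X : ℝ) (P : (Fin 4 → ℝ) → Prop)
    (nb K0 K1 ε k1 k12 : ℝ) : Prop :=
  ∀ (K : Set E3) (σ : Measure (E3 × E3)), IsFiniteMeasure σ →
    ∀ a c : Fin 4 → E3, CN K σ a c → EpsLe c X → ∀ S : Fin 4 → ℝ, Viol K a S → P S →
    ∀ lam, Dc V S lam → ∀ z : Fin 4 → Fin 4 → E3, CV a K z →
    ∀ ρ : Fin 3 → ℝ, ρ = (fun p => ∑ v, lam v * d.ρ i v p) → (∀ p, 0 < ρ p) →
    (∀ p, ρ p ≤ d.rb i) → (∀ p k : Fin 3, k ≠ p → MA σ a (l2 a) (tq i) p k ≤ ρ p) →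
    ∀ dE dm : ℝ, dE = ∑ v, lam v * d.dE i v → dm = ∑ v, lam v * d.dm i v →
    (∀ p : Fin 3, ∃ δ, MA σ a (l2 a) (tq i) p p ≤ δ ∧ δ ^ 2 ≤ dE * dm) →
    ∀ x ∈ K, (Qv a (tq i 0) x = S (tq i 0) ∨ S (tq i 0) = 0) → ∀ N : Fin 3 → Fin 3 → ℝ,
    N = NM (fun j => a (tq i j)) (fun j j' => z (tq i j) (tq i j')) →
    (∀ k m, 0 ≤ N k m) → (∀ k, N k k = 0) → (∀ k, nc N k ≤ nb) → (∀ k, nc N k ≤ d.tt i k) →
    DomF (d.D i) (d.tt i) N → ∀ φ, φ = phiN 2.04 (d.rb i) (TN N) (QN N) → 0 < φ → φ ≤ 1 →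
    ∀ j j' : Fin 3, j ≠ j' → PosB a (tq i) x N (d.tt i) k1 k12 ε (S (tq i 0)) j j' →
    ∀ cl, ClsB a (tq i) x N cl →
    WCF 2.04 σ a K (l2 a) (tq i) z S x N (Rv (d.tt i) N) φ (bt 2.04 (kv K0 K1 N) ρ)
      (fun _ => dE) (fun _ => dm) (∑ v, lam v * d.cost i v cl j j' N)

/-- from the cost of the faces to the cost of a body, with the third columns -/
theorem cst_of_facesX {X rm qm nb ρ1 Rb gg ε k1 k12 t2 δ : ℝ} {d : PD ι} {V : ι → Fin 4 → ℝ}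
    {P : (Fin 4 → ℝ) → Prop}
    {K0 K1 e r V0 c0 c1 Xk : ℝ} {Kp : (Fin 3 → Bool → Bool → ℝ) → Prop} {bb : ι → ℝ}
    (hR : Rn X rm qm nb ρ1 Rb gg ε k1 k12 t2 δ)
    (hd : d.Ok X qm nb K0 K1 e r V0 ε k1 k12 c0 c1 V Kp bb)
    (hXs : ∀ S : Fin 4 → ℝ, (∀ i, 0 ≤ S i) → P S → ∑ i, S i ≤ X)
    (hD : ∀ S : Fin 4 → ℝ, (∀ i, 0 ≤ S i) → P S → ∀ i (k : Fin 3),
      S i ≤ d.D i k ∨ S (tf i k.succ) ≤ d.D i k)
    (hW : ∀ i, WFaceX d i V Xk P nb K0 K1 ε k1 k12) {K : Set E3} {σ : Measure (E3 × E3)}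
    (hσ : IsFiniteMeasure σ) {a c : Fin 4 → E3} (hC : CN K σ a c) (hc : EpsLe c Xk)
    {S : Fin 4 → ℝ} (hv : Viol K a S) (hP : P S) {lam : ι → ℝ} (hlam : Dc V S lam)
    (hs : Sys d σ a lam (l2 a) 0) {z : Fin 4 → Fin 4 → E3} (hz : CV a K z) :
    Cst d K0 K1 ε k1 k12 σ a K S lam (l2 a) z := by
  intro i x hx hxs N hN j j' hj hp cl hcl
  have e0 : tq i 0 = i := tq_zero i
  have hsum : S (tq i 0) + (S (tq i 1) + S (tq i 2) + S (tq i 3)) ≤ X := by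
    have h1 := hXs S hv.nn hP
    rw [← Equiv.sum_comp (tq i) S, Fin.sum_univ_four] at h1
    linarith
  obtain ⟨n1, n2, n3, n4, n5, n6, n7⟩ := leaks_face hR hC hv hz (tq i) hsum (hd.st i)
    (fun k => by
      rw [e0]
      exact hD S hv.nn hP i k) hN
  obtain ⟨wq, hwq⟩ : ∃ w, 0 < lam w := by
    by_contra hcon
    push Not at hcon
    have h3 : ∑ w, lam w = 0 := Finset.sum_eq_zero fun w _ => le_antisymm (hcon w) (hlam.nn w)
    rw [hlam.one] at h3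
    exact one_ne_zero h3
  have hρ : ∀ p, 0 < ∑ v, lam v * d.ρ i v p := fun p =>
    Finset.sum_pos' (fun w _ => mul_nonneg (hlam.nn w) (hd.ρ i w p).1.le)
      ⟨wq, Finset.mem_univ _, mul_pos hwq (hd.ρ i wq p).1⟩
  have hrb : ∀ p, ∑ v, lam v * d.ρ i v p ≤ d.rb i := fun p => by
    have h3 := Finset.sum_le_sum fun w (_ : w ∈ (Finset.univ : Finset ι)) =>
      mul_le_mul_of_nonneg_left (hd.ρ i w p).2 (hlam.nn w)
    rw [← Finset.sum_mul, hlam.one, one_mul] at h3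
    exact h3
  have hM : ∀ p k : Fin 3, k ≠ p → MA σ a (l2 a) (tq i) p k ≤ ∑ v, lam v * d.ρ i v p := by
    intro p k hk
    refine (hs.col i p k hk).trans ?_
    obtain ⟨w1, w2, w3⟩ := hd.w i p k
    obtain ⟨p1, p2⟩ := pf3_01 hs.k01 i p k
    have h4 : d.w0 i p k + pf3 (0 : Fin 3 → Bool → Bool → ℝ) i p k *
        (d.w1 i p k - d.w0 i p k) ≤ 1 := by
      have h5 := mul_le_mul_of_nonneg_right p2 (sub_nonneg.2 w2)
      linarith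
    have h6 := mul_le_mul_of_nonneg_right h4 (hρ p).le
    linarith
  exact hW i K σ hσ a c hC hc S hv hP lam hlam z hz _ rfl hρ hrb hM _ _ rfl rfl
    (fun p => hs.dia i p) x hx
    (by
      rw [e0]
      exact hxs) N hN n1 n2 n3 n4 n5 _ rfl n6 n7 j j' hj
    (by
      rw [e0]
      exact hp) cl hcl

/-- **THE CORE STATEMENT ON THE WHOLE RANGE, NO COUPLINGS, LARGE LEVELS** -/
theorem coreP_7X {Xk κ B β T1 bq rm qm nb ρ1 Rb gg ε k1 k12 t2 δ K0 K1 e r V0 : ℝ} (hκ : 0 ≤ κ)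
    (hT1 : 0 ≤ T1) (hT1B : T1 ≤ B) (hbq : 1 / 2 < bq) (hbq1 : bq < 1) (hββ : β ≤ bq * B)
    (hR : Rn B rm qm nb ρ1 Rb gg ε k1 k12 t2 δ) (hB : B ≤ 0.0604) (d : PD (Fin 2 × Fin 7))
    {bb : Fin 2 × Fin 7 → ℝ}
    (hd : d.Ok B qm nb K0 K1 e r V0 ε k1 k12 1.85e-4 (0.0039 + 4.08 * κ) (V7 bq T1 B)
      (fun κ => κ = 0) bb)
    (h3 : ∀ i v, (16 / 9 * pp (√(V7 bq T1 B v i) - 0.1623) ^ 2 * 0.1003) ^ 2 ≤
      d.dE i v * d.dm i v)
    (hsM : ∀ i, (![β, B / 2, B / 3, B / 4] : Fin 4 → ℝ) i ≤ d.sM i)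
    (hD : ∀ i (k : Fin 3), (![β, B / 2, B / 3, B / 4] : Fin 4 → ℝ) i ≤ d.D i k ∨
      (![β, B / 2, B / 3, B / 4] : Fin 4 → ℝ) (tf i k.succ) ≤ d.D i k)
    {t θ : ℝ} (t0 : 0 ≤ t) (t1 : t ≤ 3 / 10) (u0 : 0 ≤ θ) (u1 : θ ≤ 1)
    (hm : ∀ i v p k, k ≠ p → colA (c93 t θ + 0.00194) (0.3358 - 0.5798 * t) 0.0484
      (0.09927 + 0.02322 * θ + 0.00823 * θ ^ 2) (0.08338 + 0.01992 * θ + 0.00734 * θ ^ 2)
      (V7 bq T1 B v) i p k ≤ d.w0 i p k * d.ρ i v p)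
    (hW : ∀ i, WFaceX d i (V7 bq T1 B) Xk
      (fun S => (StY Xk B β S ∧ T1 ≤ ∑ i, S i) ∧ Dec S) nb K0 K1 ε k1 k12) :
    CoreP (fun S => StY Xk B β S ∧ T1 ≤ ∑ i, S i) Xk κ := by
  have hB0 : 0 ≤ B := hT1.trans hT1B
  have hV0 := V7_nonneg (b := bq) (Xl := T1) (Xu := B) (by linarith) hbq1.le hT1 hB0
  have hlev : ∀ S : Fin 4 → ℝ, (∀ i, 0 ≤ S i) → (StY Xk B β S ∧ T1 ≤ ∑ i, S i) ∧ Dec S →
      ∀ i, S i ≤ (![β, B / 2, B / 3, B / 4] : Fin 4 → ℝ) i := fun S hS hP =>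
    dec_levels hP.2 (hS 3) hP.1.1.sumB (hP.1.1.one 0)
  have hDD : ∀ S : Fin 4 → ℝ, (∀ i, 0 ≤ S i) → (StY Xk B β S ∧ T1 ≤ ∑ i, S i) ∧ Dec S →
      ∀ i (k : Fin 3), S i ≤ d.D i k ∨ S (tf i k.succ) ≤ d.D i k := fun S hS hP i k => by
    rcases hD i k with h | h
    · exact Or.inl ((hlev S hS hP i).trans h)
    · exact Or.inr ((hlev S hS hP _).trans h)
  refine coreP_sortY (coreP_sk hκ (V7 bq T1 B) hV0 (fun S hS hP =>
    dc7 hbq hbq1 hT1 hP.2 (hS 3) hP.1.2 hP.1.1.sumB ((hP.1.1.one 0).trans hββ))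
    (fun S _ _ => le_rfl) hR (fun S _ hP => hP.1.1.sumB) d hd
    (fun S hS hP i => (hlev S hS hP i).trans (hsM i)) hDD ?_)
  intro K σ hσ a c hC hX S hv hP lam hlam Bs hBs
  have hs := sys_l2x (d := d) hC hv hBs hV0 hlam (hP.1.1.sumB.trans hB) t0 t1 u0 u1 hm
    hd.dE hd.dm h3
  exact ⟨l2 a, 0, TL_l2 hC.pm hC.ha hBs, rfl, hs, fun z hz =>
    cst_of_facesX hR hd (fun S _ hP => hP.1.1.sumB) hDD hW hσ hC hX hv hP hlam hs hz⟩

end Helper21.Sk
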